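import Pool.Agent.SGV.COR

set_option autoImplicit false

/-! MP_fff3e1_lc, universal words: the letter lemmas. -/

namespace Pool.Agent.SGV

open Pool.Agent.SGM

variable {ι : Type} {Δ : ℕ}

lemma mv_iff {τ σ : Fin Δ → Fin Δ} (hτ : ∀ k, τ (τ k) = k) (h : Mv τ σ) {p k : Fin Δ}
    (hk : k = p ∨ k = τ p) : σ k = k ↔ σ p = p := by
  rcases hk with rfl | rfl
  · exact Iff.rfl
  · constructor
    · intro h1
      rcases h.2 p with h2 | h2
      · exact h2
      · have h3 := h.1 p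
        rw [h2, h1] at h3
        rw [h2, h3]
    · intro h1
      rcases h.2 (τ p) with h2 | h2
      · exact h2
      · rw [hτ] at h2
        have h3 := h.1 (τ p)
        rw [h2, h1] at h3
        rw [h2, ← h3]

/-- the outcome of a letter -/
def Out (K : Finset ι) (τ : Fin Δ → Fin Δ) (M : ι → Finset (Fin Δ))
    (q : ι × Fin Δ → ι × Fin Δ) (X : Set (ι × Fin Δ)) (σ : Fin Δ → Fin Δ) : Prop :=
  Mv τ σ ∧ (∀ k, dgr K (flp τ M X) k = dgr K M (σ k)) ∧
  (∀ k, σ k ≠ k → ∀ κ ∈ Sur K τ M q k, (κ, k) ∈ X) ∧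
  (∀ k, σ k = k → ∀ κ ∈ Sur K τ M q k, (κ, k) ∉ X) ∧
  ∀ k, dgr K M k = dgr K M (τ k) → σ k = k

lemma force_of {K : Finset ι} {τ : Fin Δ → Fin Δ} (hτ : ∀ k, τ (τ k) = k)
    {M : ι → Finset (Fin Δ)} {q : ι × Fin Δ → ι × Fin Δ} (hq : Bal K τ M q)
    (hc : ∀ k, (Sur K τ M q k).card = dgr K M k - dgr K M (τ k))
    {T : (ι → Finset (Fin Δ)) → Prop} (B : Blk (ι × Fin Δ))
    (hs : B.Sup {p | p ∈ Pin τ M ∧ p.1 ∈ K}) (hB : ∀ p, q p ≠ p → B.q p = q p)
    (hT : ∀ X, (∀ p, B.At X p) →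
      (phi K (flp τ M X) < phi K M ∨ ∃ σ, Out K τ M q X σ) → T (flp τ M X)) :
    Force K T [τ] M := by
  refine ⟨B, hs, fun X hX => ?_⟩
  show T (flp τ M X)
  apply hT X hX
  apply outcome hτ hq hc X
  intro p hp hpX
  rw [← hB p hp]
  exact (hX p).1 hpX

lemma sur_pin {K : Finset ι} {τ : Fin Δ → Fin Δ} {M : ι → Finset (Fin Δ)}
    {q : ι × Fin Δ → ι × Fin Δ} {x : ι × Fin Δ} (hx : x.1 ∈ Sur K τ M q x.2) :
    x ∈ Pin τ M ∧ x.1 ∈ K ∧ q x = x := by
  have h := mem_sur.1 hx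
  exact ⟨⟨h.1.2.1, h.1.2.2⟩, h.1.1, h.2⟩

lemma bal_pin {K : Finset ι} {τ : Fin Δ → Fin Δ} {M : ι → Finset (Fin Δ)}
    {q : ι × Fin Δ → ι × Fin Δ} (hq : Bal K τ M q) {p : ι × Fin Δ} (hp : q p ≠ p) :
    p ∈ Pin τ M ∧ p.1 ∈ K := by
  have h := mem_pinAt.1 (hq.mem p hp)
  exact ⟨h.2, h.1⟩

/-- no extra block -/
lemma force_bal {K : Finset ι} {τ : Fin Δ → Fin Δ} (hτ : ∀ k, τ (τ k) = k)
    {M : ι → Finset (Fin Δ)} {q : ι × Fin Δ → ι × Fin Δ} (hq : Bal K τ M q)
    (hc : ∀ k, (Sur K τ M q k).card = dgr K M k - dgr K M (τ k))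
    {T : (ι → Finset (Fin Δ)) → Prop}
    (hT : ∀ X, (phi K (flp τ M X) < phi K M ∨ ∃ σ, Out K τ M q X σ) → T (flp τ M X)) :
    Force K T [τ] M := by
  refine force_of hτ hq hc ⟨q, id, id, hq.inv, fun _ => rfl, fun _ => rfl, fun _ _ => rfl,
    fun _ _ => rfl, fun _ _ => rfl⟩ ?_ (fun _ _ => rfl) (fun X _ => hT X)
  intro p hp
  refine ⟨?_, rfl, rfl⟩
  by_contra h
  exact hp (bal_pin hq h)

/-- extra block `NB` -/
lemma force_nb {K : Finset ι} {τ : Fin Δ → Fin Δ} (hτ : ∀ k, τ (τ k) = k)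
    {M : ι → Finset (Fin Δ)} {q : ι × Fin Δ → ι × Fin Δ} (hq : Bal K τ M q)
    (hc : ∀ k, (Sur K τ M q k).card = dgr K M k - dgr K M (τ k))
    {T : (ι → Finset (Fin Δ)) → Prop} {x y : ι × Fin Δ} (hxy : x ≠ y)
    (hx : x.1 ∈ Sur K τ M q x.2) (hy : y.1 ∈ Sur K τ M q y.2)
    (hT : ∀ X, ¬ (x ∈ X ∧ y ∈ X) →
      (phi K (flp τ M X) < phi K M ∨ ∃ σ, Out K τ M q X σ) → T (flp τ M X)) :
    Force K T [τ] M := by
  classical
  have hsw : ∀ p, q p ≠ p → Equiv.swap x y p = p := by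
    intro p hp
    apply Equiv.swap_apply_of_ne_of_ne
    · rintro rfl
      exact hp (sur_pin hx).2.2
    · rintro rfl
      exact hp (sur_pin hy).2.2
  refine force_of hτ hq hc ⟨q, Equiv.swap x y, id, hq.inv, fun p => Equiv.swap_apply_self x y p,
    fun _ => rfl, hsw, fun _ _ => rfl, fun _ _ => rfl⟩ ?_ (fun _ _ => rfl) (fun X hX => ?_)
  · intro p hp
    refine ⟨?_, ?_, rfl⟩
    · by_contra h
      exact hp (bal_pin hq h)
    · show Equiv.swap x y p = p
      apply Equiv.swap_apply_of_ne_of_ne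
      · rintro rfl
        exact hp ⟨(sur_pin hx).1, (sur_pin hx).2.1⟩
      · rintro rfl
        exact hp ⟨(sur_pin hy).1, (sur_pin hy).2.1⟩
  · apply hT X
    rintro ⟨h1, h2⟩
    have h3 := (hX x).2.1
    simp only [Equiv.swap_apply_left] at h3
    exact h3 hxy.symm h1 h2

/-- extra block `EQ` -/
lemma force_eq {K : Finset ι} {τ : Fin Δ → Fin Δ} (hτ : ∀ k, τ (τ k) = k)
    {M : ι → Finset (Fin Δ)} {q : ι × Fin Δ → ι × Fin Δ} (hq : Bal K τ M q)
    (hc : ∀ k, (Sur K τ M q k).card = dgr K M k - dgr K M (τ k))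
    {T : (ι → Finset (Fin Δ)) → Prop} {x y : ι × Fin Δ}
    (hx : x.1 ∈ Sur K τ M q x.2) (hy : y.1 ∈ Sur K τ M q y.2)
    (hT : ∀ X, (x ∈ X ↔ y ∈ X) →
      (phi K (flp τ M X) < phi K M ∨ ∃ σ, Out K τ M q X σ) → T (flp τ M X)) :
    Force K T [τ] M := by
  classical
  have hx3 := (sur_pin hx).2.2
  have hy3 := (sur_pin hy).2.2
  have hsw : ∀ p, q p ≠ p → Equiv.swap x y (q p) = q p := by
    intro p hp
    apply Equiv.swap_apply_of_ne_of_ne
    · intro h
      have := hq.inv p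
      rw [h, hx3] at this
      rw [← this] at hp
      exact hp hx3
    · intro h
      have := hq.inv p
      rw [h, hy3] at this
      rw [← this] at hp
      exact hp hy3
  have hinv : ∀ p, Equiv.swap x y (q (Equiv.swap x y (q p))) = p := by
    intro p
    by_cases hp : q p = p
    · rw [hp]
      have h1 : q (Equiv.swap x y p) = Equiv.swap x y p := by
        rcases eq_or_ne p x with rfl | h1
        · rw [Equiv.swap_apply_left]
          exact hy3
        · rcases eq_or_ne p y with rfl | h2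
          · rw [Equiv.swap_apply_right]
            exact hx3
          · rw [Equiv.swap_apply_of_ne_of_ne h1 h2]
            exact hp
      rw [h1, Equiv.swap_apply_self]
    · have hqp : q (q p) ≠ q p := by
        rw [hq.inv]
        exact fun h => hp h.symm
      rw [hsw p hp, hsw (q p) hqp, hq.inv]
  refine force_of hτ hq hc ⟨fun p => Equiv.swap x y (q p), id, id, hinv, fun _ => rfl,
    fun _ => rfl, fun _ _ => rfl, fun _ _ => rfl, fun _ _ => rfl⟩ ?_ hsw (fun X hX => ?_)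
  · intro p hp
    refine ⟨?_, rfl, rfl⟩
    have h1 : q p = p := by
      by_contra h
      exact hp (bal_pin hq h)
    show Equiv.swap x y (q p) = p
    rw [h1]
    apply Equiv.swap_apply_of_ne_of_ne
    · rintro rfl
      exact hp ⟨(sur_pin hx).1, (sur_pin hx).2.1⟩
    · rintro rfl
      exact hp ⟨(sur_pin hy).1, (sur_pin hy).2.1⟩
  · apply hT X
    have h1 := (hX x).1
    have h2 := (hX y).1
    simp only [hx3, hy3, Equiv.swap_apply_left, Equiv.swap_apply_right] at h1 h2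
    exact ⟨h1, h2⟩

/-- extra block `NAE` -/
lemma force_nae {K : Finset ι} {τ : Fin Δ → Fin Δ} (hτ : ∀ k, τ (τ k) = k)
    {M : ι → Finset (Fin Δ)} {q : ι × Fin Δ → ι × Fin Δ} (hq : Bal K τ M q)
    (hc : ∀ k, (Sur K τ M q k).card = dgr K M k - dgr K M (τ k))
    {T : (ι → Finset (Fin Δ)) → Prop} {x y z : ι × Fin Δ} (hxy : x ≠ y) (hxz : x ≠ z)
    (hyz : y ≠ z) (hx : x.1 ∈ Sur K τ M q x.2) (hy : y.1 ∈ Sur K τ M q y.2)
    (hz : z.1 ∈ Sur K τ M q z.2)
    (hT : ∀ X, ¬ (x ∈ X ∧ y ∈ X ∧ z ∈ X) → (x ∈ X ∨ y ∈ X ∨ z ∈ X) →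
      (phi K (flp τ M X) < phi K M ∨ ∃ σ, Out K τ M q X σ) → T (flp τ M X)) :
    Force K T [τ] M := by
  classical
  let r : ι × Fin Δ → ι × Fin Δ := fun p =>
    if p = x then y else if p = y then z else if p = z then x else p
  have rx : r x = y := if_pos rfl
  have ry : r y = z := by
    show (if y = x then y else if y = y then z else if y = z then x else y) = z
    rw [if_neg hxy.symm, if_pos rfl]
  have rz : r z = x := by
    show (if z = x then y else if z = y then z else if z = z then x else z) = x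
    rw [if_neg hxz.symm, if_neg hyz.symm, if_pos rfl]
  have r0 : ∀ p, p ≠ x → p ≠ y → p ≠ z → r p = p := by
    intro p h1 h2 h3
    show (if p = x then y else if p = y then z else if p = z then x else p) = p
    rw [if_neg h1, if_neg h2, if_neg h3]
  have hr3 : ∀ p, r (r (r p)) = p := by
    intro p
    rcases eq_or_ne p x with rfl | h1
    · rw [rx, ry, rz]
    · rcases eq_or_ne p y with rfl | h2
      · rw [ry, rz, rx]
      · rcases eq_or_ne p z with rfl | h3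
        · rw [rz, rx, ry]
        · rw [r0 p h1 h2 h3, r0 p h1 h2 h3, r0 p h1 h2 h3]
  refine force_of hτ hq hc ⟨q, id, r, hq.inv, fun _ => rfl, hr3, fun _ _ => rfl, ?_,
    fun p hp => (hp rfl).elim⟩ ?_ (fun _ _ => rfl) (fun X hX => ?_)
  · intro p hp
    apply r0
    · rintro rfl
      exact hp (sur_pin hx).2.2
    · rintro rfl
      exact hp (sur_pin hy).2.2
    · rintro rfl
      exact hp (sur_pin hz).2.2
  · intro p hp
    refine ⟨?_, rfl, ?_⟩
    · by_contra h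
      exact hp (bal_pin hq h)
    · show r p = p
      apply r0
      · rintro rfl
        exact hp ⟨(sur_pin hx).1, (sur_pin hx).2.1⟩
      · rintro rfl
        exact hp ⟨(sur_pin hy).1, (sur_pin hy).2.1⟩
      · rintro rfl
        exact hp ⟨(sur_pin hz).1, (sur_pin hz).2.1⟩
  · have h1 := (hX x).2.2
    simp only [rx, ry] at h1
    exact hT X (h1 hxy.symm).1 (h1 hxy.symm).2

theorem pf_tBAL : tBAL := by
  intro ι Δ K τ M hτ _
  obtain ⟨q, hq, hc⟩ := exists_bal K hτ M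
  refine force_bal hτ hq hc fun X h => ?_
  rcases h with h | ⟨σ, h1, h2, -⟩
  · exact Or.inl h
  · exact Or.inr ⟨σ, h1, h2⟩

/-- a surplus pin of the pair of `p` -/
lemma exists_sur {K : Finset ι} {τ : Fin Δ → Fin Δ} (hτ : ∀ k, τ (τ k) = k)
    {M : ι → Finset (Fin Δ)} {q : ι × Fin Δ → ι × Fin Δ}
    (hc : ∀ k, (Sur K τ M q k).card = dgr K M k - dgr K M (τ k)) {p : Fin Δ}
    (hp : dgr K M p ≠ dgr K M (τ p)) :
    ∃ x : ι × Fin Δ, x.1 ∈ Sur K τ M q x.2 ∧ (x.2 = p ∨ x.2 = τ p) := by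
  rcases lt_or_gt_of_ne hp with h | h
  · have h1 := hc (τ p)
    rw [hτ] at h1
    have h2 : 0 < (Sur K τ M q (τ p)).card := by omega
    obtain ⟨κ, hκ⟩ := Finset.card_pos.1 h2
    exact ⟨(κ, τ p), hκ, Or.inr rfl⟩
  · have h1 := hc p
    have h2 : 0 < (Sur K τ M q p).card := by omega
    obtain ⟨κ, hκ⟩ := Finset.card_pos.1 h2
    exact ⟨(κ, p), hκ, Or.inl rfl⟩

theorem pf_tFRZ : tFRZ := by
  intro ι Δ K τ M p hτ _ hp
  obtain ⟨q, hq, hc⟩ := exists_bal K hτ M
  by_cases heq : dgr K M p = dgr K M (τ p)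
  · refine force_bal hτ hq hc fun X h => ?_
    rcases h with h | ⟨σ, h1, h2, -, -, h5⟩
    · exact Or.inl h
    · exact Or.inr ⟨σ, h1, h2, h5 p heq⟩
  · have key : ∃ k, (k = p ∨ k = τ p) ∧ 1 < (Sur K τ M q k).card := by
      rcases hp with h | h | h
      · refine ⟨τ p, Or.inr rfl, ?_⟩
        have h1 := hc (τ p)
        rw [hτ] at h1
        omega
      · refine ⟨p, Or.inl rfl, ?_⟩
        have h1 := hc p
        omega
      · exact (heq h).elim
    obtain ⟨k, hk, hcard⟩ := key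
    obtain ⟨a, ha, b, hb, hab⟩ := Finset.one_lt_card.1 hcard
    refine force_nb hτ hq hc (x := (a, k)) (y := (b, k))
      (fun h => hab (congrArg Prod.fst h)) ha hb fun X hX h => ?_
    rcases h with h | ⟨σ, h1, h2, h3, -⟩
    · exact Or.inl h
    · refine Or.inr ⟨σ, h1, h2, ?_⟩
      rw [← mv_iff hτ h1 hk]
      by_contra hne
      exact hX ⟨h3 k hne a ha, h3 k hne b hb⟩

theorem pf_tLET : tLET := by
  intro ι Δ K τ M p hτ _ hp
  obtain ⟨q, hq, hc⟩ := exists_bal K hτ M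
  have h1 := hc (τ p)
  rw [hτ] at h1
  have h2 : 2 < (Sur K τ M q (τ p)).card := by omega
  obtain ⟨a, b, c, ha, hb, hc', hab, hac, hbc⟩ := Finset.two_lt_card_iff.1 h2
  refine force_nae hτ hq hc (x := (a, τ p)) (y := (b, τ p)) (z := (c, τ p))
    (fun h => hab (congrArg Prod.fst h)) (fun h => hac (congrArg Prod.fst h))
    (fun h => hbc (congrArg Prod.fst h)) ha hb hc' fun X hX1 hX2 h => ?_
  rcases h with h | ⟨σ, -, -, h3, h4, -⟩
  · exact h
  · exfalso
    by_cases hσ : σ (τ p) = τ p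
    · rcases hX2 with h | h | h
      · exact h4 _ hσ a ha h
      · exact h4 _ hσ b hb h
      · exact h4 _ hσ c hc' h
    · exact hX1 ⟨h3 _ hσ a ha, h3 _ hσ b hb, h3 _ hσ c hc'⟩

theorem pf_tSTN : tSTN := by
  intro ι Δ K τ M p p' hτ _ hne hne'
  obtain ⟨q, hq, hc⟩ := exists_bal K hτ M
  by_cases h1 : dgr K M p = dgr K M (τ p)
  · refine force_bal hτ hq hc fun X h => ?_
    rcases h with h | ⟨σ, h1', h2, -, -, h5⟩
    · exact Or.inl h
    · exact Or.inr ⟨σ, h1', h2, Or.inl (h5 p h1)⟩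
  by_cases h2 : dgr K M p' = dgr K M (τ p')
  · refine force_bal hτ hq hc fun X h => ?_
    rcases h with h | ⟨σ, h1', h2', -, -, h5⟩
    · exact Or.inl h
    · exact Or.inr ⟨σ, h1', h2', Or.inr (h5 p' h2)⟩
  obtain ⟨x, hx, hx'⟩ := exists_sur (q := q) hτ hc h1
  obtain ⟨y, hy, hy'⟩ := exists_sur (q := q) hτ hc h2
  have hxy : x ≠ y := by
    rintro rfl
    rcases hx' with h | h <;> rcases hy' with h' | h'
    · exact hne (h'.symm.trans h)
    · rw [h] at h'
      rw [h', hτ] at hne'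
      exact hne' rfl
    · exact hne' (h'.symm.trans h)
    · rw [h] at h'
      have := congrArg τ h'
      rw [hτ, hτ] at this
      exact hne this.symm
  refine force_nb hτ hq hc hxy hx hy fun X hX h => ?_
  rcases h with h | ⟨σ, h3, h4, h5, -⟩
  · exact Or.inl h
  · refine Or.inr ⟨σ, h3, h4, ?_⟩
    by_contra hcon
    push Not at hcon
    apply hX
    constructor
    · exact h5 _ (fun h => hcon.1 ((mv_iff hτ h3 hx').1 h)) _ hx
    · exact h5 _ (fun h => hcon.2 ((mv_iff hτ h3 hy').1 h)) _ hy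

/-- the case of `tSTE` in which the degrees of the first pair are equal -/
lemma ste_eq {K : Finset ι} {τ : Fin Δ → Fin Δ} (hτ : ∀ k, τ (τ k) = k)
    {M M' : ι → Finset (Fin Δ)} {p p' : Fin Δ} (hne : p' ≠ p) (hne' : p' ≠ τ p)
    (hp : τ p ≠ p) (h1 : dgr K M p = dgr K M (τ p)) {σ : Fin Δ → Fin Δ} (hσ : Mv τ σ)
    (hd : ∀ k, dgr K M' k = dgr K M (σ k)) (hσp : σ p = p) :
    ∃ σ, Mv τ σ ∧ (∀ k, dgr K M' k = dgr K M (σ k)) ∧ (σ p = p ↔ σ p' = p') := by
  classical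
  by_cases hp' : σ p' = p'
  · exact ⟨σ, hσ, hd, ⟨fun _ => hp', fun _ => hσp⟩⟩
  have hστ : σ (τ p) = τ p := (mv_iff hτ hσ (Or.inr rfl)).2 hσp
  have e1 : ∀ k, k = p ∨ k = τ p → (if k = p ∨ k = τ p then τ k else σ k) = τ k :=
    fun k hk => if_pos hk
  have e0 : ∀ k, ¬ (k = p ∨ k = τ p) → (if k = p ∨ k = τ p then τ k else σ k) = σ k :=
    fun k hk => if_neg hk
  refine ⟨fun k => if k = p ∨ k = τ p then τ k else σ k, ⟨?_, ?_⟩, ?_, ?_⟩
  · intro k
    by_cases hk : k = p ∨ k = τ p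
    · have hk' : τ k = p ∨ τ k = τ p := by
        rcases hk with rfl | rfl
        · exact Or.inr rfl
        · exact Or.inl (hτ p)
      show (if (if k = p ∨ k = τ p then τ k else σ k) = p ∨
        (if k = p ∨ k = τ p then τ k else σ k) = τ p then
        τ (if k = p ∨ k = τ p then τ k else σ k) else
        σ (if k = p ∨ k = τ p then τ k else σ k)) = k
      rw [e1 k hk, e1 _ hk', hτ]
    · have hk' : ¬ (σ k = p ∨ σ k = τ p) := by
        rintro (h | h)
        · have := hσ.1 k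
          rw [h, hσp] at this
          exact hk (Or.inl this.symm)
        · have := hσ.1 k
          rw [h, hστ] at this
          exact hk (Or.inr this.symm)
      show (if (if k = p ∨ k = τ p then τ k else σ k) = p ∨
        (if k = p ∨ k = τ p then τ k else σ k) = τ p then
        τ (if k = p ∨ k = τ p then τ k else σ k) else
        σ (if k = p ∨ k = τ p then τ k else σ k)) = k
      rw [e0 k hk, e0 _ hk', hσ.1]
  · intro k
    by_cases hk : k = p ∨ k = τ p
    · exact Or.inr (e1 k hk)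
    · show (if k = p ∨ k = τ p then τ k else σ k) = k ∨
        (if k = p ∨ k = τ p then τ k else σ k) = τ k
      rw [e0 k hk]
      exact hσ.2 k
  · intro k
    show dgr K M' k = dgr K M (if k = p ∨ k = τ p then τ k else σ k)
    by_cases hk : k = p ∨ k = τ p
    · rw [e1 k hk, hd k]
      rcases hk with rfl | rfl
      · rw [hσp, h1]
      · rw [hστ, hτ, h1]
    · rw [e0 k hk, hd k]
  · show (if p = p ∨ p = τ p then τ p else σ p) = p ↔
      (if p' = p ∨ p' = τ p then τ p' else σ p') = p'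
    rw [e1 p (Or.inl rfl), e0 p' (by tauto)]
    exact ⟨fun h => (hp h).elim, fun h => (hp' h).elim⟩

theorem pf_tSTE : tSTE := by
  intro ι Δ K τ M p p' hτ _ hne hne' hp hp'
  obtain ⟨q, hq, hc⟩ := exists_bal K hτ M
  have hne2 : p ≠ τ p' := by
    intro h
    rw [h, hτ] at hne'
    exact hne' rfl
  by_cases h1 : dgr K M p = dgr K M (τ p)
  · refine force_bal hτ hq hc fun X h => ?_
    rcases h with h | ⟨σ, h1', h2, -, -, h5⟩
    · exact Or.inl h
    · exact Or.inr (ste_eq hτ hne hne' hp h1 h1' h2 (h5 p h1))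
  by_cases h2 : dgr K M p' = dgr K M (τ p')
  · refine force_bal hτ hq hc fun X h => ?_
    rcases h with h | ⟨σ, h1', h2', -, -, h5⟩
    · exact Or.inl h
    · obtain ⟨σ', a, b, c⟩ := ste_eq hτ hne.symm hne2 hp' h2 h1' h2' (h5 p' h2)
      exact Or.inr ⟨σ', a, b, c.symm⟩
  obtain ⟨x, hx, hx'⟩ := exists_sur (q := q) hτ hc h1
  obtain ⟨y, hy, hy'⟩ := exists_sur (q := q) hτ hc h2
  refine force_eq hτ hq hc hx hy fun X hX h => ?_
  rcases h with h | ⟨σ, h3, h4, h5, h6, -⟩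
  · exact Or.inl h
  · refine Or.inr ⟨σ, h3, h4, ?_⟩
    rw [← mv_iff hτ h3 hx', ← mv_iff hτ h3 hy']
    constructor
    · intro h
      by_contra h'
      exact h6 _ h _ hx (hX.2 (h5 _ h' _ hy))
    · intro h
      by_contra h'
      exact h6 _ h _ hy (hX.1 (h5 _ h' _ hx))

end Pool.Agent.SGV
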