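import Pool.Agent.SGV.Defs

set_option autoImplicit false

/-! Game layer: concatenation, solved tokens, deletion, `WinP` (idea row 3525). -/

namespace Pool.Agent.SGV

open Pool.Agent.SGM

namespace SOL52_

variable {ι : Type} {Δ : ℕ}

theorem mem_flp (τ : Fin Δ → Fin Δ) (M : ι → Finset (Fin Δ)) (X : Set (ι × Fin Δ)) (κ : ι)
    (y : Fin Δ) : y ∈ flp τ M X κ ↔
      (∃ k ∈ M κ, (κ, k) ∈ X ∧ τ k ∉ M κ ∧ τ k = y) ∨ (y ∈ M κ ∧ ¬ ((κ, y) ∈ X ∧ τ y ∉ M κ)) := by
  classical
  unfold flp
  simp only [Finset.mem_image]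
  constructor
  · rintro ⟨k, hk, rfl⟩
    by_cases h : (κ, k) ∈ X ∧ τ k ∉ M κ
    · left
      exact ⟨k, hk, h.1, h.2, by rw [if_pos h]⟩
    · right
      rw [if_neg h]
      exact ⟨hk, h⟩
  · rintro (⟨k, hk, h1, h2, rfl⟩ | ⟨hk, h⟩)
    · exact ⟨k, hk, if_pos ⟨h1, h2⟩⟩
    · exact ⟨y, hk, if_neg h⟩

theorem two_flp (τ : Fin Δ → Fin Δ) (hτ : ∀ k, τ (τ k) = k) (M : ι → Finset (Fin Δ))
    (X : Set (ι × Fin Δ)) (κ : ι) : (flp τ M X κ).card = (M κ).card := by
  classical
  unfold flp
  apply Finset.card_image_of_injOn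
  intro a ha b hb hab
  simp only [Finset.mem_coe] at ha hb
  dsimp only at hab
  by_cases h1 : (κ, a) ∈ X ∧ τ a ∉ M κ
  · rw [if_pos h1] at hab
    by_cases h2 : (κ, b) ∈ X ∧ τ b ∉ M κ
    · rw [if_pos h2] at hab
      have := congrArg τ hab
      rwa [hτ, hτ] at this
    · rw [if_neg h2] at hab
      exact absurd (hab ▸ hb) h1.2
  · rw [if_neg h1] at hab
    by_cases h2 : (κ, b) ∈ X ∧ τ b ∉ M κ
    · rw [if_pos h2] at hab
      exact absurd (hab ▸ ha) h2.2
    · rwa [if_neg h2] at hab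

/-- the partner relation -/
def Pr (K : Finset ι) (τ : Fin Δ → Fin Δ) (M : ι → Finset (Fin Δ)) (φ : ι → Fin Δ)
    (p q : ι × Fin Δ) : Prop :=
  p.1 ∈ K ∧ q.1 ∈ K ∧ φ p.1 = p.2 ∧ φ q.1 = q.2 ∧ q.2 = τ p.2 ∧ τ p.2 ∉ M p.1 ∧ τ q.2 ∉ M q.1

open Classical in
noncomputable def qf (K : Finset ι) (τ : Fin Δ → Fin Δ) (M : ι → Finset (Fin Δ)) (φ : ι → Fin Δ)
    (p : ι × Fin Δ) : ι × Fin Δ :=
  if h : ∃ q, Pr K τ M φ p q then h.choose else p

theorem qf_spec {K : Finset ι} {τ : Fin Δ → Fin Δ} {M : ι → Finset (Fin Δ)} {φ : ι → Fin Δ}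
    (hφ : Set.InjOn φ K) {p q : ι × Fin Δ} (h : Pr K τ M φ p q) : qf K τ M φ p = q := by
  classical
  have hex : ∃ q, Pr K τ M φ p q := ⟨q, h⟩
  unfold qf
  rw [dif_pos hex]
  obtain ⟨-, h2, -, h4, h5, -, -⟩ := hex.choose_spec
  obtain ⟨-, g2, -, g4, g5, -, -⟩ := h
  refine Prod.ext ?_ (h5.trans g5.symm)
  apply hφ h2 g2
  rw [h4, g4, h5, g5]

theorem qf_or (K : Finset ι) (τ : Fin Δ → Fin Δ) (M : ι → Finset (Fin Δ)) (φ : ι → Fin Δ)
    (p : ι × Fin Δ) : Pr K τ M φ p (qf K τ M φ p) ∨ qf K τ M φ p = p := by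
  classical
  by_cases hex : ∃ q, Pr K τ M φ p q
  · left
    unfold qf
    rw [dif_pos hex]
    exact hex.choose_spec
  · right
    unfold qf
    rw [dif_neg hex]

theorem Pr.symm {K : Finset ι} {τ : Fin Δ → Fin Δ} (hτ : ∀ k, τ (τ k) = k)
    {M : ι → Finset (Fin Δ)} {φ : ι → Fin Δ} {p q : ι × Fin Δ} (h : Pr K τ M φ p q) :
    Pr K τ M φ q p := by
  obtain ⟨h1, h2, h3, h4, h5, h6, h7⟩ := h
  exact ⟨h2, h1, h4, h3, by rw [h5, hτ], h7, h6⟩

/-- the block of a letter for a solved token -/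
noncomputable def blk (K : Finset ι) (τ : Fin Δ → Fin Δ) (hτ : ∀ k, τ (τ k) = k)
    (M : ι → Finset (Fin Δ)) (φ : ι → Fin Δ) (hφ : Set.InjOn φ K) : Blk (ι × Fin Δ) where
  q := qf K τ M φ
  n := id
  r := id
  q2 := by
    intro p
    rcases qf_or K τ M φ p with h | h
    · exact qf_spec hφ (h.symm hτ)
    · rw [h, h]
  n2 := fun _ => rfl
  r3 := fun _ => rfl
  qn := fun _ _ => rfl
  qr := fun _ _ => rfl
  nr := fun _ _ => rfl

end SOL52_

open SOL52_ in
theorem pf_tSOL_52 : tSOL := by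
  intro ι Δ K w
  induction w with
  | nil => intro M _ _ h; exact h
  | cons τ w ih =>
    intro M hw h2 hs
    obtain ⟨φ, hφM, hφ⟩ := hs
    have hτ : ∀ k, τ (τ k) = k := hw τ (by simp)
    refine ⟨blk K τ hτ M φ hφ, ?_, ?_⟩
    · intro p hp
      refine ⟨?_, rfl, rfl⟩
      rcases qf_or K τ M φ p with h | h
      · exfalso
        apply hp
        obtain ⟨h1, -, h3, -, -, h6, -⟩ := h
        refine ⟨⟨?_, h6⟩, h1⟩
        have := hφM _ h1
        rwa [h3] at this
      · exact h
    · intro X hX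
      have hq : ∀ p q, Pr K τ M φ p q → p ∈ X → q ∈ X := by
        intro p q hpq hp
        have := (hX p).1 hp
        have h3 : (blk K τ hτ M φ hφ).q p = q := qf_spec hφ hpq
        rwa [h3] at this
      apply ih
      · intro t ht; exact hw t (by simp [ht])
      · intro κ hκ
        rw [two_flp τ hτ]
        exact h2 κ hκ
      · classical
        let mv : Fin Δ → Prop := fun k => ∃ κ ∈ K, φ κ = k ∧ τ k ∉ M κ ∧ (κ, k) ∈ X
        let σ : Fin Δ → Fin Δ := fun k => if mv k ∨ mv (τ k) then τ k else k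
        have hσ : ∀ k, σ (σ k) = k := by
          intro k
          by_cases h : mv k ∨ mv (τ k)
          · have h1 : σ k = τ k := if_pos h
            rw [h1]
            have h' : mv (τ k) ∨ mv (τ (τ k)) := by rw [hτ]; exact h.symm
            have h2 : σ (τ k) = τ (τ k) := if_pos h'
            rw [h2, hτ]
          · have h1 : σ k = k := if_neg h
            rw [h1, h1]
        refine ⟨fun κ => σ (φ κ), ?_, ?_⟩
        · intro κ hκ
          show σ (φ κ) ∈ flp τ M X κ
          rw [mem_flp]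
          have hk := hφM κ hκ
          by_cases h1 : mv (φ κ)
          · obtain ⟨κ1, hκ1, e1, e2, e3⟩ := id h1
            have hk1 : κ1 = κ := hφ hκ1 hκ e1
            subst hk1
            left
            refine ⟨φ κ1, hk, e3, e2, ?_⟩
            symm
            exact if_pos (Or.inl h1)
          · by_cases h2 : mv (τ (φ κ))
            · have hs : σ (φ κ) = τ (φ κ) := if_pos (Or.inr h2)
              obtain ⟨κ1, hκ1, e1, e2, e3⟩ := h2
              by_cases h3 : τ (φ κ) ∈ M κ
              · right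
                rw [hs, hτ]
                exact ⟨h3, fun h => h.2 hk⟩
              · exfalso
                apply h1
                refine ⟨κ, hκ, rfl, h3, ?_⟩
                apply hq (κ1, τ (φ κ)) (κ, φ κ) _ e3
                refine ⟨hκ1, hκ, e1, rfl, (hτ _).symm, ?_, h3⟩
                exact e2
            · right
              have hs : σ (φ κ) = φ κ := if_neg (fun h => h.elim h1 h2)
              rw [hs]
              refine ⟨hk, fun h => h1 ⟨κ, hκ, rfl, h.2, h.1⟩⟩
        · intro a ha b hb hab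
          apply hφ ha hb
          have := congrArg σ hab
          dsimp only at this
          rwa [hσ, hσ] at this

open SOL52_ in
theorem pf_tDEL_52 : tDEL := by
  intro ι _ Δ K κ0 x w
  induction w with
  | nil =>
    intro M h0 hx hn _ _ h
    classical
    obtain ⟨φ, h1, h2⟩ := h
    refine ⟨fun κ => if κ = κ0 then x else φ κ, ?_, ?_⟩
    · intro κ hκ
      by_cases h : κ = κ0
      · subst h; simpa using hx
      · simp only [h, if_false]
        exact h1 κ (Finset.mem_erase.mpr ⟨h, hκ⟩)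
    · intro a ha b hb hab
      dsimp only at hab
      have key : ∀ c ∈ K, c ≠ κ0 → φ c ≠ x := by
        intro c hc hc0 he
        have := h1 c (Finset.mem_erase.mpr ⟨hc0, hc⟩)
        rw [he] at this
        exact hn c hc hc0 this
      by_cases ha0 : a = κ0
      · by_cases hb0 : b = κ0
        · rw [ha0, hb0]
        · rw [if_pos ha0, if_neg hb0] at hab
          exact absurd hab.symm (key b hb hb0)
      · by_cases hb0 : b = κ0
        · rw [if_neg ha0, if_pos hb0] at hab
          exact absurd hab (key a ha ha0)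
        · rw [if_neg ha0, if_neg hb0] at hab
          exact h2 (Finset.mem_erase.mpr ⟨ha0, ha⟩) (Finset.mem_erase.mpr ⟨hb0, hb⟩) hab
  | cons τ w ih =>
    intro M h0 hx hn hw hf h
    obtain ⟨B, hB, hF⟩ := h
    have hτ : ∀ k, τ (τ k) = k := hw τ (by simp)
    have hτx : τ x = x := hf τ (by simp)
    refine ⟨B, ?_, ?_⟩
    · intro p hp
      apply hB p
      intro h
      exact hp ⟨h.1, Finset.mem_of_mem_erase h.2⟩
    · intro X hX
      have hmem : ∀ κ, x ∈ flp τ M X κ ↔ x ∈ M κ := by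
        intro κ
        rw [mem_flp]
        constructor
        · rintro (⟨k, hk, -, -, e⟩ | ⟨h, -⟩)
          · have : k = x := by rw [← hτ k, e, hτx]
            rwa [this] at hk
          · exact h
        · intro h
          right
          refine ⟨h, fun h' => h'.2 ?_⟩
          rwa [hτx]
      apply ih
      · exact h0
      · rw [hmem]; exact hx
      · intro κ hκ hne
        rw [hmem]; exact hn κ hκ hne
      · intro t ht; exact hw t (by simp [ht])
      · intro t ht; exact hf t (by simp [ht])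
      · exact hF X hX

theorem pf_tAPP_52 : tAPP := by
  intro ι Δ K T u w
  induction u with
  | nil => intro M h; exact h
  | cons τ u ih =>
    intro M h
    obtain ⟨B, hB, hF⟩ := h
    exact ⟨B, hB, fun X hX => ih _ (hF X hX)⟩

theorem pf_tWIN_52 : tWIN := by
  intro Δ w
  induction w with
  | nil =>
    intro M h
    obtain ⟨φ, h1, h2⟩ := h
    exact ⟨φ, fun κ _ => h1 κ (Finset.mem_univ κ),
      fun κ κ' _ _ e => h2 (by simp) (by simp) e⟩
  | cons τ w ih =>
    intro M h
    obtain ⟨B, hB, hF⟩ := h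
    exact ⟨B, fun x hx => hB x fun h => hx h.1, fun X hX => ih _ (hF X hX)⟩

end Pool.Agent.SGV
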