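import Pool.Agent.SGV.Defs

set_option autoImplicit false

/-! MP_fff3e1_lc, universal words: degrees after one letter. -/

namespace Pool.Agent.SGV

open Pool.Agent.SGM

variable {ι : Type} {Δ : ℕ}

lemma mem_flp {τ : Fin Δ → Fin Δ} (hτ : ∀ k, τ (τ k) = k) (M : ι → Finset (Fin Δ))
    (X : Set (ι × Fin Δ)) (κ : ι) (j : Fin Δ) :
    j ∈ flp τ M X κ ↔ (j ∈ M κ ∧ ¬ ((κ, j) ∈ X ∧ τ j ∉ M κ)) ∨
      (j ∉ M κ ∧ τ j ∈ M κ ∧ (κ, τ j) ∈ X) := by
  classical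
  unfold flp
  rw [Finset.mem_image]
  constructor
  · rintro ⟨k, hk, rfl⟩
    by_cases h : (κ, k) ∈ X ∧ τ k ∉ M κ
    · rw [if_pos h]
      right
      exact ⟨h.2, by rw [hτ]; exact hk, by rw [hτ]; exact h.1⟩
    · rw [if_neg h]
      exact Or.inl ⟨hk, h⟩
  · rintro (⟨h1, h2⟩ | ⟨h1, h2, h3⟩)
    · exact ⟨j, h1, by rw [if_neg h2]⟩
    · refine ⟨τ j, h2, ?_⟩
      have : (κ, τ j) ∈ X ∧ τ (τ j) ∉ M κ := ⟨h3, by rw [hτ]; exact h1⟩
      rw [if_pos this, hτ]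

lemma card_flp {τ : Fin Δ → Fin Δ} (hτ : ∀ k, τ (τ k) = k) (M : ι → Finset (Fin Δ))
    (X : Set (ι × Fin Δ)) (κ : ι) : (flp τ M X κ).card = (M κ).card := by
  classical
  unfold flp
  apply Finset.card_image_of_injOn
  intro k hk l hl h
  simp only [Finset.mem_coe] at hk hl
  by_cases hck : (κ, k) ∈ X ∧ τ k ∉ M κ
  · by_cases hcl : (κ, l) ∈ X ∧ τ l ∉ M κ
    · simp only [if_pos hck, if_pos hcl] at h
      rw [← hτ k, h, hτ]
    · simp only [if_pos hck, if_neg hcl] at h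
      exact absurd (h ▸ hl) hck.2
  · by_cases hcl : (κ, l) ∈ X ∧ τ l ∉ M κ
    · simp only [if_neg hck, if_pos hcl] at h
      exact absurd (h ▸ hk) hcl.2
    · simpa only [if_neg hck, if_neg hcl] using h

lemma dgr_sum (K : Finset ι) (M : ι → Finset (Fin Δ)) (k : Fin Δ) :
    dgr K M k = ∑ κ ∈ K, if k ∈ M κ then 1 else 0 := by
  unfold dgr
  rw [Finset.card_filter]

/-- counting the pins at `k` and at `τ k` which are flipped -/
lemma dgr_flp {τ : Fin Δ → Fin Δ} (hτ : ∀ k, τ (τ k) = k) (K : Finset ι)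
    (M : ι → Finset (Fin Δ)) (X : Set (ι × Fin Δ)) (k : Fin Δ) [DecidablePred (· ∈ X)] :
    dgr K (flp τ M X) k + (K.filter fun κ => (k ∈ M κ ∧ τ k ∉ M κ) ∧ (κ, k) ∈ X).card =
      dgr K M k + (K.filter fun κ => (τ k ∈ M κ ∧ k ∉ M κ) ∧ (κ, τ k) ∈ X).card := by
  classical
  rw [dgr_sum, dgr_sum, Finset.card_filter, Finset.card_filter, ← Finset.sum_add_distrib,
    ← Finset.sum_add_distrib]
  apply Finset.sum_congr rfl
  intro κ _
  have h := mem_flp hτ M X κ k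
  by_cases h1 : k ∈ M κ <;> by_cases h2 : τ k ∈ M κ <;> by_cases h3 : (κ, k) ∈ X <;>
    by_cases h4 : (κ, τ k) ∈ X <;> simp [h, h1, h2, h3, h4]

theorem pf_tSUM : tSUM := by
  intro ι Δ K τ M X hτ h2
  classical
  have hsum : ∀ k, dgr K (flp τ M X) k + dgr K (flp τ M X) (τ k) =
      dgr K M k + dgr K M (τ k) := by
    intro k
    have e1 := dgr_flp hτ K M X k
    have e2 := dgr_flp hτ K M X (τ k)
    rw [hτ] at e2
    omega
  refine ⟨fun κ hκ => by rw [card_flp hτ]; exact h2 κ hκ, ?_, fun k _ => hsum k, ?_⟩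
  · intro k hk
    have := hsum k
    rw [hk] at this
    omega
  · intro S hS hM κ hκ j hj
    rcases (mem_flp hτ M X κ j).1 hj with h | h
    · exact hM κ hκ h.1
    · have := hS _ (hM κ hκ h.2.1)
      rwa [hτ] at this

end Pool.Agent.SGV
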