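import Pool.Agent.SGV.ZDefs

set_option autoImplicit false

/-! MP_fff3e1_lc, the bridge `zBRI`: the abstract degree game decides the real game. -/

namespace Pool.Agent.SGV

open Pool.Agent.SGM

namespace ZBRI_

variable {ι : Type} {Δ : ℕ}

/-- the goal of `Force` may be weakened -/
lemma force_mono {K : Finset ι} {T T' : (ι → Finset (Fin Δ)) → Prop} (h : ∀ M, T M → T' M) :
    ∀ (w : List (Fin Δ → Fin Δ)) (M : ι → Finset (Fin Δ)), Force K T w M → Force K T' w M
  | [], M, hT => h M hT
  | _ :: w, _, ⟨B, hB, hX⟩ => ⟨B, hB, fun X hXB => force_mono h w _ (hX X hXB)⟩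

/-- a play of one letter followed by the rest of the word -/
lemma force_cons (hSUM : tSUM) {K : Finset ι} {T : (ι → Finset (Fin Δ)) → Prop}
    {U : (ι → Finset (Fin Δ)) → Prop} {τ : Fin Δ → Fin Δ} {w : List (Fin Δ → Fin Δ)}
    {M : ι → Finset (Fin Δ)} (hτ : ∀ k, τ (τ k) = k) (h2 : Two K M)
    (h : Force K U [τ] M) (hU : ∀ M', Two K M' → U M' → Force K T w M') :
    Force K T (τ :: w) M := by
  obtain ⟨B, hB, hX⟩ := h
  exact ⟨B, hB, fun X hXB => hU _ (hSUM ι Δ K τ M X hτ h2).1 (hX X hXB)⟩

lemma phi_eq {K : Finset ι} {τ σ : Fin Δ → Fin Δ} {M M' : ι → Finset (Fin Δ)} (hσ : Mv τ σ)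
    (h : ∀ k, dgr K M' k = dgr K M (σ k)) : phi K M' = phi K M := by
  unfold phi
  have hinv : Function.Involutive σ := hσ.1
  refine Fintype.sum_equiv hinv.toPerm _ _ fun k => ?_
  rw [h k]
  rfl

/-- balanced play never increases the potential -/
lemma force_bal (hSUM : tSUM) (hBAL : tBAL) {K : Finset ι} {c : ℕ} :
    ∀ (w : List (Fin Δ → Fin Δ)) (M : ι → Finset (Fin Δ)), WInv w → Two K M → phi K M < c →
      Force K (fun M' => phi K M' < c) w M
  | [], _, _, _, h => h
  | τ :: w, M, hw, h2, h => by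
    refine force_cons hSUM (hw τ List.mem_cons_self) h2
      (hBAL ι Δ K τ M (hw τ List.mem_cons_self) h2) fun M' h2' hM' => ?_
    refine force_bal hSUM hBAL w M' (fun τ' hτ' => hw τ' (List.mem_cons_of_mem _ hτ')) h2' ?_
    rcases hM' with h' | ⟨σ, hσ, hd⟩
    · exact h'.trans h
    · rw [phi_eq hσ hd]
      exact h

lemma abs_ne_one {a b : ℕ} (h : |(a : ℤ) - b| ≠ 1) : a + 2 ≤ b ∨ b + 2 ≤ a ∨ a = b := by
  rcases lt_trichotomy a b with h1 | h1 | h1
  · left
    by_contra h2
    have h3 : b = a + 1 := by omega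
    subst h3
    apply h
    push_cast
    rw [show (a : ℤ) - (a + 1) = -1 by ring]
    rfl
  · exact Or.inr (Or.inr h1)
  · right
    left
    by_contra h2
    have h3 : a = b + 1 := by omega
    subst h3
    apply h
    push_cast
    rw [show (b : ℤ) + 1 - b = 1 by ring]
    rfl

lemma le_of_abs {a b : ℕ} (h : 3 ≤ |(a : ℤ) - b|) : a + 3 ≤ b ∨ b + 3 ≤ a := by
  rcases le_abs.1 h with h1 | h1
  · right
    omega
  · left
    omega

end ZBRI_

open ZBRI_

theorem pf_zBRI (hSUM : tSUM) (hSTE : tSTE) (hSTN : tSTN) (hFRZ : tFRZ) (hBAL : tBAL)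
    (hLET : tLET) : zBRI := by
  intro ι Δ K w
  induction w with
  | nil =>
    intro M _ _ h
    exact absurd h id
  | cons τ w ih =>
    intro M hw h2 h
    have hτ : ∀ k, τ (τ k) = k := hw τ List.mem_cons_self
    have hw' : WInv w := fun τ' hτ' => hw τ' (List.mem_cons_of_mem _ hτ')
    -- the rest of the word
    have key : ∀ (C : (Fin Δ → Fin Δ) → Prop)
        (_ : ∀ σ, Mv τ σ → C σ → Pl (fun _ => False) w (fun k => (dgr K M (σ k) : ℤ))),
        ∀ M', Two K M' → (phi K M' < phi K M ∨ ∃ σ, Mv τ σ ∧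
          (∀ k, dgr K M' k = dgr K M (σ k)) ∧ C σ) →
          Force K (fun M' => phi K M' < phi K M) w M' := by
      intro C hC M' h2' hM'
      rcases hM' with h' | ⟨σ, hσ, hd, hc⟩
      · exact force_bal hSUM hBAL w M' hw' h2' h'
      · have h3 := hC σ hσ hc
        have h4 : (fun k => (dgr K M (σ k) : ℤ)) = fun k => (dgr K M' k : ℤ) := by
          funext k
          rw [hd k]
        rw [h4] at h3
        have h5 := ih M' hw' h2' h3
        rw [phi_eq hσ hd] at h5
        exact h5
    have keyb : (∀ σ, Mv τ σ → Pl (fun _ => False) w (fun k => (dgr K M (σ k) : ℤ))) →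
        Force K (fun M' => phi K M' < phi K M) (τ :: w) M := by
      intro hC
      refine force_cons hSUM hτ h2 (hBAL ι Δ K τ M hτ h2) fun M' h2' hM' => ?_
      refine key (fun _ => True) (fun σ hσ _ => hC σ hσ) M' h2' ?_
      rcases hM' with h' | ⟨σ, hσ, hd⟩
      · exact Or.inl h'
      · exact Or.inr ⟨σ, hσ, hd, trivial⟩
    rcases h with ⟨p, hp⟩ | ⟨p, hp, hT⟩ | ⟨p, q, hpq, hT⟩ | ⟨p, q, h1, h3, hT⟩
    · -- a deadly pair
      rcases le_of_abs hp with hp' | hp'
      · exact force_cons hSUM hτ h2 (hLET ι Δ K τ M p hτ h2 hp') fun M' h2' hM' =>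
          force_bal hSUM hBAL w M' hw' h2' hM'
      · refine force_cons hSUM hτ h2 (hLET ι Δ K τ M (τ p) hτ h2 ?_) fun M' h2' hM' =>
          force_bal hSUM hBAL w M' hw' h2' hM'
        rw [hτ]
        exact hp'
    · -- a frozen colour
      exact force_cons hSUM hτ h2 (hFRZ ι Δ K τ M p hτ h2 (abs_ne_one hp)) fun M' h2' hM' =>
        key (fun σ => σ p = p) hT M' h2' hM'
    · -- a tie
      by_cases hp : τ p = p
      · have hq : τ q = q := hpq.1 hp
        refine keyb fun σ hσ => hT σ hσ ?_
        have h3 : σ p = p := by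
          rcases hσ.2 p with h4 | h4
          · exact h4
          · rw [h4, hp]
        have h5 : σ q = q := by
          rcases hσ.2 q with h4 | h4
          · exact h4
          · rw [h4, hq]
        exact ⟨fun _ => h5, fun _ => h3⟩
      · have hq : τ q ≠ q := fun hq => hp (hpq.2 hq)
        by_cases h3 : q = p
        · subst h3
          exact keyb fun σ hσ => hT σ hσ Iff.rfl
        · by_cases h4 : q = τ p
          · subst h4
            refine keyb fun σ hσ => hT σ hσ ?_
            constructor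
            · intro h5
              rcases hσ.2 (τ p) with h6 | h6
              · exact h6
              · rw [hτ] at h6
                have h7 := hσ.1 (τ p)
                rw [h6, h5] at h7
                exact absurd h7.symm hp
            · intro h5
              rcases hσ.2 p with h6 | h6
              · exact h6
              · have h7 := hσ.1 p
                rw [h6, h5] at h7
                exact absurd h7 hp
          · exact force_cons hSUM hτ h2 (hSTE ι Δ K τ M p q hτ h2 h3 h4 hp hq)
              fun M' h2' hM' => key (fun σ => (σ p = p ↔ σ q = q)) hT M' h2' hM'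
    · -- not both
      exact force_cons hSUM hτ h2 (hSTN ι Δ K τ M p q hτ h2 h1 h3)
        fun M' h2' hM' => key (fun σ => (σ p = p ∨ σ q = q)) hT M' h2' hM'

end Pool.Agent.SGV
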