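import Pool.Agent.SGV.ZDefs

set_option autoImplicit false

/-! MP_fff3e1_lc, the zero lemma: negation of the degrees, cross matchings (`zNEG`, `zCRO`). -/

namespace Pool.Agent.SGV

open Pool.Agent.SGM

theorem pf_zNEG_68 : zNEG := by
  intro Δ w
  induction w with
  | nil => intro d h; exact h
  | cons τ w ih =>
    intro d h
    have ab : ∀ p, |(-d p) - (-d (τ p))| = |d p - d (τ p)| := by
      intro p
      rw [show -d p - -d (τ p) = -(d p - d (τ p)) by ring, abs_neg]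
    rcases h with ⟨p, h1⟩ | ⟨p, h1, h2⟩ | ⟨p, q, h1, h2⟩ | ⟨p, q, h1, h3, h2⟩
    · exact Or.inl ⟨p, by rw [← ab p]; exact h1⟩
    · exact Or.inr (Or.inl ⟨p, by rw [← ab p]; exact h1, fun σ a b => ih _ (h2 σ a b)⟩)
    · exact Or.inr (Or.inr (Or.inl ⟨p, q, h1, fun σ a b => ih _ (h2 σ a b)⟩))
    · exact Or.inr (Or.inr (Or.inr ⟨p, q, h1, h3, fun σ a b => ih _ (h2 σ a b)⟩))

theorem pf_zCRO_68 : zCRO := by
  classical
  intro Δ X Y hXY hc
  rcases X.eq_empty_or_nonempty with rfl | hne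
  · exact ⟨[], by simp, fun x hx => absurd hx (Finset.notMem_empty _)⟩
  have hn : 0 < X.card := Finset.card_pos.mpr hne
  have : NeZero X.card := ⟨hn.ne'⟩
  let e : ZMod X.card ≃ X := Fintype.equivOfCardEq (by rw [ZMod.card, Fintype.card_coe])
  let g : ZMod X.card ≃ Y := Fintype.equivOfCardEq (by rw [ZMod.card, Fintype.card_coe, hc])
  let f : ZMod X.card → Fin Δ → Fin Δ := fun t v =>
    if h : v ∈ X then ((g (e.symm ⟨v, h⟩ + t)) : Fin Δ)
    else if h : v ∈ Y then ((e (g.symm ⟨v, h⟩ - t)) : Fin Δ) else v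
  have f1 : ∀ t v (h : v ∈ X), f t v = ((g (e.symm ⟨v, h⟩ + t)) : Fin Δ) :=
    fun t v h => dif_pos h
  have f2 : ∀ t v (h : v ∈ Y), f t v = ((e (g.symm ⟨v, h⟩ - t)) : Fin Δ) := by
    intro t v h
    have h' : v ∉ X := fun hx => Finset.disjoint_left.mp hXY hx h
    show (if h : v ∈ X then ((g (e.symm ⟨v, h⟩ + t)) : Fin Δ)
      else if h : v ∈ Y then ((e (g.symm ⟨v, h⟩ - t)) : Fin Δ) else v) = _
    rw [dif_neg h', dif_pos h]
  have f3 : ∀ t v, v ∉ X → v ∉ Y → f t v = v := by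
    intro t v h h'
    show (if h : v ∈ X then ((g (e.symm ⟨v, h⟩ + t)) : Fin Δ)
      else if h : v ∈ Y then ((e (g.symm ⟨v, h⟩ - t)) : Fin Δ) else v) = _
    rw [dif_neg h, dif_neg h']
  have m1 : ∀ t v, v ∈ X → f t v ∈ Y := fun t v h => by rw [f1 t v h]; exact (g _).2
  have m2 : ∀ t v, v ∈ Y → f t v ∈ X := fun t v h => by rw [f2 t v h]; exact (e _).2
  refine ⟨(Finset.univ : Finset (ZMod X.card)).toList.map f, ?_, ?_⟩
  · intro τ hτ
    obtain ⟨t, -, rfl⟩ := List.mem_map.mp hτ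
    refine ⟨⟨?_, ?_⟩, m1 t, m2 t⟩
    · intro v
      by_cases h : v ∈ X
      · rw [f2 t _ (m1 t v h)]
        have : (⟨f t v, m1 t v h⟩ : Y) = g (e.symm ⟨v, h⟩ + t) := Subtype.ext (f1 t v h)
        rw [this, Equiv.symm_apply_apply, add_sub_cancel_right, Equiv.apply_symm_apply]
      · by_cases h' : v ∈ Y
        · rw [f1 t _ (m2 t v h')]
          have : (⟨f t v, m2 t v h'⟩ : X) = e (g.symm ⟨v, h'⟩ - t) := Subtype.ext (f2 t v h')
          rw [this, Equiv.symm_apply_apply, sub_add_cancel, Equiv.apply_symm_apply]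
        · rw [f3 t v h h', f3 t v h h']
    · intro v hv
      rw [Finset.mem_union, not_or] at hv
      exact f3 t v hv.1 hv.2
  · intro x hx y hy
    refine ⟨f (g.symm ⟨y, hy⟩ - e.symm ⟨x, hx⟩),
      List.mem_map.mpr ⟨_, Finset.mem_toList.mpr (Finset.mem_univ _), rfl⟩, ?_⟩
    rw [f1 _ x hx, add_sub_cancel, Equiv.apply_symm_apply]

end Pool.Agent.SGV
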