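import Pool.Agent.SGV.ZWRD

set_option autoImplicit false

/-! MP_fff3e1_lc, the zero lemma: the pass over a set with `2 ^ k` colours (target `zPAS`). -/

namespace Pool.Agent.SGV

open Pool.Agent.SGM

theorem pf_zPAS_68 : zPAS := by
  classical
  intro Δ k P hP
  let G := Fin k → ZMod 2
  have hgg : ∀ g : G, g + g = 0 := fun g => funext fun i => CharTwo.add_self_eq_zero (g i)
  have hca : Fintype.card G = Fintype.card P := by
    rw [Fintype.card_coe, hP]
    simp [G]
  let e : G ≃ P := Fintype.equivOfCardEq hca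
  let f : G → Fin Δ → Fin Δ := fun t v =>
    if h : v ∈ P then ((e (e.symm ⟨v, h⟩ + t)) : Fin Δ) else v
  have f1 : ∀ (t : G) (v : Fin Δ) (h : v ∈ P), f t v = ((e (e.symm ⟨v, h⟩ + t)) : Fin Δ) :=
    fun t v h => dif_pos h
  have f2 : ∀ (t : G) (v : Fin Δ), v ∉ P → f t v = v := fun t v h => dif_neg h
  have f3 : ∀ (t : G) (v : Fin Δ), v ∈ P → f t v ∈ P := by
    intro t v h
    rw [f1 t v h]
    exact (e _).2
  have f4 : ∀ (t : G) (v : Fin Δ) (h : v ∈ P), e.symm ⟨f t v, f3 t v h⟩ =
      e.symm ⟨v, h⟩ + t := by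
    intro t v h
    rw [Equiv.symm_apply_eq]
    exact Subtype.ext (f1 t v h)
  have hI : ∀ t : G, Ins P (f t) := by
    intro t
    refine ⟨fun v => ?_, fun v hv => f2 t v hv⟩
    by_cases h : v ∈ P
    · rw [f1 t _ (f3 t v h), f4 t v h, add_assoc, hgg, add_zero, Equiv.apply_symm_apply]
    · rw [f2 t v h, f2 t v h]
  have ffix : ∀ (t : G) (v : Fin Δ), v ∈ P → (f t v = v ↔ t = 0) := by
    intro t v h
    constructor
    · intro hc
      have h1 := f4 t v h
      have h2 : (⟨f t v, f3 t v h⟩ : P) = ⟨v, h⟩ := Subtype.ext hc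
      rw [h2] at h1
      exact left_eq_add.mp h1
    · rintro rfl
      rw [f1 0 v h, add_zero, Equiv.apply_symm_apply]
  refine ⟨(Finset.univ : Finset G).toList.map f, ?_, ?_⟩
  · intro τ hτ
    obtain ⟨t, -, rfl⟩ := List.mem_map.mp hτ
    exact hI t
  intro T
  have key : ∀ (L : List G) (d : Fin Δ → ℤ) (h z : Fin Δ) (hh : h ∈ P) (hz : z ∈ P),
      Dead d h z → e.symm ⟨h, hh⟩ + e.symm ⟨z, hz⟩ ∈ L → Pl T (L.map f) d := by
    intro L
    induction L with
    | nil => intro d h z hh hz _ hm; exact absurd hm List.not_mem_nil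
    | cons t L ih =>
      intro d h z hh hz hd hm
      change Stp (f t) d (Pl T (L.map f))
      by_cases ht : e.symm ⟨h, hh⟩ + e.symm ⟨z, hz⟩ = t
      · refine Stp.kil (p := h) ?_
        have : f t h = z := by
          rw [f1 t h hh, ← ht, ← add_assoc, hgg, zero_add, Equiv.apply_symm_apply]
        rw [this]
        exact hd
      · have hm' : e.symm ⟨h, hh⟩ + e.symm ⟨z, hz⟩ ∈ L :=
          (List.mem_cons.mp hm).resolve_left ht
        refine Stp.tie (p := h) (q := z) ?_ ?_
        · rw [ffix t h hh, ffix t z hz]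
        · intro σ hs hiff
          have hd' := hd.mv hs
          by_cases hc : σ h = h
          · rw [hc, hiff.mp hc] at hd'
            exact ih _ h z hh hz hd' hm'
          · have hc' : σ z ≠ z := fun hx => hc (hiff.mpr hx)
            have e1 : σ h = f t h := (hs.2 h).resolve_left hc
            have e2 : σ z = f t z := (hs.2 z).resolve_left hc'
            rw [e1, e2] at hd'
            refine ih _ (f t h) (f t z) (f3 t h hh) (f3 t z hz) hd' ?_
            rw [f4 t h hh, f4 t z hz]
            have : e.symm ⟨h, hh⟩ + t + (e.symm ⟨z, hz⟩ + t) =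
                e.symm ⟨h, hh⟩ + e.symm ⟨z, hz⟩ + (t + t) := by abel
            rw [this, hgg, add_zero]
            exact hm'
  intro d h z hh hz hd
  exact key _ d h z hh hz hd (Finset.mem_toList.mpr (Finset.mem_univ _))

end Pool.Agent.SGV
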