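import Pool.Agent.SGV.ZER
import Pool.Agent.SGV.ZBRI
import Pool.Agent.SGV.ZPAS
import Pool.Agent.SGV.ZNEG_68

set_option autoImplicit false

/-! MP_fff3e1_lc, the zero lemma `tZER` from the letter lemmas. -/

namespace Pool.Agent.SGV

theorem pf_tZER (hSUM : tSUM) (hSTE : tSTE) (hSTN : tSTN) (hFRZ : tFRZ) (hBAL : tBAL)
    (hLET : tLET) : tZER :=
  pf_tZER_of (pf_zBRI hSUM hSTE hSTN hFRZ hBAL hLET) pf_zPAS_68 pf_zCRO_68 pf_zNEG_68

end Pool.Agent.SGV
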