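import Pool.Agent.SGV.MAI
import Pool.Agent.SGV.SUM
import Pool.Agent.SGV.LET
import Pool.Agent.SGV.ZTOP
import Pool.Agent.SGV.SOL_helper52

set_option autoImplicit false

/-! MP_fff3e1_lc: universal words of parallel rounds exist for every `Δ` (idea rows 3525, 3446). -/

namespace Pool.Agent.SGV

theorem all_tZER : tZER := pf_tZER pf_tSUM pf_tSTE pf_tSTN pf_tFRZ pf_tBAL pf_tLET

theorem all_tMAI : tMAI := pf_tMAI pf_tSUM pf_tBAL pf_tSOL_52 pf_tDEL_52 all_tZER

/-- for every `Δ` there is a universal word -/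
theorem univ_all (Δ : ℕ) : ∃ w : List (Fin Δ → Fin Δ), Pool.Agent.SGM.UnivP Δ w :=
  pf_tUNI pf_tWIN_52 all_tMAI Δ

end Pool.Agent.SGV
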