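import Pool.Agent.SGV.SUM

set_option autoImplicit false

/-! MP_fff3e1_lc, universal words: the balanced pairing of the pins of one letter. -/

namespace Pool.Agent.SGV

open Pool.Agent.SGM

variable {ι : Type} {Δ : ℕ}

/-- numbering of a finite set -/
lemma exists_enum [Nonempty ι] (A : Finset ι) : ∃ (f : ι → ℕ) (g : ℕ → ι),
    (∀ x ∈ A, f x < A.card ∧ g (f x) = x) ∧ (∀ r < A.card, g r ∈ A ∧ f (g r) = r) := by
  classical
  obtain ⟨x0⟩ := ‹Nonempty ι›
  let e := A.equivFin
  refine ⟨fun x => if h : x ∈ A then (e ⟨x, h⟩ : ℕ) else 0,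
    fun r => if h : r < A.card then (e.symm ⟨r, h⟩ : ι) else x0, ?_, ?_⟩
  · intro x hx
    have h1 : (e ⟨x, hx⟩ : ℕ) < A.card := (e ⟨x, hx⟩).2
    refine ⟨by simp only [hx, dif_pos]; exact h1, ?_⟩
    simp only [hx, dif_pos, h1, Fin.eta, Equiv.symm_apply_apply]
  · intro r hr
    have h1 : (e.symm ⟨r, hr⟩ : ι) ∈ A := (e.symm ⟨r, hr⟩).2
    refine ⟨by simp only [hr, dif_pos]; exact h1, ?_⟩
    simp only [hr, dif_pos, h1, Subtype.coe_eta, Equiv.apply_symm_apply]

/-- the sets number `κ ∈ K` which have a pin at `k` -/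
def PinAt (K : Finset ι) (τ : Fin Δ → Fin Δ) (M : ι → Finset (Fin Δ)) (k : Fin Δ) : Finset ι :=
  K.filter fun κ => k ∈ M κ ∧ τ k ∉ M κ

lemma mem_pinAt {K : Finset ι} {τ : Fin Δ → Fin Δ} {M : ι → Finset (Fin Δ)} {k : Fin Δ}
    {κ : ι} : κ ∈ PinAt K τ M k ↔ κ ∈ K ∧ k ∈ M κ ∧ τ k ∉ M κ := by
  unfold PinAt
  rw [Finset.mem_filter]

/-- the number of pins on the two sides of a pair -/
lemma card_pinAt {τ : Fin Δ → Fin Δ} (hτ : ∀ k, τ (τ k) = k) (K : Finset ι)
    (M : ι → Finset (Fin Δ)) (k : Fin Δ) :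
    (PinAt K τ M k).card + dgr K M (τ k) = (PinAt K τ M (τ k)).card + dgr K M k := by
  classical
  rw [dgr_sum, dgr_sum]
  unfold PinAt
  rw [Finset.card_filter, Finset.card_filter, ← Finset.sum_add_distrib,
    ← Finset.sum_add_distrib]
  apply Finset.sum_congr rfl
  intro κ _
  rw [hτ]
  by_cases h1 : k ∈ M κ <;> by_cases h2 : τ k ∈ M κ <;> simp [h1, h2]

/-- `q` pairs pins at `k` with pins at `τ k`; the pins fixed by `q` are all on one side -/
structure Bal (K : Finset ι) (τ : Fin Δ → Fin Δ) (M : ι → Finset (Fin Δ))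
    (q : ι × Fin Δ → ι × Fin Δ) : Prop where
  inv : ∀ p, q (q p) = p
  mem : ∀ p, q p ≠ p → p.1 ∈ PinAt K τ M p.2
  snd : ∀ p, q p ≠ p → (q p).2 = τ p.2

open Classical in
/-- the surplus pins at `k` -/
noncomputable def Sur (K : Finset ι) (τ : Fin Δ → Fin Δ) (M : ι → Finset (Fin Δ))
    (q : ι × Fin Δ → ι × Fin Δ) (k : Fin Δ) : Finset ι :=
  (PinAt K τ M k).filter fun κ => q (κ, k) = (κ, k)

lemma mem_sur {K : Finset ι} {τ : Fin Δ → Fin Δ} {M : ι → Finset (Fin Δ)}
    {q : ι × Fin Δ → ι × Fin Δ} {k : Fin Δ} {κ : ι} :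
    κ ∈ Sur K τ M q k ↔ (κ ∈ K ∧ k ∈ M κ ∧ τ k ∉ M κ) ∧ q (κ, k) = (κ, k) := by
  classical
  unfold Sur
  rw [Finset.mem_filter, mem_pinAt]

/-- the balanced pairing -/
theorem exists_bal (K : Finset ι) {τ : Fin Δ → Fin Δ} (hτ : ∀ k, τ (τ k) = k)
    (M : ι → Finset (Fin Δ)) : ∃ q : ι × Fin Δ → ι × Fin Δ, Bal K τ M q ∧
      ∀ k, (Sur K τ M q k).card = dgr K M k - dgr K M (τ k) := by
  classical
  rcases isEmpty_or_nonempty ι with hE | hN
  · refine ⟨id, ⟨fun p => rfl, fun p h => (h rfl).elim, fun p h => (h rfl).elim⟩, fun k => ?_⟩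
    have h0 : K = ∅ := Finset.eq_empty_of_isEmpty K
    subst h0
    simp [Sur, PinAt, dgr]
  choose f g hf hg using fun k => exists_enum (PinAt K τ M k)
  let c : ι × Fin Δ → Prop := fun p =>
    p.1 ∈ PinAt K τ M p.2 ∧ f p.2 p.1 < (PinAt K τ M (τ p.2)).card
  let q : ι × Fin Δ → ι × Fin Δ := fun p => if c p then (g (τ p.2) (f p.2 p.1), τ p.2) else p
  have hcne : ∀ p, c p → τ p.2 ≠ p.2 := by
    intro p hp h
    have := (mem_pinAt.1 hp.1).2
    rw [h] at this
    exact this.2 this.1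
  have hq1 : ∀ p, c p → q p = (g (τ p.2) (f p.2 p.1), τ p.2) := fun p hp => if_pos hp
  have hq0 : ∀ p, ¬ c p → q p = p := fun p hp => if_neg hp
  have hcq : ∀ p, c p → c (q p) := by
    intro p hp
    rw [hq1 p hp]
    obtain ⟨h1, h2⟩ := hg (τ p.2) _ hp.2
    refine ⟨h1, ?_⟩
    show f (τ p.2) (g (τ p.2) (f p.2 p.1)) < (PinAt K τ M (τ (τ p.2))).card
    rw [h2, hτ]
    exact (hf p.2 p.1 hp.1).1
  have hfix : ∀ p, q p = p ↔ ¬ c p := by
    intro p
    constructor
    · intro h hp
      have h2 := congrArg Prod.snd h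
      rw [hq1 p hp] at h2
      exact hcne p hp h2
    · exact hq0 p
  have hB : Bal K τ M q := by
    refine ⟨?_, ?_, ?_⟩
    · intro p
      by_cases hp : c p
      · rw [hq1 (q p) (hcq p hp), hq1 p hp]
        obtain ⟨h1, h2⟩ := hg (τ p.2) _ hp.2
        show (g (τ (τ p.2)) (f (τ p.2) (g (τ p.2) (f p.2 p.1))), τ (τ p.2)) = p
        rw [h2, hτ, (hf p.2 p.1 hp.1).2]
      · rw [hq0 p hp, hq0 p hp]
    · intro p hp
      have : c p := by
        by_contra h
        exact hp (hq0 p h)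
      exact this.1
    · intro p hp
      have : c p := by
        by_contra h
        exact hp (hq0 p h)
      rw [hq1 p this]
  refine ⟨q, hB, fun k => ?_⟩
  have hcard : (Sur K τ M q k).card =
      (PinAt K τ M k).card - (PinAt K τ M (τ k)).card := by
    rw [← Nat.card_Ico]
    apply Finset.card_bij' (fun κ _ => f k κ) (fun r _ => g k r)
    · intro κ hκ
      unfold Sur at hκ
      rw [Finset.mem_filter, hfix] at hκ
      rw [Finset.mem_Ico]
      refine ⟨?_, (hf k κ hκ.1).1⟩
      by_contra h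
      exact hκ.2 ⟨hκ.1, not_le.1 h⟩
    · intro r hr
      rw [Finset.mem_Ico] at hr
      obtain ⟨h1, h2⟩ := hg k r hr.2
      unfold Sur
      rw [Finset.mem_filter, hfix]
      refine ⟨h1, fun h => ?_⟩
      have h3 : f k (g k r) < (PinAt K τ M (τ k)).card := h.2
      rw [h2] at h3
      omega
    · intro κ hκ
      unfold Sur at hκ
      rw [Finset.mem_filter] at hκ
      exact (hf k κ hκ.1).2
    · intro r hr
      rw [Finset.mem_Ico] at hr
      exact (hg k r hr.2).2
  have := card_pinAt hτ K M k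
  omega

open Classical in
/-- the number of surplus pins at `k` which are flipped -/
noncomputable def sf (K : Finset ι) (τ : Fin Δ → Fin Δ) (M : ι → Finset (Fin Δ))
    (q : ι × Fin Δ → ι × Fin Δ) (X : Set (ι × Fin Δ)) (k : Fin Δ) : ℕ :=
  ((Sur K τ M q k).filter fun κ => (κ, k) ∈ X).card

/-- the degrees after a letter with balanced play -/
theorem dgr_bal {K : Finset ι} {τ : Fin Δ → Fin Δ} (hτ : ∀ k, τ (τ k) = k)
    {M : ι → Finset (Fin Δ)} {q : ι × Fin Δ → ι × Fin Δ} (hq : Bal K τ M q)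
    (X : Set (ι × Fin Δ)) (hX : ∀ p, q p ≠ p → p ∈ X → q p ∈ X) (k : Fin Δ) :
    dgr K (flp τ M X) k + sf K τ M q X k = dgr K M k + sf K τ M q X (τ k) := by
  classical
  -- the matched pins
  let m : Fin Δ → Finset ι := fun k =>
    (PinAt K τ M k).filter fun κ => q (κ, k) ≠ (κ, k) ∧ (κ, k) ∈ X
  have hsplit : ∀ k, (K.filter fun κ => (k ∈ M κ ∧ τ k ∉ M κ) ∧ (κ, k) ∈ X).card =
      sf K τ M q X k + (m k).card := by
    intro k
    unfold sf
    rw [← Finset.card_union_of_disjoint]
    · congr 1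
      ext κ
      simp only [Finset.mem_filter, Finset.mem_union, mem_sur, mem_pinAt, m]
      tauto
    · rw [Finset.disjoint_left]
      intro κ h1 h2
      simp only [Finset.mem_filter, mem_sur, m] at h1 h2
      exact h2.2.1 h1.1.2
  have hm : (m k).card = (m (τ k)).card := by
    apply Finset.card_bij' (fun κ _ => (q (κ, k)).1) (fun κ _ => (q (κ, τ k)).1)
    · intro κ hκ
      simp only [Finset.mem_filter, m] at hκ
      have e : q (κ, k) = ((q (κ, k)).1, τ k) := by
        ext1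
        · rfl
        · exact hq.snd _ hκ.2.1
      have hne : q (q (κ, k)) ≠ q (κ, k) := by
        rw [hq.inv]
        exact fun h => hκ.2.1 h.symm
      have hmem := hq.mem _ hne
      rw [e] at hmem
      simp only [Finset.mem_filter, m]
      refine ⟨hmem, ?_, ?_⟩
      · rw [← e]
        exact hne
      · rw [← e]
        exact hX _ hκ.2.1 hκ.2.2
    · intro κ hκ
      simp only [Finset.mem_filter, m] at hκ
      have e : q (κ, τ k) = ((q (κ, τ k)).1, k) := by
        ext1
        · rfl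
        · rw [hq.snd _ hκ.2.1]
          exact hτ k
      have hne : q (q (κ, τ k)) ≠ q (κ, τ k) := by
        rw [hq.inv]
        exact fun h => hκ.2.1 h.symm
      have hmem := hq.mem _ hne
      rw [e] at hmem
      simp only [Finset.mem_filter, m]
      refine ⟨hmem, ?_, ?_⟩
      · rw [← e]
        exact hne
      · rw [← e]
        exact hX _ hκ.2.1 hκ.2.2
    · intro κ hκ
      simp only [Finset.mem_filter, m] at hκ
      have e : q (κ, k) = ((q (κ, k)).1, τ k) := by
        ext1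
        · rfl
        · exact hq.snd _ hκ.2.1
      show (q ((q (κ, k)).1, τ k)).1 = κ
      rw [← e, hq.inv]
    · intro κ hκ
      simp only [Finset.mem_filter, m] at hκ
      have e : q (κ, τ k) = ((q (κ, τ k)).1, k) := by
        ext1
        · rfl
        · rw [hq.snd _ hκ.2.1]
          exact hτ k
      show (q ((q (κ, τ k)).1, k)).1 = κ
      rw [← e, hq.inv]
  have h1 := dgr_flp hτ K M X k
  have h2 := hsplit k
  have h3 := hsplit (τ k)
  rw [hτ] at h3
  omega

/-- the outcome of balanced play -/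
theorem outcome {K : Finset ι} {τ : Fin Δ → Fin Δ} (hτ : ∀ k, τ (τ k) = k)
    {M : ι → Finset (Fin Δ)} {q : ι × Fin Δ → ι × Fin Δ} (hq : Bal K τ M q)
    (hc : ∀ k, (Sur K τ M q k).card = dgr K M k - dgr K M (τ k))
    (X : Set (ι × Fin Δ)) (hX : ∀ p, q p ≠ p → p ∈ X → q p ∈ X) :
    phi K (flp τ M X) < phi K M ∨ ∃ σ, Mv τ σ ∧
      (∀ k, dgr K (flp τ M X) k = dgr K M (σ k)) ∧
      (∀ k, σ k ≠ k → ∀ κ ∈ Sur K τ M q k, (κ, k) ∈ X) ∧
      (∀ k, σ k = k → ∀ κ ∈ Sur K τ M q k, (κ, k) ∉ X) ∧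
      ∀ k, dgr K M k = dgr K M (τ k) → σ k = k := by
  classical
  have hd := dgr_bal hτ hq X hX
  have hs : ∀ k, sf K τ M q X k ≤ dgr K M k - dgr K M (τ k) := by
    intro k
    rw [← hc]
    exact Finset.card_filter_le _ _
  by_cases hall : ∀ k, sf K τ M q X k = 0 ∨ sf K τ M q X k = dgr K M k - dgr K M (τ k)
  · right
    refine ⟨fun k => if sf K τ M q X k ≠ 0 ∨ sf K τ M q X (τ k) ≠ 0 then τ k else k,
      ⟨?_, ?_⟩, ?_, ?_, ?_, ?_⟩
    · intro k
      by_cases h : sf K τ M q X k ≠ 0 ∨ sf K τ M q X (τ k) ≠ 0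
      · have h' : sf K τ M q X (τ k) ≠ 0 ∨ sf K τ M q X (τ (τ k)) ≠ 0 := by
          rw [hτ]
          exact h.symm
        simp only [if_pos h]
        rw [if_pos h', hτ]
      · simp only [if_neg h]
    · intro k
      by_cases h : sf K τ M q X k ≠ 0 ∨ sf K τ M q X (τ k) ≠ 0
      · right
        simp only [if_pos h]
      · left
        simp only [if_neg h]
    · intro k
      have e1 := hd k
      have e2 := hs k
      have e3 := hs (τ k)
      rw [hτ] at e3
      have e4 := hall k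
      have e5 := hall (τ k)
      rw [hτ] at e5
      by_cases h : sf K τ M q X k ≠ 0 ∨ sf K τ M q X (τ k) ≠ 0
      · simp only [if_pos h]
        omega
      · simp only [if_neg h]
        omega
    · intro k hk κ hκ
      have hcase : sf K τ M q X k ≠ 0 ∨ sf K τ M q X (τ k) ≠ 0 := by
        by_contra h
        simp only [if_neg h] at hk
        exact hk rfl
      have hpos : 0 < (Sur K τ M q k).card := Finset.card_pos.2 ⟨κ, hκ⟩
      have e3 := hs (τ k)
      rw [hτ] at e3
      have hck := hc k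
      have h0 : sf K τ M q X k ≠ 0 := by omega
      have hfull : sf K τ M q X k = (Sur K τ M q k).card := by
        rw [hck]
        exact (hall k).resolve_left h0
      unfold sf at hfull
      have := Finset.filter_card_eq hfull κ hκ
      exact this
    · intro k hk κ hκ hκX
      have h0 : sf K τ M q X k ≠ 0 := by
        unfold sf
        rw [Finset.card_ne_zero]
        exact ⟨κ, Finset.mem_filter.2 ⟨hκ, hκX⟩⟩
      have hcase : sf K τ M q X k ≠ 0 ∨ sf K τ M q X (τ k) ≠ 0 := Or.inl h0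
      simp only [if_pos hcase] at hk
      have := (mem_sur.1 hκ).1
      rw [hk] at this
      exact this.2.2 this.2.1
    · intro k hk
      have e2 := hs k
      have e3 := hs (τ k)
      rw [hτ] at e3
      have h : ¬ (sf K τ M q X k ≠ 0 ∨ sf K τ M q X (τ k) ≠ 0) := by omega
      simp only [if_neg h]
  · left
    push Not at hall
    obtain ⟨k0, h0, h1⟩ := hall
    have htwice : ∀ d : Fin Δ → ℕ, 2 * ∑ k, d k ^ 2 = ∑ k, (d k ^ 2 + d (τ k) ^ 2) := by
      intro d
      rw [Finset.sum_add_distrib, two_mul]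
      congr 1
      let e : Equiv.Perm (Fin Δ) := ⟨τ, τ, hτ, hτ⟩
      exact (Equiv.sum_comp e fun k => d k ^ 2).symm
    have hle : ∀ k, dgr K (flp τ M X) k ^ 2 + dgr K (flp τ M X) (τ k) ^ 2 ≤
        dgr K M k ^ 2 + dgr K M (τ k) ^ 2 ∧
        (sf K τ M q X k ≠ 0 → sf K τ M q X k ≠ dgr K M k - dgr K M (τ k) →
          dgr K (flp τ M X) k ^ 2 + dgr K (flp τ M X) (τ k) ^ 2 <
          dgr K M k ^ 2 + dgr K M (τ k) ^ 2) := by
      intro k
      have e1 := hd k
      have e1' := hd (τ k)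
      rw [hτ] at e1'
      have e2 := hs k
      have e3 := hs (τ k)
      rw [hτ] at e3
      generalize dgr K (flp τ M X) k = a' at *
      generalize dgr K (flp τ M X) (τ k) = b' at *
      generalize dgr K M k = a at *
      generalize dgr K M (τ k) = b at *
      generalize sf K τ M q X k = s at *
      generalize sf K τ M q X (τ k) = t at *
      rcases le_total a b with hab | hab
      · have hs0 : s = 0 := by omega
        obtain ⟨u, rfl⟩ : ∃ u, b = a + t + u := ⟨b - a - t, by omega⟩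
        have ha' : a' = a + t := by omega
        have hb' : b' = a + u := by omega
        subst ha' hb' hs0
        refine ⟨by nlinarith [Nat.zero_le (t * u)], fun h => (h rfl).elim⟩
      · have ht0 : t = 0 := by omega
        obtain ⟨u, rfl⟩ : ∃ u, a = b + s + u := ⟨a - b - s, by omega⟩
        have ha' : a' = b + u := by omega
        have hb' : b' = b + s := by omega
        subst ha' hb' ht0
        refine ⟨by nlinarith [Nat.zero_le (s * u)], fun h h' => ?_⟩
        have hu : 0 < u := by omega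
        have hs' : 0 < s := by omega
        nlinarith [Nat.mul_pos hs' hu]
    have hlt : ∑ k, (dgr K (flp τ M X) k ^ 2 + dgr K (flp τ M X) (τ k) ^ 2) <
        ∑ k, (dgr K M k ^ 2 + dgr K M (τ k) ^ 2) :=
      Finset.sum_lt_sum (fun k _ => (hle k).1) ⟨k0, Finset.mem_univ _, (hle k0).2 h0 h1⟩
    rw [← htwice, ← htwice] at hlt
    unfold phi
    omega

end Pool.Agent.SGV
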