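import Pool.Agent.SGV.DefsV

set_option autoImplicit false

/-! MP_fff3e1_lc, universal words for every `Δ`: matchings between two sets of the same size. -/

namespace Pool.Agent.SGV

namespace CYM_

variable {Δ : ℕ}

/-- the matching given by a bijection -/
noncomputable def mt {A B : Finset (Fin Δ)} (e : A ≃ B) (k : Fin Δ) : Fin Δ :=
  if h : k ∈ A then (e ⟨k, h⟩ : Fin Δ)
  else if h : k ∈ B then (e.symm ⟨k, h⟩ : Fin Δ) else k

lemma mt_left {A B : Finset (Fin Δ)} (e : A ≃ B) {k : Fin Δ} (h : k ∈ A) :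
    mt e k = e ⟨k, h⟩ := by
  unfold mt
  rw [dif_pos h]

lemma mt_right {A B : Finset (Fin Δ)} (hd : Disjoint A B) (e : A ≃ B) {k : Fin Δ}
    (h : k ∈ B) : mt e k = e.symm ⟨k, h⟩ := by
  have h' : k ∉ A := fun h1 => (Finset.disjoint_left.1 hd h1 h)
  unfold mt
  rw [dif_neg h', dif_pos h]

lemma mt_off {A B : Finset (Fin Δ)} (e : A ≃ B) {k : Fin Δ} (h : k ∉ A ∪ B) :
    mt e k = k := by
  rw [Finset.mem_union, not_or] at h
  unfold mt
  rw [dif_neg h.1, dif_neg h.2]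

lemma mt_mt {A B : Finset (Fin Δ)} (hd : Disjoint A B) (e : A ≃ B) (k : Fin Δ) :
    mt e (mt e k) = k := by
  by_cases h : k ∈ A
  · rw [mt_left e h, mt_right hd e (e ⟨k, h⟩).2]
    simp
  · by_cases h' : k ∈ B
    · rw [mt_right hd e h', mt_left e (e.symm ⟨k, h'⟩).2]
      simp
    · have h1 : k ∉ A ∪ B := by
        rw [Finset.mem_union, not_or]
        exact ⟨h, h'⟩
      rw [mt_off e h1, mt_off e h1]

end CYM_

open CYM_ in
theorem pf_tCYM : tCYM := by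
  classical
  intro Δ A B hd hc
  refine ⟨(Finset.univ : Finset (A ≃ B)).toList.map fun e => mt e, ?_, ?_, ?_, ?_, ?_⟩
  · intro τ hτ k
    obtain ⟨e, -, rfl⟩ := List.mem_map.1 hτ
    exact mt_mt hd e k
  · intro τ hτ v hv
    obtain ⟨e, -, rfl⟩ := List.mem_map.1 hτ
    rw [mt_left e hv]
    exact (e ⟨v, hv⟩).2
  · intro τ hτ v hv
    obtain ⟨e, -, rfl⟩ := List.mem_map.1 hτ
    rw [mt_right hd e hv]
    exact (e.symm ⟨v, hv⟩).2
  · intro τ hτ k hk
    obtain ⟨e, -, rfl⟩ := List.mem_map.1 hτ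
    exact mt_off e hk
  · intro a ha b hb
    have e0 : A ≃ B := Finset.equivOfCardEq hc
    refine ⟨mt (e0.trans (Equiv.swap (e0 ⟨a, ha⟩) ⟨b, hb⟩)), List.mem_map.2
      ⟨_, Finset.mem_toList.2 (Finset.mem_univ _), rfl⟩, ?_⟩
    rw [mt_left _ ha]
    simp

end Pool.Agent.SGV
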