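import Pool.Agent.SGV.Defs

set_option autoImplicit false

/-! MP_fff3e1_lc, row 3525: one letter of the game.  Balanced block: in every pair `k, τ k` of the
letter the pins are tied by ranks, the surplus pins (only on the side of the larger degree) stay
free for one more block `E`. -/

namespace Pool.Agent.SGV

open Pool.Agent.SGM

variable {ι : Type} {Δ : ℕ}

open Classical in
/-- number of flipped surplus pins at the colour `k` -/
noncomputable def cnt (U : Fin Δ → Finset ι) (X : Set (ι × Fin Δ)) (k : Fin Δ) : ℕ :=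
  ((U k).filter fun κ => (κ, k) ∈ X).card

namespace Core

/-- numbers of the elements of a finite set -/
theorem rank (A : Finset ι) : ∃ (rk : ι → ℕ) (nth : ι → ℕ → ι), (∀ κ ∈ A, rk κ < A.card) ∧
    (∀ κ0, ∀ κ ∈ A, nth κ0 (rk κ) = κ) ∧
    (∀ κ0 r, r < A.card → nth κ0 r ∈ A ∧ rk (nth κ0 r) = r) := by
  classical
  let e := A.equivFin
  refine ⟨fun κ => if h : κ ∈ A then (e ⟨κ, h⟩ : ℕ) else 0,
    fun κ0 r => if h : r < A.card then (e.symm ⟨r, h⟩ : ι) else κ0, ?_, ?_, ?_⟩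
  · intro κ hκ
    simp only [hκ, dif_pos]
    exact (e ⟨κ, hκ⟩).2
  · intro κ0 κ hκ
    have h1 : (e ⟨κ, hκ⟩ : ℕ) < A.card := (e ⟨κ, hκ⟩).2
    simp only [hκ, dif_pos, h1, Fin.eta, Equiv.symm_apply_apply]
  · intro κ0 r hr
    have h1 : (e.symm ⟨r, hr⟩ : ι) ∈ A := (e.symm ⟨r, hr⟩).2
    simp only [hr, dif_pos, h1, Subtype.coe_eta, Equiv.apply_symm_apply, and_self]

/-- the pins at the colour `k` -/
def A (K : Finset ι) (τ : Fin Δ → Fin Δ) (M : ι → Finset (Fin Δ)) (k : Fin Δ) : Finset ι :=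
  K.filter fun κ => k ∈ M κ ∧ τ k ∉ M κ

theorem mem_A {K : Finset ι} {τ : Fin Δ → Fin Δ} {M : ι → Finset (Fin Δ)} {k : Fin Δ} {κ : ι} :
    κ ∈ A K τ M k ↔ κ ∈ K ∧ k ∈ M κ ∧ τ k ∉ M κ := by
  simp [A]

/-- flipped pins at the colour `k` -/
noncomputable def NX (K : Finset ι) (τ : Fin Δ → Fin Δ) (M : ι → Finset (Fin Δ))
    (X : Set (ι × Fin Δ)) (k : Fin Δ) : ℕ :=
  open Classical in ((A K τ M k).filter fun κ => (κ, k) ∈ X).card

theorem A_sub (K : Finset ι) (τ : Fin Δ → Fin Δ) (M : ι → Finset (Fin Δ))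
    (hτ : ∀ k, τ (τ k) = k) (k : Fin Δ) :
    (A K τ M k).card + dgr K M (τ k) = (A K τ M (τ k)).card + dgr K M k := by
  classical
  have h1 : ∀ j, dgr K M j = (A K τ M j).card +
      (K.filter fun κ => j ∈ M κ ∧ τ j ∈ M κ).card := by
    intro j
    unfold dgr A
    rw [← Finset.card_union_of_disjoint]
    · congr 1
      ext κ
      simp only [Finset.mem_filter, Finset.mem_union]
      tauto
    · rw [Finset.disjoint_filter]
      tauto
  have h2 : (K.filter fun κ => k ∈ M κ ∧ τ k ∈ M κ) =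
      (K.filter fun κ => τ k ∈ M κ ∧ τ (τ k) ∈ M κ) := by
    rw [hτ k]
    ext κ
    simp only [Finset.mem_filter]
    tauto
  rw [h1 k, h1 (τ k), h2]
  omega

theorem mem_flp {τ : Fin Δ → Fin Δ} {M : ι → Finset (Fin Δ)} {X : Set (ι × Fin Δ)} {κ : ι}
    {k : Fin Δ} (hτ : ∀ k, τ (τ k) = k) :
    k ∈ flp τ M X κ ↔ (k ∈ M κ ∧ ¬ ((κ, k) ∈ X ∧ τ k ∉ M κ)) ∨
      (k ∉ M κ ∧ τ k ∈ M κ ∧ (κ, τ k) ∈ X) := by
  classical
  unfold flp
  rw [Finset.mem_image]
  constructor
  · rintro ⟨j, hj, h⟩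
    split_ifs at h with h1
    · subst h
      rw [hτ j]
      exact Or.inr ⟨h1.2, hj, h1.1⟩
    · subst h
      exact Or.inl ⟨hj, h1⟩
  · rintro (⟨h1, h2⟩ | ⟨h1, h2, h3⟩)
    · exact ⟨k, h1, by rw [if_neg h2]⟩
    · exact ⟨τ k, h2, by rw [hτ k, if_pos ⟨h3, h1⟩]⟩

/-- new degrees -/
theorem dgr_flp (K : Finset ι) (τ : Fin Δ → Fin Δ) (M : ι → Finset (Fin Δ))
    (hτ : ∀ k, τ (τ k) = k) (X : Set (ι × Fin Δ)) (k : Fin Δ) :
    dgr K (flp τ M X) k + NX K τ M X k = dgr K M k + NX K τ M X (τ k) := by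
  classical
  have h1 : dgr K (flp τ M X) k =
      (K.filter fun κ => k ∈ M κ ∧ ¬ ((κ, k) ∈ X ∧ τ k ∉ M κ)).card +
      (K.filter fun κ => k ∉ M κ ∧ τ k ∈ M κ ∧ (κ, τ k) ∈ X).card := by
    unfold dgr
    rw [← Finset.card_union_of_disjoint]
    · congr 1
      ext κ
      simp only [Finset.mem_filter, Finset.mem_union, mem_flp hτ]
      tauto
    · rw [Finset.disjoint_filter]
      tauto
  have h2 : dgr K M k = (K.filter fun κ => k ∈ M κ ∧ ¬ ((κ, k) ∈ X ∧ τ k ∉ M κ)).card +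
      NX K τ M X k := by
    unfold dgr NX A
    rw [← Finset.card_union_of_disjoint]
    · congr 1
      ext κ
      simp only [Finset.mem_filter, Finset.mem_union]
      tauto
    · rw [Finset.disjoint_left]
      intro κ
      simp only [Finset.mem_filter]
      tauto
  have h3 : NX K τ M X (τ k) = (K.filter fun κ => k ∉ M κ ∧ τ k ∈ M κ ∧ (κ, τ k) ∈ X).card := by
    unfold NX A
    congr 1
    ext κ
    simp only [Finset.mem_filter, hτ k]
    tauto
  omega

/-- the matching of the pins and the surplus pins -/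
theorem mat (K : Finset ι) (τ : Fin Δ → Fin Δ) (M : ι → Finset (Fin Δ))
    (hτ : ∀ k, τ (τ k) = k) : ∃ (q : ι × Fin Δ → ι × Fin Δ) (U : Fin Δ → Finset ι),
    (∀ p, q (q p) = p) ∧
    (∀ p, q p ≠ p → p.1 ∈ A K τ M p.2 ∧ (q p).1 ∈ A K τ M (τ p.2) ∧ (q p).2 = τ p.2) ∧
    (∀ k, U k ⊆ A K τ M k) ∧
    (∀ k, ∀ κ ∈ A K τ M k, κ ∈ U k ↔ q (κ, k) = (κ, k)) ∧
    (∀ k, (U k).card = (A K τ M k).card - (A K τ M (τ k)).card) := by
  classical
  choose rk nth h1 h2 h3 using fun k => rank (A K τ M k)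
  have hne : ∀ k, ∀ κ ∈ A K τ M k, τ k ≠ k := by
    intro k κ hκ h
    rw [mem_A, h] at hκ
    exact hκ.2.2 hκ.2.1
  let q : ι × Fin Δ → ι × Fin Δ := fun p =>
    if p.1 ∈ A K τ M p.2 ∧ rk p.2 p.1 < (A K τ M (τ p.2)).card then
      (nth (τ p.2) p.1 (rk p.2 p.1), τ p.2) else p
  have hq : ∀ p, q p = if p.1 ∈ A K τ M p.2 ∧ rk p.2 p.1 < (A K τ M (τ p.2)).card then
      (nth (τ p.2) p.1 (rk p.2 p.1), τ p.2) else p := fun p => rfl
  let U : Fin Δ → Finset ι := fun k =>
    (A K τ M k).filter fun κ => (A K τ M (τ k)).card ≤ rk k κ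
  refine ⟨q, U, ?_, ?_, ?_, ?_, ?_⟩
  · rintro ⟨κ, k⟩
    by_cases h : κ ∈ A K τ M k ∧ rk k κ < (A K τ M (τ k)).card
    · have e1 : q (κ, k) = (nth (τ k) κ (rk k κ), τ k) := by rw [hq]; exact if_pos h
      obtain ⟨h4, h5⟩ := h3 (τ k) κ (rk k κ) h.2
      rw [e1, hq]
      have h6 : rk k κ < (A K τ M (τ (τ k))).card := by rw [hτ k]; exact h1 k κ h.1
      rw [if_pos (by exact ⟨h4, by rw [h5]; exact h6⟩)]
      simp only [hτ k, h5]
      rw [h2 k _ κ h.1]
    · have e1 : q (κ, k) = (κ, k) := by rw [hq]; exact if_neg h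
      rw [e1, e1]
  · rintro ⟨κ, k⟩ h
    by_cases h' : κ ∈ A K τ M k ∧ rk k κ < (A K τ M (τ k)).card
    · have e1 : q (κ, k) = (nth (τ k) κ (rk k κ), τ k) := by rw [hq]; exact if_pos h'
      rw [e1]
      exact ⟨h'.1, (h3 (τ k) κ (rk k κ) h'.2).1, rfl⟩
    · exact absurd (by rw [hq]; exact if_neg h') h
  · intro k
    exact Finset.filter_subset _ _
  · intro k κ hκ
    show κ ∈ (A K τ M k).filter _ ↔ _
    rw [Finset.mem_filter]
    by_cases h' : κ ∈ A K τ M k ∧ rk k κ < (A K τ M (τ k)).card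
    · have e1 : q (κ, k) = (nth (τ k) κ (rk k κ), τ k) := by rw [hq]; exact if_pos h'
      rw [e1]
      constructor
      · intro h
        exact absurd h'.2 (not_lt.2 h.2)
      · intro h
        exact absurd (congrArg Prod.snd h) (hne k κ hκ)
    · have e1 : q (κ, k) = (κ, k) := by rw [hq]; exact if_neg h'
      rw [e1]
      simp only [iff_true]
      exact ⟨hκ, not_lt.1 fun h => h' ⟨hκ, h⟩⟩
  · intro k
    show ((A K τ M k).filter fun κ => (A K τ M (τ k)).card ≤ rk k κ).card = _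
    have e1 : ((A K τ M k).filter fun κ => (A K τ M (τ k)).card ≤ rk k κ).card =
        (Finset.Ico (A K τ M (τ k)).card (A K τ M k).card).card := by
      refine Finset.card_bij (fun κ _ => rk k κ) ?_ ?_ ?_
      · intro κ hκ
        rw [Finset.mem_filter] at hκ
        rw [Finset.mem_Ico]
        exact ⟨hκ.2, h1 k κ hκ.1⟩
      · intro κ hκ κ' hκ' h
        rw [Finset.mem_filter] at hκ hκ'
        rw [← h2 k κ κ hκ.1, ← h2 k κ κ' hκ'.1, h]
      · intro r hr
        rw [Finset.mem_Ico] at hr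
        by_cases hA : (A K τ M k).Nonempty
        · obtain ⟨a, ha⟩ := hA
          obtain ⟨h4, h5⟩ := h3 k a r hr.2
          exact ⟨nth k a r, by rw [Finset.mem_filter]; exact ⟨h4, by rw [h5]; exact hr.1⟩, h5⟩
        · rw [Finset.not_nonempty_iff_eq_empty] at hA
          rw [hA] at hr
          simp at hr
    rw [e1, Nat.card_Ico]

/-- matched flipped pins: the same number at `k` and at `τ k` -/
theorem mcard (K : Finset ι) (τ : Fin Δ → Fin Δ) (M : ι → Finset (Fin Δ))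
    (q : ι × Fin Δ → ι × Fin Δ) (X : Set (ι × Fin Δ))
    (hq : ∀ p, q (q p) = p)
    (hq2 : ∀ p, q p ≠ p → p.1 ∈ A K τ M p.2 ∧ (q p).1 ∈ A K τ M (τ p.2) ∧ (q p).2 = τ p.2)
    (hX : ∀ p, p ∈ X → q p ∈ X) (k : Fin Δ) [DecidablePred fun κ : ι => (κ, k) ∈ X ∧
      q (κ, k) ≠ (κ, k)] [DecidablePred fun κ : ι => (κ, τ k) ∈ X ∧
      q (κ, τ k) ≠ (κ, τ k)] :
    ((A K τ M k).filter fun κ => (κ, k) ∈ X ∧ q (κ, k) ≠ (κ, k)).card ≤
    ((A K τ M (τ k)).filter fun κ => (κ, τ k) ∈ X ∧ q (κ, τ k) ≠ (κ, τ k)).card := by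
  refine Finset.card_le_card_of_injOn (fun κ => (q (κ, k)).1) ?_ ?_
  · intro κ hκ
    have hκ' := Finset.mem_filter.1 hκ
    obtain ⟨h1, h2, h3⟩ := hκ'
    obtain ⟨h4, h5, h6⟩ := hq2 _ h3
    have h7 : ((q (κ, k)).1, τ k) = q (κ, k) := Prod.ext rfl h6.symm
    refine Finset.mem_filter.2 ⟨h5, ?_, ?_⟩
    · rw [h7]
      exact hX _ h2
    · rw [h7, hq]
      exact fun h => h3 h.symm
  · intro κ hκ κ' hκ' h
    have h1 := (Finset.mem_filter.1 hκ).2.2
    have h2 := (Finset.mem_filter.1 hκ').2.2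
    have h3 : q (κ, k) = q (κ', k) :=
      Prod.ext h ((hq2 _ h1).2.2.trans (hq2 _ h2).2.2.symm)
    have h4 := congrArg q h3
    rw [hq, hq] at h4
    exact congrArg Prod.fst h4

/-- degrees after a play which respects the matching -/
theorem count (K : Finset ι) (τ : Fin Δ → Fin Δ) (M : ι → Finset (Fin Δ))
    (hτ : ∀ k, τ (τ k) = k) (q : ι × Fin Δ → ι × Fin Δ) (X : Set (ι × Fin Δ))
    (U : Fin Δ → Finset ι) (hq : ∀ p, q (q p) = p)
    (hq2 : ∀ p, q p ≠ p → p.1 ∈ A K τ M p.2 ∧ (q p).1 ∈ A K τ M (τ p.2) ∧ (q p).2 = τ p.2)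
    (hU : ∀ k, U k ⊆ A K τ M k) (hU2 : ∀ k, ∀ κ ∈ A K τ M k, κ ∈ U k ↔ q (κ, k) = (κ, k))
    (hX : ∀ p, p ∈ X → q p ∈ X) (k : Fin Δ) :
    dgr K (flp τ M X) k + cnt U X k = dgr K M k + cnt U X (τ k) := by
  classical
  have h1 := dgr_flp K τ M hτ X k
  have h2 : ∀ j, NX K τ M X j = cnt U X j +
      ((A K τ M j).filter fun κ => (κ, j) ∈ X ∧ q (κ, j) ≠ (κ, j)).card := by
    intro j
    unfold NX cnt
    rw [← Finset.card_union_of_disjoint]
    · congr 1
      ext κ
      simp only [Finset.mem_filter, Finset.mem_union]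
      constructor
      · rintro ⟨h3, h4⟩
        by_cases h5 : q (κ, j) = (κ, j)
        · exact Or.inl ⟨(hU2 j κ h3).2 h5, h4⟩
        · exact Or.inr ⟨h3, h4, h5⟩
      · rintro (⟨h3, h4⟩ | ⟨h3, h4, _⟩)
        · exact ⟨hU j h3, h4⟩
        · exact ⟨h3, h4⟩
    · rw [Finset.disjoint_left]
      intro κ h3 h4
      rw [Finset.mem_filter] at h3 h4
      exact h4.2.2 ((hU2 j κ h4.1).1 h3.1)
  have h3 := mcard K τ M q X hq hq2 hX k
  have h4 := mcard K τ M q X hq hq2 hX (τ k)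
  simp only [hτ k] at h4
  have h5 := h2 k
  have h6 := h2 (τ k)
  omega

open Classical in
/-- the matching `q` together with the matching of `E` -/
noncomputable def aq (q : ι × Fin Δ → ι × Fin Δ) (E : Blk (ι × Fin Δ)) (p : ι × Fin Δ) :
    ι × Fin Δ :=
  if q p = p then E.q p else q p

theorem aq_pos {q : ι × Fin Δ → ι × Fin Δ} {E : Blk (ι × Fin Δ)} {p : ι × Fin Δ}
    (h : q p = p) : aq q E p = E.q p := if_pos h

theorem aq_neg {q : ι × Fin Δ → ι × Fin Δ} {E : Blk (ι × Fin Δ)} {p : ι × Fin Δ}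
    (h : q p ≠ p) : aq q E p = q p := if_neg h

/-- the balanced block together with a block on the surplus pins -/
noncomputable def add (q : ι × Fin Δ → ι × Fin Δ) (hq : ∀ p, q (q p) = p)
    (E : Blk (ι × Fin Δ)) (hE : E.Sup {p | q p = p}) : Blk (ι × Fin Δ) where
  q := aq q E
  n := E.n
  r := E.r
  q2 := by
    intro p
    by_cases h : q p = p
    · have h1 : q (E.q p) = E.q p := by
        by_contra h2
        have h3 := (hE (E.q p) h2).1
        rw [E.q2] at h3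
        rw [← h3] at h2
        exact h2 h
      rw [aq_pos h, aq_pos h1, E.q2]
    · have h1 : q (q p) ≠ q p := by
        rw [hq]
        exact fun h2 => h h2.symm
      rw [aq_neg h, aq_neg h1, hq]
  n2 := E.n2
  r3 := E.r3
  qn := by
    intro p h
    by_cases h1 : q p = p
    · rw [aq_pos h1] at h
      exact E.qn p h
    · exact (hE p h1).2.1
  qr := by
    intro p h
    by_cases h1 : q p = p
    · rw [aq_pos h1] at h
      exact E.qr p h
    · exact (hE p h1).2.2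
  nr := E.nr

theorem add_At {q : ι × Fin Δ → ι × Fin Δ} {hq : ∀ p, q (q p) = p} {E : Blk (ι × Fin Δ)}
    {hE : E.Sup {p | q p = p}} {X : Set (ι × Fin Δ)} (h : ∀ p, (add q hq E hE).At X p) :
    (∀ p, p ∈ X → q p ∈ X) ∧ ∀ p, E.At X p := by
  constructor
  · intro p hp
    by_cases h1 : q p = p
    · rw [h1]; exact hp
    · have h2 := (h p).1 hp
      change aq q E p ∈ X at h2
      rw [aq_neg h1] at h2
      exact h2
  · intro p
    refine ⟨?_, (h p).2.1, (h p).2.2⟩
    intro hp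
    by_cases h1 : q p = p
    · have h2 := (h p).1 hp
      change aq q E p ∈ X at h2
      rw [aq_pos h1] at h2
      exact h2
    · rw [(hE p h1).1]
      exact hp

theorem cnt_le (U : Fin Δ → Finset ι) (X : Set (ι × Fin Δ)) (k : Fin Δ) :
    cnt U X k ≤ (U k).card := by
  classical
  unfold cnt
  exact Finset.card_le_card (Finset.filter_subset _ _)

/-- potential of a balanced play -/
theorem pot (d d' s u : Fin Δ → ℕ) (τ : Fin Δ → Fin Δ) (hτ : ∀ k, τ (τ k) = k)
    (hd : ∀ k, d' k + s k = d k + s (τ k)) (hs : ∀ k, s k ≤ u k)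
    (hu : ∀ k, u k = d k - d (τ k)) :
    (∑ k, d' k ^ 2 < ∑ k, d k ^ 2) ∨ ∀ k, s k = 0 ∨ s k = u k := by
  have h1 : ∀ f : Fin Δ → ℕ, 2 * ∑ k, f k = ∑ k, (f k + f (τ k)) := by
    intro f
    rw [Finset.sum_add_distrib, two_mul]
    congr 1
    exact (Equiv.sum_comp (⟨τ, τ, hτ, hτ⟩ : Fin Δ ≃ Fin Δ) f).symm
  have h2 : ∀ k, d' k ^ 2 + d' (τ k) ^ 2 ≤ d k ^ 2 + d (τ k) ^ 2 ∧
      ((s k ≠ 0 ∧ s k ≠ u k) → d' k ^ 2 + d' (τ k) ^ 2 < d k ^ 2 + d (τ k) ^ 2) := by
    intro k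
    have e1 := hd k
    have e2 := hd (τ k)
    have e3 := hs k
    have e4 := hs (τ k)
    have e5 := hu k
    have e6 := hu (τ k)
    rw [hτ k] at e2 e6
    rcases le_total (d k) (d (τ k)) with h | h
    · have e7 : u k = 0 := by omega
      have e8 : s k = 0 := by omega
      obtain ⟨a, ha⟩ : ∃ a, d (τ k) = d k + s (τ k) + a := ⟨d (τ k) - d k - s (τ k), by omega⟩
      have e9 : d' k = d k + s (τ k) := by omega
      have e10 : d' (τ k) = d k + a := by omega
      constructor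
      · rw [e9, e10, ha]
        nlinarith [Nat.zero_le (a * s (τ k)), Nat.zero_le (d k)]
      · intro h'
        omega
    · have e7 : u (τ k) = 0 := by omega
      have e8 : s (τ k) = 0 := by omega
      obtain ⟨a, ha⟩ : ∃ a, d k = d (τ k) + s k + a := ⟨d k - d (τ k) - s k, by omega⟩
      have e9 : d' (τ k) = d (τ k) + s k := by omega
      have e10 : d' k = d (τ k) + a := by omega
      constructor
      · rw [e9, e10, ha]
        nlinarith [Nat.zero_le (a * s k), Nat.zero_le (d (τ k))]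
      · intro h'
        have e11 : 0 < a := by omega
        have e12 : 0 < s k := by omega
        rw [e9, e10, ha]
        nlinarith [Nat.mul_pos e11 e12, Nat.zero_le (d (τ k))]
  by_cases h3 : ∀ k, s k = 0 ∨ s k = u k
  · exact Or.inr h3
  · left
    push Not at h3
    obtain ⟨k, hk⟩ := h3
    have h4 : 2 * ∑ k, d' k ^ 2 < 2 * ∑ k, d k ^ 2 := by
      rw [h1, h1]
      exact Finset.sum_lt_sum (fun i _ => (h2 i).1) ⟨k, Finset.mem_univ k, (h2 k).2 hk⟩
    omega

end Core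

/-- one letter of the game: after the balanced block the surplus pins `U k` are free, the player
may choose one more block `E` on them.  Either the potential drops, or in every pair all surplus
pins or none are flipped (and then the two degrees are exchanged or kept). -/
theorem core (K : Finset ι) (τ : Fin Δ → Fin Δ) (M : ι → Finset (Fin Δ))
    (hτ : ∀ k, τ (τ k) = k) : ∃ U : Fin Δ → Finset ι,
    (∀ k, (U k).card = dgr K M k - dgr K M (τ k)) ∧
    ∀ (E : Blk (ι × Fin Δ)) (T : (ι → Finset (Fin Δ)) → Prop), E.Sup {p | p.1 ∈ U p.2} →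
      (∀ X : Set (ι × Fin Δ), (∀ p, E.At X p) →
        (phi K (flp τ M X) < phi K M ∨ ((∀ k, cnt U X k = 0 ∨ cnt U X k = (U k).card) ∧
          ∀ σ : Fin Δ → Fin Δ, Mv τ σ → (∀ k, 0 < (U k).card →
            (cnt U X k = 0 → σ k = k) ∧ (cnt U X k ≠ 0 → σ k = τ k)) →
            ∀ k, dgr K (flp τ M X) k = dgr K M (σ k))) → T (flp τ M X)) →
      Force K T [τ] M := by
  classical
  obtain ⟨q, U, hq, hq2, hU, hU2, hU3⟩ := Core.mat K τ M hτ
  have hU4 : ∀ k, (U k).card = dgr K M k - dgr K M (τ k) := by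
    intro k
    have h1 := Core.A_sub K τ M hτ k
    rw [hU3 k]
    omega
  refine ⟨U, hU4, ?_⟩
  intro E T hE hT
  have hE' : E.Sup {p | q p = p} := by
    intro p hp
    apply hE p
    intro h
    exact hp ((hU2 p.2 p.1 (hU p.2 h)).1 h)
  refine ⟨Core.add q hq E hE', ?_, ?_⟩
  · intro p hp
    have h1 : p.1 ∉ U p.2 := by
      intro h
      apply hp
      have h2 := Core.mem_A.1 (hU p.2 h)
      exact ⟨⟨h2.2.1, h2.2.2⟩, h2.1⟩
    have h2 : q p = p := by
      by_contra h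
      have h3 := Core.mem_A.1 (hq2 p h).1
      exact hp ⟨⟨h3.2.1, h3.2.2⟩, h3.1⟩
    obtain ⟨h3, h4, h5⟩ := hE p h1
    exact ⟨(Core.aq_pos h2).trans h3, h4, h5⟩
  · intro X hX
    obtain ⟨h1, h2⟩ := Core.add_At hX
    apply hT X h2
    have h3 := Core.count K τ M hτ q X U hq hq2 hU hU2 h1
    rcases Core.pot (fun k => dgr K M k) (fun k => dgr K (flp τ M X) k) (cnt U X)
      (fun k => (U k).card) τ hτ h3 (Core.cnt_le U X) hU4 with h | h
    · exact Or.inl h
    · refine Or.inr ⟨h, ?_⟩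
      intro σ hσ hσ2 k
      have e1 := h3 k
      have e2 := h3 (τ k)
      have e3 := hU4 k
      have e4 := hU4 (τ k)
      rw [hτ k] at e2 e4
      have e5 := h k
      have e6 := h (τ k)
      have e7 := Core.cnt_le U X k
      have e8 := Core.cnt_le U X (τ k)
      rcases lt_trichotomy (dgr K M k) (dgr K M (τ k)) with h4 | h4 | h4
      · have h5 : 0 < (U (τ k)).card := by omega
        obtain ⟨h6, h7⟩ := hσ2 (τ k) h5
        by_cases h8 : cnt U X (τ k) = 0
        · have h9 := h6 h8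
          have h10 : σ k = k := by
            rcases hσ.2 k with h | h
            · exact h
            · have h11 := hσ.1 k
              rw [h, h9] at h11
              rw [h, h11]
          rw [h10]
          omega
        · have h9 := h7 h8
          rw [hτ k] at h9
          have h10 : σ k = τ k := by
            have h11 := hσ.1 (τ k)
            rw [h9] at h11
            exact h11
          rw [h10]
          omega
      · rcases hσ.2 k with h | h
        · rw [h]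
          omega
        · rw [h]
          omega
      · have h5 : 0 < (U k).card := by omega
        obtain ⟨h6, h7⟩ := hσ2 k h5
        by_cases h8 : cnt U X k = 0
        · rw [h6 h8]
          omega
        · rw [h7 h8]
          omega

theorem cnt_eq_zero {U : Fin Δ → Finset ι} {X : Set (ι × Fin Δ)} {k : Fin Δ} {κ : ι}
    (hκ : κ ∈ U k) (h : cnt U X k = 0) : (κ, k) ∉ X := by
  classical
  intro h1
  unfold cnt at h
  rw [Finset.card_eq_zero] at h
  have h2 : κ ∈ (U k).filter fun κ => (κ, k) ∈ X := Finset.mem_filter.2 ⟨hκ, h1⟩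
  rw [h] at h2
  exact absurd h2 (Finset.notMem_empty κ)

theorem cnt_eq_card {U : Fin Δ → Finset ι} {X : Set (ι × Fin Δ)} {k : Fin Δ} {κ : ι}
    (hκ : κ ∈ U k) (h : cnt U X k = (U k).card) : (κ, k) ∈ X := by
  classical
  unfold cnt at h
  exact (Finset.card_filter_eq_iff.1 h) κ hκ

/-- `X` contains all surplus pins at `k` or none -/
theorem cnt_iff {U : Fin Δ → Finset ι} {X : Set (ι × Fin Δ)} {k : Fin Δ} {κ : ι}
    (hκ : κ ∈ U k) (h : cnt U X k = 0 ∨ cnt U X k = (U k).card) :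
    (κ, k) ∈ X ↔ cnt U X k ≠ 0 := by
  constructor
  · intro h1 h2
    exact cnt_eq_zero hκ h2 h1
  · intro h1
    exact cnt_eq_card hκ (h.resolve_left h1)

open Classical in
/-- the exchanges of a balanced play -/
noncomputable def sg (τ : Fin Δ → Fin Δ) (U : Fin Δ → Finset ι) (X : Set (ι × Fin Δ))
    (k : Fin Δ) : Fin Δ :=
  if cnt U X k = 0 ∧ cnt U X (τ k) = 0 then k else τ k

theorem sg_Mv {τ : Fin Δ → Fin Δ} (hτ : ∀ k, τ (τ k) = k) (U : Fin Δ → Finset ι)
    (X : Set (ι × Fin Δ)) : Mv τ (sg τ U X) := by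
  constructor
  · intro k
    unfold sg
    by_cases h : cnt U X k = 0 ∧ cnt U X (τ k) = 0
    · rw [if_pos h, if_pos h]
    · rw [if_neg h, hτ k, if_neg (fun h1 => h ⟨h1.2, h1.1⟩)]
  · intro k
    unfold sg
    by_cases h : cnt U X k = 0 ∧ cnt U X (τ k) = 0
    · rw [if_pos h]; exact Or.inl rfl
    · rw [if_neg h]; exact Or.inr rfl

/-- if there are surplus pins at `k` then there are none at `τ k` -/
theorem cnt_tau {K : Finset ι} {τ : Fin Δ → Fin Δ} {M : ι → Finset (Fin Δ)}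
    {U : Fin Δ → Finset ι} (hτ : ∀ k, τ (τ k) = k)
    (hU : ∀ k, (U k).card = dgr K M k - dgr K M (τ k)) (X : Set (ι × Fin Δ)) (k : Fin Δ)
    (h : 0 < (U k).card) : cnt U X (τ k) = 0 := by
  have h1 := hU k
  have h2 := hU (τ k)
  rw [hτ k] at h2
  have h3 := Core.cnt_le U X (τ k)
  omega

theorem sg_zero {K : Finset ι} {τ : Fin Δ → Fin Δ} {M : ι → Finset (Fin Δ)}
    {U : Fin Δ → Finset ι} (hτ : ∀ k, τ (τ k) = k)
    (hU : ∀ k, (U k).card = dgr K M k - dgr K M (τ k)) (X : Set (ι × Fin Δ)) (k : Fin Δ)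
    (h : 0 < (U k).card) :
    (cnt U X k = 0 → sg τ U X k = k) ∧ (cnt U X k ≠ 0 → sg τ U X k = τ k) := by
  have h1 := cnt_tau hτ hU X k h
  unfold sg
  constructor
  · intro h2
    rw [if_pos ⟨h2, h1⟩]
  · intro h2
    rw [if_neg fun h3 => h2 h3.1]

/-- no block -/
def blk1 : Blk (ι × Fin Δ) where
  q := id
  n := id
  r := id
  q2 := fun _ => rfl
  n2 := fun _ => rfl
  r3 := fun _ => rfl
  qn := fun _ h => absurd rfl h
  qr := fun _ h => absurd rfl h
  nr := fun _ h => absurd rfl h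

theorem blk1_Sup (S : Set (ι × Fin Δ)) : (blk1 : Blk (ι × Fin Δ)).Sup S :=
  fun _ _ => ⟨rfl, rfl, rfl⟩

open Classical in
/-- EQ of two pins -/
noncomputable def blkQ (x y : ι × Fin Δ) : Blk (ι × Fin Δ) where
  q := Equiv.swap x y
  n := id
  r := id
  q2 := fun p => Equiv.swap_apply_self x y p
  n2 := fun _ => rfl
  r3 := fun _ => rfl
  qn := fun _ _ => rfl
  qr := fun _ _ => rfl
  nr := fun _ h => absurd rfl h

theorem blkQ_Sup {x y : ι × Fin Δ} {S : Set (ι × Fin Δ)} (hx : x ∈ S) (hy : y ∈ S) :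
    (blkQ x y).Sup S := by
  classical
  intro p hp
  refine ⟨?_, rfl, rfl⟩
  show Equiv.swap x y p = p
  exact Equiv.swap_apply_of_ne_of_ne (fun h => hp (h ▸ hx)) (fun h => hp (h ▸ hy))

theorem blkQ_At {x y : ι × Fin Δ} {X : Set (ι × Fin Δ)} (h : ∀ p, (blkQ x y).At X p) :
    x ∈ X ↔ y ∈ X := by
  classical
  constructor
  · intro h1
    have h2 : Equiv.swap x y x ∈ X := (h x).1 h1
    rwa [Equiv.swap_apply_left] at h2
  · intro h1
    have h2 : Equiv.swap x y y ∈ X := (h y).1 h1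
    rwa [Equiv.swap_apply_right] at h2

open Classical in
/-- NB of two pins -/
noncomputable def blkN (x y : ι × Fin Δ) : Blk (ι × Fin Δ) where
  q := id
  n := Equiv.swap x y
  r := id
  q2 := fun _ => rfl
  n2 := fun p => Equiv.swap_apply_self x y p
  r3 := fun _ => rfl
  qn := fun _ h => absurd rfl h
  qr := fun _ h => absurd rfl h
  nr := fun _ _ => rfl

theorem blkN_Sup {x y : ι × Fin Δ} {S : Set (ι × Fin Δ)} (hx : x ∈ S) (hy : y ∈ S) :
    (blkN x y).Sup S := by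
  classical
  intro p hp
  refine ⟨rfl, ?_, rfl⟩
  show Equiv.swap x y p = p
  exact Equiv.swap_apply_of_ne_of_ne (fun h => hp (h ▸ hx)) (fun h => hp (h ▸ hy))

theorem blkN_At {x y : ι × Fin Δ} {X : Set (ι × Fin Δ)} (hxy : x ≠ y)
    (h : ∀ p, (blkN x y).At X p) : x ∈ X → y ∉ X := by
  classical
  intro h1
  have h3 : Equiv.swap x y x ≠ x := by
    rw [Equiv.swap_apply_left]
    exact fun h => hxy h.symm
  have h2 : Equiv.swap x y x ∉ X := (h x).2.1 h3 h1
  rwa [Equiv.swap_apply_left] at h2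

open Classical in
/-- a cycle of three points -/
noncomputable def cy {α : Type} (x y z p : α) : α :=
  if p = x then y else if p = y then z else if p = z then x else p

theorem cy_cy {α : Type} {x y z : α} (hxy : x ≠ y) (hyz : y ≠ z) (hxz : x ≠ z) (p : α) :
    cy x y z (cy x y z (cy x y z p)) = p := by
  have e1 : cy x y z x = y := by simp [cy]
  have e2 : cy x y z y = z := by simp [cy, hxy.symm]
  have e3 : cy x y z z = x := by simp [cy, hxz.symm, hyz.symm]
  by_cases h1 : p = x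
  · rw [h1, e1, e2, e3]
  · by_cases h2 : p = y
    · rw [h2, e2, e3, e1]
    · by_cases h3 : p = z
      · rw [h3, e3, e1, e2]
      · have e4 : cy x y z p = p := by simp [cy, h1, h2, h3]
        rw [e4, e4, e4]

/-- NAE of three pins -/
noncomputable def blkR (x y z : ι × Fin Δ) (hxy : x ≠ y) (hyz : y ≠ z) (hxz : x ≠ z) :
    Blk (ι × Fin Δ) where
  q := id
  n := id
  r := cy x y z
  q2 := fun _ => rfl
  n2 := fun _ => rfl
  r3 := cy_cy hxy hyz hxz
  qn := fun _ h => absurd rfl h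
  qr := fun _ h => absurd rfl h
  nr := fun _ h => absurd rfl h

theorem blkR_Sup {x y z : ι × Fin Δ} {hxy : x ≠ y} {hyz : y ≠ z} {hxz : x ≠ z}
    {S : Set (ι × Fin Δ)} (hx : x ∈ S) (hy : y ∈ S) (hz : z ∈ S) :
    (blkR x y z hxy hyz hxz).Sup S := by
  intro p hp
  refine ⟨rfl, rfl, ?_⟩
  have h1 : p ≠ x := fun h => hp (h ▸ hx)
  have h2 : p ≠ y := fun h => hp (h ▸ hy)
  have h3 : p ≠ z := fun h => hp (h ▸ hz)
  show cy x y z p = p
  simp [cy, h1, h2, h3]

theorem blkR_At {x y z : ι × Fin Δ} {hxy : x ≠ y} {hyz : y ≠ z} {hxz : x ≠ z}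
    {X : Set (ι × Fin Δ)} (h : ∀ p, (blkR x y z hxy hyz hxz).At X p) :
    ¬ (x ∈ X ∧ y ∈ X ∧ z ∈ X) ∧ (x ∈ X ∨ y ∈ X ∨ z ∈ X) := by
  have e1 : cy x y z x = y := by simp [cy]
  have e2 : cy x y z y = z := by simp [cy, hxy.symm]
  have h1 := (h x).2.2
  change cy x y z x ≠ x → ¬ (x ∈ X ∧ cy x y z x ∈ X ∧ cy x y z (cy x y z x) ∈ X) ∧
    (x ∈ X ∨ cy x y z x ∈ X ∨ cy x y z (cy x y z x) ∈ X) at h1
  rw [e1, e2] at h1
  exact h1 hxy.symm

end Pool.Agent.SGV
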