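import Pool.Agent.SGM.DefsP

set_option autoImplicit false

/-! MP_fff3e1_lc, universal words for every `Δ` (idea row 3525): definitions and targets. -/

namespace Pool.Agent.SGV

open Pool.Agent.SGM

variable {ι : Type} {Δ : ℕ}

/-- with blocks on the pins of the sets number `κ ∈ K` the player can force `T` at the end of the
word -/
def Force (K : Finset ι) (T : (ι → Finset (Fin Δ)) → Prop) :
    List (Fin Δ → Fin Δ) → (ι → Finset (Fin Δ)) → Prop
  | [], M => T M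
  | τ :: w, M => ∃ B : Blk (ι × Fin Δ), B.Sup {p | p ∈ Pin τ M ∧ p.1 ∈ K} ∧
      ∀ X : Set (ι × Fin Δ), (∀ p, B.At X p) → Force K T w (flp τ M X)

/-- the degree of the colour `k` in the token `(K, M)` -/
def dgr (K : Finset ι) (M : ι → Finset (Fin Δ)) (k : Fin Δ) : ℕ :=
  (K.filter fun κ => k ∈ M κ).card

/-- the potential -/
def phi (K : Finset ι) (M : ι → Finset (Fin Δ)) : ℕ := ∑ k, dgr K M k ^ 2

/-- the sets number `κ ∈ K` have distinct representatives -/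
def Sol (K : Finset ι) (M : ι → Finset (Fin Δ)) : Prop :=
  ∃ φ : ι → Fin Δ, (∀ κ ∈ K, φ κ ∈ M κ) ∧ Set.InjOn φ K

/-- all sets number `κ ∈ K` have two elements -/
def Two (K : Finset ι) (M : ι → Finset (Fin Δ)) : Prop := ∀ κ ∈ K, (M κ).card = 2

/-- the word consists of involutions -/
def WInv (w : List (Fin Δ → Fin Δ)) : Prop := ∀ τ ∈ w, ∀ k, τ (τ k) = k

/-- the word does not move colours outside `Q` -/
def WIn (Q : Finset (Fin Δ)) (w : List (Fin Δ → Fin Δ)) : Prop :=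
  ∀ τ ∈ w, ∀ k, k ∉ Q → τ k = k

/-- the word preserves the classes of `c` -/
def WCl (c : Fin Δ → ℕ) (w : List (Fin Δ → Fin Δ)) : Prop := ∀ τ ∈ w, ∀ k, c (τ k) = c k

/-- `σ` exchanges the colours of some pairs of `τ` and fixes all other colours -/
def Mv (τ σ : Fin Δ → Fin Δ) : Prop := (∀ k, σ (σ k) = k) ∧ ∀ k, σ k = k ∨ σ k = τ k

/-! Targets -/

/-- A1 concatenation of words -/
def tAPP : Prop := ∀ (ι : Type) (Δ : ℕ) (K : Finset ι) (T : (ι → Finset (Fin Δ)) → Prop)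
    (u w : List (Fin Δ → Fin Δ)) (M : ι → Finset (Fin Δ)),
  Force K (fun M' => Force K T w M') u M → Force K T (u ++ w) M

/-- A2 a solved token stays solved -/
def tSOL : Prop := ∀ (ι : Type) (Δ : ℕ) (K : Finset ι) (w : List (Fin Δ → Fin Δ))
    (M : ι → Finset (Fin Δ)), WInv w → Two K M → Sol K M → Force K (Sol K) w M

/-- A3 deletion of a set `κ0` which owns the colour `x` -/
def tDEL : Prop := ∀ (ι : Type) [DecidableEq ι] (Δ : ℕ) (K : Finset ι) (κ0 : ι) (x : Fin Δ)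
    (w : List (Fin Δ → Fin Δ)) (M : ι → Finset (Fin Δ)), κ0 ∈ K → x ∈ M κ0 →
  (∀ κ ∈ K, κ ≠ κ0 → x ∉ M κ) → WInv w → (∀ τ ∈ w, τ x = x) →
  Force (K.erase κ0) (Sol (K.erase κ0)) w M → Force K (Sol K) w M

/-- A4 the game `WinP` -/
def tWIN : Prop := ∀ (Δ : ℕ) (w : List (Fin Δ → Fin Δ)) (M : Fin Δ → Finset (Fin Δ)),
  Force Finset.univ (Sol Finset.univ) w M → WinP w M

/-- B1 one letter, all plays: sums of degrees over the pairs, sizes of the sets -/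
def tSUM : Prop := ∀ (ι : Type) (Δ : ℕ) (K : Finset ι) (τ : Fin Δ → Fin Δ)
    (M : ι → Finset (Fin Δ)) (X : Set (ι × Fin Δ)), (∀ k, τ (τ k) = k) → Two K M →
  Two K (flp τ M X) ∧
  (∀ k, τ k = k → dgr K (flp τ M X) k = dgr K M k) ∧
  (∀ k, τ k ≠ k → dgr K (flp τ M X) k + dgr K (flp τ M X) (τ k) =
    dgr K M k + dgr K M (τ k)) ∧
  ∀ S : Finset (Fin Δ), (∀ k ∈ S, τ k ∈ S) → (∀ κ ∈ K, M κ ⊆ S) → ∀ κ ∈ K, flp τ M X κ ⊆ S

/-- B2 the letter lemma.  Balanced play: the potential drops, or the degrees are exchanged in some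
pairs of `τ`.  Two colours `p`, `q` in different pairs: the player can in addition choose
`EQ`: both pairs are exchanged or none. -/
def tSTE : Prop := ∀ (ι : Type) (Δ : ℕ) (K : Finset ι) (τ : Fin Δ → Fin Δ)
    (M : ι → Finset (Fin Δ)) (p q : Fin Δ), (∀ k, τ (τ k) = k) → Two K M → q ≠ p → q ≠ τ p →
  τ p ≠ p → τ q ≠ q →
  Force K (fun M' => phi K M' < phi K M ∨ ∃ σ, Mv τ σ ∧ (∀ k, dgr K M' k = dgr K M (σ k)) ∧
    (σ p = p ↔ σ q = q)) [τ] M

/-- B2' the same with `NB`: not both pairs are exchanged -/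
def tSTN : Prop := ∀ (ι : Type) (Δ : ℕ) (K : Finset ι) (τ : Fin Δ → Fin Δ)
    (M : ι → Finset (Fin Δ)) (p q : Fin Δ), (∀ k, τ (τ k) = k) → Two K M → q ≠ p → q ≠ τ p →
  Force K (fun M' => phi K M' < phi K M ∨ ∃ σ, Mv τ σ ∧ (∀ k, dgr K M' k = dgr K M (σ k)) ∧
    (σ p = p ∨ σ q = q)) [τ] M

/-- B3 a pair whose degrees differ by at least two (or are equal) can be frozen; balanced play -/
def tFRZ : Prop := ∀ (ι : Type) (Δ : ℕ) (K : Finset ι) (τ : Fin Δ → Fin Δ)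
    (M : ι → Finset (Fin Δ)) (p : Fin Δ), (∀ k, τ (τ k) = k) → Two K M →
  (dgr K M p + 2 ≤ dgr K M (τ p) ∨ dgr K M (τ p) + 2 ≤ dgr K M p ∨
    dgr K M p = dgr K M (τ p)) →
  Force K (fun M' => phi K M' < phi K M ∨ ∃ σ, Mv τ σ ∧ (∀ k, dgr K M' k = dgr K M (σ k)) ∧
    σ p = p) [τ] M

/-- B4 balanced play -/
def tBAL : Prop := ∀ (ι : Type) (Δ : ℕ) (K : Finset ι) (τ : Fin Δ → Fin Δ)
    (M : ι → Finset (Fin Δ)), (∀ k, τ (τ k) = k) → Two K M →
  Force K (fun M' => phi K M' < phi K M ∨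
    ∃ σ, Mv τ σ ∧ ∀ k, dgr K M' k = dgr K M (σ k)) [τ] M

/-- B5 a pair whose degrees differ by at least three: the potential drops -/
def tLET : Prop := ∀ (ι : Type) (Δ : ℕ) (K : Finset ι) (τ : Fin Δ → Fin Δ)
    (M : ι → Finset (Fin Δ)) (p : Fin Δ), (∀ k, τ (τ k) = k) → Two K M →
  dgr K M p + 3 ≤ dgr K M (τ p) → Force K (fun M' => phi K M' < phi K M) [τ] M

/-- C the zero lemma inside a set `Q` of colours (degrees 0 are removed; `H` = degrees at least 3,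
`Z` = degree 0; simplification by helper27, helper57, helper69) -/
def tZER : Prop := ∀ (Δ : ℕ) (Q : Finset (Fin Δ)), ∃ w : List (Fin Δ → Fin Δ), WInv w ∧
  WIn Q w ∧ ∀ (ι : Type) (K : Finset ι) (M : ι → Finset (Fin Δ)), Two K M →
    (∑ k ∈ Q, dgr K M k = 2 * Q.card ∨ ∑ k ∈ Q, dgr K M k + 1 = 2 * Q.card) →
    (∃ k ∈ Q, dgr K M k = 0) →
    Force K (fun M' => phi K M' < phi K M) w M

/-- D the main induction: all tokens on `S`, classes given by `c`.  At most one class has a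
positive excess `SUM (2 - degree)`, and this excess is at most one. -/
def tMAI : Prop := ∀ (Δ : ℕ) (S : Finset (Fin Δ)) (c : Fin Δ → ℕ), 0 < Δ →
  ∃ w : List (Fin Δ → Fin Δ), WInv w ∧ WIn S w ∧ WCl c w ∧
  ∀ (ι : Type) (K : Finset ι) (M : ι → Finset (Fin Δ)), Two K M → (∀ κ ∈ K, M κ ⊆ S) →
    K.card = S.card →
    (∃ a, (∑ k ∈ S with c k = a, (2 - (dgr K M k : ℤ))) ≤ 1 ∧
      ∀ b, b ≠ a → (∑ k ∈ S with c k = b, (2 - (dgr K M k : ℤ))) ≤ 0) →
    Force K (Sol K) w M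

/-- E the goal -/
def tUNI : Prop := ∀ Δ : ℕ, ∃ w : List (Fin Δ → Fin Δ), UnivP Δ w

end Pool.Agent.SGV
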