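import Pool.Agent.SGV.Defs

set_option autoImplicit false

/-! MP_fff3e1_lc, the zero lemma (idea rows 3446, 3525) on the level of the degrees: the swap game
(idea of helper92).  Definitions and targets. -/

namespace Pool.Agent.SGV

variable {Δ : ℕ}

/-- the ties of the player in the letter `τ`; `σ` is the answer of the opponent -/
def Tie (τ : Fin Δ → Fin Δ) (d : Fin Δ → ℕ) (T : (Fin Δ → Fin Δ) → Prop) : Prop :=
  (∀ σ, Mv τ σ → T σ) ∨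
  (∃ p q, q ≠ p ∧ q ≠ τ p ∧ τ p ≠ p ∧ τ q ≠ q ∧ ∀ σ, Mv τ σ → (σ p = p ↔ σ q = q) → T σ) ∨
  (∃ p q, q ≠ p ∧ q ≠ τ p ∧ ∀ σ, Mv τ σ → (σ p = p ∨ σ q = q) → T σ) ∨
  (∃ p, (d p + 2 ≤ d (τ p) ∨ d (τ p) + 2 ≤ d p ∨ d p = d (τ p)) ∧
    ∀ σ, Mv τ σ → σ p = p → T σ)

/-- the swap game with goal `T`; a pair whose values differ by at least three wins at once -/
def SW (T : (Fin Δ → ℕ) → Prop) : List (Fin Δ → Fin Δ) → (Fin Δ → ℕ) → Prop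
  | [], d => T d
  | τ :: w, d => (∃ p, d p + 3 ≤ d (τ p)) ∨ Tie τ d fun σ => SW T w (d ∘ σ)

/-- matchings between the disjoint sets `A` and `B`: every pair is matched in some letter -/
structure Crs (A B : Finset (Fin Δ)) (w : List (Fin Δ → Fin Δ)) : Prop where
  inv : WInv w
  lr : ∀ τ ∈ w, ∀ v ∈ A, τ v ∈ B
  rl : ∀ τ ∈ w, ∀ v ∈ B, τ v ∈ A
  off : WIn (A ∪ B) w
  all : ∀ a ∈ A, ∀ b ∈ B, ∃ τ ∈ w, τ a = b

/-- V1 goals, concatenation, no goal -/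
def tVAP : Prop := ∀ Δ : ℕ,
  (∀ (T T' : (Fin Δ → ℕ) → Prop), (∀ d, T d → T' d) → ∀ w d, SW T w d → SW T' w d) ∧
  (∀ (T : (Fin Δ → ℕ) → Prop) (u w : List (Fin Δ → Fin Δ)) (d : Fin Δ → ℕ),
    SW (SW T w) u d → SW T (u ++ w) d) ∧
  ∀ (w : List (Fin Δ → Fin Δ)) (d : Fin Δ → ℕ), SW (fun _ => True) w d

/-- V2 the values are permuted inside `S` -/
def tVIN : Prop := ∀ (Δ : ℕ) (S : Finset (Fin Δ)) (T : (Fin Δ → ℕ) → Prop)
    (w : List (Fin Δ → Fin Δ)) (d : Fin Δ → ℕ), WInv w → WIn S w → SW T w d →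
  SW (fun d' => T d' ∧ ∃ π : Equiv.Perm (Fin Δ), (∀ k, k ∉ S → π k = k) ∧ d' = d ∘ π) w d

/-- V3 the swap game gives the game -/
def tVFO : Prop := ∀ (ι : Type) (Δ : ℕ) (K : Finset ι) (w : List (Fin Δ → Fin Δ))
    (M : ι → Finset (Fin Δ)), WInv w → Two K M → SW (fun _ => False) w (dgr K M) →
  Force K (fun M' => phi K M' < phi K M) w M

/-- V4 all translations of a set of size `2 ^ k` (track `p` and `q` with `EQ`) -/
def tPAS : Prop := ∀ (Δ k : ℕ) (P : Finset (Fin Δ)), P.card = 2 ^ k →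
  ∃ w, WInv w ∧ WIn P w ∧ ∀ d : Fin Δ → ℕ, ∀ p ∈ P, ∀ q ∈ P, d q + 3 ≤ d p →
    SW (fun _ => False) w d

/-- V5 cyclic matchings -/
def tCYM : Prop := ∀ (Δ : ℕ) (A B : Finset (Fin Δ)), Disjoint A B → A.card = B.card →
  ∃ w, Crs A B w

/-- V6 the cross stretch (row 3446 (b)): two values of difference at least 3 in `A ∪ B` come to
the same side: `NB` as long as they are on different sides, then `EQ` -/
def tCRB : Prop := ∀ (Δ : ℕ) (A B : Finset (Fin Δ)) (w : List (Fin Δ → Fin Δ)),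
  Disjoint A B → Crs A B w → ∀ (d : Fin Δ → ℕ) (h z : Fin Δ), h ∈ A ∪ B → z ∈ A ∪ B →
    d z + 3 ≤ d h →
    SW (fun d' => ∃ h' z', d' h' = d h ∧ d' z' = d z ∧
      ((h' ∈ A ∧ z' ∈ A) ∨ (h' ∈ B ∧ z' ∈ B))) w d

/-- V7 the cross stretch (row 3446 (c)): of two values one stays outside `B` (both in `A`: `NB`;
one in `A`, one in `B`: `EQ`, or nothing if they are matched) -/
def tCRC : Prop := ∀ (Δ : ℕ) (S A B : Finset (Fin Δ)) (w : List (Fin Δ → Fin Δ)),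
  Disjoint A B → A ∪ B ⊆ S → Crs A B w → ∀ (d : Fin Δ → ℕ) (a b : Fin Δ), a ≠ b → a ∈ S →
    b ∈ S → a ∉ B → SW (fun d' => ∃ c ∈ S, c ∉ B ∧ (d' c = d a ∨ d' c = d b)) w d

/-- V8 the cross stretch, one value of difference at least two to all others is frozen -/
def tCRF : Prop := ∀ (Δ : ℕ) (A B : Finset (Fin Δ)) (w : List (Fin Δ → Fin Δ)),
  Disjoint A B → Crs A B w → ∀ (d : Fin Δ → ℕ) (z : Fin Δ),
    (∀ v ∈ A ∪ B, v ≠ z → d z + 2 ≤ d v ∨ d v + 2 ≤ d z) → SW (fun d' => d' z = d z) w d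

/-- V9 the meeting theorem.  Card `Q = 2 ^ k`: `pass Q`.  Card `Q = 2 ^ k + x`: `pass P ++ K ++ K`,
`K = cross X X' ++ pass P' ++ pass P`, `P = Q - X`, `P' = Q - X'`.  Lemmas for `K`: (K1) an
`A`-value and a `B`-value in `X ∪ X'`: won (V6).  (K2) all `A`-values in `X`: won (K1, or V7 / V8
and then `pass P'` or `pass P`, K1 otherwise).  (K3) all `B`-values in `X`: won or all `A`-values
in `X` at the end of `K`. -/
def tVMT : Prop := ∀ (Δ : ℕ) (Q : Finset (Fin Δ)), ∃ w, WInv w ∧ WIn Q w ∧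
  ∀ (d : Fin Δ → ℕ) (A B : ℕ → Prop), (∀ a b, A a → B b → a + 3 ≤ b ∨ b + 3 ≤ a) →
    (∃ k ∈ Q, B (d k)) →
    ((∃ p ∈ Q, ∃ q ∈ Q, p ≠ q ∧ A (d p) ∧ A (d q)) ∨
      (∃ p ∈ Q, A (d p) ∧ ∀ v ∈ Q, v ≠ p → d v + 2 ≤ d p ∨ d p + 2 ≤ d v)) →
    SW (fun _ => False) w d

/-- V10 counting: values 0 and at least 3 -/
def tVCN : Prop := ∀ (Δ : ℕ) (Q : Finset (Fin Δ)) (d : Fin Δ → ℕ),
  (∑ k ∈ Q, d k = 2 * Q.card ∨ ∑ k ∈ Q, d k + 1 = 2 * Q.card) → (∃ k ∈ Q, d k = 0) →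
  ∃ A B : ℕ → Prop, (∀ a b, A a → B b → a + 3 ≤ b ∨ b + 3 ≤ a) ∧ (∃ k ∈ Q, B (d k)) ∧
    ((∃ p ∈ Q, ∃ q ∈ Q, p ≠ q ∧ A (d p) ∧ A (d q)) ∨
      (∃ p ∈ Q, A (d p) ∧ ∀ v ∈ Q, v ≠ p → d v + 2 ≤ d p ∨ d p + 2 ≤ d v))

/-- V11 the zero lemma -/
theorem tZER_of (h1 : tVFO) (h2 : tVMT) (h3 : tVCN) : tZER := by
  intro Δ Q
  obtain ⟨w, hw, hQ, H⟩ := h2 Δ Q
  refine ⟨w, hw, hQ, fun ι K M hT hs hz => h1 ι Δ K w M hw hT ?_⟩
  obtain ⟨A, B, hAB, hB, hA⟩ := h3 Δ Q (dgr K M) hs hz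
  exact H (dgr K M) A B hAB hB hA

end Pool.Agent.SGV
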