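import Pool.Agent.SGV.Defs

set_option autoImplicit false

/-! MP_fff3e1_lc, row 3525: the main induction (target tMAI) and tUNI. -/

namespace Pool.Agent.SGV

open Pool.Agent.SGM

namespace MAI_

variable {ι : Type} {Δ : ℕ}

lemma mono {K : Finset ι} {T T' : (ι → Finset (Fin Δ)) → Prop} (h : ∀ M, T M → T' M) :
    ∀ (w : List (Fin Δ → Fin Δ)) (M : ι → Finset (Fin Δ)), Force K T w M → Force K T' w M
  | [], M, h1 => h M h1
  | _ :: w, _, ⟨B, hB, h1⟩ => ⟨B, hB, fun X hX => mono h w _ (h1 X hX)⟩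

lemma app {K : Finset ι} {T : (ι → Finset (Fin Δ)) → Prop} (w : List (Fin Δ → Fin Δ)) :
    ∀ (u : List (Fin Δ → Fin Δ)) (M : ι → Finset (Fin Δ)),
      Force K (fun M' => Force K T w M') u M → Force K T (u ++ w) M
  | [], _, h1 => h1
  | _ :: u, _, ⟨B, hB, h1⟩ => ⟨B, hB, fun X hX => app w u _ (h1 X hX)⟩

/-- an invariant of all plays can be added to the goal -/
lemma inv {K : Finset ι} {T I : (ι → Finset (Fin Δ)) → Prop} :
    ∀ (w : List (Fin Δ → Fin Δ)) (M : ι → Finset (Fin Δ)),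
      (∀ τ ∈ w, ∀ (M : ι → Finset (Fin Δ)) (X : Set (ι × Fin Δ)), I M → I (flp τ M X)) →
      I M → Force K T w M → Force K (fun M' => T M' ∧ I M') w M
  | [], _, _, h1, h2 => ⟨h2, h1⟩
  | τ :: w, M, h, h1, ⟨B, hB, h2⟩ => ⟨B, hB, fun X hX =>
      inv w _ (fun σ hσ => h σ (List.mem_cons_of_mem _ hσ)) (h τ List.mem_cons_self M X h1)
        (h2 X hX)⟩

/-- the excess of a class -/
def exc (S : Finset (Fin Δ)) (c : Fin Δ → ℕ) (K : Finset ι) (M : ι → Finset (Fin Δ)) (a : ℕ) :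
    ℤ := ∑ k ∈ S with c k = a, (2 - (dgr K M k : ℤ))

/-- the hypothesis of the main induction which is kept by all plays -/
structure Tok (S : Finset (Fin Δ)) (K : Finset ι) (M : ι → Finset (Fin Δ)) : Prop where
  two : Two K M
  sub : ∀ κ ∈ K, M κ ⊆ S
  card : K.card = S.card

/-- a word for the classes `c` of `S` -/
structure WW (S : Finset (Fin Δ)) (c : Fin Δ → ℕ) (w : List (Fin Δ → Fin Δ)) : Prop where
  inv : WInv w
  ins : WIn S w
  cl : WCl c w

lemma WW.append {S : Finset (Fin Δ)} {c : Fin Δ → ℕ} {u w : List (Fin Δ → Fin Δ)}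
    (hu : WW S c u) (hw : WW S c w) : WW S c (u ++ w) := by
  constructor
  · intro τ hτ
    rcases List.mem_append.1 hτ with h | h
    · exact hu.inv τ h
    · exact hw.inv τ h
  · intro τ hτ
    rcases List.mem_append.1 hτ with h | h
    · exact hu.ins τ h
    · exact hw.ins τ h
  · intro τ hτ
    rcases List.mem_append.1 hτ with h | h
    · exact hu.cl τ h
    · exact hw.cl τ h

lemma WW.nil {S : Finset (Fin Δ)} {c : Fin Δ → ℕ} : WW S c [] := by
  constructor
  · intro τ hτ; simp at hτ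
  · intro τ hτ; simp at hτ
  · intro τ hτ; simp at hτ

/-- sums over invariant sets of colours are kept -/
lemma sum_keep (hSUM : tSUM) {K : Finset ι} {τ : Fin Δ → Fin Δ} {M : ι → Finset (Fin Δ)}
    {X : Set (ι × Fin Δ)} (hτ : ∀ k, τ (τ k) = k) (h2 : Two K M) (A : Finset (Fin Δ))
    (hA : ∀ k ∈ A, τ k ∈ A) :
    ∑ k ∈ A, (dgr K (flp τ M X) k : ℤ) = ∑ k ∈ A, (dgr K M k : ℤ) := by
  obtain ⟨-, h3, h4, -⟩ := hSUM ι Δ K τ M X hτ h2
  have h5 : ∀ k, (dgr K (flp τ M X) k : ℤ) + dgr K (flp τ M X) (τ k) =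
      dgr K M k + dgr K M (τ k) := by
    intro k
    by_cases hk : τ k = k
    · rw [hk, h3 k hk]
    · exact_mod_cast h4 k hk
  have h6 : ∀ f : Fin Δ → ℤ, ∑ k ∈ A, f (τ k) = ∑ k ∈ A, f k := by
    intro f
    refine Finset.sum_bij' (fun k _ => τ k) (fun k _ => τ k) (fun k hk => hA k hk)
      (fun k hk => hA k hk) (fun k _ => hτ k) (fun k _ => hτ k) (fun k _ => rfl)
  have h7 : ∑ k ∈ A, ((dgr K (flp τ M X) k : ℤ) + dgr K (flp τ M X) (τ k)) =
      ∑ k ∈ A, ((dgr K M k : ℤ) + dgr K M (τ k)) := Finset.sum_congr rfl fun k _ => h5 k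
  rw [Finset.sum_add_distrib, Finset.sum_add_distrib,
    h6 (fun k => (dgr K (flp τ M X) k : ℤ)), h6 (fun k => (dgr K M k : ℤ))] at h7
  linarith

lemma exc_eq (S : Finset (Fin Δ)) (c : Fin Δ → ℕ) (K : Finset ι) (M : ι → Finset (Fin Δ))
    (a : ℕ) : exc S c K M a = 2 * ((S.filter fun k => c k = a).card : ℤ) -
      ∑ k ∈ S with c k = a, (dgr K M k : ℤ) := by
  unfold exc
  rw [Finset.sum_sub_distrib]
  simp [mul_comm]

/-- `τ` maps `S` to `S` -/
lemma map_mem {S : Finset (Fin Δ)} {τ : Fin Δ → Fin Δ} (h1 : ∀ k, τ (τ k) = k)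
    (h2 : ∀ k, k ∉ S → τ k = k) {k : Fin Δ} (hk : k ∈ S) : τ k ∈ S := by
  by_contra h
  have h3 := h2 _ h
  rw [h1] at h3
  rw [← h3] at h
  exact h hk

lemma keep (hSUM : tSUM) {S : Finset (Fin Δ)} {c : Fin Δ → ℕ} {w : List (Fin Δ → Fin Δ)}
    (hw : WW S c w) {K : Finset ι} (e : ℕ → ℤ) : ∀ τ ∈ w, ∀ (M : ι → Finset (Fin Δ))
      (X : Set (ι × Fin Δ)), (Tok S K M ∧ exc S c K M = e) →
      (Tok S K (flp τ M X) ∧ exc S c K (flp τ M X) = e) := by
  rintro τ hτ M X ⟨h1, h2⟩
  have hi := hw.inv τ hτ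
  have hs : ∀ k ∈ S, τ k ∈ S := fun k hk => map_mem hi (hw.ins τ hτ) hk
  obtain ⟨h3, -, -, h4⟩ := hSUM ι Δ K τ M X hi h1.two
  refine ⟨⟨h3, h4 S hs h1.sub, h1.card⟩, ?_⟩
  rw [← h2]
  funext a
  rw [exc_eq, exc_eq, sum_keep hSUM hi h1.two]
  intro k hk
  rw [Finset.mem_filter] at hk ⊢
  exact ⟨hs k hk.1, by rw [hw.cl τ hτ k, hk.2]⟩

/-- balanced play in a word -/
lemma bal (hSUM : tSUM) (hBAL : tBAL) {S : Finset (Fin Δ)} {c : Fin Δ → ℕ} {K : Finset ι} :
    ∀ (w : List (Fin Δ → Fin Δ)) (M : ι → Finset (Fin Δ)), WW S c w → Two K M →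
      Force K (fun M' => phi K M' < phi K M ∨ ∃ π : Equiv.Perm (Fin Δ),
        (∀ k, c (π k) = c k) ∧ (∀ k, k ∈ S → π k ∈ S) ∧ ∀ k, dgr K M' k = dgr K M (π k)) w M
  | [], M, _, _ => Or.inr ⟨1, fun _ => rfl, fun _ h => h, fun _ => rfl⟩
  | τ :: w, M, hw, h2 => by
    have hi := hw.inv τ List.mem_cons_self
    have hn := hw.ins τ List.mem_cons_self
    have hc := hw.cl τ List.mem_cons_self
    have hw' : WW S c w := ⟨fun σ hσ => hw.inv σ (List.mem_cons_of_mem _ hσ),
      fun σ hσ => hw.ins σ (List.mem_cons_of_mem _ hσ),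
      fun σ hσ => hw.cl σ (List.mem_cons_of_mem _ hσ)⟩
    have h3 := hBAL ι Δ K τ M hi h2
    obtain ⟨B, hB, h4⟩ := h3
    refine ⟨B, hB, fun X hX => ?_⟩
    have h5 : phi K (flp τ M X) < phi K M ∨
      ∃ σ, Mv τ σ ∧ ∀ k, dgr K (flp τ M X) k = dgr K M (σ k) := h4 X hX
    have h6 : Two K (flp τ M X) := (hSUM ι Δ K τ M X hi h2).1
    have h7 := bal hSUM hBAL w (flp τ M X) hw' h6
    refine mono ?_ w _ h7
    intro M' hM'
    have h8 : phi K M' ≤ phi K (flp τ M X) := by
      rcases hM' with h | ⟨π, -, -, hπ⟩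
      · exact h.le
      · refine le_of_eq ?_
        unfold phi
        rw [← Equiv.sum_comp π (fun k => dgr K (flp τ M X) k ^ 2)]
        exact Finset.sum_congr rfl fun k _ => by rw [hπ k]
    rcases h5 with h5 | ⟨σ, ⟨hσ1, hσ2⟩, h5⟩
    · exact Or.inl (lt_of_le_of_lt h8 h5)
    · have h9 : phi K (flp τ M X) = phi K M := by
        unfold phi
        rw [← Equiv.sum_comp (Function.Involutive.toPerm σ hσ1) (fun k => dgr K M k ^ 2)]
        exact Finset.sum_congr rfl fun k _ => by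
          rw [h5 k]
          rfl
      rcases hM' with h | ⟨π, hπ1, hπ2, hπ3⟩
      · exact Or.inl (h9 ▸ h)
      · right
        have hσc : ∀ k, c (σ k) = c k := fun k => by
          rcases hσ2 k with h | h
          · rw [h]
          · rw [h, hc]
        have hσS : ∀ k, k ∈ S → σ k ∈ S := fun k hk => by
          rcases hσ2 k with h | h
          · rw [h]; exact hk
          · rw [h]; exact map_mem hi hn hk
        refine ⟨π.trans (Function.Involutive.toPerm σ hσ1), ?_, ?_, ?_⟩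
        · intro k
          show c (σ (π k)) = c k
          rw [hσc, hπ1]
        · intro k hk
          exact hσS _ (hπ2 k hk)
        · intro k
          rw [hπ3, h5]
          rfl

/-- double counting -/
lemma sum_dgr {S : Finset (Fin Δ)} {K : Finset ι} {M : ι → Finset (Fin Δ)} (h : Tok S K M) :
    ∑ k ∈ S, dgr K M k = 2 * K.card := by
  classical
  have h1 := Finset.sum_card_bipartiteAbove_eq_sum_card_bipartiteBelow
    (s := S) (t := K) (fun (k : Fin Δ) (κ : ι) => k ∈ M κ)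
  have h2 : ∀ κ ∈ K, (Finset.bipartiteBelow (fun (k : Fin Δ) (κ : ι) => k ∈ M κ) S κ).card = 2 := by
    intro κ hκ
    rw [← h.two κ hκ]
    congr 1
    ext k
    simp only [Finset.mem_bipartiteBelow]
    exact ⟨fun hk => hk.2, fun hk => ⟨h.sub κ hκ hk, hk⟩⟩
  rw [Finset.sum_congr rfl h2, Finset.sum_const, smul_eq_mul] at h1
  rw [mul_comm, ← h1]
  rfl

/-- a token with all degrees two is solved -/
lemma hall (hΔ : 0 < Δ) {S : Finset (Fin Δ)} {K : Finset ι} {M : ι → Finset (Fin Δ)}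
    (h : Tok S K M)
    (hd : ∀ k ∈ S, dgr K M k = 2) : Sol K M := by
  classical
  have h1 : ∀ s : Finset {κ // κ ∈ K}, s.card ≤ (s.biUnion fun κ => M κ.1).card := by
    intro s
    set U := s.biUnion fun κ => M κ.1 with hU
    have h2 := Finset.sum_card_bipartiteAbove_eq_sum_card_bipartiteBelow
      (s := U) (t := s) (fun (k : Fin Δ) (κ : {κ // κ ∈ K}) => k ∈ M κ.1)
    have h3 : ∀ κ ∈ s, (Finset.bipartiteBelow
        (fun (k : Fin Δ) (κ : {κ // κ ∈ K}) => k ∈ M κ.1) U κ).card = 2 := by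
      intro κ hκ
      rw [← h.two κ.1 κ.2]
      congr 1
      ext k
      simp only [Finset.mem_bipartiteBelow]
      exact ⟨fun hk => hk.2, fun hk => ⟨Finset.mem_biUnion.2 ⟨κ, hκ, hk⟩, hk⟩⟩
    have h4 : ∀ k ∈ U, (Finset.bipartiteAbove
        (fun (k : Fin Δ) (κ : {κ // κ ∈ K}) => k ∈ M κ.1) s k).card ≤ 2 := by
      intro k hk
      have h5 : k ∈ S := by
        obtain ⟨κ, _, h6⟩ := Finset.mem_biUnion.1 hk
        exact h.sub κ.1 κ.2 h6
      rw [← hd k h5]
      unfold dgr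
      refine Finset.card_le_card_of_injOn (fun κ => κ.1) ?_ ?_
      · intro κ hκ
        have h6 := (Finset.mem_bipartiteAbove _).1 hκ
        exact Finset.mem_coe.2 (Finset.mem_filter.2 ⟨κ.2, h6.2⟩)
      · intro κ _ κ' _ h6
        exact Subtype.ext h6
    rw [Finset.sum_congr rfl h3, Finset.sum_const, smul_eq_mul] at h2
    have h7 := Finset.sum_le_sum h4
    rw [Finset.sum_const, smul_eq_mul, h2] at h7
    omega
  obtain ⟨f, hf1, hf2⟩ := (Finset.all_card_le_biUnion_card_iff_exists_injective _).1 h1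
  refine ⟨fun κ => if hκ : κ ∈ K then f ⟨κ, hκ⟩ else ⟨0, hΔ⟩, ?_, ?_⟩
  · intro κ hκ
    simp only [hκ, dif_pos]
    exact hf2 ⟨κ, hκ⟩
  · intro κ hκ κ' hκ' h8
    have hκ2 : κ ∈ K := hκ
    have hκ3 : κ' ∈ K := hκ'
    simp only [hκ2, hκ3, dif_pos] at h8
    exact congrArg Subtype.val (hf1 h8)

/-- the excesses of all classes have sum zero -/
lemma all_zero {S : Finset (Fin Δ)} {c : Fin Δ → ℕ} {K : Finset ι} {M : ι → Finset (Fin Δ)}
    (h : Tok S K M) (h0 : ∀ a, exc S c K M a ≤ 0) (a : ℕ) : exc S c K M a = 0 := by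
  by_cases ha : a ∈ S.image c
  · have h1 : ∑ b ∈ S.image c, exc S c K M b = 0 := by
      unfold exc
      rw [Finset.sum_fiberwise_of_maps_to (fun k hk => Finset.mem_image_of_mem c hk)]
      rw [Finset.sum_sub_distrib]
      have h2 := sum_dgr h
      have h3 : (∑ k ∈ S, (dgr K M k : ℤ)) = 2 * K.card := by exact_mod_cast h2
      rw [h3, h.card]
      simp [mul_comm]
    exact (Finset.sum_eq_zero_iff_of_nonpos fun b _ => h0 b).1 h1 a ha
  · unfold exc
    rw [Finset.filter_eq_empty_iff.2, Finset.sum_empty]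
    intro k hk hka
    exact ha (Finset.mem_image.2 ⟨k, hk, hka⟩)

/-- the new class -/
def ref (S : Finset (Fin Δ)) (c : Fin Δ → ℕ) (R : Finset (Fin Δ)) (k : Fin Δ) : ℕ :=
  if k ∈ R then S.sup c + 1 else c k

lemma lt_new {S : Finset (Fin Δ)} {c : Fin Δ → ℕ} {k : Fin Δ} (hk : k ∈ S) :
    c k < S.sup c + 1 := Nat.lt_succ_of_le (Finset.le_sup hk)

lemma ww_ref {S R : Finset (Fin Δ)} {c : Fin Δ → ℕ} {a : ℕ} {w : List (Fin Δ → Fin Δ)}
    (hR : ∀ k ∈ R, k ∈ S ∧ c k = a) (h : WW S (ref S c R) w) : WW S c w := by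
  refine ⟨h.inv, h.ins, ?_⟩
  intro τ hτ k
  have h1 := h.cl τ hτ k
  by_cases hk : k ∈ S
  · have hk2 : τ k ∈ S := map_mem (h.inv τ hτ) (h.ins τ hτ) hk
    have h3 := lt_new (c := c) hk
    have h4 := lt_new (c := c) hk2
    unfold ref at h1
    by_cases h5 : k ∈ R
    · by_cases h6 : τ k ∈ R
      · rw [(hR _ h5).2, (hR _ h6).2]
      · simp only [h5, h6, if_true, if_false] at h1
        omega
    · by_cases h6 : τ k ∈ R
      · simp only [h5, h6, if_true, if_false] at h1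
        omega
      · simpa only [h5, h6, if_false] using h1
  · rw [h.ins τ hτ k hk]

lemma exc_new {S R : Finset (Fin Δ)} {c : Fin Δ → ℕ} {K : Finset ι}
    {M : ι → Finset (Fin Δ)} (hR : R ⊆ S) :
    exc S (ref S c R) K M (S.sup c + 1) = ∑ k ∈ R, (2 - (dgr K M k : ℤ)) := by
  unfold exc
  refine Finset.sum_congr ?_ fun _ _ => rfl
  ext k
  rw [Finset.mem_filter]
  constructor
  · rintro ⟨h1, h2⟩
    by_contra h3
    unfold ref at h2
    rw [if_neg h3] at h2
    have := lt_new (c := c) h1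
    omega
  · intro h
    exact ⟨hR h, by unfold ref; rw [if_pos h]⟩

lemma exc_old {S R : Finset (Fin Δ)} {c : Fin Δ → ℕ} {K : Finset ι} {a : ℕ}
    {M : ι → Finset (Fin Δ)} (hR : ∀ k ∈ R, k ∈ S ∧ c k = a) (hS : a ∈ S.image c) :
    exc S (ref S c R) K M a = exc S c K M a - ∑ k ∈ R, (2 - (dgr K M k : ℤ)) := by
  classical
  have h1 : (S.filter fun k => c k = a) = (S.filter fun k => ref S c R k = a) ∪ R := by
    ext k
    rw [Finset.mem_union, Finset.mem_filter, Finset.mem_filter]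
    constructor
    · rintro ⟨h2, h3⟩
      by_cases h4 : k ∈ R
      · exact Or.inr h4
      · left
        refine ⟨h2, ?_⟩
        unfold ref
        rw [if_neg h4, h3]
    · rintro (⟨h2, h3⟩ | h2)
      · by_cases h4 : k ∈ R
        · exact hR k h4
        · unfold ref at h3
          rw [if_neg h4] at h3
          exact ⟨h2, h3⟩
      · exact hR k h2
  have h2 : Disjoint (S.filter fun k => ref S c R k = a) R := by
    rw [Finset.disjoint_left]
    intro k hk hk2
    rw [Finset.mem_filter] at hk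
    obtain ⟨l, hl, hla⟩ := Finset.mem_image.1 hS
    have h3 := lt_new (c := c) hl
    have h4 := hk.2
    unfold ref at h4
    rw [if_pos hk2] at h4
    omega
  unfold exc
  rw [h1, Finset.sum_union h2]
  ring

lemma exc_oth {S R : Finset (Fin Δ)} {c : Fin Δ → ℕ} {K : Finset ι} {a b : ℕ}
    {M : ι → Finset (Fin Δ)} (hR : ∀ k ∈ R, k ∈ S ∧ c k = a) (hb : b ≠ a)
    (hb2 : b ≠ S.sup c + 1) : exc S (ref S c R) K M b = exc S c K M b := by
  unfold exc
  refine Finset.sum_congr ?_ fun _ _ => rfl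
  ext k
  rw [Finset.mem_filter, Finset.mem_filter]
  unfold ref
  by_cases h4 : k ∈ R
  · rw [if_pos h4]
    constructor
    · rintro ⟨_, h5⟩
      exact absurd h5.symm hb2
    · rintro ⟨_, h5⟩
      exact absurd (h5.symm.trans (hR k h4).2) hb
  · rw [if_neg h4]

/-- the measure of the induction -/
def mu (S : Finset (Fin Δ)) (c : Fin Δ → ℕ) : ℕ := 2 * S.card - (S.image c).card

lemma mu_ref {S R : Finset (Fin Δ)} {c : Fin Δ → ℕ} {a : ℕ}
    (hR : ∀ k ∈ R, k ∈ S ∧ c k = a) (h1 : R.Nonempty) (h2 : ∃ k ∈ S, c k = a ∧ k ∉ R) :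
    mu S (ref S c R) < mu S c := by
  have h3 : S.image c ⊂ S.image (ref S c R) := by
    rw [Finset.ssubset_iff_of_subset]
    · obtain ⟨k, hk⟩ := h1
      refine ⟨S.sup c + 1, ?_, ?_⟩
      · exact Finset.mem_image.2 ⟨k, (hR k hk).1, by unfold ref; rw [if_pos hk]⟩
      · intro h4
        obtain ⟨l, hl, hl2⟩ := Finset.mem_image.1 h4
        have := lt_new (c := c) hl
        omega
    · intro b hb
      obtain ⟨k, hk, hkb⟩ := Finset.mem_image.1 hb
      by_cases h4 : k ∈ R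
      · obtain ⟨l, hl, hl2, hl3⟩ := h2
        refine Finset.mem_image.2 ⟨l, hl, ?_⟩
        unfold ref
        rw [if_neg hl3, hl2, ← hkb, (hR k h4).2]
      · refine Finset.mem_image.2 ⟨k, hk, ?_⟩
        unfold ref
        rw [if_neg h4, hkb]
  have h4 := Finset.card_lt_card h3
  have h5 : (S.image (ref S c R)).card ≤ S.card := Finset.card_image_le
  unfold mu
  omega

/-- the statement of the main induction -/
def Main (S : Finset (Fin Δ)) (c : Fin Δ → ℕ) : Prop :=
  ∃ w : List (Fin Δ → Fin Δ), WW S c w ∧ ∀ (ι : Type) (K : Finset ι) (M : ι → Finset (Fin Δ)),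
    Tok S K M → (∃ a, exc S c K M a ≤ 1 ∧ ∀ b, b ≠ a → exc S c K M b ≤ 0) →
    Force K (Sol K) w M

/-- a word which handles the tokens with excess vector in `C` -/
def Hdl (S : Finset (Fin Δ)) (c : Fin Δ → ℕ) (C : (ℕ → ℤ) → Prop)
    (w : List (Fin Δ → Fin Δ)) : Prop :=
  WW S c w ∧ ∀ (ι : Type) (K : Finset ι) (M : ι → Finset (Fin Δ)),
    Tok S K M → C (exc S c K M) → Force K (fun M' => Sol K M' ∨ phi K M' < phi K M) w M

/-- after a win or a drop of the potential every word can be played -/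
lemma rest (hSUM : tSUM) (hBAL : tBAL) (hSOL : tSOL) {S : Finset (Fin Δ)} {c : Fin Δ → ℕ}
    {w : List (Fin Δ → Fin Δ)} (hw : WW S c w) {K : Finset ι} {M : ι → Finset (Fin Δ)}
    (h2 : Two K M) {n : ℕ} (h : Sol K M ∨ phi K M < n) :
    Force K (fun M' => Sol K M' ∨ phi K M' < n) w M := by
  rcases h with h | h
  · exact mono (fun M' h' => Or.inl h') w M (hSOL ι Δ K w M hw.inv h2 h)
  · refine mono ?_ w M (bal hSUM hBAL w M hw h2)
    rintro M' (h' | ⟨π, _, _, hπ⟩)
    · exact Or.inr (h'.trans h)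
    · right
      have h3 : phi K M' = phi K M := by
        unfold phi
        rw [← Equiv.sum_comp π (fun k => dgr K M k ^ 2)]
        exact Finset.sum_congr rfl fun k _ => by rw [hπ k]
      rw [h3]
      exact h

/-- two conditions -/
lemma comb (hSUM : tSUM) (hBAL : tBAL) (hSOL : tSOL) {S : Finset (Fin Δ)} {c : Fin Δ → ℕ}
    {C1 C2 : (ℕ → ℤ) → Prop} {w1 w2 : List (Fin Δ → Fin Δ)} (h1 : Hdl S c C1 w1)
    (h2 : Hdl S c C2 w2) : Hdl S c (fun e => C1 e ∨ C2 e) (w1 ++ w2) := by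
  refine ⟨h1.1.append h2.1, ?_⟩
  intro ι K M hM hC
  refine app w2 w1 M ?_
  rcases hC with hC | hC
  · have h3 := inv w1 M (keep hSUM h1.1 (exc S c K M)) ⟨hM, rfl⟩ (h1.2 ι K M hM hC)
    refine mono ?_ w1 M h3
    rintro M' ⟨h4, h5, _⟩
    exact rest hSUM hBAL hSOL h2.1 h5.two h4
  · have h3 := inv w1 M (keep hSUM h1.1 (exc S c K M)) ⟨hM, rfl⟩
      (bal hSUM hBAL w1 M h1.1 hM.two)
    refine mono ?_ w1 M h3
    rintro M' ⟨h4, h5, h6⟩
    rcases h4 with h4 | ⟨π, _, _, hπ⟩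
    · exact rest hSUM hBAL hSOL h2.1 h5.two (Or.inr h4)
    · have h7 : phi K M' = phi K M := by
        unfold phi
        rw [← Equiv.sum_comp π (fun k => dgr K M k ^ 2)]
        exact Finset.sum_congr rfl fun k _ => by rw [hπ k]
      have h8 := h2.2 ι K M' h5 (by rw [h6]; exact hC)
      rw [h7] at h8
      exact h8

lemma comb_all (hSUM : tSUM) (hBAL : tBAL) (hSOL : tSOL) {S : Finset (Fin Δ)}
    {c : Fin Δ → ℕ} (C : ℕ → (ℕ → ℤ) → Prop) (s : Finset ℕ)
    (h : ∀ a ∈ s, ∃ w, Hdl S c (C a) w) : ∃ w, Hdl S c (fun e => ∃ a ∈ s, C a e) w := by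
  classical
  induction s using Finset.induction_on with
  | empty =>
    refine ⟨[], WW.nil, ?_⟩
    rintro ι K M _ ⟨a, ha, _⟩
    simp at ha
  | insert a s ha ih =>
    obtain ⟨w1, h1⟩ := h a (Finset.mem_insert_self a s)
    obtain ⟨w2, h2⟩ := ih fun b hb => h b (Finset.mem_insert_of_mem hb)
    obtain ⟨h3, h4⟩ := comb hSUM hBAL hSOL h1 h2
    refine ⟨w1 ++ w2, h3, ?_⟩
    rintro ι K M hM ⟨b, hb, hC⟩
    refine h4 ι K M hM ?_
    rcases Finset.mem_insert.1 hb with rfl | hb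
    · exact Or.inl hC
    · exact Or.inr ⟨b, hb, hC⟩

/-- one round for all tokens, then all rounds -/
lemma rounds (hSUM : tSUM) (hSOL : tSOL) {S : Finset (Fin Δ)} {c : Fin Δ → ℕ}
    {C : (ℕ → ℤ) → Prop} {w : List (Fin Δ → Fin Δ)} (h : Hdl S c C w) (n : ℕ) :
    ∃ u : List (Fin Δ → Fin Δ), WW S c u ∧ ∀ (ι : Type) (K : Finset ι)
      (M : ι → Finset (Fin Δ)), Tok S K M → C (exc S c K M) → phi K M < n →
      Force K (Sol K) u M := by
  induction n with
  | zero => exact ⟨[], WW.nil, fun ι K M _ _ h1 => absurd h1 (Nat.not_lt_zero _)⟩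
  | succ n ih =>
    obtain ⟨u, hu, h1⟩ := ih
    refine ⟨w ++ u, h.1.append hu, ?_⟩
    intro ι K M hM hC hn
    refine app u w M ?_
    have h3 := inv w M (keep hSUM h.1 (exc S c K M)) ⟨hM, rfl⟩ (h.2 ι K M hM hC)
    refine mono ?_ w M h3
    rintro M' ⟨h4, h5, h6⟩
    rcases h4 with h4 | h4
    · exact hSOL ι Δ K u M' hu.inv h5.two h4
    · exact h1 ι K M' h5 (by rw [h6]; exact hC) (by omega)

/-- the deletion step -/
lemma del (hDEL : tDEL) {S : Finset (Fin Δ)} {c : Fin Δ → ℕ} {x : Fin Δ} (hx : x ∈ S)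
    (hQ : ∀ k ∈ S, c k = c x → k = x) (IH : Main (S.erase x) c) :
    ∃ w, Hdl S c (fun e => e (c x) = 1 ∧ ∀ b, b ≠ c x → e b ≤ 0) w := by
  classical
  obtain ⟨w, hw, h1⟩ := IH
  have hw2 : WW S c w := ⟨hw.inv, fun τ hτ k hk => hw.ins τ hτ k
    (fun h => hk (Finset.mem_of_mem_erase h)), hw.cl⟩
  refine ⟨w, hw2, ?_⟩
  rintro ι K M hM ⟨h2, h3⟩
  have hfil : (S.filter fun k => c k = c x) = {x} := by
    ext k
    rw [Finset.mem_filter, Finset.mem_singleton]
    exact ⟨fun h => hQ k h.1 h.2, fun h => by rw [h]; exact ⟨hx, rfl⟩⟩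
  have h4 : dgr K M x = 1 := by
    unfold exc at h2
    rw [hfil, Finset.sum_singleton] at h2
    omega
  unfold dgr at h4
  obtain ⟨κ0, h5⟩ := Finset.card_eq_one.1 h4
  have h6 : κ0 ∈ K ∧ x ∈ M κ0 := by
    have : κ0 ∈ K.filter fun κ => x ∈ M κ := by rw [h5]; exact Finset.mem_singleton_self _
    exact Finset.mem_filter.1 this
  have h7 : ∀ κ ∈ K, κ ≠ κ0 → x ∉ M κ := by
    intro κ hκ hne hxκ
    have : κ ∈ K.filter fun κ => x ∈ M κ := Finset.mem_filter.2 ⟨hκ, hxκ⟩
    rw [h5] at this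
    exact hne (Finset.mem_singleton.1 this)
  have hfix : ∀ τ ∈ w, τ x = x := fun τ hτ => hw.ins τ hτ x (Finset.notMem_erase x S)
  refine mono (fun M' h' => Or.inl h') w M (hDEL ι Δ K κ0 x w M h6.1 h6.2 h7 hw.inv hfix ?_)
  -- the second element
  have h8 : ∃ y, y ≠ x ∧ M κ0 = {x, y} := by
    obtain ⟨a, b, hab, hM0⟩ := Finset.card_eq_two.1 (hM.two κ0 h6.1)
    have h9 := h6.2
    rw [hM0] at h9
    rcases Finset.mem_insert.1 h9 with h | h
    · exact ⟨b, by rw [h]; exact hab.symm, by rw [hM0, h]⟩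
    · rw [Finset.mem_singleton] at h
      refine ⟨a, by rw [h]; exact hab, ?_⟩
      rw [hM0, h]
      exact Finset.pair_comm a b
  obtain ⟨y, hyx, hM0⟩ := h8
  have hyS : y ∈ S := hM.sub κ0 h6.1 (by rw [hM0]; simp)
  have hyc : c y ≠ c x := fun h => hyx (hQ y hyS h)
  have htok : Tok (S.erase x) (K.erase κ0) M := by
    refine ⟨fun κ hκ => hM.two κ (Finset.mem_of_mem_erase hκ), ?_, ?_⟩
    · intro κ hκ k hk
      have hκ2 := Finset.mem_erase.1 hκ
      refine Finset.mem_erase.2 ⟨?_, hM.sub κ hκ2.2 hk⟩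
      rintro rfl
      exact h7 κ hκ2.2 hκ2.1 hk
    · rw [Finset.card_erase_of_mem h6.1, Finset.card_erase_of_mem hx, hM.card]
  have hdg : ∀ k, k ≠ x → (dgr (K.erase κ0) M k : ℤ) = dgr K M k - if k = y then 1 else 0 := by
    intro k hk
    unfold dgr
    rw [Finset.filter_erase]
    by_cases hky : k = y
    · rw [if_pos hky]
      have h9 : κ0 ∈ K.filter fun κ => k ∈ M κ :=
        Finset.mem_filter.2 ⟨h6.1, by rw [hM0, hky]; simp⟩
      rw [Finset.card_erase_of_mem h9]
      have h10 : 0 < (K.filter fun κ => k ∈ M κ).card := Finset.card_pos.2 ⟨κ0, h9⟩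
      push_cast [Nat.cast_sub h10]
      ring
    · rw [if_neg hky, Finset.erase_eq_of_notMem, sub_zero]
      intro h9
      have h10 := (Finset.mem_filter.1 h9).2
      rw [hM0] at h10
      simp [hk, hky] at h10
  have hexc : ∀ b, b ≠ c x → exc (S.erase x) c (K.erase κ0) M b =
      exc S c K M b + if b = c y then 1 else 0 := by
    intro b hb
    unfold exc
    have h9 : ((S.erase x).filter fun k => c k = b) = S.filter fun k => c k = b := by
      ext k
      rw [Finset.mem_filter, Finset.mem_filter, Finset.mem_erase]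
      constructor
      · rintro ⟨⟨_, h10⟩, h11⟩
        exact ⟨h10, h11⟩
      · rintro ⟨h10, h11⟩
        refine ⟨⟨?_, h10⟩, h11⟩
        rintro rfl
        exact hb h11.symm
    rw [h9]
    have h10 : ∀ k ∈ S.filter (fun k => c k = b), (2 - (dgr (K.erase κ0) M k : ℤ)) =
        (2 - (dgr K M k : ℤ)) + if k = y then 1 else 0 := by
      intro k hk
      rw [Finset.mem_filter] at hk
      have h11 : k ≠ x := by
        rintro rfl
        exact hb hk.2.symm
      rw [hdg k h11]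
      ring
    rw [Finset.sum_congr rfl h10, Finset.sum_add_distrib, Finset.sum_ite_eq']
    congr 1
    by_cases h11 : b = c y
    · rw [if_pos h11, if_pos]
      exact Finset.mem_filter.2 ⟨hyS, h11.symm⟩
    · rw [if_neg h11, if_neg]
      intro h12
      exact h11 (Finset.mem_filter.1 h12).2.symm
  refine h1 ι (K.erase κ0) M htok ⟨c y, ?_, ?_⟩
  · rw [hexc _ hyc, if_pos rfl]
    have := h3 (c y) hyc
    omega
  · intro b hb
    by_cases hbx : b = c x
    · unfold exc
      rw [Finset.filter_eq_empty_iff.2, Finset.sum_empty]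
      intro k hk hkb
      have h9 := Finset.mem_erase.1 hk
      exact h9.1 (hQ k h9.2 (by rw [hkb, hbx]))
    · rw [hexc b hbx, if_neg hb, add_zero]
      exact h3 b hbx

/-- the condition for a class `a` with at least two colours -/
def Cnd (a : ℕ) (e : ℕ → ℤ) : Prop := (0 ≤ e a ∧ e a ≤ 1) ∧ ∀ b, b ≠ a → e b ≤ 0

/-- the chain: `R` is the initial segment, `L` lists the rest of the class -/
lemma chain (hSUM : tSUM) (hBAL : tBAL) (hSOL : tSOL) {S : Finset (Fin Δ)} {c : Fin Δ → ℕ}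
    {a : ℕ} (IH : ∀ R : Finset (Fin Δ), (∀ k ∈ R, k ∈ S ∧ c k = a) → R.Nonempty →
      (∃ k ∈ S, c k = a ∧ k ∉ R) → Main S (ref S c R)) :
    ∀ (L : List (Fin Δ)) (R : Finset (Fin Δ)), L ≠ [] → L.Nodup → (∀ k ∈ L, k ∉ R) →
      (∀ k, (k ∈ R ∨ k ∈ L) ↔ (k ∈ S ∧ c k = a)) → (R = ∅ → 2 ≤ L.length) →
      ∃ w, WW S c w ∧ ∀ (ι : Type) (K : Finset ι) (M : ι → Finset (Fin Δ)),
        Tok S K M → Cnd a (exc S c K M) → (∀ k ∈ S, c k = a → 1 ≤ dgr K M k) →
        (R.Nonempty → ∑ k ∈ R, (2 - (dgr K M k : ℤ)) ≤ exc S c K M a - 2) →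
        Force K (fun M' => Sol K M' ∨ phi K M' < phi K M) w M
  | [], R, h, _, _, _, _ => absurd rfl h
  | [v], R, _, _, hd, hQ, hR => by
    refine ⟨[], WW.nil, ?_⟩
    intro ι K M hM hC h1 h2
    exfalso
    have hRne : R.Nonempty := by
      rw [Finset.nonempty_iff_ne_empty]
      intro h3
      have := hR h3
      simp at this
    have h3 := h2 hRne
    have hvR : v ∉ R := hd v (by simp)
    have h4 : (S.filter fun k => c k = a) = insert v R := by
      ext k
      rw [Finset.mem_filter, ← hQ k, Finset.mem_insert]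
      simp only [List.mem_singleton]
      exact or_comm
    have h5 : exc S c K M a = (2 - (dgr K M v : ℤ)) + ∑ k ∈ R, (2 - (dgr K M k : ℤ)) := by
      unfold exc
      rw [h4, Finset.sum_insert hvR]
    have hv := (hQ v).1 (Or.inr (by simp))
    have h6 := h1 v hv.1 hv.2
    omega
  | v :: u :: L, R, _, hn, hd, hQ, _ => by
    have hvR : v ∉ R := hd v (by simp)
    have hv := (hQ v).1 (Or.inr (by simp))
    have hu := (hQ u).1 (Or.inr (by simp))
    have hnv : v ∉ (u :: L) := (List.nodup_cons.1 hn).1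
    have hn2 : (u :: L).Nodup := (List.nodup_cons.1 hn).2
    have huv : u ≠ v := fun h => hnv (by rw [h]; simp)
    set R' := insert v R with hR'
    have hR'S : ∀ k ∈ R', k ∈ S ∧ c k = a := by
      intro k hk
      rcases Finset.mem_insert.1 hk with rfl | hk
      · exact hv
      · exact (hQ k).1 (Or.inl hk)
    have hR'n : R'.Nonempty := ⟨v, Finset.mem_insert_self v R⟩
    have huR : u ∉ R' := by
      intro h
      rcases Finset.mem_insert.1 h with h | h
      · exact huv h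
      · exact hd u (by simp) h
    have hd2 : ∀ k ∈ (u :: L), k ∉ R' := by
      intro k hk h
      rcases Finset.mem_insert.1 h with rfl | h
      · exact hnv hk
      · exact hd k (List.mem_cons_of_mem _ hk) h
    have hQ2 : ∀ k, (k ∈ R' ∨ k ∈ (u :: L)) ↔ (k ∈ S ∧ c k = a) := by
      intro k
      rw [← hQ k, hR', Finset.mem_insert, List.mem_cons (a := k) (b := v)]
      tauto
    obtain ⟨w1, hw1, h1⟩ := IH R' hR'S hR'n ⟨u, hu.1, hu.2, huR⟩
    obtain ⟨w2, hw2, h2⟩ := chain hSUM hBAL hSOL IH (u :: L) R' (by simp) hn2 hd2 hQ2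
      (fun h => absurd h hR'n.ne_empty)
    have hw1c : WW S c w1 := ww_ref hR'S hw1
    refine ⟨w1 ++ w2, hw1c.append hw2, ?_⟩
    intro ι K M hM hC h3 h4
    refine app w2 w1 M ?_
    have haS : a ∈ S.image c := Finset.mem_image.2 ⟨v, hv.1, hv.2⟩
    have hanew : a ≠ S.sup c + 1 := by
      have := lt_new (c := c) hv.1
      rw [hv.2] at this
      omega
    have hf : ∑ k ∈ R', (2 - (dgr K M k : ℤ)) =
        (2 - (dgr K M v : ℤ)) + ∑ k ∈ R, (2 - (dgr K M k : ℤ)) := by
      rw [hR', Finset.sum_insert hvR]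
    have hdv := h3 v hv.1 hv.2
    have hf1 : ∑ k ∈ R', (2 - (dgr K M k : ℤ)) ≤ 1 := by
      rcases Finset.eq_empty_or_nonempty R with h5 | h5
      · rw [hf, h5, Finset.sum_empty]
        omega
      · have h6 := h4 h5
        have h7 := hC.1.2
        rw [hf]
        omega
    by_cases hwin : exc S c K M a - 1 ≤ ∑ k ∈ R', (2 - (dgr K M k : ℤ))
    · -- the block wins
      have h5 : ∃ b, exc S (ref S c R') K M b ≤ 1 ∧
          ∀ b', b' ≠ b → exc S (ref S c R') K M b' ≤ 0 := by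
        have e1 := exc_new (K := K) (M := M) (S := S) (c := c) (R := R')
          (fun k hk => (hR'S k hk).1)
        have e2 := exc_old (K := K) (M := M) hR'S haS
        by_cases h6 : exc S c K M a ≤ ∑ k ∈ R', (2 - (dgr K M k : ℤ))
        · refine ⟨S.sup c + 1, by rw [e1]; exact hf1, ?_⟩
          intro b hb
          by_cases hba : b = a
          · rw [hba, e2]
            omega
          · rw [exc_oth hR'S hba hb]
            exact hC.2 b hba
        · refine ⟨a, by rw [e2]; omega, ?_⟩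
          intro b hb
          by_cases hbn : b = S.sup c + 1
          · rw [hbn, e1]
            have := hC.1.2
            omega
          · rw [exc_oth hR'S hb hbn]
            exact hC.2 b hb
      have h6 := inv w1 M (keep hSUM hw1c (exc S c K M)) ⟨hM, rfl⟩ (h1 ι K M hM h5)
      refine mono ?_ w1 M h6
      rintro M' ⟨h7, h8, _⟩
      exact rest hSUM hBAL hSOL hw2 h8.two (Or.inl h7)
    · -- balanced play
      have h6 := inv w1 M (keep hSUM hw1c (exc S c K M)) ⟨hM, rfl⟩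
        (bal hSUM hBAL w1 M hw1 hM.two)
      refine mono ?_ w1 M h6
      rintro M' ⟨h7, h8, h9⟩
      rcases h7 with h7 | ⟨π, hπ1, hπ2, hπ3⟩
      · exact rest hSUM hBAL hSOL hw2 h8.two (Or.inr h7)
      · have h10 : phi K M' = phi K M := by
          unfold phi
          rw [← Equiv.sum_comp π (fun k => dgr K M k ^ 2)]
          exact Finset.sum_congr rfl fun k _ => by rw [hπ3 k]
        have hπR : ∀ k ∈ R', π k ∈ R' := by
          intro k hk
          have h11 := hπ1 k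
          have h12 := hπ2 k (hR'S k hk).1
          by_contra h13
          unfold ref at h11
          rw [if_pos hk, if_neg h13] at h11
          have := lt_new (c := c) h12
          omega
        have hπa : ∀ k ∈ S, c k = a → (π k ∈ S ∧ c (π k) = a) := by
          intro k hk hka
          refine ⟨hπ2 k hk, ?_⟩
          by_cases hkR : k ∈ R'
          · exact (hR'S _ (hπR k hkR)).2
          · have h11 := hπ1 k
            by_cases h13 : π k ∈ R'
            · exact (hR'S _ h13).2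
            · unfold ref at h11
              rw [if_neg hkR, if_neg h13] at h11
              rw [h11, hka]
        have h11 : ∀ k ∈ S, c k = a → 1 ≤ dgr K M' k := by
          intro k hk hka
          rw [hπ3]
          have h12 := hπa k hk hka
          exact h3 _ h12.1 h12.2
        have h12 : ∑ k ∈ R', (2 - (dgr K M' k : ℤ)) = ∑ k ∈ R', (2 - (dgr K M k : ℤ)) := by
          have h13 : R'.map π.toEmbedding = R' := by
            refine Finset.eq_of_subset_of_card_le ?_ (by rw [Finset.card_map])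
            intro k hk
            obtain ⟨l, hl, rfl⟩ := Finset.mem_map.1 hk
            exact hπR l hl
          conv_rhs => rw [← h13, Finset.sum_map]
          exact Finset.sum_congr rfl fun k _ => by
            rw [hπ3]
            rfl
        have h13 := h2 ι K M' h8 (by rw [h9]; exact hC) h11 (fun _ => by
          rw [h12, h9]
          omega)
        rw [h10] at h13
        exact h13

lemma mu_erase {S : Finset (Fin Δ)} {c : Fin Δ → ℕ} {x : Fin Δ} (hx : x ∈ S) :
    mu (S.erase x) c < mu S c := by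
  classical
  have h1 : (S.image c).card ≤ ((S.erase x).image c).card + 1 := by
    conv_lhs => rw [← Finset.insert_erase hx, Finset.image_insert]
    exact Finset.card_insert_le _ _
  have h2 : (S.image c).card ≤ S.card := Finset.card_image_le
  have h3 := Finset.card_erase_of_mem hx
  have h4 : 0 < S.card := Finset.card_pos.2 ⟨x, hx⟩
  unfold mu
  omega

/-- a class with at least two colours -/
lemma big (hSUM : tSUM) (hBAL : tBAL) (hSOL : tSOL) (hZER : tZER) {S : Finset (Fin Δ)}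
    {c : Fin Δ → ℕ} {a : ℕ} (h2 : 2 ≤ (S.filter fun k => c k = a).card)
    (IH : ∀ (S' : Finset (Fin Δ)) (c' : Fin Δ → ℕ), mu S' c' < mu S c → Main S' c') :
    ∃ w, Hdl S c (Cnd a) w := by
  set Q := S.filter fun k => c k = a with hQ
  have hQm : ∀ k, k ∈ Q ↔ k ∈ S ∧ c k = a := fun k => Finset.mem_filter
  obtain ⟨w0, hw1, hw2, hw3⟩ := hZER Δ Q
  have hw0 : WW S c w0 := by
    refine ⟨hw1, fun τ hτ k hk => hw2 τ hτ k fun h => hk ((hQm k).1 h).1, ?_⟩
    intro τ hτ k
    by_cases hk : k ∈ Q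
    · have h3 : τ k ∈ Q := map_mem (hw1 τ hτ) (hw2 τ hτ) hk
      rw [((hQm k).1 hk).2, ((hQm _).1 h3).2]
    · rw [hw2 τ hτ k hk]
  obtain ⟨w1, hw1c, h1⟩ := chain (a := a) (S := S) (c := c) hSUM hBAL hSOL
    (fun R hR1 hR2 hR3 => IH S (ref S c R) (mu_ref hR1 hR2 hR3)) Q.toList ∅
    (by
      intro h
      rw [Finset.toList_eq_nil] at h
      rw [h] at h2
      simp at h2) Q.nodup_toList (fun k _ => Finset.notMem_empty k)
    (fun k => by rw [Finset.mem_toList, hQm]; simp)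
    (fun _ => by rw [Finset.length_toList]; exact h2)
  refine ⟨w0 ++ w1, hw0.append hw1c, ?_⟩
  intro ι K M hM hC
  refine app w1 w0 M ?_
  have hsum : (∑ k ∈ Q, (dgr K M k : ℤ)) = 2 * Q.card - exc S c K M a := by
    rw [exc_eq]
    ring
  by_cases hz : ∃ k ∈ Q, dgr K M k = 0
  · have h3 : ∑ k ∈ Q, dgr K M k = 2 * Q.card ∨ ∑ k ∈ Q, dgr K M k + 1 = 2 * Q.card := by
      have h4 := hC.1
      have h5 : (∑ k ∈ Q, (dgr K M k : ℤ)) = ((∑ k ∈ Q, dgr K M k : ℕ) : ℤ) := by push_cast; rfl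
      rw [h5] at hsum
      omega
    have h6 := inv w0 M (keep hSUM hw0 (exc S c K M)) ⟨hM, rfl⟩ (hw3 ι K M hM.two h3 hz)
    refine mono ?_ w0 M h6
    rintro M' ⟨h7, h8, _⟩
    exact rest hSUM hBAL hSOL hw1c h8.two (Or.inr h7)
  · have h6 := inv w0 M (keep hSUM hw0 (exc S c K M)) ⟨hM, rfl⟩
      (bal hSUM hBAL w0 M hw0 hM.two)
    refine mono ?_ w0 M h6
    rintro M' ⟨h7, h8, h9⟩
    rcases h7 with h7 | ⟨π, hπ1, hπ2, hπ3⟩
    · exact rest hSUM hBAL hSOL hw1c h8.two (Or.inr h7)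
    · have h10 : phi K M' = phi K M := by
        unfold phi
        rw [← Equiv.sum_comp π (fun k => dgr K M k ^ 2)]
        exact Finset.sum_congr rfl fun k _ => by rw [hπ3 k]
      have h11 := h1 ι K M' h8 (by rw [h9]; exact hC) (by
        intro k hk hka
        rw [hπ3]
        have h12 : π k ∈ Q := (hQm _).2 ⟨hπ2 k hk, by rw [hπ1, hka]⟩
        exact Nat.one_le_iff_ne_zero.2 fun h13 => hz ⟨π k, h12, h13⟩)
        (fun h => absurd h (by simp))
      rw [h10] at h11
      exact h11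

lemma phi_lt {S : Finset (Fin Δ)} {K : Finset ι}
    {M : ι → Finset (Fin Δ)} (h : Tok S K M) : phi K M < Δ * Δ ^ 2 + 1 := by
  have h1 : K.card ≤ Δ := by
    rw [h.card]
    have := Finset.card_le_univ S
    rwa [Fintype.card_fin] at this
  have h2 : ∀ k ∈ (Finset.univ : Finset (Fin Δ)), dgr K M k ^ 2 ≤ Δ ^ 2 := by
    intro k _
    exact Nat.pow_le_pow_left ((Finset.card_filter_le _ _).trans h1) 2
  have h3 := Finset.sum_le_sum h2
  rw [Finset.sum_const, Finset.card_univ, Fintype.card_fin, smul_eq_mul] at h3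
  unfold phi
  omega

theorem main (hSUM : tSUM) (hBAL : tBAL) (hSOL : tSOL) (hDEL : tDEL) (hZER : tZER)
    (hΔ : 0 < Δ) (n : ℕ) : ∀ (S : Finset (Fin Δ)) (c : Fin Δ → ℕ), mu S c = n → Main S c := by
  classical
  induction n using Nat.strong_induction_on with
  | _ n ih =>
  intro S c hn
  have IH : ∀ (S' : Finset (Fin Δ)) (c' : Fin Δ → ℕ), mu S' c' < mu S c → Main S' c' :=
    fun S' c' h => ih (mu S' c') (by rw [← hn]; exact h) S' c' rfl
  set C : ℕ → (ℕ → ℤ) → Prop := fun a e =>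
    if 2 ≤ (S.filter fun k => c k = a).card then Cnd a e
    else e a = 1 ∧ ∀ b, b ≠ a → e b ≤ 0 with hCdef
  have h1 : ∀ a ∈ S.image c, ∃ w, Hdl S c (C a) w := by
    intro a ha
    by_cases h2 : 2 ≤ (S.filter fun k => c k = a).card
    · obtain ⟨w, hw⟩ := big hSUM hBAL hSOL hZER h2 IH
      refine ⟨w, ?_⟩
      have h3 : C a = Cnd a := by
        funext e
        simp only [hCdef, if_pos h2]
      rw [h3]
      exact hw
    · obtain ⟨x, hx, rfl⟩ := Finset.mem_image.1 ha
      have hQ : ∀ k ∈ S, c k = c x → k = x := by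
        intro k hk hkx
        by_contra hne
        apply h2
        have h3 : ({k, x} : Finset (Fin Δ)) ⊆ S.filter fun l => c l = c x := by
          intro l hl
          rcases Finset.mem_insert.1 hl with h | h
          · rw [h]; exact Finset.mem_filter.2 ⟨hk, hkx⟩
          · rw [Finset.mem_singleton.1 h]; exact Finset.mem_filter.2 ⟨hx, rfl⟩
        have h4 := Finset.card_le_card h3
        rwa [Finset.card_pair hne] at h4
      obtain ⟨w, hw⟩ := del hDEL hx hQ (IH _ _ (mu_erase hx))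
      refine ⟨w, ?_⟩
      have h3 : C (c x) = fun e => e (c x) = 1 ∧ ∀ b, b ≠ c x → e b ≤ 0 := by
        funext e
        simp only [hCdef, if_neg h2]
      rw [h3]
      exact hw
  obtain ⟨w1, hw1⟩ := comb_all hSUM hBAL hSOL C (S.image c) h1
  have h2 : Hdl S c (fun e => (∀ a ∈ S.image c, ¬ 2 ≤ (S.filter fun k => c k = a).card) ∧
      ∀ b, e b = 0) [] := by
    refine ⟨WW.nil, ?_⟩
    rintro ι K M hM ⟨h3, h4⟩
    refine Or.inl (hall hΔ hM ?_)
    intro k hk
    have h5 := h3 (c k) (Finset.mem_image_of_mem c hk)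
    have h6 : (S.filter fun l => c l = c k) = {k} := by
      have h7 : k ∈ S.filter fun l => c l = c k := Finset.mem_filter.2 ⟨hk, rfl⟩
      have h8 : (S.filter fun l => c l = c k).card = 1 := by
        have := Finset.card_pos.2 ⟨k, h7⟩
        omega
      obtain ⟨l, hl⟩ := Finset.card_eq_one.1 h8
      rw [hl] at h7 ⊢
      rw [Finset.mem_singleton.1 h7]
    have h7 := h4 (c k)
    unfold exc at h7
    rw [h6, Finset.sum_singleton] at h7
    omega
  obtain ⟨u, hu, h5⟩ := rounds hSUM hSOL (comb hSUM hBAL hSOL hw1 h2) (Δ * Δ ^ 2 + 1)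
  refine ⟨u, hu, ?_⟩
  rintro ι K M hM ⟨a, ha, hb⟩
  refine h5 ι K M hM ?_ (phi_lt hM)
  by_cases h6 : exc S c K M a = 1
  · left
    have h7 : a ∈ S.image c := by
      by_contra h8
      unfold exc at h6
      rw [Finset.filter_eq_empty_iff.2, Finset.sum_empty] at h6
      · exact absurd h6 (by norm_num)
      · intro k hk hka
        exact h8 (Finset.mem_image.2 ⟨k, hk, hka⟩)
    refine ⟨a, h7, ?_⟩
    simp only [hCdef]
    split_ifs
    · exact ⟨⟨by omega, by omega⟩, hb⟩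
    · exact ⟨h6, hb⟩
  · have h7 : ∀ b, exc S c K M b ≤ 0 := by
      intro b
      by_cases hba : b = a
      · rw [hba]
        omega
      · exact hb b hba
    have h8 := all_zero hM h7
    by_cases h9 : ∃ a ∈ S.image c, 2 ≤ (S.filter fun k => c k = a).card
    · obtain ⟨a', ha', h10⟩ := h9
      left
      refine ⟨a', ha', ?_⟩
      simp only [hCdef, if_pos h10]
      exact ⟨⟨by rw [h8], by rw [h8]; norm_num⟩, fun b _ => h7 b⟩
    · right
      exact ⟨fun a' ha' h10 => h9 ⟨a', ha', h10⟩, h8⟩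

end MAI_

theorem pf_tMAI (hSUM : tSUM) (hBAL : tBAL) (hSOL : tSOL) (hDEL : tDEL) (hZER : tZER) :
    tMAI := by
  intro Δ S c hΔ
  obtain ⟨w, hw, h⟩ := MAI_.main hSUM hBAL hSOL hDEL hZER hΔ _ S c rfl
  exact ⟨w, hw.inv, hw.ins, hw.cl, fun ι K M h1 h2 h3 h4 => h ι K M ⟨h1, h2, h3⟩ h4⟩

theorem pf_tUNI (hWIN : tWIN) (hMAI : tMAI) : tUNI := by
  intro Δ
  rcases Nat.eq_zero_or_pos Δ with rfl | hΔ
  · refine ⟨[], fun τ hτ => by simp at hτ, ?_⟩
    rintro M _ ⟨κ0, _⟩
    exact κ0.elim0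
  · obtain ⟨w, h1, _, _, h4⟩ := hMAI Δ Finset.univ (fun _ => 0) hΔ
    refine ⟨w, h1, ?_⟩
    intro M hM _
    refine hWIN Δ w M (h4 (Fin Δ) Finset.univ M (fun κ _ => hM κ)
      (fun κ _ => Finset.subset_univ _) rfl ?_)
    have htok : MAI_.Tok Finset.univ Finset.univ M :=
      ⟨fun κ _ => hM κ, fun κ _ => Finset.subset_univ _, rfl⟩
    have h5 := MAI_.sum_dgr htok
    refine ⟨0, ?_, ?_⟩
    · have h6 : (Finset.univ.filter fun _ : Fin Δ => (0 : ℕ) = 0) = Finset.univ := by simp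
      rw [h6, Finset.sum_sub_distrib]
      have h7 : (∑ k : Fin Δ, (dgr Finset.univ M k : ℤ)) =
          2 * ((Finset.univ : Finset (Fin Δ)).card : ℤ) := by exact_mod_cast h5
      rw [h7]
      simp [mul_comm]
    · intro b hb
      rw [Finset.filter_eq_empty_iff.2, Finset.sum_empty]
      intro k _ h
      exact hb h.symm

end Pool.Agent.SGV
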