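import Pool.Agent.SGV.GL42
import Pool.Agent.SGV.MAI
import Pool.Agent.SGV.LET
import Pool.Agent.SGV.SUM
import Pool.Agent.SGV.ZTOP

set_option autoImplicit false

/-! MP_fff3e1_lc: there is a universal word for every `Δ`. -/

namespace Pool.Agent.SGV

theorem fin_ZER : tZER := pf_tZER pf_tSUM pf_tSTE pf_tSTN pf_tFRZ pf_tBAL pf_tLET

theorem fin_MAI : tMAI := pf_tMAI pf_tSUM pf_tBAL pf_tSOL_42 pf_tDEL_42 fin_ZER

theorem fin_UNI : tUNI := pf_tUNI pf_tWIN_42 fin_MAI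

end Pool.Agent.SGV
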