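import Pool.Agent.SGV.Defs

set_option autoImplicit false

/-! MP_fff3e1_lc, row 3525: game layer (second copies of tAPP, tWIN, tDEL, tSOL). -/

namespace Pool.Agent.SGV

open Pool.Agent.SGM

namespace G66

theorem pf_tAPP : tAPP := by
  intro ι Δ K T u w
  induction u with
  | nil => exact fun M h => h
  | cons τ u ih =>
    rintro M ⟨B, hB, h⟩
    exact ⟨B, hB, fun X hX => ih _ (h X hX)⟩

theorem pf_tWIN : tWIN := by
  intro Δ w
  induction w with
  | nil =>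
    rintro M ⟨φ, h1, h2⟩
    exact ⟨φ, fun κ _ => h1 κ (Finset.mem_univ κ), fun κ κ' _ _ h => h2 (by simp) (by simp) h⟩
  | cons τ w ih =>
    rintro M ⟨B, hB, h⟩
    refine ⟨B, ?_, fun X hX => ih _ (h X hX)⟩
    intro x hx
    exact hB x (fun h' => hx h'.1)

variable {ι : Type} {Δ : ℕ}

lemma mem_flp {τ : Fin Δ → Fin Δ} {M : ι → Finset (Fin Δ)} {X : Set (ι × Fin Δ)} {κ : ι}
    {k : Fin Δ} (hτ : ∀ k, τ (τ k) = k) : k ∈ flp τ M X κ ↔
      (k ∈ M κ ∧ ¬ ((κ, k) ∈ X ∧ τ k ∉ M κ)) ∨ (τ k ∈ M κ ∧ (κ, τ k) ∈ X ∧ k ∉ M κ) := by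
  classical
  unfold flp
  rw [Finset.mem_image]
  constructor
  · rintro ⟨l, hl, h⟩
    by_cases h1 : (κ, l) ∈ X ∧ τ l ∉ M κ
    · rw [if_pos h1] at h
      subst h
      right
      rw [hτ]
      exact ⟨hl, h1.1, h1.2⟩
    · rw [if_neg h1] at h
      subst h
      exact Or.inl ⟨hl, h1⟩
  · rintro (⟨h1, h2⟩ | ⟨h1, h2, h3⟩)
    · exact ⟨k, h1, by rw [if_neg h2]⟩
    · refine ⟨τ k, h1, ?_⟩
      rw [if_pos ⟨h2, by rw [hτ]; exact h3⟩, hτ]

theorem pf_tDEL : tDEL := by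
  intro ι _ Δ K κ0 x w
  induction w with
  | nil =>
    rintro M h0 hx hn _ _ ⟨φ, h1, h2⟩
    refine ⟨Function.update φ κ0 x, ?_, ?_⟩
    · intro κ hκ
      by_cases h : κ = κ0
      · subst h
        simpa using hx
      · rw [Function.update_of_ne h]
        exact h1 κ (Finset.mem_erase.2 ⟨h, hκ⟩)
    · intro κ hκ κ' hκ' h3
      have hκ2 : κ ∈ K := hκ
      have hκ3 : κ' ∈ K := hκ'
      by_cases h : κ = κ0
      · by_cases h' : κ' = κ0
        · rw [h, h']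
        · exfalso
          rw [h, Function.update_self, Function.update_of_ne h'] at h3
          refine hn κ' hκ3 h' ?_
          rw [h3]
          exact h1 κ' (Finset.mem_erase.2 ⟨h', hκ3⟩)
      · by_cases h' : κ' = κ0
        · exfalso
          rw [h', Function.update_self, Function.update_of_ne h] at h3
          refine hn κ hκ2 h ?_
          rw [← h3]
          exact h1 κ (Finset.mem_erase.2 ⟨h, hκ2⟩)
        · rw [Function.update_of_ne h, Function.update_of_ne h'] at h3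
          exact h2 (Finset.mem_coe.2 (Finset.mem_erase.2 ⟨h, hκ2⟩))
            (Finset.mem_coe.2 (Finset.mem_erase.2 ⟨h', hκ3⟩)) h3
  | cons τ w ih =>
    rintro M h0 hx hn hi hf ⟨B, hB, h⟩
    have hτ := hi τ List.mem_cons_self
    have hτx := hf τ List.mem_cons_self
    refine ⟨B, ?_, fun X hX => ih (flp τ M X) h0 ?_ ?_
      (fun σ hσ => hi σ (List.mem_cons_of_mem _ hσ))
      (fun σ hσ => hf σ (List.mem_cons_of_mem _ hσ)) (h X hX)⟩
    · intro p hp
      refine hB p fun h' => hp ⟨h'.1, Finset.mem_of_mem_erase h'.2⟩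
    · rw [mem_flp hτ, hτx]
      exact Or.inl ⟨hx, fun h' => h'.2 hx⟩
    · intro κ hκ hne
      rw [mem_flp hτ, hτx]
      rintro (h' | h')
      · exact hn κ hκ hne h'.1
      · exact hn κ hκ hne h'.1

/-- owner pins `p` and `p'` of the two colours of one pair -/
def Par (K : Finset ι) (τ : Fin Δ → Fin Δ) (M : ι → Finset (Fin Δ)) (φ : ι → Fin Δ)
    (p p' : ι × Fin Δ) : Prop :=
  p.1 ∈ K ∧ φ p.1 = p.2 ∧ p ∈ Pin τ M ∧ p'.1 ∈ K ∧ φ p'.1 = p'.2 ∧ p' ∈ Pin τ M ∧ p'.2 = τ p.2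

lemma Par.symm {K : Finset ι} {τ : Fin Δ → Fin Δ} {M : ι → Finset (Fin Δ)} {φ : ι → Fin Δ}
    (hτ : ∀ k, τ (τ k) = k) {p p' : ι × Fin Δ} (h : Par K τ M φ p p') : Par K τ M φ p' p := by
  obtain ⟨h1, h2, h3, h4, h5, h6, h7⟩ := h
  exact ⟨h4, h5, h6, h1, h2, h3, by rw [h7, hτ]⟩

lemma Par.uniq {K : Finset ι} {τ : Fin Δ → Fin Δ} {M : ι → Finset (Fin Δ)} {φ : ι → Fin Δ}
    (hφ : Set.InjOn φ K) {p p' p'' : ι × Fin Δ} (h : Par K τ M φ p p')
    (h' : Par K τ M φ p p'') : p' = p'' := by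
  have h1 : p'.2 = p''.2 := by rw [h.2.2.2.2.2.2, h'.2.2.2.2.2.2]
  have h2 : p'.1 = p''.1 := by
    refine hφ (Finset.mem_coe.2 h.2.2.2.1) (Finset.mem_coe.2 h'.2.2.2.1) ?_
    rw [h.2.2.2.2.1, h'.2.2.2.2.1, h1]
  exact Prod.ext h2 h1

open Classical in
/-- the block which keeps `φ` -/
noncomputable def qq (K : Finset ι) (τ : Fin Δ → Fin Δ) (M : ι → Finset (Fin Δ))
    (φ : ι → Fin Δ) (p : ι × Fin Δ) : ι × Fin Δ :=
  if h : ∃ p', Par K τ M φ p p' then h.choose else p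

lemma qq_eq {K : Finset ι} {τ : Fin Δ → Fin Δ} {M : ι → Finset (Fin Δ)} {φ : ι → Fin Δ}
    (hφ : Set.InjOn φ K) {p p' : ι × Fin Δ} (h : Par K τ M φ p p') : qq K τ M φ p = p' := by
  have h1 : ∃ p', Par K τ M φ p p' := ⟨p', h⟩
  unfold qq
  rw [dif_pos h1]
  exact Par.uniq hφ h1.choose_spec h

lemma qq_no {K : Finset ι} {τ : Fin Δ → Fin Δ} {M : ι → Finset (Fin Δ)} {φ : ι → Fin Δ}
    {p : ι × Fin Δ} (h : ¬ ∃ p', Par K τ M φ p p') : qq K τ M φ p = p := by
  unfold qq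
  rw [dif_neg h]

lemma sol (K : Finset ι) (w : List (Fin Δ → Fin Δ)) : ∀ M : ι → Finset (Fin Δ), WInv w →
    Sol K M → Force K (Sol K) w M := by
  classical
  induction w with
  | nil => exact fun M _ h => h
  | cons τ w ih =>
    rintro M hw ⟨φ, h1, h2⟩
    have hτ := hw τ List.mem_cons_self
    refine ⟨⟨qq K τ M φ, id, id, ?_, fun _ => rfl, fun _ => rfl, fun _ _ => rfl, fun _ _ => rfl,
      fun _ _ => rfl⟩, ?_, fun X hX => ih _ (fun σ hσ => hw σ (List.mem_cons_of_mem _ hσ)) ?_⟩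
    · intro p
      by_cases h : ∃ p', Par K τ M φ p p'
      · obtain ⟨p', hp⟩ := h
        rw [qq_eq h2 hp, qq_eq h2 (hp.symm hτ)]
      · rw [qq_no h, qq_no h]
    · intro p hp
      refine ⟨?_, rfl, rfl⟩
      by_cases h : ∃ p', Par K τ M φ p p'
      · obtain ⟨p', h3⟩ := h
        exact absurd ⟨h3.2.2.1, h3.1⟩ hp
      · exact qq_no h
    · have hcl : ∀ p p', Par K τ M φ p p' → p ∈ X → p' ∈ X := by
        intro p p' hp hpX
        have h3 := (hX p).1 hpX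
        have h4 : qq K τ M φ p ∈ X := h3
        rwa [qq_eq h2 hp] at h4
      set sw : Fin Δ → Prop := fun k => ∃ κ ∈ K, (φ κ = k ∨ φ κ = τ k) ∧
        (κ, φ κ) ∈ Pin τ M ∧ (κ, φ κ) ∈ X with hsw
      have hsw2 : ∀ k, sw k → sw (τ k) := by
        rintro k ⟨κ, h3, h4, h5⟩
        refine ⟨κ, h3, ?_, h5⟩
        rw [hτ]
        exact h4.symm
      set ρ : Fin Δ → Fin Δ := fun k => if sw k then τ k else k with hρ
      have hρ2 : ∀ k, ρ (ρ k) = k := by
        intro k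
        by_cases h : sw k
        · have h3 := hsw2 k h
          simp only [hρ, if_pos h, if_pos h3, hτ]
        · simp only [hρ, if_neg h]
      refine ⟨fun κ => ρ (φ κ), ?_, ?_⟩
      · intro κ hκ
        have h3 := h1 κ hκ
        by_cases h : sw (φ κ)
        · have h4 : ρ (φ κ) = τ (φ κ) := by simp only [hρ, if_pos h]
          show ρ (φ κ) ∈ flp τ M X κ
          rw [h4, mem_flp hτ, hτ]
          by_cases h5 : τ (φ κ) ∈ M κ
          · exact Or.inl ⟨h5, fun h6 => h6.2 h3⟩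
          · right
            refine ⟨h3, ?_, h5⟩
            have hpin : (κ, φ κ) ∈ Pin τ M := ⟨h3, h5⟩
            obtain ⟨κ1, h6, h7, h8, h9⟩ := h
            rcases h7 with h7 | h7
            · have h10 : κ1 = κ := h2 (Finset.mem_coe.2 h6) (Finset.mem_coe.2 hκ) h7
              rw [h10] at h9
              exact h9
            · refine hcl (κ1, φ κ1) (κ, φ κ) ⟨h6, rfl, h8, hκ, rfl, hpin, ?_⟩ h9
              show φ κ = τ (φ κ1)
              rw [h7, hτ]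
        · have h4 : ρ (φ κ) = φ κ := by simp only [hρ, if_neg h]
          show ρ (φ κ) ∈ flp τ M X κ
          rw [h4, mem_flp hτ]
          left
          refine ⟨h3, fun h5 => h ⟨κ, hκ, Or.inl rfl, ⟨h3, h5.2⟩, h5.1⟩⟩
      · intro κ hκ κ' hκ' h3
        have h4 : ρ (φ κ) = ρ (φ κ') := h3
        have h5 := congrArg ρ h4
        rw [hρ2, hρ2] at h5
        exact h2 hκ hκ' h5

theorem pf_tSOL : tSOL := fun _ _ K w M hw _ h => sol K w M hw h

end G66

end Pool.Agent.SGV
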