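import Pool.Agent.SGV.Defs

set_option autoImplicit false

/-! MP_fff3e1_lc, universal words for every `Δ`: the game layer (targets tAPP, tSOL, tDEL,
tWIN), version of helper42. -/

namespace Pool.Agent.SGV

open Pool.Agent.SGM

namespace GL42_

variable {ι : Type} {Δ : ℕ}

lemma mem_flp {τ : Fin Δ → Fin Δ} (hτ : ∀ k, τ (τ k) = k) {M : ι → Finset (Fin Δ)}
    {X : Set (ι × Fin Δ)} {κ : ι} {k : Fin Δ} :
    k ∈ flp τ M X κ ↔ (k ∈ M κ ∧ ¬ ((κ, k) ∈ X ∧ τ k ∉ M κ)) ∨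
      (τ k ∈ M κ ∧ (κ, τ k) ∈ X ∧ k ∉ M κ) := by
  classical
  unfold flp
  rw [Finset.mem_image]
  constructor
  · rintro ⟨l, hl, h⟩
    by_cases hc : (κ, l) ∈ X ∧ τ l ∉ M κ
    · rw [if_pos hc] at h
      have h1 : τ k = l := by rw [← h, hτ]
      right
      rw [h1]
      exact ⟨hl, hc.1, h ▸ hc.2⟩
    · rw [if_neg hc] at h
      subst h
      exact Or.inl ⟨hl, hc⟩
  · rintro (⟨h1, h2⟩ | ⟨h1, h2, h3⟩)
    · exact ⟨k, h1, if_neg h2⟩
    · refine ⟨τ k, h1, ?_⟩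
      rw [if_pos ⟨h2, by rw [hτ]; exact h3⟩, hτ]

/-- the blocks of a matching of the pins -/
def blk (q : ι × Fin Δ → ι × Fin Δ) (h : ∀ p, q (q p) = p) : Blk (ι × Fin Δ) where
  q := q
  n := id
  r := id
  q2 := h
  n2 := fun _ => rfl
  r3 := fun _ => rfl
  qn := fun _ _ => rfl
  qr := fun _ _ => rfl
  nr := fun _ h => absurd rfl h

lemma sol_step {K : Finset ι} {τ : Fin Δ → Fin Δ} (hτ : ∀ k, τ (τ k) = k)
    {M : ι → Finset (Fin Δ)} (h : Sol K M) : ∃ B : Blk (ι × Fin Δ),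
      B.Sup {p | p ∈ Pin τ M ∧ p.1 ∈ K} ∧ ∀ X : Set (ι × Fin Δ),
      (∀ p, B.At X p) → Sol K (flp τ M X) := by
  classical
  obtain ⟨φ, hφ, hi⟩ := h
  have hi' : ∀ κ κ', κ ∈ K → κ' ∈ K → φ κ = φ κ' → κ = κ' := fun κ κ' h1 h2 h3 =>
    hi (Finset.mem_coe.2 h1) (Finset.mem_coe.2 h2) h3
  -- the owner of a pin
  let O : ι × Fin Δ → Prop := fun p => p ∈ Pin τ M ∧ p.1 ∈ K ∧ φ p.1 = p.2
  have Oinj : ∀ p p', O p → O p' → p.2 = p'.2 → p = p' := by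
    intro p p' h1 h2 h3
    have h4 : p.1 = p'.1 := hi' p.1 p'.1 h1.2.1 h2.2.1 (by rw [h1.2.2, h2.2.2, h3])
    exact Prod.ext h4 h3
  let q : ι × Fin Δ → ι × Fin Δ := fun p =>
    if hp : O p ∧ ∃ κ, O (κ, τ p.2) then (hp.2.choose, τ p.2) else p
  have q1 : ∀ p, O p → ∀ κ, O (κ, τ p.2) → q p = (κ, τ p.2) := by
    intro p h1 κ h2
    have h3 : O p ∧ ∃ κ, O (κ, τ p.2) := ⟨h1, κ, h2⟩
    have h4 : q p = (h3.2.choose, τ p.2) := dif_pos h3
    rw [h4]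
    exact Oinj _ _ h3.2.choose_spec h2 rfl
  have q0 : ∀ p, ¬ (O p ∧ ∃ κ, O (κ, τ p.2)) → q p = p := fun p hp => dif_neg hp
  have qq : ∀ p, q (q p) = p := by
    intro p
    by_cases h1 : O p ∧ ∃ κ, O (κ, τ p.2)
    · obtain ⟨h2, κ, h3⟩ := h1
      rw [q1 p h2 κ h3]
      have h4 := q1 (κ, τ p.2) h3 p.1 (by
        simp only [hτ]
        exact h2)
      rw [h4]
      simp only [hτ]
    · rw [q0 p h1, q0 p h1]
  refine ⟨blk q qq, fun p hp => ⟨q0 p fun h1 => hp ⟨h1.1.1, h1.1.2.1⟩, rfl, rfl⟩,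
    fun X hX => ?_⟩
  have hXi : ∀ p, q p ∈ X ↔ p ∈ X := by
    intro p
    constructor
    · intro h1
      have h2 := (hX (q p)).1 h1
      have h3 : (blk q qq).q (q p) = p := qq p
      rwa [h3] at h2
    · exact (hX p).1
  -- flipped owners
  let F : ι → Prop := fun κ => O (κ, φ κ) ∧ (κ, φ κ) ∈ X
  have FF : ∀ κ κ', F κ → O (κ', φ κ') → φ κ' = τ (φ κ) → F κ' := by
    intro κ κ' h1 h2 h3
    refine ⟨h2, ?_⟩
    have h4 := q1 (κ, φ κ) h1.1 κ' (by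
      simp only
      rw [← h3]
      exact h2)
    have h5 := (hXi (κ, φ κ)).2 h1.2
    rw [h4] at h5
    simp only at h5
    rwa [← h3] at h5
  let D : ι → Prop := fun κ => τ (φ κ) ∈ M κ ∧ ∃ κ', F κ' ∧ φ κ' = τ (φ κ)
  let ψ : ι → Fin Δ := fun κ => if F κ ∨ D κ then τ (φ κ) else φ κ
  have ψ1 : ∀ κ, F κ ∨ D κ → ψ κ = τ (φ κ) := fun κ h => if_pos h
  have ψ2 : ∀ κ, ¬ (F κ ∨ D κ) → ψ κ = φ κ := fun κ h => if_neg h
  refine ⟨ψ, fun κ hκ => ?_, ?_⟩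
  · have h1 := hφ κ hκ
    by_cases h2 : F κ ∨ D κ
    · rw [ψ1 κ h2, mem_flp hτ, hτ]
      rcases h2 with h2 | h2
      · right
        exact ⟨h1, h2.2, h2.1.1.2⟩
      · left
        exact ⟨h2.1, fun h3 => h3.2 h1⟩
    · rw [ψ2 κ h2, mem_flp hτ]
      left
      refine ⟨h1, fun h3 => h2 (Or.inl ⟨⟨⟨h1, h3.2⟩, hκ, rfl⟩, h3.1⟩)⟩
  · have key : ∀ κ κ', κ ∈ K → κ' ∈ K → κ ≠ κ' → ¬ (F κ ∨ D κ) →
        (F κ' ∨ D κ') → ψ κ = ψ κ' → False := by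
      intro κ κ' n1 n2 hne h1 h2 h3
      rw [ψ2 κ h1, ψ1 κ' h2] at h3
      have h4 : φ κ' = τ (φ κ) := by rw [h3, hτ]
      have h5 : F κ' := by
        rcases h2 with h2 | ⟨_, κ'', h5, h6⟩
        · exact h2
        · have h7 : κ'' = κ := hi' _ _ h5.1.2.1 n1 (by rw [h6, h3])
          rw [h7] at h5
          exact absurd (Or.inl h5) h1
      by_cases h6 : τ (φ κ) ∈ M κ
      · exact h1 (Or.inr ⟨h6, κ', h5, h4⟩)
      · exact h1 (Or.inl (FF κ' κ h5 ⟨⟨hφ κ n1, h6⟩, n1, rfl⟩ h3))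
    intro κ hκ κ' hκ' h1
    rw [Finset.mem_coe] at hκ hκ'
    by_contra hne
    by_cases h2 : F κ ∨ D κ
    · by_cases h3 : F κ' ∨ D κ'
      · rw [ψ1 κ h2, ψ1 κ' h3] at h1
        refine hne (hi' _ _ hκ hκ' ?_)
        rw [← hτ (φ κ), h1, hτ]
      · exact key κ' κ hκ' hκ (Ne.symm hne) h3 h2 h1.symm
    · by_cases h3 : F κ' ∨ D κ'
      · exact key κ κ' hκ hκ' hne h2 h3 h1
      · rw [ψ2 κ h2, ψ2 κ' h3] at h1
        exact hne (hi' _ _ hκ hκ' h1)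

lemma sol_stay {K : Finset ι} {w : List (Fin Δ → Fin Δ)} (hw : WInv w)
    {M : ι → Finset (Fin Δ)} (h : Sol K M) : Force K (Sol K) w M := by
  induction w generalizing M with
  | nil => exact h
  | cons τ w ih =>
    obtain ⟨B, h1, h2⟩ := sol_step (hw τ (by simp)) h
    exact ⟨B, h1, fun X hX => ih (fun σ hσ => hw σ (by simp [hσ])) (h2 X hX)⟩

end GL42_

theorem pf_tAPP_42 : tAPP := by
  intro ι Δ K T u w M H
  induction u generalizing M with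
  | nil => exact H
  | cons τ u ih =>
    obtain ⟨B, h1, h2⟩ := H
    exact ⟨B, h1, fun X hX => ih _ (h2 X hX)⟩

theorem pf_tSOL_42 : tSOL := fun _ _ _ _ _ hw _ h => GL42_.sol_stay hw h

theorem pf_tDEL_42 : tDEL := by
  intro ι _ Δ K κ0 x w M hκ0 hx hu hw hwx H
  induction w generalizing M with
  | nil =>
    classical
    obtain ⟨φ, h1, h2⟩ := H
    refine ⟨fun κ => if κ = κ0 then x else φ κ, fun κ hκ => ?_, ?_⟩
    · by_cases h : κ = κ0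
      · simp only [if_pos h]
        rwa [h]
      · simp only [if_neg h]
        exact h1 κ (Finset.mem_erase.2 ⟨h, hκ⟩)
    · have h3 : ∀ κ ∈ K, κ ≠ κ0 → φ κ ≠ x := fun κ hκ hne h =>
        hu κ hκ hne (h ▸ h1 κ (Finset.mem_erase.2 ⟨hne, hκ⟩))
      intro κ hκ κ' hκ' he
      rw [Finset.mem_coe] at hκ hκ'
      simp only at he
      by_cases h : κ = κ0
      · by_cases h' : κ' = κ0
        · rw [h, h']
        · rw [if_pos h, if_neg h'] at he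
          exact absurd he.symm (h3 κ' hκ' h')
      · by_cases h' : κ' = κ0
        · rw [if_neg h, if_pos h'] at he
          exact absurd he (h3 κ hκ h)
        · rw [if_neg h, if_neg h'] at he
          exact h2 (Finset.mem_coe.2 (Finset.mem_erase.2 ⟨h, hκ⟩))
            (Finset.mem_coe.2 (Finset.mem_erase.2 ⟨h', hκ'⟩)) he
  | cons τ w ih =>
    obtain ⟨B, h1, h2⟩ := H
    have hτ := hw τ (by simp)
    have hτx := hwx τ (by simp)
    have hm : ∀ X κ, x ∈ flp τ M X κ ↔ x ∈ M κ := by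
      intro X κ
      rw [GL42_.mem_flp hτ, hτx]
      tauto
    refine ⟨B, fun p hp => h1 p fun hp' => hp ⟨hp'.1, Finset.mem_of_mem_erase hp'.2⟩,
      fun X hX => ih (flp τ M X) ((hm X κ0).2 hx) (fun κ hκ hne h => hu κ hκ hne ((hm X κ).1 h))
        (fun σ hσ => hw σ (by simp [hσ])) (fun σ hσ => hwx σ (by simp [hσ])) (h2 X hX)⟩

theorem pf_tWIN_42 : tWIN := by
  intro Δ w M H
  induction w generalizing M with
  | nil =>
    obtain ⟨φ, h1, h2⟩ := H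
    exact ⟨φ, fun κ _ => h1 κ (Finset.mem_univ κ), fun κ κ' _ _ h =>
      h2 (by simp) (by simp) h⟩
  | cons τ w ih =>
    obtain ⟨B, h1, h2⟩ := H
    exact ⟨B, fun p hp => h1 p fun h => hp h.1, fun X hX => ih _ (h2 X hX)⟩

end Pool.Agent.SGV
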