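import Pool.Agent.SGV.Defs

set_option autoImplicit false

/-! MP_fff3e1_lc, letter lemmas of `SGV/Defs.lean` (reserve copy, helper24). -/

namespace Pool.Agent.SGV

namespace H24

open Pool.Agent.SGM

variable {ι : Type} {Δ : ℕ}

theorem mem_flp {τ : Fin Δ → Fin Δ} (hτ : ∀ k, τ (τ k) = k) (M : ι → Finset (Fin Δ))
    (X : Set (ι × Fin Δ)) (κ : ι) (j : Fin Δ) :
    j ∈ flp τ M X κ ↔ (j ∈ M κ ∧ ¬ ((κ, j) ∈ X ∧ τ j ∉ M κ)) ∨
      (τ j ∈ M κ ∧ (κ, τ j) ∈ X ∧ j ∉ M κ) := by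
  classical
  unfold flp
  simp only [Finset.mem_image]
  constructor
  · rintro ⟨k, hk, hkj⟩
    split_ifs at hkj with h
    · subst hkj
      right
      rw [hτ]
      exact ⟨hk, h.1, h.2⟩
    · subst hkj
      exact Or.inl ⟨hk, h⟩
  · rintro (⟨h1, h2⟩ | ⟨h1, h2, h3⟩)
    · exact ⟨j, h1, if_neg h2⟩
    · refine ⟨τ j, h1, ?_⟩
      rw [hτ, if_pos ⟨h2, h3⟩]

theorem card_flp {τ : Fin Δ → Fin Δ} (hτ : ∀ k, τ (τ k) = k) (M : ι → Finset (Fin Δ))
    (X : Set (ι × Fin Δ)) (κ : ι) : (flp τ M X κ).card = (M κ).card := by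
  classical
  unfold flp
  apply Finset.card_image_of_injOn
  intro a ha b hb hab
  have ha' : a ∈ M κ := by simpa using ha
  have hb' : b ∈ M κ := by simpa using hb
  simp only at hab
  split_ifs at hab with h1 h2 h2
  · rw [← hτ a, hab, hτ]
  · exact absurd (hab ▸ hb') h1.2
  · exact absurd (hab ▸ ha') h2.2
  · exact hab

theorem dgr_eq (K : Finset ι) (M : ι → Finset (Fin Δ)) (k : Fin Δ) :
    dgr K M k = ∑ κ ∈ K, if k ∈ M κ then 1 else 0 := by
  unfold dgr
  rw [Finset.card_filter]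

theorem pf_tSUM : tSUM := by
  intro ι Δ K τ M X hτ h2
  refine ⟨fun κ hκ => by rw [card_flp hτ]; exact h2 κ hκ, ?_, ?_, ?_⟩
  · intro k hk
    unfold dgr
    congr 1
    apply Finset.filter_congr
    intro κ _
    rw [mem_flp hτ, hk]
    tauto
  · intro k _
    rw [dgr_eq, dgr_eq, dgr_eq, dgr_eq, ← Finset.sum_add_distrib, ← Finset.sum_add_distrib]
    apply Finset.sum_congr rfl
    intro κ _
    have e1 := mem_flp hτ M X κ k
    have e2 := mem_flp hτ M X κ (τ k)
    rw [hτ] at e2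
    by_cases a : k ∈ M κ <;> by_cases b : τ k ∈ M κ <;> by_cases c : (κ, k) ∈ X <;>
      by_cases d : (κ, τ k) ∈ X <;> simp [a, b, c, d] at e1 e2 ⊢ <;> simp [e1, e2]
  · intro S hS hM κ hκ j hj
    rw [mem_flp hτ] at hj
    rcases hj with ⟨h, -⟩ | ⟨h, -, -⟩
    · exact hM κ hκ h
    · rw [← hτ j]
      exact hS _ (hM κ hκ h)

/-- the sets with a pin at `k` -/
def A (K : Finset ι) (τ : Fin Δ → Fin Δ) (M : ι → Finset (Fin Δ)) (k : Fin Δ) : Finset ι :=
  K.filter fun κ => k ∈ M κ ∧ τ k ∉ M κ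

theorem dgr_A {K : Finset ι} {τ : Fin Δ → Fin Δ} (hτ : ∀ k, τ (τ k) = k)
    (M : ι → Finset (Fin Δ)) (k : Fin Δ) :
    dgr K M k + (A K τ M (τ k)).card = dgr K M (τ k) + (A K τ M k).card := by
  unfold dgr A
  rw [Finset.card_filter, Finset.card_filter, Finset.card_filter, Finset.card_filter,
    ← Finset.sum_add_distrib, ← Finset.sum_add_distrib]
  apply Finset.sum_congr rfl
  intro κ _
  rw [hτ]
  by_cases a : k ∈ M κ <;> by_cases b : τ k ∈ M κ <;> simp [a, b]

open Classical in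
theorem dgr_flp {K : Finset ι} {τ : Fin Δ → Fin Δ} (hτ : ∀ k, τ (τ k) = k)
    (M : ι → Finset (Fin Δ)) (X : Set (ι × Fin Δ)) (k : Fin Δ) :
    dgr K (flp τ M X) k + ((A K τ M k).filter fun κ => (κ, k) ∈ X).card =
      dgr K M k + ((A K τ M (τ k)).filter fun κ => (κ, τ k) ∈ X).card := by
  unfold dgr A
  rw [Finset.filter_filter, Finset.filter_filter, Finset.card_filter, Finset.card_filter,
    Finset.card_filter, Finset.card_filter, ← Finset.sum_add_distrib, ← Finset.sum_add_distrib]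
  apply Finset.sum_congr rfl
  intro κ _
  have e1 := mem_flp hτ M X κ k
  rw [hτ]
  by_cases a : k ∈ M κ <;> by_cases b : τ k ∈ M κ <;> by_cases c : (κ, k) ∈ X <;>
      by_cases d : (κ, τ k) ∈ X <;> simp [a, b, c, d] at e1 ⊢ <;> simp [e1]

theorem rank [Nonempty ι] (A : Finset ι) : ∃ (r : ι → ℕ) (u : ℕ → ι),
    (∀ κ ∈ A, r κ < A.card ∧ u (r κ) = κ) ∧ ∀ i < A.card, u i ∈ A ∧ r (u i) = i := by
  classical
  let e := A.equivFin
  refine ⟨fun κ => if h : κ ∈ A then (e ⟨κ, h⟩ : ℕ) else 0,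
    fun i => if h : i < A.card then (e.symm ⟨i, h⟩ : ι) else Classical.arbitrary ι, ?_, ?_⟩
  · intro κ hκ
    simp [hκ]
  · intro i hi
    simp [hi]

/-- the pairing of the pins -/
structure Cor (K : Finset ι) (τ : Fin Δ → Fin Δ) (M : ι → Finset (Fin Δ)) where
  q : ι × Fin Δ → ι × Fin Δ
  inv : ∀ p, q (q p) = p
  sup : ∀ p, q p ≠ p → p.1 ∈ A K τ M p.2
  snd : ∀ p, q p ≠ p → (q p).2 = τ p.2
  emp : ∀ k, dgr K M k ≤ dgr K M (τ k) → ∀ κ ∈ A K τ M k, q (κ, k) ≠ (κ, k)

theorem cor_exists (K : Finset ι) {τ : Fin Δ → Fin Δ} (hτ : ∀ k, τ (τ k) = k)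
    (M : ι → Finset (Fin Δ)) : Nonempty (Cor K τ M) := by
  classical
  rcases isEmpty_or_nonempty ι with hι | hι
  · exact ⟨⟨id, fun _ => rfl, fun p => (hι.false p.1).elim, fun p => (hι.false p.1).elim,
      fun k _ κ => (hι.false κ).elim⟩⟩
  choose r u h1 h2 using fun k => rank (A K τ M k)
  have hne : ∀ k κ, κ ∈ A K τ M k → τ k ≠ k := by
    intro k κ hκ he
    rw [A, Finset.mem_filter, he] at hκ
    exact hκ.2.2 hκ.2.1
  refine ⟨⟨fun p => if p.1 ∈ A K τ M p.2 ∧ r p.2 p.1 < (A K τ M (τ p.2)).card then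
    (u (τ p.2) (r p.2 p.1), τ p.2) else p, ?_, ?_, ?_, ?_⟩⟩
  · rintro ⟨κ, k⟩
    by_cases h : κ ∈ A K τ M k ∧ r k κ < (A K τ M (τ k)).card
    · have h3 := h2 (τ k) (r k κ) h.2
      have h4 := h1 k κ h.1
      simp only [h, and_self, if_true, hτ, h3, h4]
    · simp only [h, if_false]
  · rintro ⟨κ, k⟩ h
    by_contra hc
    apply h
    simp only [hc, false_and, if_false]
  · rintro ⟨κ, k⟩ h
    by_cases h' : κ ∈ A K τ M k ∧ r k κ < (A K τ M (τ k)).card
    · simp only [h', and_self, if_true]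
    · exact absurd (by simp only [h', if_false]) h
  · intro k hk κ hκ he
    have h3 := dgr_A (K := K) hτ M k
    have h4 := h1 k κ hκ
    have h5 : r k κ < (A K τ M (τ k)).card := by omega
    simp only [hκ, h5, and_self, if_true] at he
    exact hne k κ hκ (congrArg Prod.snd he)

variable {K : Finset ι} {τ : Fin Δ → Fin Δ} {M : ι → Finset (Fin Δ)}

open Classical in
/-- the surplus pins at `k` -/
noncomputable def Cor.U (C : Cor K τ M) (k : Fin Δ) : Finset ι :=
  (A K τ M k).filter fun κ => C.q (κ, k) = (κ, k)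

open Classical in
theorem Cor.pair (C : Cor K τ M) (X : Set (ι × Fin Δ))
    (hX : ∀ p ∈ X, C.q p ∈ X) (k : Fin Δ) :
    ((A K τ M k).filter fun κ => (κ, k) ∈ X ∧ C.q (κ, k) ≠ (κ, k)).card ≤
      ((A K τ M (τ k)).filter fun κ => (κ, τ k) ∈ X ∧ C.q (κ, τ k) ≠ (κ, τ k)).card := by
  apply Finset.card_le_card_of_injOn (fun κ => (C.q (κ, k)).1)
  · intro κ hκ
    simp only [Finset.coe_filter, Set.mem_ofPred_eq] at hκ ⊢
    obtain ⟨h1, h2, h3⟩ := hκ
    have h4 : C.q (κ, k) = ((C.q (κ, k)).1, τ k) := Prod.ext rfl (C.snd _ h3)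
    have h5 : C.q ((C.q (κ, k)).1, τ k) = (κ, k) := by rw [← h4, C.inv]
    have h6 : C.q ((C.q (κ, k)).1, τ k) ≠ ((C.q (κ, k)).1, τ k) := by
      rw [h5, ← h4]
      exact fun h => h3 h.symm
    refine ⟨C.sup _ h6, ?_, h6⟩
    rw [← h4]
    exact hX _ h2
  · intro κ hκ κ' hκ' he
    simp only [Finset.coe_filter, Set.mem_ofPred_eq] at hκ hκ' he
    have h4 : C.q (κ, k) = C.q (κ', k) :=
      Prod.ext he ((C.snd _ hκ.2.2).trans (C.snd _ hκ'.2.2).symm)
    have h5 := congrArg C.q h4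
    rw [C.inv, C.inv] at h5
    exact congrArg Prod.fst h5

open Classical in
/-- the number of flipped surplus pins -/
noncomputable def Cor.s (C : Cor K τ M) (X : Set (ι × Fin Δ)) (k : Fin Δ) : ℕ :=
  ((C.U k).filter fun κ => (κ, k) ∈ X).card

theorem Cor.count (C : Cor K τ M) (hτ : ∀ k, τ (τ k) = k) (X : Set (ι × Fin Δ))
    (hX : ∀ p ∈ X, C.q p ∈ X) (k : Fin Δ) :
    dgr K (flp τ M X) k + C.s X k = dgr K M k + C.s X (τ k) := by
  classical
  have h1 := dgr_flp (K := K) hτ M X k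
  have h2 := C.pair X hX k
  have h3 := C.pair X hX (τ k)
  rw [hτ] at h3
  have h4 : ∀ j, ((A K τ M j).filter fun κ => (κ, j) ∈ X).card = C.s X j +
      ((A K τ M j).filter fun κ => (κ, j) ∈ X ∧ C.q (κ, j) ≠ (κ, j)).card := by
    intro j
    unfold Cor.s Cor.U
    rw [Finset.filter_filter, ← Finset.card_union_of_disjoint]
    · congr 1
      ext κ
      simp only [Finset.mem_filter, Finset.mem_union]
      tauto
    · rw [Finset.disjoint_left]
      intro κ ha hb
      simp only [Finset.mem_filter] at ha hb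
      exact hb.2.2 ha.2.1
  have h5 := h4 k
  have h6 := h4 (τ k)
  omega

theorem Cor.s_le (C : Cor K τ M) (X : Set (ι × Fin Δ)) (k : Fin Δ) : C.s X k ≤ (C.U k).card := by
  classical
  exact Finset.card_filter_le _ _

theorem Cor.U_card (C : Cor K τ M) (hτ : ∀ k, τ (τ k) = k) (k : Fin Δ) :
    (C.U k).card = dgr K M k - dgr K M (τ k) := by
  classical
  have hE : ∀ j, dgr K M j ≤ dgr K M (τ j) → (C.U j).card = 0 := by
    intro j hj
    rw [Finset.card_eq_zero, Finset.eq_empty_iff_forall_notMem]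
    intro κ hκ
    rw [Cor.U, Finset.mem_filter] at hκ
    exact C.emp j hj κ hκ.1 hκ.2
  have h1 := C.count hτ Set.univ (fun _ _ => trivial) k
  have h2 : ∀ j, C.s Set.univ j = (C.U j).card := by
    intro j
    unfold Cor.s
    simp
  have h3 := dgr_flp (K := K) hτ M Set.univ k
  have h4 := dgr_A (K := K) hτ M k
  simp only [Set.mem_univ, Finset.filter_true] at h3
  rw [h2, h2] at h1
  rcases le_total (dgr K M k) (dgr K M (τ k)) with h | h
  · rw [hE k h]
    omega
  · have h5 := hE (τ k) (by rw [hτ]; exact h)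
    omega

theorem pair_le {a b a' b' x y : ℕ} (h1 : a' + x = a + y) (h2 : b' + y = b + x)
    (hx : x ≤ a - b) (hy : y ≤ b - a) : a' ^ 2 + b' ^ 2 ≤ a ^ 2 + b ^ 2 := by
  rcases le_total b a with h | h
  · have hy0 : y = 0 := by omega
    subst hy0
    obtain ⟨e, rfl⟩ : ∃ e, a = b + x + e := ⟨a - b - x, by omega⟩
    obtain rfl : a' = b + e := by omega
    obtain rfl : b' = b + x := by omega
    nlinarith [Nat.zero_le (x * e)]
  · have hx0 : x = 0 := by omega
    subst hx0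
    obtain ⟨e, rfl⟩ : ∃ e, b = a + y + e := ⟨b - a - y, by omega⟩
    obtain rfl : b' = a + e := by omega
    obtain rfl : a' = a + y := by omega
    nlinarith [Nat.zero_le (y * e)]

theorem pair_lt {a b a' b' x y : ℕ} (h1 : a' + x = a + y) (h2 : b' + y = b + x)
    (hx : x < a - b) (hx0 : 0 < x) (hy : y ≤ b - a) : a' ^ 2 + b' ^ 2 < a ^ 2 + b ^ 2 := by
  have hy0 : y = 0 := by omega
  subst hy0
  obtain ⟨e, rfl⟩ : ∃ e, a = b + x + e := ⟨a - b - x, by omega⟩
  obtain rfl : a' = b + e := by omega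
  obtain rfl : b' = b + x := by omega
  have he : 0 < e := by omega
  nlinarith [Nat.mul_pos hx0 he]

theorem phi_lt {d d' s : Fin Δ → ℕ} (hτ : ∀ k, τ (τ k) = k)
    (h1 : ∀ k, d' k + s k = d k + s (τ k)) (h2 : ∀ k, s k ≤ d k - d (τ k)) {p : Fin Δ}
    (hp : 0 < s p) (hp' : s p < d p - d (τ p)) : ∑ k, d' k ^ 2 < ∑ k, d k ^ 2 := by
  have hc : ∀ f : Fin Δ → ℕ, ∑ k, f (τ k) = ∑ k, f k := fun f =>
    Equiv.sum_comp (Function.Involutive.toPerm τ hτ) f
  have e1 : ∑ k, (d' k ^ 2 + d' (τ k) ^ 2) = 2 * ∑ k, d' k ^ 2 := by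
    rw [Finset.sum_add_distrib, hc fun k => d' k ^ 2]
    ring
  have e2 : ∑ k, (d k ^ 2 + d (τ k) ^ 2) = 2 * ∑ k, d k ^ 2 := by
    rw [Finset.sum_add_distrib, hc fun k => d k ^ 2]
    ring
  have h3 : ∀ k, d' (τ k) + s (τ k) = d (τ k) + s k := fun k => by
    have := h1 (τ k)
    rwa [hτ] at this
  have h4 : ∀ k, s (τ k) ≤ d (τ k) - d k := fun k => by
    have := h2 (τ k)
    rwa [hτ] at this
  have e3 : ∑ k, (d' k ^ 2 + d' (τ k) ^ 2) < ∑ k, (d k ^ 2 + d (τ k) ^ 2) := by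
    apply Finset.sum_lt_sum
    · intro k _
      exact pair_le (h1 k) (h3 k) (h2 k) (h4 k)
    · exact ⟨p, Finset.mem_univ _, pair_lt (h1 p) (h3 p) hp' hp (h4 p)⟩
  omega

/-- the result of a letter in which all blocks contain the pairing: the potential drops, or the
surplus pins of every colour are flipped together -/
theorem Cor.key (C : Cor K τ M) (hτ : ∀ k, τ (τ k) = k) (X : Set (ι × Fin Δ))
    (hX : ∀ p ∈ X, C.q p ∈ X) : phi K (flp τ M X) < phi K M ∨
      ∀ k, C.s X k = 0 ∨ C.s X k = (C.U k).card := by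
  by_contra hc
  push Not at hc
  obtain ⟨h1, k, h2, h3⟩ := hc
  apply absurd h1
  rw [not_le]
  have h4 : ∀ k, C.s X k ≤ dgr K M k - dgr K M (τ k) := fun k => by
    rw [← C.U_card hτ]
    exact C.s_le X k
  have h5 := C.U_card hτ k
  have h6 := h4 k
  exact phi_lt hτ (C.count hτ X hX) h4 (p := k) (by omega) (by omega)

/-- the exchange bits -/
theorem Cor.bit (C : Cor K τ M) (hτ : ∀ k, τ (τ k) = k) (X : Set (ι × Fin Δ))
    (hX : ∀ p ∈ X, C.q p ∈ X) (hs : ∀ k, C.s X k = 0 ∨ C.s X k = (C.U k).card)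
    (f : Fin Δ → Prop) (hf : ∀ k, f (τ k) ↔ f k)
    (hf1 : ∀ k, dgr K M k ≠ dgr K M (τ k) → (f k ↔ 0 < C.s X k ∨ 0 < C.s X (τ k))) :
    ∃ σ, Mv τ σ ∧ (∀ k, dgr K (flp τ M X) k = dgr K M (σ k)) ∧
      ∀ k, τ k ≠ k → (σ k = k ↔ ¬ f k) := by
  classical
  refine ⟨fun k => if f k then τ k else k, ⟨?_, ?_⟩, ?_, ?_⟩
  · intro k
    by_cases h : f k
    · simp only [h, if_true, hf, hτ]
    · simp only [h, if_false]
  · intro k
    by_cases h : f k
    · simp only [h, if_true, or_true]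
    · simp only [h, if_false, true_or]
  · intro k
    have h1 := C.count hτ X hX k
    have h2 := hs k
    have h3 := hs (τ k)
    have h4 := C.U_card hτ k
    have h5 := C.U_card hτ (τ k)
    rw [hτ] at h5
    have h6 := C.s_le X k
    have h7 := C.s_le X (τ k)
    by_cases he : dgr K M k = dgr K M (τ k)
    · have h8 : dgr K (flp τ M X) k = dgr K M k := by omega
      by_cases h : f k
      · simp only [h, if_true]
        omega
      · simp only [h, if_false]
        omega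
    · have h8 := hf1 k he
      by_cases h : f k
      · simp only [h, if_true]
        rw [h8] at h
        omega
      · simp only [h, if_false]
        rw [h8] at h
        omega
  · intro k hk
    by_cases h : f k
    · simp only [h, if_true, not_true_eq_false, iff_false]
      exact hk
    · simp only [h, if_false, not_false_eq_true]

/-- the basic block -/
def Cor.B0 (C : Cor K τ M) : Blk (ι × Fin Δ) where
  q := C.q
  n := id
  r := id
  q2 := C.inv
  n2 _ := rfl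
  r3 _ := rfl
  qn _ _ := rfl
  qr _ _ := rfl
  nr _ _ := rfl

theorem pin_iff {p : ι × Fin Δ} : p ∈ {p | p ∈ Pin τ M ∧ p.1 ∈ K} ↔ p.1 ∈ A K τ M p.2 := by
  simp only [Pin, A, Finset.mem_filter, Set.mem_ofPred_eq]
  tauto

theorem Cor.q_sup (C : Cor K τ M) {p : ι × Fin Δ} (hp : p ∉ {p | p ∈ Pin τ M ∧ p.1 ∈ K}) :
    C.q p = p := by
  by_contra hc
  exact hp (pin_iff.2 (C.sup p hc))

theorem pf_tBAL : tBAL := by
  intro ι Δ K τ M hτ _
  obtain ⟨C⟩ := cor_exists K hτ M
  refine ⟨C.B0, fun p hp => ⟨C.q_sup hp, rfl, rfl⟩, fun X hX => ?_⟩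
  have hq : ∀ p ∈ X, C.q p ∈ X := fun p hp => (hX p).1 hp
  rcases C.key hτ X hq with h | h
  · exact Or.inl h
  · right
    obtain ⟨σ, h1, h2, -⟩ := C.bit hτ X hq h (fun k => 0 < C.s X k ∨ 0 < C.s X (τ k))
      (fun k => by rw [hτ]; exact or_comm) (fun k _ => Iff.rfl)
    exact ⟨σ, h1, h2⟩

theorem Cor.wit0 (C : Cor K τ M) (hτ : ∀ k, τ (τ k) = k) {p : Fin Δ}
    (hp : dgr K M p ≠ dgr K M (τ p)) : ∃ p' : Fin Δ, (p' = p ∨ p' = τ p) ∧
      (C.U p').card = (dgr K M p - dgr K M (τ p)) + (dgr K M (τ p) - dgr K M p) ∧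
      (C.U (τ p')).card = 0 := by
  have h1 := C.U_card hτ p
  have h2 := C.U_card hτ (τ p)
  rw [hτ] at h2
  rcases lt_or_gt_of_ne hp with h | h
  · refine ⟨τ p, Or.inr rfl, ?_, ?_⟩
    · omega
    · rw [hτ]
      omega
  · exact ⟨p, Or.inl rfl, by omega, by omega⟩

theorem Cor.mem_iff (C : Cor K τ M) {X : Set (ι × Fin Δ)}
    (hs : ∀ k, C.s X k = 0 ∨ C.s X k = (C.U k).card) {k : Fin Δ} {κ : ι} (hκ : κ ∈ C.U k) :
    0 < C.s X k ↔ (κ, k) ∈ X := by
  classical
  constructor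
  · intro h
    rcases hs k with h1 | h1
    · omega
    · have h2 := (Finset.card_filter_eq_iff (s := C.U k) (p := fun κ => (κ, k) ∈ X)).1 h1
      exact h2 κ hκ
  · intro h
    exact Finset.card_pos.2 ⟨κ, Finset.mem_filter.2 ⟨hκ, h⟩⟩

/-- the bit of the pair `p`, `τ p` -/
def Cor.bt (C : Cor K τ M) (X : Set (ι × Fin Δ)) (p : Fin Δ) : Prop :=
  0 < C.s X p ∨ 0 < C.s X (τ p)

theorem Cor.bt_symm (C : Cor K τ M) (hτ : ∀ k, τ (τ k) = k) (X : Set (ι × Fin Δ)) (p : Fin Δ) :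
    C.bt X (τ p) ↔ C.bt X p := by
  unfold Cor.bt
  rw [hτ]
  exact or_comm

theorem Cor.bt_zero (C : Cor K τ M) (hτ : ∀ k, τ (τ k) = k) (X : Set (ι × Fin Δ)) {p : Fin Δ}
    (hp : dgr K M p = dgr K M (τ p)) : ¬ C.bt X p := by
  unfold Cor.bt
  have h1 := C.U_card hτ p
  have h2 := C.U_card hτ (τ p)
  rw [hτ] at h2
  have h3 := C.s_le X p
  have h4 := C.s_le X (τ p)
  omega

theorem Cor.bt_iff (C : Cor K τ M) (hτ : ∀ k, τ (τ k) = k) {X : Set (ι × Fin Δ)}
    (hs : ∀ k, C.s X k = 0 ∨ C.s X k = (C.U k).card) {p p' : Fin Δ} (hp : p' = p ∨ p' = τ p)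
    (h0 : (C.U (τ p')).card = 0) {κ : ι} (hκ : κ ∈ C.U p') : C.bt X p ↔ (κ, p') ∈ X := by
  have h1 := C.s_le X (τ p')
  rw [← C.mem_iff hs hκ]
  unfold Cor.bt
  rcases hp with rfl | rfl
  · omega
  · rw [hτ] at h1 h0
    omega

theorem Cor.U_q (C : Cor K τ M) {k : Fin Δ} {κ : ι} (hκ : κ ∈ C.U k) :
    C.q (κ, k) = (κ, k) ∧ κ ∈ A K τ M k := by
  classical
  rw [Cor.U, Finset.mem_filter] at hκ
  exact ⟨hκ.2, hκ.1⟩

open Classical in
/-- the block with one more pair of kind EQ -/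
noncomputable def Cor.BE (C : Cor K τ M) (x y : ι × Fin Δ) (hx : C.q x = x) (hy : C.q y = y) :
    Blk (ι × Fin Δ) where
  q p := if p = x then y else if p = y then x else C.q p
  n := id
  r := id
  q2 := by
    intro p
    have e1 : ∀ p, C.q p = x → p = x := fun p h => by rw [← C.inv p, h, hx]
    have e2 : ∀ p, C.q p = y → p = y := fun p h => by rw [← C.inv p, h, hy]
    by_cases h1 : p = x
    · subst h1
      by_cases h2 : y = p
      · simp only [h2, if_true]
      · simp only [h2, if_true, if_false]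
    · by_cases h2 : p = y
      · subst h2
        simp only [h1, if_true, if_false]
      · have h3 : C.q p ≠ x := fun h => h1 (e1 p h)
        have h4 : C.q p ≠ y := fun h => h2 (e2 p h)
        simp only [h1, h2, h3, h4, if_false, C.inv]
  n2 _ := rfl
  r3 _ := rfl
  qn _ _ := rfl
  qr _ _ := rfl
  nr _ _ := rfl

open Classical in
/-- the block with one more pair of kind NB -/
noncomputable def Cor.BN (C : Cor K τ M) (x y : ι × Fin Δ) (hx : C.q x = x) (hy : C.q y = y) :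
    Blk (ι × Fin Δ) where
  q := C.q
  n p := if p = x then y else if p = y then x else p
  r := id
  q2 := C.inv
  n2 := by
    intro p
    by_cases h1 : p = x
    · subst h1
      by_cases h2 : y = p
      · simp only [h2, if_true]
      · simp only [h2, if_true, if_false]
    · by_cases h2 : p = y
      · subst h2
        simp only [h1, if_true, if_false]
      · simp only [h1, h2, if_false]
  r3 _ := rfl
  qn p hp := by
    have h1 : p ≠ x := fun h => hp (by rw [h, hx])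
    have h2 : p ≠ y := fun h => hp (by rw [h, hy])
    simp only [h1, h2, if_false]
  qr _ _ := rfl
  nr _ _ := rfl

open Classical in
/-- the block with one more triple of kind NAE -/
noncomputable def Cor.BT (C : Cor K τ M) (x y z : ι × Fin Δ) (hx : C.q x = x) (hy : C.q y = y)
    (hz : C.q z = z) (hxy : y ≠ x) (hxz : z ≠ x) (hyz : z ≠ y) : Blk (ι × Fin Δ) where
  q := C.q
  n := id
  r p := if p = x then y else if p = y then z else if p = z then x else p
  q2 := C.inv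
  n2 _ := rfl
  r3 := by
    intro p
    by_cases h1 : p = x
    · subst h1
      simp only [hxy, hxz, hyz, if_true, if_false]
    · by_cases h2 : p = y
      · subst h2
        simp only [hxy, hxz, hyz, if_true, if_false]
      · by_cases h3 : p = z
        · subst h3
          simp only [hxy, hxz, hyz, if_true, if_false]
        · simp only [h1, h2, h3, if_false]
  qn _ _ := rfl
  qr p hp := by
    have h1 : p ≠ x := fun h => hp (by rw [h, hx])
    have h2 : p ≠ y := fun h => hp (by rw [h, hy])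
    have h3 : p ≠ z := fun h => hp (by rw [h, hz])
    simp only [h1, h2, h3, if_false]
  nr _ h := absurd rfl h

theorem pf_tSTE : tSTE := by
  intro ι Δ K τ M p q hτ _ hqp hqt hp hq
  obtain ⟨C⟩ := cor_exists K hτ M
  have key : ∀ X : Set (ι × Fin Δ), (∀ p ∈ X, C.q p ∈ X) →
      ((∀ k, C.s X k = 0 ∨ C.s X k = (C.U k).card) → dgr K M p ≠ dgr K M (τ p) →
        dgr K M q ≠ dgr K M (τ q) → (C.bt X p ↔ C.bt X q)) →
      phi K (flp τ M X) < phi K M ∨ ∃ σ, Mv τ σ ∧
        (∀ k, dgr K (flp τ M X) k = dgr K M (σ k)) ∧ (σ p = p ↔ σ q = q) := by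
    intro X hX hb
    rcases C.key hτ X hX with h | h
    · exact Or.inl h
    · right
      have hz : ∀ k, dgr K M k = dgr K M (τ k) → ¬ C.bt X k := fun k hk => C.bt_zero hτ X hk
      have hsym : ∀ p k : Fin Δ, (τ k = p ∨ τ k = τ p) ↔ (k = p ∨ k = τ p) := by
        intro p k
        constructor
        · rintro (h | h)
          · right; rw [← h, hτ]
          · left; rw [← hτ k, h, hτ]
        · rintro (h | h)
          · right; rw [h]
          · left; rw [h, hτ]
      have hno : ∀ p k : Fin Δ, ∀ P : Prop, dgr K M k ≠ dgr K M (τ k) →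
          ¬ ((k = p ∨ k = τ p) ∧ dgr K M p = dgr K M (τ p) ∧ P) := by
        rintro p k P hk ⟨rfl | rfl, h, -⟩
        · exact hk h
        · rw [hτ] at hk
          exact hk h.symm
      obtain ⟨σ, h1, h2, h3⟩ := C.bit hτ X hX h (fun k => C.bt X k ∨
        ((k = p ∨ k = τ p) ∧ dgr K M p = dgr K M (τ p) ∧ C.bt X q) ∨
        ((k = q ∨ k = τ q) ∧ dgr K M q = dgr K M (τ q) ∧ C.bt X p))
        (by
          intro k
          rw [hsym p k, hsym q k, C.bt_symm hτ])
        (by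
          intro k hk
          simp only [hno p k _ hk, hno q k _ hk, or_false]
          rfl)
      refine ⟨σ, h1, h2, ?_⟩
      have e1 := h3 p hp
      have e2 := h3 q hq
      have n1 : p ≠ q := fun h => hqp h.symm
      have n2 : p ≠ τ q := fun h => hqt (by rw [h, hτ])
      simp only [n1, n2, hqp, hqt, true_or, false_or, false_and, or_false, true_and] at e1 e2
      rw [e1, e2]
      by_cases a : dgr K M p = dgr K M (τ p)
      · have := hz p a
        tauto
      · by_cases b : dgr K M q = dgr K M (τ q)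
        · have := hz q b
          tauto
        · have := hb h a b
          tauto
  by_cases hab : dgr K M p ≠ dgr K M (τ p) ∧ dgr K M q ≠ dgr K M (τ q)
  · obtain ⟨p', h1, h2, h3⟩ := C.wit0 hτ hab.1
    obtain ⟨q', h4, h5, h6⟩ := C.wit0 hτ hab.2
    obtain ⟨κ, hκ⟩ : (C.U p').Nonempty := Finset.card_pos.1 (by omega)
    obtain ⟨κ', hκ'⟩ : (C.U q').Nonempty := Finset.card_pos.1 (by omega)
    obtain ⟨h7, h8⟩ := C.U_q hκ
    obtain ⟨h9, h10⟩ := C.U_q hκ'
    refine ⟨C.BE (κ, p') (κ', q') h7 h9, fun r hr => ⟨?_, rfl, rfl⟩, fun X hX => ?_⟩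
    · have e1 : r ≠ (κ, p') := fun h => hr (pin_iff.2 (by rw [h]; exact h8))
      have e2 : r ≠ (κ', q') := fun h => hr (pin_iff.2 (by rw [h]; exact h10))
      simp only [Cor.BE, e1, e2, if_false]
      exact C.q_sup hr
    · have hx := (hX (κ, p')).1
      have hy := (hX (κ', q')).1
      simp only [Cor.BE, if_true] at hx hy
      have hne : (κ', q') ≠ (κ, p') := by
        intro h
        have h' : q' = p' := congrArg Prod.snd h
        rcases h1 with rfl | rfl <;> rcases h4 with rfl | rfl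
        · exact hqp h'
        · exact hqt (by rw [← h', hτ])
        · exact hqt h'
        · exact hqp (by rw [← hτ q, h', hτ])
      simp only [hne, if_false] at hy
      apply key X
      · intro r hr
        have h := (hX r).1 hr
        simp only [Cor.BE] at h
        by_cases e1 : r = (κ, p')
        · rw [e1, h7, ← e1]; exact hr
        · by_cases e2 : r = (κ', q')
          · rw [e2, h9, ← e2]; exact hr
          · simp only [e1, e2, if_false] at h
            exact h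
      · intro hs _ _
        rw [C.bt_iff hτ hs h1 h3 hκ, C.bt_iff hτ hs h4 h6 hκ']
        exact ⟨hx, hy⟩
  · refine ⟨C.B0, fun p hp => ⟨C.q_sup hp, rfl, rfl⟩, fun X hX => ?_⟩
    exact key X (fun p hp => (hX p).1 hp) fun _ h1 h2 => absurd ⟨h1, h2⟩ hab

theorem bal_bt (C : Cor K τ M) (hτ : ∀ k, τ (τ k) = k) {X : Set (ι × Fin Δ)}
    (hX : ∀ p ∈ X, C.q p ∈ X) (hs : ∀ k, C.s X k = 0 ∨ C.s X k = (C.U k).card) :
    ∃ σ, Mv τ σ ∧ (∀ k, dgr K (flp τ M X) k = dgr K M (σ k)) ∧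
      ∀ k, ¬ C.bt X k → σ k = k := by
  obtain ⟨σ, h1, h2, h3⟩ := C.bit hτ X hX hs (fun k => C.bt X k) (fun k => C.bt_symm hτ X k)
    (fun k _ => Iff.rfl)
  refine ⟨σ, h1, h2, fun k hk => ?_⟩
  by_cases h : τ k = k
  · rcases h1.2 k with h4 | h4
    · exact h4
    · rw [h4, h]
  · exact (h3 k h).2 hk

theorem pf_tSTN : tSTN := by
  intro ι Δ K τ M p q hτ _ hqp hqt
  obtain ⟨C⟩ := cor_exists K hτ M
  by_cases hab : dgr K M p ≠ dgr K M (τ p) ∧ dgr K M q ≠ dgr K M (τ q)
  · obtain ⟨p', h1, h2, h3⟩ := C.wit0 hτ hab.1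
    obtain ⟨q', h4, h5, h6⟩ := C.wit0 hτ hab.2
    obtain ⟨κ, hκ⟩ : (C.U p').Nonempty := Finset.card_pos.1 (by omega)
    obtain ⟨κ', hκ'⟩ : (C.U q').Nonempty := Finset.card_pos.1 (by omega)
    obtain ⟨h7, h8⟩ := C.U_q hκ
    obtain ⟨h9, h10⟩ := C.U_q hκ'
    refine ⟨C.BN (κ, p') (κ', q') h7 h9, fun r hr => ⟨C.q_sup hr, ?_, rfl⟩, fun X hX => ?_⟩
    · have e1 : r ≠ (κ, p') := fun h => hr (pin_iff.2 (by rw [h]; exact h8))
      have e2 : r ≠ (κ', q') := fun h => hr (pin_iff.2 (by rw [h]; exact h10))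
      simp only [Cor.BN, e1, e2, if_false]
    · have hne : (κ', q') ≠ (κ, p') := by
        intro h
        have h' : q' = p' := congrArg Prod.snd h
        rcases h1 with rfl | rfl <;> rcases h4 with rfl | rfl
        · exact hqp h'
        · exact hqt (by rw [← h', hτ])
        · exact hqt h'
        · exact hqp (by rw [← hτ q, h', hτ])
      have hx := (hX (κ, p')).2.1
      simp only [Cor.BN, if_true] at hx
      have hX' : ∀ r ∈ X, C.q r ∈ X := fun r hr => (hX r).1 hr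
      rcases C.key hτ X hX' with h | h
      · exact Or.inl h
      · right
        obtain ⟨σ, g1, g2, g3⟩ := bal_bt C hτ hX' h
        refine ⟨σ, g1, g2, ?_⟩
        have g4 := C.bt_iff hτ h h1 h3 hκ
        have g5 := C.bt_iff hτ h h4 h6 hκ'
        by_cases g6 : C.bt X p
        · right
          exact g3 q fun g7 => hx hne (g4.1 g6) (g5.1 g7)
        · exact Or.inl (g3 p g6)
  · refine ⟨C.B0, fun p hp => ⟨C.q_sup hp, rfl, rfl⟩, fun X hX => ?_⟩
    have hX' : ∀ r ∈ X, C.q r ∈ X := fun r hr => (hX r).1 hr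
    rcases C.key hτ X hX' with h | h
    · exact Or.inl h
    · right
      obtain ⟨σ, g1, g2, g3⟩ := bal_bt C hτ hX' h
      refine ⟨σ, g1, g2, ?_⟩
      by_cases g6 : dgr K M p = dgr K M (τ p)
      · exact Or.inl (g3 p (C.bt_zero hτ X g6))
      · right
        apply g3 q (C.bt_zero hτ X _)
        by_contra g7
        exact hab ⟨g6, g7⟩

theorem pf_tFRZ : tFRZ := by
  intro ι Δ K τ M p hτ _ hd
  obtain ⟨C⟩ := cor_exists K hτ M
  by_cases he : dgr K M p = dgr K M (τ p)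
  · refine ⟨C.B0, fun p hp => ⟨C.q_sup hp, rfl, rfl⟩, fun X hX => ?_⟩
    have hX' : ∀ r ∈ X, C.q r ∈ X := fun r hr => (hX r).1 hr
    rcases C.key hτ X hX' with h | h
    · exact Or.inl h
    · right
      obtain ⟨σ, g1, g2, g3⟩ := bal_bt C hτ hX' h
      exact ⟨σ, g1, g2, g3 p (C.bt_zero hτ X he)⟩
  · obtain ⟨p', h1, h2, h3⟩ := C.wit0 hτ he
    obtain ⟨κ, hκ, κ', hκ', hne⟩ := Finset.one_lt_card.1 (show 1 < (C.U p').card by omega)
    obtain ⟨h7, h8⟩ := C.U_q hκ
    obtain ⟨h9, h10⟩ := C.U_q hκ'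
    refine ⟨C.BN (κ, p') (κ', p') h7 h9, fun r hr => ⟨C.q_sup hr, ?_, rfl⟩, fun X hX => ?_⟩
    · have e1 : r ≠ (κ, p') := fun h => hr (pin_iff.2 (by rw [h]; exact h8))
      have e2 : r ≠ (κ', p') := fun h => hr (pin_iff.2 (by rw [h]; exact h10))
      simp only [Cor.BN, e1, e2, if_false]
    · have hne' : (κ', p') ≠ (κ, p') := fun h => hne (congrArg Prod.fst h).symm
      have hx := (hX (κ, p')).2.1
      simp only [Cor.BN, if_true] at hx
      have hX' : ∀ r ∈ X, C.q r ∈ X := fun r hr => (hX r).1 hr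
      rcases C.key hτ X hX' with h | h
      · exact Or.inl h
      · right
        obtain ⟨σ, g1, g2, g3⟩ := bal_bt C hτ hX' h
        refine ⟨σ, g1, g2, g3 p fun g6 => ?_⟩
        exact hx hne' ((C.bt_iff hτ h h1 h3 hκ).1 g6) ((C.bt_iff hτ h h1 h3 hκ').1 g6)

theorem pf_tLET : tLET := by
  intro ι Δ K τ M p hτ _ hd
  obtain ⟨C⟩ := cor_exists K hτ M
  obtain ⟨p', h1, h2, h3⟩ := C.wit0 hτ (p := p) (by omega)
  obtain ⟨a, b, c, ha, hb, hc, hab, hac, hbc⟩ :=
    Finset.two_lt_card_iff.1 (show 2 < (C.U p').card by omega)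
  obtain ⟨a1, a2⟩ := C.U_q ha
  obtain ⟨b1, b2⟩ := C.U_q hb
  obtain ⟨c1, c2⟩ := C.U_q hc
  have nab : (b, p') ≠ (a, p') := fun h => hab (congrArg Prod.fst h).symm
  have nac : (c, p') ≠ (a, p') := fun h => hac (congrArg Prod.fst h).symm
  have nbc : (c, p') ≠ (b, p') := fun h => hbc (congrArg Prod.fst h).symm
  refine ⟨C.BT (a, p') (b, p') (c, p') a1 b1 c1 nab nac nbc, fun r hr => ⟨C.q_sup hr, rfl, ?_⟩,
    fun X hX => ?_⟩
  · have e1 : r ≠ (a, p') := fun h => hr (pin_iff.2 (by rw [h]; exact a2))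
    have e2 : r ≠ (b, p') := fun h => hr (pin_iff.2 (by rw [h]; exact b2))
    have e3 : r ≠ (c, p') := fun h => hr (pin_iff.2 (by rw [h]; exact c2))
    simp only [Cor.BT, e1, e2, e3, if_false]
  · have hx := (hX (a, p')).2.2
    simp only [Cor.BT, if_true, nab, if_false] at hx
    have hX' : ∀ r ∈ X, C.q r ∈ X := fun r hr => (hX r).1 hr
    rcases C.key hτ X hX' with h | h
    · exact h
    · exfalso
      obtain ⟨g1, g2⟩ := hx nab
      rcases Nat.eq_zero_or_pos (C.s X p') with g3 | g3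
      · rcases g2 with g2 | g2 | g2
        · exact absurd ((C.mem_iff h ha).2 g2) (by omega)
        · exact absurd ((C.mem_iff h hb).2 g2) (by omega)
        · exact absurd ((C.mem_iff h hc).2 g2) (by omega)
      · exact g1 ⟨(C.mem_iff h ha).1 g3, (C.mem_iff h hb).1 g3, (C.mem_iff h hc).1 g3⟩

end H24

end Pool.Agent.SGV
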