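import Pool.Agent.SGV.ZDefs

set_option autoImplicit false

/-! MP_fff3e1_lc: the pass over a set with `2 ^ k` colours (target `zPAS`). -/

namespace Pool.Agent.SGV

namespace PAS

variable {Δ : ℕ} {G : Type}

/-- the translation by `t`, carried to `P` -/
noncomputable def tr [Add G] {P : Finset (Fin Δ)} (e : G ≃ {x // x ∈ P}) (t : G)
    (v : Fin Δ) : Fin Δ :=
  open Classical in if h : v ∈ P then (e (e.symm ⟨v, h⟩ + t)).1 else v

theorem tr_e [Add G] {P : Finset (Fin Δ)} (e : G ≃ {x // x ∈ P}) (t u : G) :
    tr e t (e u).1 = (e (u + t)).1 := by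
  unfold tr
  rw [dif_pos (e u).2]
  simp

theorem tr_out [Add G] {P : Finset (Fin Δ)} (e : G ≃ {x // x ∈ P}) (t : G) {v : Fin Δ}
    (h : v ∉ P) : tr e t v = v := by
  unfold tr
  rw [dif_neg h]

theorem e_inj {P : Finset (Fin Δ)} (e : G ≃ {x // x ∈ P}) {u v : G}
    (h : (e u).1 = (e v).1) : u = v := e.injective (Subtype.ext h)

theorem ins [AddCommGroup G] (h2 : ∀ t : G, t + t = 0) {P : Finset (Fin Δ)}
    (e : G ≃ {x // x ∈ P}) (t : G) : Ins P (tr e t) := by
  refine ⟨fun k => ?_, fun k hk => tr_out e t hk⟩
  by_cases hk : k ∈ P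
  · obtain ⟨u, hu⟩ := e.surjective ⟨k, hk⟩
    have hk' : k = (e u).1 := by rw [hu]
    rw [hk', tr_e, tr_e, add_assoc, h2, add_zero]
  · rw [tr_out e t hk, tr_out e t hk]

theorem kill [AddCommGroup G] (h2 : ∀ t : G, t + t = 0) {P : Finset (Fin Δ)}
    (e : G ≃ {x // x ∈ P}) (T : (Fin Δ → ℤ) → Prop) :
    ∀ (L : List G) (d : Fin Δ → ℤ) (u v : G), u + v ∈ L → Dead d (e u).1 (e v).1 →
      Pl T (L.map (tr e)) d
  | [], _, _, _, h, _ => by simp at h
  | t :: L, d, u, v, h, hd => by
    change Stp (tr e t) d (Pl T (L.map (tr e)))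
    by_cases ht : u + v = t
    · left
      refine ⟨(e u).1, ?_⟩
      rw [tr_e, ← ht, ← add_assoc, h2, zero_add]
      exact hd
    · have hL : u + v ∈ L := by
        rcases List.mem_cons.1 h with h' | h'
        · exact absurd h' ht
        · exact h'
      right; right; left
      refine ⟨(e u).1, (e v).1, ?_, ?_⟩
      · rw [tr_e, tr_e]
        constructor
        · intro h'
          have := e_inj e h'
          have ht0 : t = 0 := by simpa using this
          rw [ht0, add_zero]
        · intro h'
          have := e_inj e h'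
          have ht0 : t = 0 := by simpa using this
          rw [ht0, add_zero]
      · intro σ hσ hi
        by_cases hp : σ (e u).1 = (e u).1
        · have hq := hi.1 hp
          refine kill h2 e T L _ u v hL ?_
          change 3 ≤ |d (σ (e u).1) - d (σ (e v).1)|
          rw [hp, hq]
          exact hd
        · have hq : σ (e v).1 ≠ (e v).1 := fun h' => hp (hi.2 h')
          have hp1 : σ (e u).1 = (e (u + t)).1 := by
            rcases hσ.2 (e u).1 with h' | h'
            · exact absurd h' hp
            · rw [h', tr_e]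
          have hq1 : σ (e v).1 = (e (v + t)).1 := by
            rcases hσ.2 (e v).1 with h' | h'
            · exact absurd h' hq
            · rw [h', tr_e]
          refine kill h2 e T L _ (u + t) (v + t) ?_ ?_
          · have : u + t + (v + t) = u + v := by
              rw [add_add_add_comm, h2, add_zero]
            rw [this]
            exact hL
          · change 3 ≤ |d (σ (e (u + t)).1) - d (σ (e (v + t)).1)|
            rw [← hp1, ← hq1, hσ.1, hσ.1]
            exact hd

end PAS

theorem pf_zPAS : zPAS := by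
  intro Δ k P hP
  have hc : Fintype.card (Fin k → ZMod 2) = Fintype.card {x // x ∈ P} := by
    rw [Fintype.card_coe, hP]
    simp [ZMod.card]
  have h2 : ∀ t : Fin k → ZMod 2, t + t = 0 := by
    intro t
    funext i
    exact CharTwo.add_self_eq_zero (t i)
  let e := Fintype.equivOfCardEq hc
  refine ⟨(Finset.univ : Finset (Fin k → ZMod 2)).toList.map (PAS.tr e), ?_, ?_⟩
  · intro τ hτ
    obtain ⟨t, _, rfl⟩ := List.mem_map.1 hτ
    exact PAS.ins h2 e t
  · intro T d h z hh hz hd
    obtain ⟨u, hu⟩ := e.surjective ⟨h, hh⟩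
    obtain ⟨v, hv⟩ := e.surjective ⟨z, hz⟩
    refine PAS.kill h2 e T _ d u v (by simp) ?_
    rw [hu, hv]
    exact hd

end Pool.Agent.SGV
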