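import Pool.Agent.SGV.Defs

set_option autoImplicit false

/-! MP_fff3e1_lc, targets B2, B2', B3, B4, B5 of `SGV/Defs.lean` (second copy, helper59). -/

namespace Pool.Agent.SGV

open Pool.Agent.SGM

namespace STE59

variable {ι : Type} {Δ : ℕ}

open Classical in
/-- the numbers of the sets with a pin at `k` -/
noncomputable def A (K : Finset ι) (τ : Fin Δ → Fin Δ) (M : ι → Finset (Fin Δ)) (k : Fin Δ) :
    Finset ι := K.filter fun κ => k ∈ M κ ∧ τ k ∉ M κ

lemma enum [Nonempty ι] (s : Finset ι) : ∃ (g : ℕ → ι) (r : ι → ℕ),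
    (∀ i < s.card, g i ∈ s ∧ r (g i) = i) ∧ ∀ x ∈ s, r x < s.card ∧ g (r x) = x := by
  classical
  obtain ⟨y⟩ := ‹Nonempty ι›
  refine ⟨fun i => if h : i < s.card then (s.equivFin.symm ⟨i, h⟩ : ι) else y,
    fun x => if h : x ∈ s then (s.equivFin ⟨x, h⟩ : ℕ) else 0, ?_, ?_⟩
  · intro i hi
    simp [hi]
  · intro x hx
    simp [hx]

lemma mem_flp {τ : Fin Δ → Fin Δ} (hτ : ∀ k, τ (τ k) = k) (M : ι → Finset (Fin Δ))
    (X : Set (ι × Fin Δ)) (κ : ι) (k : Fin Δ) :
    k ∈ flp τ M X κ ↔ (k ∈ M κ ∧ ¬ ((κ, k) ∈ X ∧ τ k ∉ M κ)) ∨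
      (τ k ∈ M κ ∧ (κ, τ k) ∈ X ∧ k ∉ M κ) := by
  classical
  unfold flp
  rw [Finset.mem_image]
  constructor
  · rintro ⟨a, ha, h⟩
    split_ifs at h with hc
    · subst h
      right
      rw [hτ a]
      exact ⟨ha, hc⟩
    · subst h
      exact Or.inl ⟨ha, hc⟩
  · rintro (⟨h1, h2⟩ | ⟨h1, h2, h3⟩)
    · exact ⟨k, h1, by rw [if_neg h2]⟩
    · refine ⟨τ k, h1, ?_⟩
      rw [hτ k, if_pos ⟨h2, h3⟩]

open Classical in
lemma dgr_flp {K : Finset ι} {τ : Fin Δ → Fin Δ} (hτ : ∀ k, τ (τ k) = k)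
    (M : ι → Finset (Fin Δ)) (X : Set (ι × Fin Δ)) (k : Fin Δ) :
    dgr K (flp τ M X) k + ((A K τ M k).filter fun κ => (κ, k) ∈ X).card =
      dgr K M k + ((A K τ M (τ k)).filter fun κ => (κ, τ k) ∈ X).card := by
  have h1 : (K.filter fun κ => k ∈ flp τ M X κ) =
      (K.filter fun κ => k ∈ M κ ∧ ¬ ((κ, k) ∈ X ∧ τ k ∉ M κ)) ∪
        ((A K τ M (τ k)).filter fun κ => (κ, τ k) ∈ X) := by
    ext κ
    simp only [Finset.mem_filter, Finset.mem_union, A, mem_flp hτ, hτ k]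
    tauto
  have h2 : (K.filter fun κ => k ∈ M κ) =
      (K.filter fun κ => k ∈ M κ ∧ ¬ ((κ, k) ∈ X ∧ τ k ∉ M κ)) ∪
        ((A K τ M k).filter fun κ => (κ, k) ∈ X) := by
    ext κ
    simp only [Finset.mem_filter, Finset.mem_union, A]
    tauto
  have h3 : dgr K (flp τ M X) k = (K.filter fun κ => k ∈ flp τ M X κ).card := by
    unfold dgr
    congr!
  have h4 : dgr K M k = (K.filter fun κ => k ∈ M κ).card := by
    unfold dgr
    congr!
  rw [h3, h4, h1, h2, Finset.card_union_of_disjoint, Finset.card_union_of_disjoint]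
  · omega
  · rw [Finset.disjoint_left]
    intro κ hκ hκ'
    simp only [Finset.mem_filter, A] at hκ hκ'
    tauto
  · rw [Finset.disjoint_left]
    intro κ hκ hκ'
    simp only [Finset.mem_filter, A, hτ k] at hκ hκ'
    tauto

lemma dgr_A {K : Finset ι} {τ : Fin Δ → Fin Δ} (hτ : ∀ k, τ (τ k) = k)
    (M : ι → Finset (Fin Δ)) (k : Fin Δ) :
    dgr K M k + (A K τ M (τ k)).card = dgr K M (τ k) + (A K τ M k).card := by
  classical
  have h1 : (K.filter fun κ => k ∈ M κ) =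
      (K.filter fun κ => k ∈ M κ ∧ τ k ∈ M κ) ∪ A K τ M k := by
    ext κ
    simp only [Finset.mem_filter, Finset.mem_union, A]
    tauto
  have h2 : (K.filter fun κ => τ k ∈ M κ) =
      (K.filter fun κ => k ∈ M κ ∧ τ k ∈ M κ) ∪ A K τ M (τ k) := by
    ext κ
    simp only [Finset.mem_filter, Finset.mem_union, A, hτ k]
    tauto
  have h3 : dgr K M k = (K.filter fun κ => k ∈ M κ).card := by
    unfold dgr
    congr!
  have h4 : dgr K M (τ k) = (K.filter fun κ => τ k ∈ M κ).card := by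
    unfold dgr
    congr!
  rw [h3, h4, h1, h2, Finset.card_union_of_disjoint, Finset.card_union_of_disjoint]
  · omega
  · rw [Finset.disjoint_left]
    intro κ hκ hκ'
    simp only [Finset.mem_filter, A, hτ k] at hκ hκ'
    tauto
  · rw [Finset.disjoint_left]
    intro κ hκ hκ'
    simp only [Finset.mem_filter, A] at hκ hκ'
    tauto

open Classical in
/-- the number of indices `i < n` with `(g i, k) ∈ X` -/
noncomputable def cnt (g : ℕ → ι) (k : Fin Δ) (X : Set (ι × Fin Δ)) (m n : ℕ) : ℕ :=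
  ((Finset.Ico m n).filter fun i => (g i, k) ∈ X).card

lemma cnt_le (g : ℕ → ι) (k : Fin Δ) (X : Set (ι × Fin Δ)) (m n : ℕ) :
    cnt g k X m n ≤ n - m := by
  classical
  unfold cnt
  refine (Finset.card_filter_le _ _).trans ?_
  simp

lemma cnt_add (g : ℕ → ι) (k : Fin Δ) (X : Set (ι × Fin Δ)) {l m n : ℕ} (h : l ≤ m)
    (h' : m ≤ n) : cnt g k X l n = cnt g k X l m + cnt g k X m n := by
  classical
  unfold cnt
  rw [← Finset.card_union_of_disjoint, ← Finset.filter_union,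
    Finset.Ico_union_Ico_eq_Ico h h']
  exact Finset.disjoint_filter_filter (Finset.Ico_disjoint_Ico_consecutive l m n)

/-- all data about the pins and the ties inside the pairs of `τ` -/
structure Dat (K : Finset ι) (τ : Fin Δ → Fin Δ) (M : ι → Finset (Fin Δ))
    (a : Fin Δ → ℕ) (g : Fin Δ → ℕ → ι) (θ : ι × Fin Δ → ι × Fin Δ) : Prop where
  inv : ∀ x, θ (θ x) = x
  sup : ∀ x, ¬ (x ∈ Pin τ M ∧ x.1 ∈ K) → θ x = x
  pin : ∀ k i, i < a k → (g k i, k) ∈ Pin τ M ∧ g k i ∈ K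
  inj : ∀ k i j, i < a k → j < a k → g k i = g k j → i = j
  tie : ∀ k i, i < a k → i < a (τ k) → θ (g k i, k) = (g (τ k) i, τ k)
  fre : ∀ k i, i < a k → a (τ k) ≤ i → θ (g k i, k) = (g k i, k)
  deg : ∀ k (X : Set (ι × Fin Δ)), dgr K (flp τ M X) k + cnt (g k) k X 0 (a k) =
    dgr K M k + cnt (g (τ k)) (τ k) X 0 (a (τ k))
  dif : ∀ k, dgr K M k + a (τ k) = dgr K M (τ k) + a k

lemma exDat {K : Finset ι} {τ : Fin Δ → Fin Δ} (hτ : ∀ k, τ (τ k) = k)
    (M : ι → Finset (Fin Δ)) (hK : K.Nonempty) : ∃ a g θ, Dat K τ M a g θ := by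
  classical
  obtain ⟨κ0, -⟩ := hK
  have : Nonempty ι := ⟨κ0⟩
  choose g r hg hr using fun k => enum (A K τ M k)
  have hA : ∀ k κ, κ ∈ A K τ M k ↔ κ ∈ K ∧ k ∈ M κ ∧ τ k ∉ M κ := by
    intro k κ
    simp [A]
  refine ⟨fun k => (A K τ M k).card, g, fun x =>
    if x.1 ∈ A K τ M x.2 ∧ r x.2 x.1 < (A K τ M (τ x.2)).card then
      (g (τ x.2) (r x.2 x.1), τ x.2) else x, ?_, ?_, ?_, ?_, ?_, ?_, ?_, dgr_A hτ M⟩
  · rintro ⟨κ, k⟩
    by_cases h : κ ∈ A K τ M k ∧ r k κ < (A K τ M (τ k)).card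
    · have h1 := hg (τ k) _ h.2
      have h2 := hr k κ h.1
      simp only [h, and_self, if_true]
      simp only [h1.1, h1.2, hτ k, h2.1, h2.2, and_self, if_true]
    · simp only [h, if_false]
  · rintro ⟨κ, k⟩ h
    have : ¬ (κ ∈ A K τ M k ∧ r k κ < (A K τ M (τ k)).card) := by
      rintro ⟨h1, -⟩
      rw [hA] at h1
      exact h ⟨⟨h1.2.1, h1.2.2⟩, h1.1⟩
    simp only [this, if_false]
  · intro k i hi
    have h1 := (hg k i hi).1
    rw [hA] at h1
    exact ⟨⟨h1.2.1, h1.2.2⟩, h1.1⟩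
  · intro k i j hi hj hij
    rw [← (hg k i hi).2, ← (hg k j hj).2, hij]
  · intro k i hi hi'
    simp only [(hg k i hi).1, (hg k i hi).2, hi', and_self, if_true]
  · intro k i hi hi'
    have : ¬ (g k i ∈ A K τ M k ∧ r k (g k i) < (A K τ M (τ k)).card) := by
      rw [(hg k i hi).2]
      omega
    simp only [this, if_false]
  · intro k X
    have key : ∀ k, cnt (g k) k X 0 (A K τ M k).card =
        ((A K τ M k).filter fun κ => (κ, k) ∈ X).card := by
      intro k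
      unfold cnt
      refine Finset.card_bij (fun i _ => g k i) ?_ ?_ ?_
      · intro i hi
        simp only [Finset.mem_filter, Finset.mem_Ico] at hi ⊢
        exact ⟨(hg k i hi.1.2).1, hi.2⟩
      · intro i hi j hj hij
        simp only [Finset.mem_filter, Finset.mem_Ico] at hi hj
        rw [← (hg k i hi.1.2).2, ← (hg k j hj.1.2).2, hij]
      · intro κ hκ
        simp only [Finset.mem_filter] at hκ
        refine ⟨r k κ, ?_, (hr k κ hκ.1).2⟩
        simp only [Finset.mem_filter, Finset.mem_Ico]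
        refine ⟨⟨Nat.zero_le _, (hr k κ hκ.1).1⟩, ?_⟩
        rw [(hr k κ hκ.1).2]
        exact hκ.2
    rw [key, key]
    exact dgr_flp hτ M X k

section play

variable {K : Finset ι} {τ : Fin Δ → Fin Δ} {M : ι → Finset (Fin Δ)} {a : Fin Δ → ℕ}
  {g : Fin Δ → ℕ → ι} {θ : ι × Fin Δ → ι × Fin Δ}

/-- the number of flipped surplus pins -/
lemma Dat.step (D : Dat K τ M a g θ) (hτ : ∀ k, τ (τ k) = k) {X : Set (ι × Fin Δ)}
    (hX : ∀ x ∈ X, θ x ∈ X) (k : Fin Δ) (hk : a (τ k) ≤ a k) :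
    dgr K (flp τ M X) k + cnt (g k) k X (a (τ k)) (a k) = dgr K M k ∧
    dgr K (flp τ M X) (τ k) = dgr K M (τ k) + cnt (g k) k X (a (τ k)) (a k) := by
  classical
  have h0 : cnt (g k) k X 0 (a (τ k)) = cnt (g (τ k)) (τ k) X 0 (a (τ k)) := by
    unfold cnt
    congr 1
    apply Finset.filter_congr
    intro i hi
    rw [Finset.mem_Ico] at hi
    have h1 := D.tie k i (lt_of_lt_of_le hi.2 hk) hi.2
    constructor
    · intro h
      rw [← h1]
      exact hX _ h
    · intro h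
      have h2 := hX _ h
      rw [← h1, D.inv] at h2
      exact h2
  have h1 := D.deg k X
  have h2 := D.deg (τ k) X
  rw [hτ k] at h2
  have h3 := cnt_add (g k) k X (Nat.zero_le (a (τ k))) hk
  omega

lemma Dat.sq (D : Dat K τ M a g θ) (hτ : ∀ k, τ (τ k) = k) {X : Set (ι × Fin Δ)}
    (hX : ∀ x ∈ X, θ x ∈ X) (k : Fin Δ) (hk : a (τ k) ≤ a k) :
    (dgr K (flp τ M X) k ^ 2 + dgr K (flp τ M X) (τ k) ^ 2) +
      2 * (cnt (g k) k X (a (τ k)) (a k) * (a k - a (τ k) - cnt (g k) k X (a (τ k)) (a k))) =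
      dgr K M k ^ 2 + dgr K M (τ k) ^ 2 := by
  obtain ⟨h1, h2⟩ := D.step hτ hX k hk
  have h3 := D.dif k
  have h4 := cnt_le (g k) k X (a (τ k)) (a k)
  generalize cnt (g k) k X (a (τ k)) (a k) = j at *
  obtain ⟨s, hs⟩ := Nat.exists_eq_add_of_le h4
  have h5 : a k - a (τ k) - j = s := by omega
  have h6 : dgr K M k = dgr K M (τ k) + (j + s) := by omega
  have h7 : dgr K (flp τ M X) k = dgr K M (τ k) + s := by omega
  rw [h5, h6, h7, h2]
  ring

lemma two_phi (hτ : ∀ k, τ (τ k) = k) (N : ι → Finset (Fin Δ)) :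
    ∑ k, (dgr K N k ^ 2 + dgr K N (τ k) ^ 2) = 2 * phi K N := by
  rw [Finset.sum_add_distrib, two_mul, phi]
  congr 1
  exact Equiv.sum_comp (Function.Involutive.toPerm τ hτ) fun k => dgr K N k ^ 2

/-- the result of a balanced play -/
lemma Dat.fin (D : Dat K τ M a g θ) (hτ : ∀ k, τ (τ k) = k) {X : Set (ι × Fin Δ)}
    (hX : ∀ x ∈ X, θ x ∈ X) : phi K (flp τ M X) < phi K M ∨
      ∀ k, a (τ k) ≤ a k →
        (cnt (g k) k X (a (τ k)) (a k) = 0 ∧ dgr K (flp τ M X) k = dgr K M k ∧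
          dgr K (flp τ M X) (τ k) = dgr K M (τ k)) ∨
        (cnt (g k) k X (a (τ k)) (a k) = a k - a (τ k) ∧
          dgr K (flp τ M X) k = dgr K M (τ k) ∧ dgr K (flp τ M X) (τ k) = dgr K M k) := by
  by_cases hlt : phi K (flp τ M X) < phi K M
  · exact Or.inl hlt
  right
  have hle : ∀ k, dgr K (flp τ M X) k ^ 2 + dgr K (flp τ M X) (τ k) ^ 2 ≤
      dgr K M k ^ 2 + dgr K M (τ k) ^ 2 := by
    intro k
    rcases le_total (a (τ k)) (a k) with h | h
    · have := D.sq hτ hX k h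
      omega
    · have := D.sq hτ hX (τ k) (by rw [hτ k]; exact h)
      rw [hτ k] at this
      omega
  have heq : ∀ k, dgr K (flp τ M X) k ^ 2 + dgr K (flp τ M X) (τ k) ^ 2 =
      dgr K M k ^ 2 + dgr K M (τ k) ^ 2 := by
    intro k
    by_contra hne
    have hs := Finset.sum_lt_sum (s := Finset.univ) (fun k _ => hle k)
      ⟨k, Finset.mem_univ k, lt_of_le_of_ne (hle k) hne⟩
    rw [two_phi hτ, two_phi hτ] at hs
    omega
  intro k hk
  have h1 := D.sq hτ hX k hk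
  rw [heq k] at h1
  have h2 : cnt (g k) k X (a (τ k)) (a k) *
      (a k - a (τ k) - cnt (g k) k X (a (τ k)) (a k)) = 0 := by omega
  have h3 := D.step hτ hX k hk
  have h4 := D.dif k
  have h5 := cnt_le (g k) k X (a (τ k)) (a k)
  rcases Nat.mul_eq_zero.mp h2 with h | h
  · left
    omega
  · right
    omega

/-- the permutation -/
lemma sig (hτ : ∀ k, τ (τ k) = k) {d d' : Fin Δ → ℕ}
    (h : ∀ k, (d' k = d k ∧ d' (τ k) = d (τ k)) ∨ (d' k = d (τ k) ∧ d' (τ k) = d k))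
    (P : Prop) : ∃ σ, Mv τ σ ∧ (∀ k, d' k = d (σ k)) ∧
      (∀ k, d k ≠ d (τ k) → (σ k = k ↔ d' k = d k)) ∧
      (∀ k, τ k ≠ k → d k = d (τ k) → (σ k = k ↔ P)) := by
  classical
  refine ⟨fun k => if (d k ≠ d (τ k) ∧ d' k = d k) ∨ (d k = d (τ k) ∧ P) then k else τ k,
    ⟨?_, ?_⟩, ?_, ?_, ?_⟩
  · intro k
    by_cases hc : (d k ≠ d (τ k) ∧ d' k = d k) ∨ (d k = d (τ k) ∧ P)
    · simp only [hc, if_true]
    · have hc' : ¬ ((d (τ k) ≠ d (τ (τ k)) ∧ d' (τ k) = d (τ k)) ∨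
          (d (τ k) = d (τ (τ k)) ∧ P)) := by
        rw [hτ k]
        rintro (⟨h1, h2⟩ | ⟨h1, h2⟩)
        · apply hc
          rcases h k with h3 | h3
          · exact Or.inl ⟨h1.symm, h3.1⟩
          · exact absurd (h2.symm.trans h3.2) h1
        · exact hc (Or.inr ⟨h1.symm, h2⟩)
      dsimp only
      rw [if_neg hc, if_neg hc', hτ k]
  · intro k
    dsimp only
    split_ifs
    · exact Or.inl rfl
    · exact Or.inr rfl
  · intro k
    dsimp only
    split_ifs with hc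
    · rcases hc with hc | hc
      · exact hc.2
      · rcases h k with h1 | h1
        · exact h1.1
        · rw [h1.1, hc.1]
    · rcases h k with h1 | h1
      · by_cases he : d k = d (τ k)
        · rw [h1.1, he]
        · exact absurd (Or.inl ⟨he, h1.1⟩) hc
      · exact h1.1
  · intro k hk
    dsimp only
    split_ifs with hc
    · simp only [true_iff]
      rcases hc with hc | hc
      · exact hc.2
      · exact absurd hc.1 hk
    · constructor
      · intro h1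
        rw [h1] at hk
        exact absurd rfl hk
      · intro h1
        exact absurd (Or.inl ⟨hk, h1⟩) hc
  · intro k hk hd
    dsimp only
    split_ifs with hc
    · simp only [true_iff]
      rcases hc with hc | hc
      · exact absurd hd hc.1
      · exact hc.2
    · constructor
      · intro h1
        exact absurd h1 hk
      · intro h1
        exact absurd (Or.inr ⟨hd, h1⟩) hc

/-- the blocks of kind EQ given by an involution `ρ` -/
def blk (ρ : ι × Fin Δ → ι × Fin Δ) (h : ∀ x, ρ (ρ x) = x) : Blk (ι × Fin Δ) where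
  q := ρ
  n := id
  r := id
  q2 := h
  n2 := fun _ => rfl
  r3 := fun _ => rfl
  qn := fun _ _ => rfl
  qr := fun _ _ => rfl
  nr := fun _ _ => rfl

lemma Mv_iff {σ : Fin Δ → Fin Δ} (h : Mv τ σ) (hτ : ∀ k, τ (τ k) = k) (k : Fin Δ) :
    σ (τ k) = τ k ↔ σ k = k := by
  by_cases hk : τ k = k
  · rw [hk]
  constructor
  · intro h1
    rcases h.2 k with h2 | h2
    · exact h2
    · have h3 := h.1 k
      rw [h2, h1] at h3
      exact absurd h3 hk
  · intro h1
    rcases h.2 (τ k) with h2 | h2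
    · exact h2
    · rw [hτ k] at h2
      have h3 := h.1 (τ k)
      rw [h2, h1] at h3
      exact absurd h3.symm hk

lemma cnt_pos_of {g : ℕ → ι} {k : Fin Δ} {X : Set (ι × Fin Δ)} {m n i : ℕ} (h1 : m ≤ i)
    (h2 : i < n) (h : (g i, k) ∈ X) : cnt g k X m n ≠ 0 := by
  classical
  unfold cnt
  intro h0
  rw [Finset.card_eq_zero, Finset.filter_eq_empty_iff] at h0
  exact h0 (Finset.mem_Ico.mpr ⟨h1, h2⟩) h

lemma cnt_ne_of {g : ℕ → ι} {k : Fin Δ} {X : Set (ι × Fin Δ)} {m n i : ℕ} (h1 : m ≤ i)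
    (h2 : i < n) (h : (g i, k) ∉ X) : cnt g k X m n ≠ n - m := by
  classical
  unfold cnt
  intro h0
  have h3 : (Finset.Ico m n).card = n - m := by simp
  rw [← h3, Finset.card_filter_eq_iff] at h0
  exact h (h0 i (Finset.mem_Ico.mpr ⟨h1, h2⟩))

/-- the general form of the result of a balanced play -/
lemma Dat.out (D : Dat K τ M a g θ) (hτ : ∀ k, τ (τ k) = k) {X : Set (ι × Fin Δ)}
    (hX : ∀ x ∈ X, θ x ∈ X) (P : Prop) : phi K (flp τ M X) < phi K M ∨
      ∃ σ, Mv τ σ ∧ (∀ k, dgr K (flp τ M X) k = dgr K M (σ k)) ∧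
        (∀ k, a (τ k) < a k → (σ k = k ↔ ∀ i, a (τ k) ≤ i → i < a k → (g k i, k) ∉ X)) ∧
        (∀ k, a (τ k) < a k → (σ k ≠ k ↔ ∀ i, a (τ k) ≤ i → i < a k → (g k i, k) ∈ X)) ∧
        (∀ k, τ k ≠ k → a k = a (τ k) → (σ k = k ↔ P)) := by
  rcases D.fin hτ hX with h | h
  · exact Or.inl h
  right
  have h' : ∀ k, (dgr K (flp τ M X) k = dgr K M k ∧
      dgr K (flp τ M X) (τ k) = dgr K M (τ k)) ∨
      (dgr K (flp τ M X) k = dgr K M (τ k) ∧ dgr K (flp τ M X) (τ k) = dgr K M k) := by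
    intro k
    rcases le_total (a (τ k)) (a k) with hk | hk
    · rcases h k hk with h1 | h1
      · exact Or.inl h1.2
      · exact Or.inr h1.2
    · have h2 := h (τ k) (by rw [hτ k]; exact hk)
      rw [hτ k] at h2
      rcases h2 with h1 | h1
      · exact Or.inl h1.2.symm
      · exact Or.inr h1.2.symm
  obtain ⟨σ, h1, h2, h3, h4⟩ := sig hτ h' P
  have hne : ∀ k, a (τ k) < a k → dgr K M k ≠ dgr K M (τ k) := by
    intro k hk
    have := D.dif k
    omega
  have e1 : ∀ k, a (τ k) < a k → (σ k = k → ∀ i, a (τ k) ≤ i → i < a k → (g k i, k) ∉ X) := by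
    intro k hk hs i hi hi' hx
    rw [h3 k (hne k hk)] at hs
    rcases h k hk.le with h5 | h5
    · exact cnt_pos_of hi hi' hx h5.1
    · exact hne k hk (hs.symm.trans h5.2.1)
  have e2 : ∀ k, a (τ k) < a k → (σ k ≠ k → ∀ i, a (τ k) ≤ i → i < a k → (g k i, k) ∈ X) := by
    intro k hk hs i hi hi'
    by_contra hx
    rw [Ne, h3 k (hne k hk)] at hs
    rcases h k hk.le with h5 | h5
    · exact hs h5.2.1
    · exact cnt_ne_of hi hi' hx h5.1
  refine ⟨σ, h1, h2, ?_, ?_, ?_⟩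
  · intro k hk
    refine ⟨e1 k hk, fun hx => ?_⟩
    by_contra hs
    exact hx _ le_rfl hk (e2 k hk hs _ le_rfl hk)
  · intro k hk
    refine ⟨e2 k hk, fun hx hs => ?_⟩
    exact e1 k hk hs _ le_rfl hk (hx _ le_rfl hk)
  · intro k hk ha
    have := D.dif k
    exact h4 k hk (by omega)

/-- the same for the letter `τ` and the empty token -/
lemma empt (hK : ¬ K.Nonempty) (N : ι → Finset (Fin Δ)) (k : Fin Δ) :
    dgr K N k = 0 := by
  rw [Finset.not_nonempty_iff_eq_empty] at hK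
  subst hK
  simp [dgr]

/-- the goal of `tSTE` -/
def G (K : Finset ι) (τ : Fin Δ → Fin Δ) (M : ι → Finset (Fin Δ)) (p q : Fin Δ)
    (M' : ι → Finset (Fin Δ)) : Prop :=
  phi K M' < phi K M ∨ ∃ σ, Mv τ σ ∧ (∀ k, dgr K M' k = dgr K M (σ k)) ∧ (σ p = p ↔ σ q = q)

/-- one of the two pairs has equal degrees -/
lemma Dat.eq0 (D : Dat K τ M a g θ) (hτ : ∀ k, τ (τ k) = k) {p q : Fin Δ}
    (hp : τ p ≠ p) (hq : τ q ≠ q) (h : a p = a (τ p)) : Force K (G K τ M p q) [τ] M := by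
  refine ⟨blk θ D.inv, ?_, ?_⟩
  · intro x hx
    exact ⟨D.sup x hx, rfl, rfl⟩
  · intro X hX
    have hX' : ∀ x ∈ X, θ x ∈ X := fun x hx => (hX x).1 hx
    show G K τ M p q (flp τ M X)
    by_cases hq0 : a q = a (τ q)
    · rcases D.out hτ hX' True with h1 | ⟨σ, h1, h2, h3, h4, h5⟩
      · exact Or.inl h1
      · exact Or.inr ⟨σ, h1, h2, (h5 p hp h).trans (h5 q hq hq0).symm⟩
    · -- the pair of `q` decides
      obtain ⟨q', hq', hqq⟩ : ∃ q', a (τ q') < a q' ∧ ∀ σ, Mv τ σ → (σ q = q ↔ σ q' = q') := by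
        rcases Nat.lt_or_gt_of_ne hq0 with h1 | h1
        · exact ⟨τ q, by rw [hτ q]; exact h1, fun σ hσ => (Mv_iff hσ hτ q).symm⟩
        · exact ⟨q, h1, fun σ _ => Iff.rfl⟩
      rcases D.out hτ hX' (∀ i, a (τ q') ≤ i → i < a q' → (g q' i, q') ∉ X) with
        h1 | ⟨σ, h1, h2, h3, h4, h5⟩
      · exact Or.inl h1
      · refine Or.inr ⟨σ, h1, h2, ?_⟩
        rw [hqq σ h1, h3 q' hq', h5 p hp h]

lemma swap_inv (hθ : ∀ x, θ (θ x) = x) {f f' : ι × Fin Δ} (hf : θ f = f) (hf' : θ f' = f')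
    [DecidableEq (ι × Fin Δ)] (x : ι × Fin Δ) :
    Equiv.swap f f' (θ (Equiv.swap f f' (θ x))) = x := by
  by_cases h1 : x = f
  · rw [h1, hf, Equiv.swap_apply_left, hf', Equiv.swap_apply_right]
  by_cases h2 : x = f'
  · rw [h2, hf', Equiv.swap_apply_right, hf, Equiv.swap_apply_left]
  have h3 : θ x ≠ f := fun h => h1 (by rw [← hθ x, h, hf])
  have h4 : θ x ≠ f' := fun h => h2 (by rw [← hθ x, h, hf'])
  rw [Equiv.swap_apply_of_ne_of_ne h3 h4, hθ, Equiv.swap_apply_of_ne_of_ne h1 h2]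

/-- orientation of a pair -/
lemma Dat.ori (a : Fin Δ → ℕ) (hτ : ∀ k, τ (τ k) = k) (p : Fin Δ) (h : a p ≠ a (τ p)) :
    ∃ p', (p' = p ∨ p' = τ p) ∧ a (τ p') < a p' ∧ ∀ σ, Mv τ σ → (σ p = p ↔ σ p' = p') := by
  rcases Nat.lt_or_gt_of_ne h with h1 | h1
  · exact ⟨τ p, Or.inr rfl, by rw [hτ p]; exact h1, fun σ hσ => (Mv_iff hσ hτ p).symm⟩
  · exact ⟨p, Or.inl rfl, h1, fun σ _ => Iff.rfl⟩

/-- the two surplus pins are tied by EQ -/
lemma Dat.tieEQ (D : Dat K τ M a g θ) (hτ : ∀ k, τ (τ k) = k) {p q : Fin Δ}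
    (hp : a (τ p) < a p) (hq : a (τ q) < a q) : Force K (G K τ M p q) [τ] M := by
  classical
  have hf := D.fre p (a (τ p)) hp le_rfl
  have hf' := D.fre q (a (τ q)) hq le_rfl
  have hρ := swap_inv D.inv hf hf'
  refine ⟨blk (fun x => Equiv.swap (g p (a (τ p)), p) (g q (a (τ q)), q) (θ x)) hρ, ?_, ?_⟩
  · intro x hx
    refine ⟨?_, rfl, rfl⟩
    show Equiv.swap (g p (a (τ p)), p) (g q (a (τ q)), q) (θ x) = x
    rw [D.sup x hx]
    apply Equiv.swap_apply_of_ne_of_ne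
    · rintro rfl
      exact hx (D.pin p _ hp)
    · rintro rfl
      exact hx (D.pin q _ hq)
  · intro X hX
    have hX1 : ∀ x ∈ X, Equiv.swap (g p (a (τ p)), p) (g q (a (τ q)), q) (θ x) ∈ X :=
      fun x hx => (hX x).1 hx
    have hX2 : (g p (a (τ p)), p) ∈ X ↔ (g q (a (τ q)), q) ∈ X := by
      constructor
      · intro h
        have := hX1 _ h
        rwa [hf, Equiv.swap_apply_left] at this
      · intro h
        have := hX1 _ h
        rwa [hf', Equiv.swap_apply_right] at this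
    have hX3 : ∀ x ∈ X, θ x ∈ X := by
      intro x hx
      by_cases h1 : x = (g p (a (τ p)), p)
      · rw [h1, hf, ← h1]
        exact hx
      by_cases h2 : x = (g q (a (τ q)), q)
      · rw [h2, hf', ← h2]
        exact hx
      have h3 : θ x ≠ (g p (a (τ p)), p) := fun h => h1 (by rw [← D.inv x, h, hf])
      have h4 : θ x ≠ (g q (a (τ q)), q) := fun h => h2 (by rw [← D.inv x, h, hf'])
      have h5 := hX1 x hx
      rwa [Equiv.swap_apply_of_ne_of_ne h3 h4] at h5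
    show G K τ M p q (flp τ M X)
    rcases D.out hτ hX3 True with h1 | ⟨σ, h1, h2, h3, h4, h5⟩
    · exact Or.inl h1
    · refine Or.inr ⟨σ, h1, h2, ?_⟩
      constructor
      · intro hs
        by_contra hs'
        exact ((h3 p hp).mp hs) _ le_rfl hp
          (hX2.mpr (((h4 q hq).mp hs') _ le_rfl hq))
      · intro hs
        by_contra hs'
        exact ((h3 q hq).mp hs) _ le_rfl hq
          (hX2.mp (((h4 p hp).mp hs') _ le_rfl hp))

/-- weaker goals -/
lemma mono1 {T T' : (ι → Finset (Fin Δ)) → Prop} (h : ∀ N, T N → T' N)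
    (hF : Force K T [τ] M) : Force K T' [τ] M := by
  obtain ⟨B, h1, h2⟩ := hF
  exact ⟨B, h1, fun X hX => h _ (h2 X hX)⟩

/-- balanced play without further ties -/
lemma Dat.bal (D : Dat K τ M a g θ) (hτ : ∀ k, τ (τ k) = k) (P : Prop) :
    Force K (fun M' => phi K M' < phi K M ∨ ∃ σ, Mv τ σ ∧
      (∀ k, dgr K M' k = dgr K M (σ k)) ∧ (∀ k, τ k ≠ k → a k = a (τ k) → (σ k = k ↔ P)))
      [τ] M := by
  refine ⟨blk θ D.inv, ?_, ?_⟩
  · intro x hx
    exact ⟨D.sup x hx, rfl, rfl⟩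
  · intro X hX
    have hX' : ∀ x ∈ X, θ x ∈ X := fun x hx => (hX x).1 hx
    rcases D.out hτ hX' P with h1 | ⟨σ, h1, h2, h3, h4, h5⟩
    · exact Or.inl h1
    · exact Or.inr ⟨σ, h1, h2, h5⟩

/-- a surplus pin of a pair, and a pin of a different pair or a second surplus pin of the same
pair are tied by NB -/
lemma Dat.tieNB (D : Dat K τ M a g θ) (hτ : ∀ k, τ (τ k) = k) {f f' : ι × Fin Δ}
    (hf : θ f = f) (hf' : θ f' = f') (hfp : f ∈ Pin τ M ∧ f.1 ∈ K)
    (hfp' : f' ∈ Pin τ M ∧ f'.1 ∈ K) (hne : f ≠ f') (P : Prop) :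
    Force K (fun M' => phi K M' < phi K M ∨ ∃ σ, Mv τ σ ∧
      (∀ k, dgr K M' k = dgr K M (σ k)) ∧ (∀ k, τ k ≠ k → a k = a (τ k) → (σ k = k ↔ P)) ∧
      ∃ X : Set (ι × Fin Δ), ¬ (f ∈ X ∧ f' ∈ X) ∧
        ∀ k, a (τ k) < a k → (σ k ≠ k ↔ ∀ i, a (τ k) ≤ i → i < a k → (g k i, k) ∈ X))
      [τ] M := by
  classical
  refine ⟨⟨θ, Equiv.swap f f', id, D.inv, fun x => by simp, fun _ => rfl, ?_,
    fun _ _ => rfl, fun _ _ => rfl⟩, ?_, ?_⟩
  · intro x hx
    apply Equiv.swap_apply_of_ne_of_ne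
    · rintro rfl
      exact hx hf
    · rintro rfl
      exact hx hf'
  · intro x hx
    refine ⟨D.sup x hx, ?_, rfl⟩
    apply Equiv.swap_apply_of_ne_of_ne
    · rintro rfl
      exact hx hfp
    · rintro rfl
      exact hx hfp'
  · intro X hX
    have hX' : ∀ x ∈ X, θ x ∈ X := fun x hx => (hX x).1 hx
    have hN : ¬ (f ∈ X ∧ f' ∈ X) := by
      rintro ⟨h1, h2⟩
      have h3 := (hX f).2.1
      simp only [Equiv.swap_apply_left] at h3
      exact h3 hne.symm h1 h2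
    rcases D.out hτ hX' P with h1 | ⟨σ, h1, h2, h3, h4, h5⟩
    · exact Or.inl h1
    · exact Or.inr ⟨σ, h1, h2, h5, X, hN, h4⟩

/-- three surplus pins of the same pair are tied by NAE -/
lemma Dat.tieNAE (D : Dat K τ M a g θ) (hτ : ∀ k, τ (τ k) = k) {p : Fin Δ}
    (hp : a (τ p) + 3 ≤ a p) : Force K (fun M' => phi K M' < phi K M) [τ] M := by
  classical
  set f0 : ι × Fin Δ := (g p (a (τ p)), p) with hf0
  set f1 : ι × Fin Δ := (g p (a (τ p) + 1), p) with hf1
  set f2 : ι × Fin Δ := (g p (a (τ p) + 2), p) with hf2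
  have e0 : θ f0 = f0 := D.fre p _ (by omega) (by omega)
  have e1 : θ f1 = f1 := D.fre p _ (by omega) (by omega)
  have e2 : θ f2 = f2 := D.fre p _ (by omega) (by omega)
  have p0 : f0 ∈ Pin τ M ∧ f0.1 ∈ K := D.pin p _ (by omega)
  have p1 : f1 ∈ Pin τ M ∧ f1.1 ∈ K := D.pin p _ (by omega)
  have p2 : f2 ∈ Pin τ M ∧ f2.1 ∈ K := D.pin p _ (by omega)
  have n01 : f0 ≠ f1 := by
    intro h
    have := D.inj p _ _ (by omega) (by omega) (congrArg Prod.fst h)
    omega
  have n02 : f0 ≠ f2 := by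
    intro h
    have := D.inj p _ _ (by omega) (by omega) (congrArg Prod.fst h)
    omega
  have n12 : f1 ≠ f2 := by
    intro h
    have := D.inj p _ _ (by omega) (by omega) (congrArg Prod.fst h)
    omega
  set ρ : ι × Fin Δ → ι × Fin Δ := fun x => if x = f0 then f1 else if x = f1 then f2 else
    if x = f2 then f0 else x with hρ
  have r0 : ρ f0 = f1 := by simp [hρ]
  have r1 : ρ f1 = f2 := by simp [hρ, n01.symm]
  have r2 : ρ f2 = f0 := by simp [hρ, n02.symm, n12.symm]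
  have rr : ∀ x, x ≠ f0 → x ≠ f1 → x ≠ f2 → ρ x = x := by
    intro x h0 h1 h2
    simp [hρ, h0, h1, h2]
  have r3 : ∀ x, ρ (ρ (ρ x)) = x := by
    intro x
    by_cases h0 : x = f0
    · rw [h0, r0, r1, r2]
    by_cases h1 : x = f1
    · rw [h1, r1, r2, r0]
    by_cases h2 : x = f2
    · rw [h2, r2, r0, r1]
    rw [rr x h0 h1 h2, rr x h0 h1 h2, rr x h0 h1 h2]
  refine ⟨⟨θ, id, ρ, D.inv, fun _ => rfl, r3, fun _ _ => rfl, ?_, ?_⟩, ?_, ?_⟩
  · intro x hx
    apply rr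
    · rintro rfl
      exact hx e0
    · rintro rfl
      exact hx e1
    · rintro rfl
      exact hx e2
  · intro x hx
    exact absurd rfl hx
  · intro x hx
    refine ⟨D.sup x hx, rfl, ?_⟩
    apply rr
    · rintro rfl
      exact hx p0
    · rintro rfl
      exact hx p1
    · rintro rfl
      exact hx p2
  · intro X hX
    have hX' : ∀ x ∈ X, θ x ∈ X := fun x hx => (hX x).1 hx
    show phi K (flp τ M X) < phi K M
    have hN := (hX f0).2.2
    simp only [r0, r1] at hN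
    obtain ⟨hN1, hN2⟩ := hN n01.symm
    have hlt : a (τ p) < a p := by omega
    rcases D.out hτ hX' True with h1 | ⟨σ, h1, h2, h3, h4, h5⟩
    · exact h1
    · exfalso
      by_cases hs : σ p = p
      · have h6 := (h3 p hlt).mp hs
        rcases hN2 with h | h | h
        · exact h6 _ (by omega) (by omega) h
        · exact h6 _ (by omega) (by omega) h
        · exact h6 _ (by omega) (by omega) h
      · have h6 := (h4 p hlt).mp hs
        exact hN1 ⟨h6 _ (by omega) (by omega), h6 _ (by omega) (by omega),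
          h6 _ (by omega) (by omega)⟩

/-- the token is empty -/
lemma emptF (hK : ¬ K.Nonempty) (T : (ι → Finset (Fin Δ)) → Prop)
    (h : ∀ N, (∀ k, dgr K N k = dgr K M k) → T N) : Force K T [τ] M :=
  ⟨blk id (fun _ => rfl), fun _ _ => ⟨rfl, rfl, rfl⟩,
    fun _ _ => h _ fun k => by rw [empt hK, empt hK]⟩

end play

theorem pf_tSTE : tSTE := by
  intro ι Δ K τ M p q hτ _ hqp hqt hp hq
  by_cases hK : K.Nonempty
  · obtain ⟨a, g, θ, D⟩ := exDat hτ M hK
    by_cases h1 : a p = a (τ p)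
    · exact D.eq0 hτ hp hq h1
    by_cases h2 : a q = a (τ q)
    · refine mono1 ?_ (D.eq0 hτ hq hp h2)
      rintro N (h | ⟨σ, h3, h4, h5⟩)
      · exact Or.inl h
      · exact Or.inr ⟨σ, h3, h4, h5.symm⟩
    obtain ⟨p', -, hp1, hp2⟩ := Dat.ori a hτ p h1
    obtain ⟨q', -, hq1, hq2⟩ := Dat.ori a hτ q h2
    refine mono1 ?_ (D.tieEQ hτ hp1 hq1)
    rintro N (h | ⟨σ, h3, h4, h5⟩)
    · exact Or.inl h
    · exact Or.inr ⟨σ, h3, h4, ((hp2 σ h3).trans h5).trans (hq2 σ h3).symm⟩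
  · refine emptF hK _ fun N hN => ?_
    exact Or.inr ⟨id, ⟨fun _ => rfl, fun _ => Or.inl rfl⟩, hN, by simp⟩

theorem pf_tSTN : tSTN := by
  intro ι Δ K τ M p q hτ _ hqp hqt
  by_cases hK : K.Nonempty
  · obtain ⟨a, g, θ, D⟩ := exDat hτ M hK
    -- a pair with equal degrees, or a fixed colour
    by_cases h1 : a p = a (τ p)
    · refine mono1 ?_ (D.bal hτ True)
      rintro N (h | ⟨σ, h3, h4, h5⟩)
      · exact Or.inl h
      · refine Or.inr ⟨σ, h3, h4, Or.inl ?_⟩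
        by_cases hp : τ p = p
        · rcases h3.2 p with h6 | h6
          · exact h6
          · rw [h6, hp]
        · exact (h5 p hp h1).mpr trivial
    by_cases h2 : a q = a (τ q)
    · refine mono1 ?_ (D.bal hτ True)
      rintro N (h | ⟨σ, h3, h4, h5⟩)
      · exact Or.inl h
      · refine Or.inr ⟨σ, h3, h4, Or.inr ?_⟩
        by_cases hq : τ q = q
        · rcases h3.2 q with h6 | h6
          · exact h6
          · rw [h6, hq]
        · exact (h5 q hq h2).mpr trivial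
    obtain ⟨p', hp0, hp1, hp2⟩ := Dat.ori a hτ p h1
    obtain ⟨q', hq0, hq1, hq2⟩ := Dat.ori a hτ q h2
    have hpq : p' ≠ q' := by
      rcases hp0 with rfl | rfl <;> rcases hq0 with rfl | rfl
      · exact hqp.symm
      · intro h
        exact hqt (by rw [h, hτ])
      · exact hqt.symm
      · intro h
        exact hqp (by rw [← hτ p, h, hτ])
    have hne : (g p' (a (τ p')), p') ≠ (g q' (a (τ q')), q') := fun h =>
      hpq (congrArg Prod.snd h)
    refine mono1 ?_ (D.tieNB hτ (D.fre p' _ hp1 le_rfl) (D.fre q' _ hq1 le_rfl)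
      (D.pin p' _ hp1) (D.pin q' _ hq1) hne True)
    rintro N (h | ⟨σ, h3, h4, -, X, h5, h6⟩)
    · exact Or.inl h
    · refine Or.inr ⟨σ, h3, h4, ?_⟩
      by_contra hc
      rw [not_or] at hc
      rw [hp2 σ h3, hq2 σ h3] at hc
      exact h5 ⟨(h6 p' hp1).mp hc.1 _ le_rfl hp1, (h6 q' hq1).mp hc.2 _ le_rfl hq1⟩
  · refine emptF hK _ fun N hN => ?_
    exact Or.inr ⟨id, ⟨fun _ => rfl, fun _ => Or.inl rfl⟩, hN, by simp⟩

theorem pf_tBAL : tBAL := by
  intro ι Δ K τ M hτ _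
  by_cases hK : K.Nonempty
  · obtain ⟨a, g, θ, D⟩ := exDat hτ M hK
    refine mono1 ?_ (D.bal hτ True)
    rintro N (h | ⟨σ, h3, h4, h5⟩)
    · exact Or.inl h
    · exact Or.inr ⟨σ, h3, h4⟩
  · refine emptF hK _ fun N hN => ?_
    exact Or.inr ⟨id, ⟨fun _ => rfl, fun _ => Or.inl rfl⟩, hN⟩

theorem pf_tFRZ : tFRZ := by
  intro ι Δ K τ M p hτ _ hd
  by_cases hK : K.Nonempty
  · obtain ⟨a, g, θ, D⟩ := exDat hτ M hK
    have hdif := D.dif p
    by_cases h1 : a p = a (τ p)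
    · refine mono1 ?_ (D.bal hτ True)
      rintro N (h | ⟨σ, h3, h4, h5⟩)
      · exact Or.inl h
      · refine Or.inr ⟨σ, h3, h4, ?_⟩
        by_cases hp : τ p = p
        · rcases h3.2 p with h6 | h6
          · exact h6
          · rw [h6, hp]
        · exact (h5 p hp h1).mpr trivial
    obtain ⟨p', hp0, hp1, hp2⟩ := Dat.ori a hτ p h1
    have hp3 : a (τ p') + 2 ≤ a p' := by
      rcases hp0 with rfl | rfl
      · omega
      · rw [hτ] at hp1 ⊢
        omega
    have hne : (g p' (a (τ p')), p') ≠ (g p' (a (τ p') + 1), p') := by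
      intro h
      have := D.inj p' _ _ (by omega) (by omega) (congrArg Prod.fst h)
      omega
    refine mono1 ?_ (D.tieNB hτ (D.fre p' _ (by omega) (by omega))
      (D.fre p' _ (by omega) (by omega)) (D.pin p' _ (by omega)) (D.pin p' _ (by omega)) hne
      True)
    rintro N (h | ⟨σ, h3, h4, -, X, h5, h6⟩)
    · exact Or.inl h
    · refine Or.inr ⟨σ, h3, h4, ?_⟩
      rw [hp2 σ h3]
      by_contra hc
      have h7 := (h6 p' hp1).mp hc
      exact h5 ⟨h7 _ (by omega) (by omega), h7 _ (by omega) (by omega)⟩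
  · refine emptF hK _ fun N hN => ?_
    exact Or.inr ⟨id, ⟨fun _ => rfl, fun _ => Or.inl rfl⟩, hN, by simp⟩

theorem pf_tLET : tLET := by
  intro ι Δ K τ M p hτ _ hd
  by_cases hK : K.Nonempty
  · obtain ⟨a, g, θ, D⟩ := exDat hτ M hK
    have hdif := D.dif p
    have h := D.tieNAE hτ (p := τ p)
    rw [hτ] at h
    exact h (by omega)
  · rw [empt hK, empt hK] at hd
    omega

theorem pf_tSUM : tSUM := by
  classical
  intro ι Δ K τ M X hτ hT
  refine ⟨?_, ?_, ?_, ?_⟩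
  · intro κ hκ
    rw [← hT κ hκ]
    unfold flp
    apply Finset.card_image_of_injOn
    intro k hk k' hk' h
    dsimp only at h
    rw [Finset.mem_coe] at hk hk'
    split_ifs at h with h1 h2 h2
    · rw [← hτ k, h, hτ]
    · exact absurd (h ▸ hk') h1.2
    · exact absurd (h ▸ hk) h2.2
    · exact h
  · intro k hk
    have h1 := dgr_flp hτ M X k (K := K)
    have h2 : A K τ M k = ∅ := by
      apply Finset.filter_eq_empty_iff.mpr
      intro κ _
      rw [hk]
      tauto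
    rw [hk, h2] at h1
    simpa using h1
  · intro k _
    have h1 := dgr_flp hτ M X k (K := K)
    have h2 := dgr_flp hτ M X (τ k) (K := K)
    rw [hτ k] at h2
    omega
  · intro S hS hM κ hκ k hk
    rcases (mem_flp hτ M X κ k).mp hk with h | h
    · exact hM κ hκ h.1
    · rw [← hτ k]
      exact hS _ (hM κ hκ h.1)

end STE59

end Pool.Agent.SGV
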