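import Pool.Agent.SGV.MAI
import Pool.Agent.SGV.LET
import Pool.Agent.SGV.SUM
import Pool.Agent.SGV.ZTOP
import Pool.Agent.SGV.GAM66

set_option autoImplicit false

/-! MP_fff3e1_lc, row 3525: a universal word of parallel rounds exists for every `Δ`. -/

namespace Pool.Agent.SGV

theorem uni_all : tUNI :=
  pf_tUNI G66.pf_tWIN (pf_tMAI pf_tSUM pf_tBAL G66.pf_tSOL G66.pf_tDEL
    (pf_tZER pf_tSUM pf_tSTE pf_tSTN pf_tFRZ pf_tBAL pf_tLET))

end Pool.Agent.SGV
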