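import Pool.Agent.SGV.ZDefs

set_option autoImplicit false

/-! MP_fff3e1_lc, the zero lemma: counting (target `zCNT`). -/

namespace Pool.Agent.SGV

open Pool.Agent.SGM

theorem pf_zCNT : zCNT := by
  intro Δ Q d h0 hs hz
  obtain ⟨z, hz, hz0⟩ := hz
  have hsum : ∑ k ∈ Q, (2 - d k) = 2 * Q.card - ∑ k ∈ Q, d k := by
    rw [Finset.sum_sub_distrib]
    simp [mul_comm]
  have hle : ∑ k ∈ Q, (2 - d k) ≤ 1 := by rcases hs with h | h <;> rw [hsum] <;> linarith
  have hge : 0 ≤ ∑ k ∈ Q, (2 - d k) := by rcases hs with h | h <;> rw [hsum] <;> linarith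
  have hH : ∃ h ∈ Q, 3 ≤ d h := by
    by_contra hc
    push Not at hc
    have h1 : 2 - d z ≤ ∑ k ∈ Q, (2 - d k) :=
      Finset.single_le_sum (f := fun k => 2 - d k)
        (fun k hk => by have := hc k hk; show 0 ≤ 2 - d k; omega) hz
    rw [hz0] at h1
    linarith
  refine ⟨hH, ?_⟩
  obtain ⟨h, hh, hh3⟩ := hH
  by_cases c1 : ∃ z' ∈ Q, z ≠ z' ∧ d z' ≤ 0
  · obtain ⟨z', h1, h2, h3⟩ := c1
    exact Or.inl (Or.inl ⟨z, hz, z', h1, h2, hz0.le, h3⟩)
  by_cases c2 : ∃ h' ∈ Q, h ≠ h' ∧ 3 ≤ d h'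
  · obtain ⟨h', h1, h2, h3⟩ := c2
    exact Or.inr (Or.inl ⟨h, hh, h', h1, h2, by show -d h ≤ -3; linarith,
      by show -d h' ≤ -3; linarith⟩)
  push Not at c1 c2
  by_cases c3 : ∃ v ∈ Q, d v = 1
  · obtain ⟨v, hv, hv1⟩ := c3
    refine Or.inr (Or.inr ⟨h, hh, by show -d h ≤ -3; linarith, ?_⟩)
    -- `d h ≥ 4` and the others are at most 2
    have hzh : z ≠ h := by rintro rfl; rw [hz0] at hh3; norm_num at hh3
    have hvh : v ≠ h := by rintro rfl; rw [hv1] at hh3; norm_num at hh3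
    have hvz : v ≠ z := by rintro rfl; rw [hv1] at hz0; norm_num at hz0
    have hd4 : 4 ≤ d h := by
      have e1 : ∑ k ∈ Q, (2 - d k) = (2 - d h) + ∑ k ∈ Q.erase h, (2 - d k) :=
        (Finset.add_sum_erase Q (fun k => 2 - d k) hh).symm
      have hz' : z ∈ Q.erase h := Finset.mem_erase.mpr ⟨hzh, hz⟩
      have e2 : ∑ k ∈ Q.erase h, (2 - d k) = (2 - d z) + ∑ k ∈ (Q.erase h).erase z, (2 - d k) :=
        (Finset.add_sum_erase _ (fun k => 2 - d k) hz').symm
      have hv' : v ∈ (Q.erase h).erase z :=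
        Finset.mem_erase.mpr ⟨hvz, Finset.mem_erase.mpr ⟨hvh, hv⟩⟩
      have e3 : 2 - d v ≤ ∑ k ∈ (Q.erase h).erase z, (2 - d k) := by
        refine Finset.single_le_sum (f := fun k => 2 - d k) ?_ hv'
        intro k hk
        have k1 := Finset.mem_erase.mp hk
        have k2 := Finset.mem_erase.mp k1.2
        have := c2 k k2.2 (Ne.symm k2.1)
        show 0 ≤ 2 - d k
        omega
      omega
    intro w hw
    by_cases hwh : w = h
    · rw [hwh]; simp
    · have := c2 w hw (Ne.symm hwh)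
      have h5 : 2 ≤ |-d w - -d h| := le_trans (by linarith) (le_abs_self _)
      intro hc
      have h6 : |-d w - -d h| = 1 := hc
      omega
  · push Not at c3
    refine Or.inl (Or.inr ⟨z, hz, hz0.le, ?_⟩)
    intro v hv hc
    rw [hz0, sub_zero, abs_of_nonneg (h0 v)] at hc
    exact c3 v hv hc

end Pool.Agent.SGV
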