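import Pool.Agent.SGV.Defs

set_option autoImplicit false

/-! MP_fff3e1_lc, the zero lemma `tZER`: the abstract degree game (potential constant) and the
targets into which `tZER` is split. -/

namespace Pool.Agent.SGV

open Pool.Agent.SGM

variable {Δ : ℕ}

/-- one letter of the abstract degree game: the player forces `T` or the potential drops -/
def Stp (τ : Fin Δ → Fin Δ) (d : Fin Δ → ℤ) (T : (Fin Δ → ℤ) → Prop) : Prop :=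
  (∃ p, 3 ≤ |d p - d (τ p)|) ∨
  (∃ p, |d p - d (τ p)| ≠ 1 ∧ ∀ σ, Mv τ σ → σ p = p → T (fun k => d (σ k))) ∨
  (∃ p q, (τ p = p ↔ τ q = q) ∧
    ∀ σ, Mv τ σ → (σ p = p ↔ σ q = q) → T (fun k => d (σ k))) ∨
  (∃ p q, q ≠ p ∧ q ≠ τ p ∧ ∀ σ, Mv τ σ → (σ p = p ∨ σ q = q) → T (fun k => d (σ k)))

/-- the abstract degree game with goal `T` -/
def Pl (T : (Fin Δ → ℤ) → Prop) : List (Fin Δ → Fin Δ) → (Fin Δ → ℤ) → Prop
  | [], d => T d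
  | τ :: w, d => Stp τ d (Pl T w)

/-- `h` and `z` form a deadly pair -/
def Dead (d : Fin Δ → ℤ) (h z : Fin Δ) : Prop := 3 ≤ |d h - d z|

/-- `τ` does not move colours outside `P` -/
def Ins (P : Finset (Fin Δ)) (τ : Fin Δ → Fin Δ) : Prop :=
  (∀ k, τ (τ k) = k) ∧ ∀ k, k ∉ P → τ k = k

/-- Z1 the bridge: the abstract game decides the real game -/
def zBRI : Prop := ∀ (ι : Type) (Δ : ℕ) (K : Finset ι) (w : List (Fin Δ → Fin Δ))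
    (M : ι → Finset (Fin Δ)), WInv w → Two K M →
  Pl (fun _ => False) w (fun k => (dgr K M k : ℤ)) → Force K (fun M' => phi K M' < phi K M) w M

/-- Z2 the pass over a set with `2 ^ k` colours kills every deadly pair in it -/
def zPAS : Prop := ∀ (Δ k : ℕ) (P : Finset (Fin Δ)), P.card = 2 ^ k →
  ∃ w : List (Fin Δ → Fin Δ), (∀ τ ∈ w, Ins P τ) ∧
    ∀ (T : (Fin Δ → ℤ) → Prop) (d : Fin Δ → ℤ) (h z : Fin Δ), h ∈ P → z ∈ P → Dead d h z →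
      Pl T w d

/-- Z3 the perfect matchings between two disjoint sets of the same size -/
def zCRO : Prop := ∀ (Δ : ℕ) (X Y : Finset (Fin Δ)), Disjoint X Y → X.card = Y.card →
  ∃ w : List (Fin Δ → Fin Δ), (∀ τ ∈ w, Ins (X ∪ Y) τ ∧ (∀ k ∈ X, τ k ∈ Y) ∧
    (∀ k ∈ Y, τ k ∈ X)) ∧ ∀ x ∈ X, ∀ y ∈ Y, ∃ τ ∈ w, τ x = y

/-- the side condition: two members of `Z = {v ∈ Q | d v ≤ b}` or a member which can be frozen -/
def Sid (Q : Finset (Fin Δ)) (d : Fin Δ → ℤ) (b : ℤ) : Prop :=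
  (∃ z ∈ Q, ∃ z' ∈ Q, z ≠ z' ∧ d z ≤ b ∧ d z' ≤ b) ∨
    ∃ z ∈ Q, d z ≤ b ∧ ∀ v ∈ Q, |d v - d z| ≠ 1

/-- Z4 the word for `Q`, role of `Z` -/
def zWRD : Prop := ∀ (Δ : ℕ) (Q : Finset (Fin Δ)), ∃ w : List (Fin Δ → Fin Δ),
  (∀ τ ∈ w, Ins Q τ) ∧ ∀ (d : Fin Δ → ℤ) (a b : ℤ), b + 3 ≤ a → (∃ h ∈ Q, a ≤ d h) →
    (∃ z ∈ Q, d z ≤ b) → Sid Q d b → Pl (fun _ => False) w d

/-- Z5 the game does not change when all degrees are negated -/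
def zNEG : Prop := ∀ (Δ : ℕ) (w : List (Fin Δ → Fin Δ)) (d : Fin Δ → ℤ),
  Pl (fun _ => False) w (fun k => - d k) → Pl (fun _ => False) w d

/-- Z6 the counting: `Z = {d = 0}`, `H = {d ≥ 3}` -/
def zCNT : Prop := ∀ (Δ : ℕ) (Q : Finset (Fin Δ)) (d : Fin Δ → ℤ), (∀ k, 0 ≤ d k) →
  (∑ k ∈ Q, d k = 2 * Q.card ∨ ∑ k ∈ Q, d k + 1 = 2 * Q.card) → (∃ k ∈ Q, d k = 0) →
  (∃ h ∈ Q, 3 ≤ d h) ∧ (Sid Q d 0 ∨ Sid Q (fun k => - d k) (-3))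

end Pool.Agent.SGV
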