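import Pool.Agent.SGV.ZDefs

set_option autoImplicit false

/-! MP_fff3e1_lc, the zero lemma: the word `pass(P) K K` (target `zWRD` from `zPAS`, `zCRO`). -/

namespace Pool.Agent.SGV

open Pool.Agent.SGM

variable {Δ : ℕ}

theorem Stp.mono {τ : Fin Δ → Fin Δ} {d : Fin Δ → ℤ} {T T' : (Fin Δ → ℤ) → Prop}
    (h : ∀ d, T d → T' d) : Stp τ d T → Stp τ d T' := by
  rintro (h1 | ⟨p, h1, h2⟩ | ⟨p, q, h1, h2⟩ | ⟨p, q, h1, h3, h2⟩)
  · exact Or.inl h1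
  · exact Or.inr (Or.inl ⟨p, h1, fun σ a b => h _ (h2 σ a b)⟩)
  · exact Or.inr (Or.inr (Or.inl ⟨p, q, h1, fun σ a b => h _ (h2 σ a b)⟩))
  · exact Or.inr (Or.inr (Or.inr ⟨p, q, h1, h3, fun σ a b => h _ (h2 σ a b)⟩))

theorem Pl.mono {T T' : (Fin Δ → ℤ) → Prop} (h : ∀ d, T d → T' d) :
    ∀ (w : List (Fin Δ → Fin Δ)) (d : Fin Δ → ℤ), Pl T w d → Pl T' w d
  | [], d => h d
  | _ :: w, _ => Stp.mono (Pl.mono h w)

theorem Pl.app {T : (Fin Δ → ℤ) → Prop} :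
    ∀ (u w : List (Fin Δ → Fin Δ)) (d : Fin Δ → ℤ), Pl (Pl T w) u d → Pl T (u ++ w) d
  | [], _, _ => id
  | _ :: u, w, _ => Stp.mono (Pl.app u w)

/-- invariants with a move of the player -/
theorem Pl.inv {I : (Fin Δ → ℤ) → Prop} :
    ∀ (w : List (Fin Δ → Fin Δ)), (∀ τ ∈ w, ∀ d, I d → Stp τ d I) → ∀ d, I d → Pl I w d
  | [], _, _, h => h
  | τ :: w, hw, d, h => Stp.mono (Pl.inv w fun τ' h' => hw τ' (List.mem_cons_of_mem _ h'))
      (hw τ List.mem_cons_self d h)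

theorem Stp.any {τ : Fin Δ → Fin Δ} {d : Fin Δ → ℤ} {T : (Fin Δ → ℤ) → Prop} (p : Fin Δ)
    (h : ∀ σ, Mv τ σ → T (fun k => d (σ k))) : Stp τ d T :=
  Or.inr (Or.inr (Or.inl ⟨p, p, Iff.rfl, fun σ a _ => h σ a⟩))

theorem Stp.kil {τ : Fin Δ → Fin Δ} {d : Fin Δ → ℤ} {T : (Fin Δ → ℤ) → Prop} {p : Fin Δ}
    (h : 3 ≤ |d p - d (τ p)|) : Stp τ d T := Or.inl ⟨p, h⟩

theorem Stp.frz {τ : Fin Δ → Fin Δ} {d : Fin Δ → ℤ} {T : (Fin Δ → ℤ) → Prop} {p : Fin Δ}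
    (h : |d p - d (τ p)| ≠ 1) (h2 : ∀ σ, Mv τ σ → σ p = p → T (fun k => d (σ k))) :
    Stp τ d T := Or.inr (Or.inl ⟨p, h, h2⟩)

theorem Stp.tie {τ : Fin Δ → Fin Δ} {d : Fin Δ → ℤ} {T : (Fin Δ → ℤ) → Prop} {p q : Fin Δ}
    (h : τ p = p ↔ τ q = q)
    (h2 : ∀ σ, Mv τ σ → (σ p = p ↔ σ q = q) → T (fun k => d (σ k))) :
    Stp τ d T := Or.inr (Or.inr (Or.inl ⟨p, q, h, h2⟩))

theorem Stp.nb {τ : Fin Δ → Fin Δ} {d : Fin Δ → ℤ} {T : (Fin Δ → ℤ) → Prop} {p q : Fin Δ}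
    (h : q ≠ p) (h' : q ≠ τ p)
    (h2 : ∀ σ, Mv τ σ → (σ p = p ∨ σ q = q) → T (fun k => d (σ k))) :
    Stp τ d T := Or.inr (Or.inr (Or.inr ⟨p, q, h, h', h2⟩))

/-- invariants under all moves -/
theorem Pl.free {I : (Fin Δ → ℤ) → Prop} (p : Fin Δ) (w : List (Fin Δ → Fin Δ))
    (hI : ∀ τ ∈ w, ∀ σ d, Mv τ σ → I d → I (fun k => d (σ k))) (d : Fin Δ → ℤ) (h : I d) :
    Pl I w d :=
  Pl.inv w (fun τ ht d' h' => Stp.any p fun σ hs => hI τ ht σ d' hs h') d h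

theorem Ins.mem {P : Finset (Fin Δ)} {τ : Fin Δ → Fin Δ} (h : Ins P τ) {k : Fin Δ}
    (hk : k ∈ P) : τ k ∈ P := by
  by_contra hc
  have h1 := h.2 _ hc
  rw [h.1] at h1
  exact hc (h1 ▸ hk)

theorem Ins.mono {P P' : Finset (Fin Δ)} {τ : Fin Δ → Fin Δ} (h : Ins P τ) (hP : P ⊆ P') :
    Ins P' τ := ⟨h.1, fun k hk => h.2 k fun hk' => hk (hP hk')⟩

theorem Mv.mem {P : Finset (Fin Δ)} {τ σ : Fin Δ → Fin Δ} (h : Ins P τ) (hs : Mv τ σ)
    {k : Fin Δ} (hk : k ∈ P) : σ k ∈ P := by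
  rcases hs.2 k with h1 | h1
  · rw [h1]; exact hk
  · rw [h1]; exact h.mem hk

theorem Mv.fix {P : Finset (Fin Δ)} {τ σ : Fin Δ → Fin Δ} (h : Ins P τ) (hs : Mv τ σ)
    {k : Fin Δ} (hk : k ∉ P) : σ k = k := by
  rcases hs.2 k with h1 | h1
  · exact h1
  · rw [h1]; exact h.2 k hk

theorem Dead.mv {τ σ : Fin Δ → Fin Δ} (hs : Mv τ σ) {d : Fin Δ → ℤ} {h z : Fin Δ}
    (hd : Dead d h z) : Dead (fun k => d (σ k)) (σ h) (σ z) := by
  unfold Dead at *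
  simp only [hs.1]
  exact hd

theorem Dead.ne {d : Fin Δ → ℤ} {h z : Fin Δ} (hd : Dead d h z) : h ≠ z := by
  rintro rfl
  unfold Dead at hd
  simp at hd

theorem Dead.symm {d : Fin Δ → ℤ} {h z : Fin Δ} (hd : Dead d h z) : Dead d z h := by
  unfold Dead at *
  rw [abs_sub_comm]; exact hd

/-- the general invariant: some high colour and the side condition -/
def JJ (Q : Finset (Fin Δ)) (a b : ℤ) (d : Fin Δ → ℤ) : Prop :=
  (∃ h ∈ Q, a ≤ d h) ∧ Sid Q d b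

theorem JJ.mv {Q : Finset (Fin Δ)} {a b : ℤ} {d : Fin Δ → ℤ} {τ σ : Fin Δ → Fin Δ}
    (h : Ins Q τ) (hs : Mv τ σ) (hJ : JJ Q a b d) : JJ Q a b (fun k => d (σ k)) := by
  obtain ⟨⟨x, hx, hx'⟩, hS⟩ := hJ
  refine ⟨⟨σ x, hs.mem h hx, by simpa only [hs.1] using hx'⟩, ?_⟩
  rcases hS with ⟨z, hz, z', hz', hne, h1, h2⟩ | ⟨z, hz, h1, h2⟩
  · refine Or.inl ⟨σ z, hs.mem h hz, σ z', hs.mem h hz', ?_, ?_, ?_⟩
    · intro hc
      have := congrArg σ hc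
      rw [hs.1, hs.1] at this
      exact hne this
    · simpa only [hs.1] using h1
    · simpa only [hs.1] using h2
  · refine Or.inr ⟨σ z, hs.mem h hz, by simpa only [hs.1] using h1, ?_⟩
    intro v hv
    simp only [hs.1]
    exact h2 _ (hs.mem h hv)

theorem JJ.zz {Q : Finset (Fin Δ)} {a b : ℤ} {d : Fin Δ → ℤ} (hJ : JJ Q a b d) :
    ∃ z ∈ Q, d z ≤ b := by
  rcases hJ.2 with ⟨z, hz, z', hz', hne, h1, h2⟩ | ⟨z, hz, h1, h2⟩
  · exact ⟨z, hz, h1⟩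
  · exact ⟨z, hz, h1⟩

/-- the letters of the cross stretch -/
def ZCrs (X Y : Finset (Fin Δ)) (τ : Fin Δ → Fin Δ) : Prop :=
  Ins (X ∪ Y) τ ∧ (∀ k ∈ X, τ k ∈ Y) ∧ ∀ k ∈ Y, τ k ∈ X

theorem ZCrs.ne {X Y : Finset (Fin Δ)} {τ : Fin Δ → Fin Δ} (hXY : Disjoint X Y)
    (h : ZCrs X Y τ) {k : Fin Δ} (hk : k ∈ X ∨ k ∈ Y) : τ k ≠ k := by
  intro hc
  rcases hk with hk | hk
  · have := h.2.1 k hk
    rw [hc] at this
    exact Finset.disjoint_left.mp hXY hk this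
  · have := h.2.2 k hk
    rw [hc] at this
    exact Finset.disjoint_left.mp hXY this hk

/-- a deadly pair on the same side -/
def Sam (X Y : Finset (Fin Δ)) (d : Fin Δ → ℤ) : Prop :=
  ∃ h z, Dead d h z ∧ ((h ∈ X ∧ z ∈ X) ∨ (h ∈ Y ∧ z ∈ Y))

theorem sam_stp {X Y : Finset (Fin Δ)} {τ : Fin Δ → Fin Δ} (hXY : Disjoint X Y)
    (h : ZCrs X Y τ) (d : Fin Δ → ℤ) (hS : Sam X Y d) : Stp τ d (Sam X Y) := by
  obtain ⟨x, z, hd, hS⟩ := hS
  have hx : x ∈ X ∨ x ∈ Y := by tauto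
  have hz : z ∈ X ∨ z ∈ Y := by tauto
  refine Stp.tie (p := x) (q := z) ?_ ?_
  · exact ⟨fun hc => absurd hc (h.ne hXY hx), fun hc => absurd hc (h.ne hXY hz)⟩
  · intro σ hs hiff
    refine ⟨σ x, σ z, hd.mv hs, ?_⟩
    by_cases hc : σ x = x
    · rw [hc, hiff.mp hc]; exact hS
    · have hc' : σ z ≠ z := fun hh => hc (hiff.mpr hh)
      have e1 : σ x = τ x := (hs.2 x).resolve_left hc
      have e2 : σ z = τ z := (hs.2 z).resolve_left hc'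
      rw [e1, e2]
      rcases hS with ⟨h1, h2⟩ | ⟨h1, h2⟩
      · exact Or.inr ⟨h.2.1 _ h1, h.2.1 _ h2⟩
      · exact Or.inl ⟨h.2.2 _ h1, h.2.2 _ h2⟩

/-- a cross pair dies or comes to the same side -/
theorem cross_pl {X Y : Finset (Fin Δ)} (hXY : Disjoint X Y) :
    ∀ (w : List (Fin Δ → Fin Δ)), (∀ τ ∈ w, ZCrs X Y τ) → ∀ (d : Fin Δ → ℤ) (x y : Fin Δ),
      x ∈ X → y ∈ Y → Dead d x y → (∃ τ ∈ w, τ x = y) → Pl (Sam X Y) w d
  | [], _, _, _, _, _, _, _, ⟨_, h, _⟩ => absurd h List.not_mem_nil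
  | τ :: w, hw, d, x, y, hx, hy, hd, hm => by
      have hτ := hw τ List.mem_cons_self
      have hw' : ∀ τ ∈ w, ZCrs X Y τ := fun τ' h' => hw τ' (List.mem_cons_of_mem _ h')
      change Stp τ d (Pl (Sam X Y) w)
      by_cases hc : τ x = y
      · refine Stp.kil (p := x) ?_
        rw [hc]; exact hd
      · have hm' : ∃ τ ∈ w, τ x = y := by
          obtain ⟨τ', h1, h2⟩ := hm
          rcases List.mem_cons.mp h1 with rfl | h1
          · exact absurd h2 hc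
          · exact ⟨τ', h1, h2⟩
        refine Stp.nb (p := x) (q := y) (Ne.symm hd.ne) (Ne.symm hc) ?_
        intro σ hs hor
        have key : Sam X Y (fun k => d (σ k)) → Pl (Sam X Y) w (fun k => d (σ k)) :=
          fun hS => Pl.inv w (fun τ' h' d' hd' => sam_stp hXY (hw' τ' h') d' hd') _ hS
        by_cases h1 : σ x = x
        · by_cases h2 : σ y = y
          · refine cross_pl hXY w hw' _ x y hx hy ?_ hm'
            have := hd.mv hs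
            rwa [h1, h2] at this
          · have e2 : σ y = τ y := (hs.2 y).resolve_left h2
            refine key ⟨σ x, σ y, hd.mv hs, Or.inl ⟨?_, ?_⟩⟩
            · rw [h1]; exact hx
            · rw [e2]; exact hτ.2.2 _ hy
        · have h2 : σ y = y := hor.resolve_left h1
          have e1 : σ x = τ x := (hs.2 x).resolve_left h1
          refine key ⟨σ x, σ y, hd.mv hs, Or.inr ⟨?_, ?_⟩⟩
          · rw [e1]; exact hτ.2.1 _ hx
          · rw [h2]; exact hy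

/-- keep `Z` not inside `Y` during the cross stretch -/
def Kep (Q Y : Finset (Fin Δ)) (a b : ℤ) (d : Fin Δ → ℤ) : Prop :=
  JJ Q a b d ∧ ∃ z ∈ Q, z ∉ Y ∧ d z ≤ b

theorem kep_stp {Q X Y : Finset (Fin Δ)} {a b : ℤ} (hX : X ⊆ Q) (hY : Y ⊆ Q)
    (hXY : Disjoint X Y) {τ : Fin Δ → Fin Δ} (h : ZCrs X Y τ) (d : Fin Δ → ℤ)
    (hK : Kep Q Y a b d) (R : (Fin Δ → ℤ) → Prop)
    (hR : ∀ σ, Mv τ σ → R (fun k => d (σ k))) :
    Stp τ d (fun d' => Kep Q Y a b d' ∧ R d') := by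
  have hQ : Ins Q τ := h.1.mono (Finset.union_subset hX hY)
  obtain ⟨hJ, z, hz, hzY, hzb⟩ := hK
  have fin : ∀ σ, Mv τ σ → (∃ z ∈ Q, σ z ∉ Y ∧ d z ≤ b) →
      Kep Q Y a b (fun k => d (σ k)) ∧ R (fun k => d (σ k)) := by
    rintro σ hs ⟨v, hv, hv1, hv2⟩
    exact ⟨⟨hJ.mv hQ hs, σ v, hs.mem hQ hv, hv1, by simpa only [hs.1] using hv2⟩, hR σ hs⟩
  by_cases hzX : z ∈ X
  · -- a second member or a member which can be frozen
    have h2 : (∃ z' ∈ Q, z' ≠ z ∧ d z' ≤ b) ∨ (∀ v ∈ Q, |d v - d z| ≠ 1) := by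
      rcases hJ.2 with ⟨u, hu, u', hu', hne, h1, h2⟩ | ⟨u, hu, h1, h2⟩
      · by_cases hc : u = z
        · exact Or.inl ⟨u', hu', fun hh => hne (hc.trans hh.symm), h2⟩
        · exact Or.inl ⟨u, hu, hc, h1⟩
      · by_cases hc : u = z
        · subst hc; exact Or.inr h2
        · exact Or.inl ⟨u, hu, hc, h1⟩
    rcases h2 with ⟨z', hz', hne, hzb'⟩ | hfr
    · by_cases h1 : z' ∈ X
      · refine Stp.nb (p := z) (q := z') hne ?_ ?_
        · intro hc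
          exact Finset.disjoint_left.mp hXY h1 (hc ▸ h.2.1 z hzX)
        · intro σ hs hor
          rcases hor with ho | ho
          · exact fin σ hs ⟨z, hz, by rw [ho]; exact hzY, hzb⟩
          · exact fin σ hs ⟨z', hz', by
              rw [ho]; exact Finset.disjoint_left.mp hXY h1, hzb'⟩
      · by_cases h3 : z' ∈ Y
        · refine Stp.tie (p := z) (q := z') ?_ ?_
          · exact ⟨fun hc => absurd hc (h.ne hXY (Or.inl hzX)),
              fun hc => absurd hc (h.ne hXY (Or.inr h3))⟩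
          · intro σ hs hiff
            by_cases hc : σ z = z
            · exact fin σ hs ⟨z, hz, by rw [hc]; exact hzY, hzb⟩
            · have hc' : σ z' ≠ z' := fun hh => hc (hiff.mpr hh)
              have e2 : σ z' = τ z' := (hs.2 z').resolve_left hc'
              refine fin σ hs ⟨z', hz', ?_, hzb'⟩
              rw [e2]
              exact Finset.disjoint_left.mp hXY (h.2.2 _ h3)
        · refine Stp.any z fun σ hs => fin σ hs ⟨z', hz', ?_, hzb'⟩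
          rw [hs.fix h.1 (by simp [h1, h3])]
          exact h3
    · refine Stp.frz (p := z) ?_ ?_
      · rw [abs_sub_comm]
        exact hfr _ (hQ.mem hz)
      · intro σ hs hc
        exact fin σ hs ⟨z, hz, by rw [hc]; exact hzY, hzb⟩
  · refine Stp.any z fun σ hs => fin σ hs ⟨z, hz, ?_, hzb⟩
    rw [hs.fix h.1 (by simp [hzX, hzY])]
    exact hzY

theorem pf_zWRD (hP : zPAS) (hC : zCRO) : zWRD := by
  intro Δ Q
  rcases Q.eq_empty_or_nonempty with rfl | hne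
  · exact ⟨[], by simp, fun d a b _ ⟨h, hh, _⟩ => absurd hh (Finset.notMem_empty _)⟩
  obtain ⟨p0, hp0⟩ := hne
  have hn : Q.card ≠ 0 := Finset.card_ne_zero.mpr ⟨p0, hp0⟩
  set k := Nat.log 2 Q.card with hk
  have hk1 : 2 ^ k ≤ Q.card := Nat.pow_log_le_self 2 hn
  have hk2 : Q.card < 2 ^ (k + 1) := Nat.lt_pow_succ_log_self (by norm_num) _
  obtain ⟨P, hPQ, hPc⟩ := Finset.exists_subset_card_eq hk1
  set X := Q \ P with hX
  have hXc : X.card = Q.card - 2 ^ k := by rw [hX, Finset.card_sdiff_of_subset hPQ, hPc]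
  have hXle : X.card ≤ P.card := by rw [hXc, hPc, pow_succ] at *; omega
  obtain ⟨Y, hYP, hYc⟩ := Finset.exists_subset_card_eq hXle
  set P' := Q \ Y with hP'
  have hP'c : P'.card = 2 ^ k := by
    rw [hP', Finset.card_sdiff_of_subset (hYP.trans hPQ), hYc, hXc]; omega
  have hXY : Disjoint X Y := by
    rw [Finset.disjoint_left]
    intro v hv hv'
    exact (Finset.mem_sdiff.mp hv).2 (hYP hv')
  have hXQ : X ⊆ Q := Finset.sdiff_subset
  have hYQ : Y ⊆ Q := hYP.trans hPQ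
  have hP'Q : P' ⊆ Q := Finset.sdiff_subset
  have hXP' : X ⊆ P' := by
    intro v hv
    exact Finset.mem_sdiff.mpr ⟨hXQ hv, Finset.disjoint_left.mp hXY hv⟩
  obtain ⟨w1, hw1, hk1'⟩ := hP Δ k P hPc
  obtain ⟨w2, hw2, hk2'⟩ := hP Δ k P' hP'c
  obtain ⟨wN, hwN, hmN⟩ := hC Δ X Y hXY hYc.symm
  have hwN' : ∀ τ ∈ wN, ZCrs X Y τ := hwN
  have i1 : ∀ τ ∈ w1, Ins Q τ := fun τ h => (hw1 τ h).mono hPQ
  have i2 : ∀ τ ∈ w2, Ins Q τ := fun τ h => (hw2 τ h).mono hP'Q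
  have iN : ∀ τ ∈ wN, Ins Q τ := fun τ h =>
    (hwN τ h).1.mono (Finset.union_subset hXQ hYQ)
  set KK := wN ++ (w2 ++ w1) with hKK
  have iK : ∀ τ ∈ KK, Ins Q τ := by
    intro τ hτ
    simp only [hKK, List.mem_append] at hτ
    rcases hτ with h | h | h
    exacts [iN τ h, i2 τ h, i1 τ h]
  refine ⟨w1 ++ (KK ++ KK), ?_, ?_⟩
  · intro τ hτ
    simp only [List.mem_append] at hτ
    rcases hτ with h | h | h
    exacts [i1 τ h, iK τ h, iK τ h]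
  intro d a b hab hH hZ hS
  have dd : ∀ (d : Fin Δ → ℤ) (h z : Fin Δ), a ≤ d h → d z ≤ b → Dead d h z := by
    intro d h z h1 h2
    unfold Dead
    exact le_trans (by linarith) (le_abs_self _)
  -- a deadly pair on the same side dies in `w2 ++ w1`
  have hsam : ∀ (T : (Fin Δ → ℤ) → Prop) (d : Fin Δ → ℤ), Sam X Y d → Pl T (w2 ++ w1) d := by
    intro T d hSd
    refine Pl.app w2 w1 d ?_
    obtain ⟨x, z, hd, ⟨hx, hz⟩ | ⟨hx, hz⟩⟩ := hSd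
    · exact hk2' _ d x z (hXP' hx) (hXP' hz) hd
    · refine Pl.mono ?_ w2 d (Pl.free (I := fun d => Dead d x z) p0 w2 ?_ d hd)
      · intro d' hd'
        exact hk1' T d' x z (hYP hx) (hYP hz) hd'
      · intro τ hτ σ d' hs hd'
        have e1 : σ x = x := hs.fix (hw2 τ hτ) (by simp [hP', hx])
        have e2 : σ z = z := hs.fix (hw2 τ hτ) (by simp [hP', hz])
        have := hd'.mv hs
        rwa [e1, e2] at this
  -- a cross pair dies in `KK`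
  have hcro : ∀ (T : (Fin Δ → ℤ) → Prop) (d : Fin Δ → ℤ) (x y : Fin Δ), x ∈ X → y ∈ Y →
      Dead d x y → Pl T KK d := by
    intro T d x y hx hy hd
    refine Pl.app wN (w2 ++ w1) d ?_
    exact Pl.mono (hsam T) wN d (cross_pl hXY wN hwN' d x y hx hy hd (hmN x hx y hy))
  -- case 1
  have case1 : ∀ (T : (Fin Δ → ℤ) → Prop) (d : Fin Δ → ℤ), JJ Q a b d →
      (∀ z ∈ P, ¬ d z ≤ b) → (∃ h ∈ P, a ≤ d h) → Pl T KK d := by
    intro T d hJ hz hh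
    obtain ⟨h, hhP, hha⟩ := hh
    obtain ⟨z, hzQ, hzb⟩ := hJ.zz
    have hzP : z ∉ P := fun hc => hz z hc hzb
    have hzX : z ∈ X := Finset.mem_sdiff.mpr ⟨hzQ, hzP⟩
    by_cases hhY : h ∈ Y
    · exact hcro T d z h hzX hhY (dd d h z hha hzb).symm
    · have hhX : h ∉ X := fun hc => (Finset.mem_sdiff.mp hc).2 hhP
      refine Pl.app wN (w2 ++ w1) d ?_
      have hin : Pl (fun d' => Kep Q Y a b d' ∧ a ≤ d' h) wN d := by
        refine Pl.inv wN ?_ d ⟨⟨hJ, z, hzQ, Finset.disjoint_left.mp hXY hzX, hzb⟩, hha⟩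
        intro τ hτ d' hd'
        refine kep_stp hXQ hYQ hXY (hwN' τ hτ) d' hd'.1 (fun d' => a ≤ d' h) ?_
        intro σ hs
        show a ≤ d' (σ h)
        rw [hs.fix (hwN τ hτ).1 (by simp [hhX, hhY])]
        exact hd'.2
      refine Pl.mono ?_ wN d hin
      rintro d' ⟨⟨-, v, hvQ, hvY, hvb⟩, hh'⟩
      refine Pl.app w2 w1 d' ?_
      exact hk2' _ d' h v (Finset.mem_sdiff.mpr ⟨hPQ hhP, hhY⟩)
        (Finset.mem_sdiff.mpr ⟨hvQ, hvY⟩) (dd d' h v hh' hvb)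
  -- case 2
  have case2 : ∀ (T : (Fin Δ → ℤ) → Prop) (d : Fin Δ → ℤ), JJ Q a b d →
      (∀ h ∈ P, ¬ a ≤ d h) → Pl (Pl T KK) KK d := by
    intro T d hJ hh
    obtain ⟨h, hhQ, hha⟩ := hJ.1
    have hhX : h ∈ X := Finset.mem_sdiff.mpr ⟨hhQ, fun hc => hh h hc hha⟩
    by_cases hzY : ∃ z ∈ Y, d z ≤ b
    · obtain ⟨z, hz, hzb⟩ := hzY
      exact hcro _ d h z hhX hz (dd d h z hha hzb)
    · push Not at hzY
      obtain ⟨z, hzQ, hzb⟩ := hJ.zz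
      have hzY' : z ∉ Y := fun hc => absurd hzb (not_le.mpr (hzY z hc))
      refine Pl.app wN (w2 ++ w1) d ?_
      have hin : Pl (fun d' => Kep Q Y a b d' ∧ True) wN d := by
        refine Pl.inv wN ?_ d ⟨⟨hJ, z, hzQ, hzY', hzb⟩, trivial⟩
        intro τ hτ d' hd'
        exact kep_stp hXQ hYQ hXY (hwN' τ hτ) d' hd'.1 (fun _ => True) (fun _ _ => trivial)
      refine Pl.mono ?_ wN d hin
      rintro d' ⟨⟨hJ', v, hvQ, hvY, hvb⟩, -⟩
      refine Pl.app w2 w1 d' ?_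
      by_cases hhP : ∃ h ∈ P', a ≤ d' h
      · obtain ⟨h', hh1, hh2⟩ := hhP
        exact hk2' _ d' h' v hh1 (Finset.mem_sdiff.mpr ⟨hvQ, hvY⟩) (dd d' h' v hh2 hvb)
      · push Not at hhP
        obtain ⟨h', hh1, hh2⟩ := hJ'.1
        have hh'Y : h' ∈ Y := by
          by_contra hc
          exact absurd hh2 (not_le.mpr (hhP h' (Finset.mem_sdiff.mpr ⟨hh1, hc⟩)))
        have hin2 : Pl (fun d' => JJ Q a b d' ∧ a ≤ d' h') w2 d' := by
          refine Pl.free p0 w2 ?_ d' ⟨hJ', hh2⟩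
          intro τ hτ σ d'' hs hd''
          refine ⟨hd''.1.mv (i2 τ hτ) hs, ?_⟩
          show a ≤ d'' (σ h')
          rw [hs.fix (hw2 τ hτ) (by simp [hP', hh'Y])]
          exact hd''.2
        refine Pl.mono ?_ w2 d' hin2
        rintro e ⟨hJe, hhe⟩
        by_cases hzP : ∃ z ∈ P, e z ≤ b
        · obtain ⟨z', hz1, hz2⟩ := hzP
          exact hk1' _ e h' z' (hYP hh'Y) hz1 (dd e h' z' hhe hz2)
        · have hin3 : Pl (fun e => JJ Q a b e ∧ (∀ z ∈ P, ¬ e z ≤ b) ∧ ∃ h ∈ P, a ≤ e h)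
              w1 e := by
            refine Pl.free p0 w1 ?_ e ⟨hJe, fun z hz hc => hzP ⟨z, hz, hc⟩, h', hYP hh'Y, hhe⟩
            intro τ hτ σ e' hs he'
            refine ⟨he'.1.mv (i1 τ hτ) hs, fun z hz => he'.2.1 _ (hs.mem (hw1 τ hτ) hz), ?_⟩
            obtain ⟨h2, hh2P, hh2a⟩ := he'.2.2
            exact ⟨σ h2, hs.mem (hw1 τ hτ) hh2P, by simpa only [hs.1] using hh2a⟩
          exact Pl.mono (fun e' he' => case1 T e' he'.1 he'.2.1 he'.2.2) w1 e hin3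
  -- the whole word
  refine Pl.app w1 (KK ++ KK) d ?_
  by_cases hb : (∃ h ∈ P, a ≤ d h) ∧ ∃ z ∈ P, d z ≤ b
  · obtain ⟨⟨h, h1, h2⟩, z, h3, h4⟩ := hb
    exact hk1' _ d h z h1 h3 (dd d h z h2 h4)
  · have hin : Pl (fun d' => JJ Q a b d' ∧ ¬ ((∃ h ∈ P, a ≤ d' h) ∧ ∃ z ∈ P, d' z ≤ b))
        w1 d := by
      refine Pl.free p0 w1 ?_ d ⟨⟨hH, hS⟩, hb⟩
      intro τ hτ σ d' hs hd'
      refine ⟨hd'.1.mv (i1 τ hτ) hs, ?_⟩
      rintro ⟨⟨h, h1, h2⟩, z, h3, h4⟩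
      exact hd'.2 ⟨⟨σ h, hs.mem (hw1 τ hτ) h1, h2⟩, σ z, hs.mem (hw1 τ hτ) h3, h4⟩
    refine Pl.mono ?_ w1 d hin
    rintro d' ⟨hJ', hb'⟩
    refine Pl.app KK KK d' ?_
    by_cases hh : ∃ h ∈ P, a ≤ d' h
    · exact case1 _ d' hJ' (fun z hz hc => hb' ⟨hh, z, hz, hc⟩) hh
    · exact case2 _ d' hJ' (fun h hh' hc => hh ⟨h, hh', hc⟩)

end Pool.Agent.SGV
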