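import Pool.Agent.SGV.ZCNT
import Pool.Agent.SGV.ZWRD

set_option autoImplicit false

/-! MP_fff3e1_lc, the zero lemma: assembly (target `tZER`). -/

namespace Pool.Agent.SGV

open Pool.Agent.SGM

theorem pf_tZER_of (hB : zBRI) (hP : zPAS) (hC : zCRO) (hN : zNEG) : tZER := by
  intro Δ Q
  obtain ⟨w, hw, H⟩ := pf_zWRD hP hC Δ Q
  refine ⟨w, fun τ h => (hw τ h).1, fun τ h => (hw τ h).2, ?_⟩
  intro ι K M hT hs hz
  refine hB ι Δ K w M (fun τ h => (hw τ h).1) hT ?_
  have hc := pf_zCNT Δ Q (fun k => (dgr K M k : ℤ)) (fun k => by positivity)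
    (by
      rcases hs with h | h
      · left
        have := congrArg (Nat.cast (R := ℤ)) h
        push_cast at this
        exact this
      · right
        have := congrArg (Nat.cast (R := ℤ)) h
        push_cast at this
        exact this)
    (by
      obtain ⟨k, hk, h0⟩ := hz
      exact ⟨k, hk, by rw [h0]; rfl⟩)
  obtain ⟨⟨h, hh, hh3⟩, hS⟩ := hc
  obtain ⟨z, hz, hz0⟩ := hz
  rcases hS with hS | hS
  · exact H _ 3 0 (by norm_num) ⟨h, hh, hh3⟩ ⟨z, hz, by rw [hz0]; simp⟩ hS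
  · refine hN Δ w _ (H _ 0 (-3) (by norm_num) ⟨z, hz, by rw [hz0]; simp⟩ ⟨h, hh, ?_⟩ hS)
    show -(dgr K M h : ℤ) ≤ -3
    linarith

end Pool.Agent.SGV
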