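import Pool.Agent.SGV.Defs
import Mathlib

set_option autoImplicit false

/-! MP_fff3e1_lc, idea row 3525: the zero lemma `tZER` (idea row 3446), second copy. -/

namespace Pool.Agent.SGV.ZB

open Pool.Agent.SGV

section Game

variable {α : Type}

/-- `σ` exchanges some pairs of `τ` -/
def Mw (τ σ : α → α) : Prop := (∀ k, σ (σ k) = k) ∧ ∀ k, σ k = k ∨ σ k = τ k

/-- a pair which can be frozen -/
def Fz (a b : ℕ) : Prop := a + 2 ≤ b ∨ b + 2 ≤ a ∨ a = b

/-- a deadly pair -/
def Dd (a b : ℕ) : Prop := a + 3 ≤ b ∨ b + 3 ≤ a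

/-- the degree game -/
def DG (T : (α → ℕ) → Prop) : List (α → α) → (α → ℕ) → Prop
  | [], d => T d
  | τ :: w, d =>
    (∃ p, d p + 3 ≤ d (τ p)) ∨
    (∃ p q, q ≠ p ∧ q ≠ τ p ∧ τ p ≠ p ∧ τ q ≠ q ∧
      ∀ σ, Mw τ σ → (σ p = p ↔ σ q = q) → DG T w (d ∘ σ)) ∨
    (∃ p q, q ≠ p ∧ q ≠ τ p ∧ ∀ σ, Mw τ σ → (σ p = p ∨ σ q = q) → DG T w (d ∘ σ)) ∨
    (∃ p, Fz (d p) (d (τ p)) ∧ ∀ σ, Mw τ σ → σ p = p → DG T w (d ∘ σ)) ∨
    (∀ σ, Mw τ σ → DG T w (d ∘ σ))

/-- the reachable degree functions -/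
def Rc : List (α → α) → (α → ℕ) → (α → ℕ) → Prop
  | [], d, d' => d' = d
  | τ :: w, d, d' => ∃ σ, Mw τ σ ∧ Rc w (d ∘ σ) d'

theorem dg_mono {T T' : (α → ℕ) → Prop} (h : ∀ d, T d → T' d) :
    ∀ (w : List (α → α)) (d : α → ℕ), DG T w d → DG T' w d := by
  intro w
  induction w with
  | nil => intro d hd; exact h d hd
  | cons τ w ih =>
    intro d hd
    rcases hd with hd | ⟨p, q, h1, h2, h3, h4, h5⟩ | ⟨p, q, h1, h2, h5⟩ | ⟨p, h1, h5⟩ | h5
    · exact Or.inl hd
    · exact Or.inr (Or.inl ⟨p, q, h1, h2, h3, h4, fun σ a b => ih _ (h5 σ a b)⟩)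
    · exact Or.inr (Or.inr (Or.inl ⟨p, q, h1, h2, fun σ a b => ih _ (h5 σ a b)⟩))
    · exact Or.inr (Or.inr (Or.inr (Or.inl ⟨p, h1, fun σ a b => ih _ (h5 σ a b)⟩)))
    · exact Or.inr (Or.inr (Or.inr (Or.inr fun σ a => ih _ (h5 σ a))))

theorem dg_app {T : (α → ℕ) → Prop} (w : List (α → α)) :
    ∀ (u : List (α → α)) (d : α → ℕ), DG (fun d' => DG T w d') u d → DG T (u ++ w) d := by
  intro u
  induction u with
  | nil => intro d hd; exact hd
  | cons τ u ih =>
    intro d hd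
    rcases hd with hd | ⟨p, q, h1, h2, h3, h4, h5⟩ | ⟨p, q, h1, h2, h5⟩ | ⟨p, h1, h5⟩ | h5
    · exact Or.inl hd
    · exact Or.inr (Or.inl ⟨p, q, h1, h2, h3, h4, fun σ a b => ih _ (h5 σ a b)⟩)
    · exact Or.inr (Or.inr (Or.inl ⟨p, q, h1, h2, fun σ a b => ih _ (h5 σ a b)⟩))
    · exact Or.inr (Or.inr (Or.inr (Or.inl ⟨p, h1, fun σ a b => ih _ (h5 σ a b)⟩)))
    · exact Or.inr (Or.inr (Or.inr (Or.inr fun σ a => ih _ (h5 σ a))))

/-- every play stays among the reachable functions -/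
theorem dg_rc {T : (α → ℕ) → Prop} :
    ∀ (w : List (α → α)) (d : α → ℕ), DG T w d → DG (fun d' => T d' ∧ Rc w d d') w d := by
  intro w
  induction w with
  | nil => intro d hd; exact ⟨hd, rfl⟩
  | cons τ w ih =>
    intro d hd
    have key : ∀ σ, Mw τ σ → DG T w (d ∘ σ) →
        DG (fun d' => T d' ∧ Rc (τ :: w) d d') w (d ∘ σ) := fun σ a b =>
      dg_mono (fun d' h => ⟨h.1, σ, a, h.2⟩) w _ (ih _ b)
    rcases hd with hd | ⟨p, q, h1, h2, h3, h4, h5⟩ | ⟨p, q, h1, h2, h5⟩ | ⟨p, h1, h5⟩ | h5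
    · exact Or.inl hd
    · exact Or.inr (Or.inl ⟨p, q, h1, h2, h3, h4, fun σ a b => key σ a (h5 σ a b)⟩)
    · exact Or.inr (Or.inr (Or.inl ⟨p, q, h1, h2, fun σ a b => key σ a (h5 σ a b)⟩))
    · exact Or.inr (Or.inr (Or.inr (Or.inl ⟨p, h1, fun σ a b => key σ a (h5 σ a b)⟩)))
    · exact Or.inr (Or.inr (Or.inr (Or.inr fun σ a => key σ a (h5 σ a))))

/-- balanced play without ties -/
theorem dg_bal : ∀ (w : List (α → α)) (d : α → ℕ), DG (fun _ => True) w d := by
  intro w
  induction w with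
  | nil => intro d; trivial
  | cons τ w ih => intro d; exact Or.inr (Or.inr (Or.inr (Or.inr fun σ _ => ih _)))

theorem rc_perm : ∀ (w : List (α → α)) (d d' : α → ℕ), Rc w d d' →
    ∃ π : α → α, Function.Bijective π ∧ d' = d ∘ π ∧
      ∀ k, (∀ τ ∈ w, τ k = k) → π k = k := by
  intro w
  induction w with
  | nil => intro d d' h; exact ⟨id, Function.bijective_id, h, fun _ _ => rfl⟩
  | cons τ w ih =>
    intro d d' h
    obtain ⟨σ, hσ, h⟩ := h
    obtain ⟨π, hπ, hd, hf⟩ := ih _ _ h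
    have hσb : Function.Bijective σ := (show Function.Involutive σ from hσ.1).bijective
    refine ⟨σ ∘ π, hσb.comp hπ, hd, fun k hk => ?_⟩
    have h1 : π k = k := hf k fun τ' h' => hk τ' (List.mem_cons_of_mem _ h')
    have h2 : τ k = k := hk τ List.mem_cons_self
    rcases hσ.2 k with h3 | h3
    · simp [h1, h3]
    · simp [h1, h3, h2]

/-- the combination: a play which leads to `T`, with the permutation -/
theorem dg_full {T : (α → ℕ) → Prop} (w : List (α → α)) (d : α → ℕ) (h : DG T w d) :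
    DG (fun d' => T d' ∧ ∃ π : α → α, Function.Bijective π ∧ d' = d ∘ π ∧
      ∀ k, (∀ τ ∈ w, τ k = k) → π k = k) w d :=
  dg_mono (fun d' h => ⟨h.1, rc_perm w d d' h.2⟩) w d (dg_rc w d h)

theorem dd_ne {a b : ℕ} (h : Dd a b) : a ≠ b := by
  rcases h with h | h <;> omega

theorem dd_dead {T : (α → ℕ) → Prop} {τ : α → α} (hτ : ∀ k, τ (τ k) = k) (w : List (α → α))
    (d : α → ℕ) (p : α) (h : Dd (d p) (d (τ p))) : DG T (τ :: w) d := by
  rcases h with h | h
  · exact Or.inl ⟨p, h⟩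
  · refine Or.inl ⟨τ p, ?_⟩
    rw [hτ]; exact h

end Game

section Pass

variable {α : Type} [DecidableEq α]

/-- the pass over a set with `2 ^ k` elements -/
theorem pass_ex (P : Finset α) (k : ℕ) (hP : P.card = 2 ^ k) :
    ∃ w : List (α → α), (∀ τ ∈ w, ∀ x, τ (τ x) = x) ∧ (∀ τ ∈ w, ∀ x, x ∉ P → τ x = x) ∧
      ∀ (T : (α → ℕ) → Prop) (d : α → ℕ), (∃ p ∈ P, ∃ q ∈ P, Dd (d p) (d q)) →
        DG T w d := by
  classical
  have hcard : Fintype.card (Fin k → ZMod 2) = Fintype.card P := by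
    rw [Fintype.card_coe, hP]
    simp [ZMod.card]
  let e : (Fin k → ZMod 2) ≃ P := Fintype.equivOfCardEq hcard
  have h22 : ∀ g u : Fin k → ZMod 2, u + g + g = u := by
    intro g u
    funext i
    have : ∀ a b : ZMod 2, a + b + b = a := by decide
    exact this _ _
  let τ : (Fin k → ZMod 2) → α → α := fun g x =>
    if h : x ∈ P then (e (e.symm ⟨x, h⟩ + g) : α) else x
  have hτe : ∀ g u, τ g (e u : α) = e (u + g) := by
    intro g u
    have h : (e u : α) ∈ P := (e u).2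
    simp only [τ, h, dif_pos]
    simp
  have hτo : ∀ g x, x ∉ P → τ g x = x := by
    intro g x hx
    simp only [τ, hx, dif_neg, not_false_iff]
  have hτi : ∀ g x, τ g (τ g x) = x := by
    intro g x
    by_cases hx : x ∈ P
    · obtain ⟨u, hu⟩ := e.surjective ⟨x, hx⟩
      have hx' : x = (e u : α) := by rw [hu]
      rw [hx', hτe, hτe, h22]
    · rw [hτo g x hx, hτo g x hx]
  refine ⟨(Finset.univ : Finset (Fin k → ZMod 2)).toList.map τ, ?_, ?_, ?_⟩
  · intro t ht x
    obtain ⟨g, _, rfl⟩ := List.mem_map.1 ht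
    exact hτi g x
  · intro t ht x hx
    obtain ⟨g, _, rfl⟩ := List.mem_map.1 ht
    exact hτo g x hx
  · intro T d hd
    obtain ⟨p, hp, q, hq, hpq⟩ := hd
    obtain ⟨u, hu⟩ := e.surjective ⟨p, hp⟩
    obtain ⟨v, hv⟩ := e.surjective ⟨q, hq⟩
    have hp' : p = (e u : α) := by rw [hu]
    have hq' : q = (e v : α) := by rw [hv]
    rw [hp', hq'] at hpq
    have key : ∀ (L : List (Fin k → ZMod 2)) (d : α → ℕ) (u v : Fin k → ZMod 2),
        u + v ∈ L → Dd (d (e u)) (d (e v)) → DG T (L.map τ) d := by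
      intro L
      induction L with
      | nil => intro d u v h; simp at h
      | cons g L ih =>
        intro d u v hL hD
        have huv : u ≠ v := by rintro rfl; exact dd_ne hD rfl
        by_cases hg : g = u + v
        · refine dd_dead (hτi g) _ d (e u) ?_
          rw [hτe, hg, ← add_assoc, add_comm (u + u) v, ← add_assoc, h22]
          exact hD
        · have hL' : u + v ∈ L := by
            rcases List.mem_cons.1 hL with h | h
            · exact absurd h.symm hg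
            · exact h
          by_cases hg0 : g = 0
          · refine Or.inr (Or.inr (Or.inr (Or.inr fun σ hσ => ?_)))
            have hid : ∀ x, σ x = x := by
              intro x
              rcases hσ.2 x with h | h
              · exact h
              · rw [h]
                by_cases hx : x ∈ P
                · obtain ⟨y, hy⟩ := e.surjective ⟨x, hx⟩
                  have hx' : x = (e y : α) := by rw [hy]
                  rw [hx', hτe, hg0, add_zero]
                · exact hτo g x hx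
            refine ih (d ∘ σ) u v hL' ?_
            simp only [Function.comp, hid]
            exact hD
          · have h1 : (e v : α) ≠ e u := fun h => huv (e.injective (Subtype.ext h)).symm
            have h2 : (e v : α) ≠ τ g (e u) := by
              rw [hτe]
              intro h
              have := e.injective (Subtype.ext h)
              apply hg
              rw [this]
              calc g = g + u + u := (h22 u g).symm
                _ = u + (u + g) := by abel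
            have h3 : ∀ y : Fin k → ZMod 2, τ g (e y : α) ≠ e y := by
              intro y h
              rw [hτe] at h
              have := e.injective (Subtype.ext h)
              exact hg0 (by simpa using this)
            refine Or.inr (Or.inl ⟨e u, e v, h1, h2, h3 u, h3 v, fun σ hσ hs => ?_⟩)
            have hmv : ∀ y : Fin k → ZMod 2, σ (e y) ≠ e y → σ (e (y + g)) = (e y : α) := by
              intro y hy
              have h5 : σ (e y : α) = e (y + g) := by
                rcases hσ.2 (e y) with h | h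
                · exact absurd h hy
                · rw [h, hτe]
              rw [← h5, hσ.1]
            by_cases hs1 : σ (e u : α) = e u
            · have hs2 := hs.1 hs1
              refine ih (d ∘ σ) u v hL' ?_
              simp only [Function.comp, hs1, hs2]
              exact hD
            · have hs2 : σ (e v : α) ≠ e v := fun h => hs1 (hs.2 h)
              refine ih (d ∘ σ) (u + g) (v + g) ?_ ?_
              · have : u + g + (v + g) = u + v := by
                  rw [← add_assoc, add_right_comm u g v, h22]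
                rw [this]; exact hL'
              · simp only [Function.comp, hmv u hs1, hmv v hs2]
                exact hD
    exact key _ d u v (by simp) hpq

end Pass


section Cross

variable {α : Type} [DecidableEq α]

/-- two members of the class `A`, or every member can be frozen -/
def Iv (A : ℕ → Prop) (d : α → ℕ) : Prop :=
  (∃ k l, k ≠ l ∧ A (d k) ∧ A (d l)) ∨ ∀ k l, A (d k) → Fz (d k) (d l)

omit [DecidableEq α] in
theorem iv_perm (A : ℕ → Prop) (d : α → ℕ) (π : α → α) (hπ : Function.Bijective π)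
    (h : Iv A d) : Iv A (d ∘ π) := by
  rcases h with ⟨k, l, hkl, hk, hl⟩ | h
  · obtain ⟨k', rfl⟩ := hπ.2 k
    obtain ⟨l', rfl⟩ := hπ.2 l
    exact Or.inl ⟨k', l', fun h => hkl (by rw [h]), hk, hl⟩
  · exact Or.inr fun k l hk => h (π k) (π l) hk

/-- the cross matchings between two disjoint sets with the same number of elements -/
theorem cross_ex (X Y : Finset α) (x : ℕ) (hx : 0 < x) (hX : X.card = x) (hY : Y.card = x)
    (hXY : Disjoint X Y) :
    ∃ w : List (α → α), (∀ τ ∈ w, ∀ k, τ (τ k) = k) ∧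
      (∀ τ ∈ w, ∀ k, k ∉ X → k ∉ Y → τ k = k) ∧
      (∀ d : α → ℕ, (∃ p ∈ X, ∃ q ∈ Y, Dd (d p) (d q)) →
        DG (fun d' => (∃ p ∈ X, ∃ q ∈ X, Dd (d' p) (d' q)) ∨
          ∃ p ∈ Y, ∃ q ∈ Y, Dd (d' p) (d' q)) w d) ∧
      ∀ (A : ℕ → Prop) (d : α → ℕ), Iv A d → (∃ a, a ∉ Y ∧ A (d a)) →
        DG (fun d' => ∃ a, a ∉ Y ∧ A (d' a)) w d := by
  classical
  have : NeZero x := ⟨hx.ne'⟩
  have hc1 : Fintype.card (ZMod x) = Fintype.card X := by
    rw [Fintype.card_coe, hX, ZMod.card]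
  have hc2 : Fintype.card (ZMod x) = Fintype.card Y := by
    rw [Fintype.card_coe, hY, ZMod.card]
  let a : ZMod x ≃ X := Fintype.equivOfCardEq hc1
  let b : ZMod x ≃ Y := Fintype.equivOfCardEq hc2
  have hd : ∀ k, k ∈ X → k ∉ Y := fun k h1 h2 => (Finset.disjoint_left.1 hXY) h1 h2
  have haX : ∀ g, (a g : α) ∈ X := fun g => (a g).2
  have hbY : ∀ g, (b g : α) ∈ Y := fun g => (b g).2
  have haY : ∀ g, (a g : α) ∉ Y := fun g => hd _ (haX g)
  have hbX : ∀ g, (b g : α) ∉ X := fun g h => hd _ h (hbY g)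
  have hsa : ∀ k, k ∈ X → ∃ g, k = (a g : α) := by
    intro k hk
    obtain ⟨g, hg⟩ := a.surjective ⟨k, hk⟩
    exact ⟨g, by rw [hg]⟩
  have hsb : ∀ k, k ∈ Y → ∃ g, k = (b g : α) := by
    intro k hk
    obtain ⟨g, hg⟩ := b.surjective ⟨k, hk⟩
    exact ⟨g, by rw [hg]⟩
  have hia : ∀ g h, (a g : α) = a h → g = h := fun g h e => a.injective (Subtype.ext e)
  have hib : ∀ g h, (b g : α) = b h → g = h := fun g h e => b.injective (Subtype.ext e)
  let τ : ZMod x → α → α := fun r k =>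
    if h : k ∈ X then (b (a.symm ⟨k, h⟩ + r) : α)
    else if h : k ∈ Y then (a (b.symm ⟨k, h⟩ - r) : α) else k
  have hτa : ∀ r g, τ r (a g : α) = b (g + r) := by
    intro r g
    simp only [τ, haX, dif_pos]
    simp
  have hτb : ∀ r g, τ r (b g : α) = a (g - r) := by
    intro r g
    simp only [τ, hbX, hbY, dif_pos, dif_neg, not_false_iff]
    simp
  have hτo : ∀ r k, k ∉ X → k ∉ Y → τ r k = k := by
    intro r k h1 h2
    simp only [τ, h1, h2, dif_neg, not_false_iff]
  have hτi : ∀ r k, τ r (τ r k) = k := by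
    intro r k
    by_cases h1 : k ∈ X
    · obtain ⟨g, rfl⟩ := hsa k h1
      rw [hτa, hτb, add_sub_cancel_right]
    · by_cases h2 : k ∈ Y
      · obtain ⟨g, rfl⟩ := hsb k h2
        rw [hτb, hτa, sub_add_cancel]
      · rw [hτo r k h1 h2, hτo r k h1 h2]
  -- how a tied position moves
  have hmv : ∀ r σ, Mw (τ r) σ → ∀ k, σ k ≠ k → σ (τ r k) = k := by
    intro r σ hσ k hk
    have h5 : σ k = τ r k := by
      rcases hσ.2 k with h | h
      · exact absurd h hk
      · exact h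
    rw [← h5, hσ.1]
  have hXt : ∀ r k, k ∈ X → τ r k ∈ Y := by
    intro r k hk
    obtain ⟨g, rfl⟩ := hsa k hk
    rw [hτa]; exact hbY _
  have hYt : ∀ r k, k ∈ Y → τ r k ∈ X := by
    intro r k hk
    obtain ⟨g, rfl⟩ := hsb k hk
    rw [hτb]; exact haX _
  refine ⟨(Finset.univ : Finset (ZMod x)).toList.map τ, ?_, ?_, ?_, ?_⟩
  · intro t ht k
    obtain ⟨g, _, rfl⟩ := List.mem_map.1 ht
    exact hτi g k
  · intro t ht k h1 h2
    obtain ⟨g, _, rfl⟩ := List.mem_map.1 ht
    exact hτo g k h1 h2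
  · -- the pair dies or comes to the same side
    have key : ∀ (L : List (ZMod x)) (d : α → ℕ),
        ((∃ p ∈ X, ∃ q ∈ X, Dd (d p) (d q)) ∨ (∃ p ∈ Y, ∃ q ∈ Y, Dd (d p) (d q)) ∨
          ∃ g h, h - g ∈ L ∧ Dd (d (a g)) (d (b h))) →
        DG (fun d' => (∃ p ∈ X, ∃ q ∈ X, Dd (d' p) (d' q)) ∨
          ∃ p ∈ Y, ∃ q ∈ Y, Dd (d' p) (d' q)) (L.map τ) d := by
      intro L
      induction L with
      | nil =>
        intro d h
        rcases h with h | h | ⟨g, h, hm, _⟩
        · exact Or.inl h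
        · exact Or.inr h
        · simp at hm
      | cons r L ih =>
        intro d h
        rcases h with ⟨p, hp, q, hq, hD⟩ | ⟨p, hp, q, hq, hD⟩ | ⟨g, h, hm, hD⟩
        · have hpq : q ≠ p := by rintro rfl; exact dd_ne hD rfl
          refine Or.inr (Or.inl ⟨p, q, hpq, ?_, ?_, ?_, fun σ hσ hs => ?_⟩)
          · intro h; exact hd q hq (h ▸ hXt r p hp)
          · intro h; exact hd p hp (by rw [← h]; exact hXt r p hp)
          · intro h; exact hd q hq (by rw [← h]; exact hXt r q hq)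
          · by_cases h1 : σ p = p
            · refine ih _ (Or.inl ⟨p, hp, q, hq, ?_⟩)
              simp only [Function.comp, h1, hs.1 h1]; exact hD
            · have h2 : σ q ≠ q := fun h => h1 (hs.2 h)
              refine ih _ (Or.inr (Or.inl ⟨τ r p, hXt r p hp, τ r q, hXt r q hq, ?_⟩))
              simp only [Function.comp, hmv r σ hσ p h1, hmv r σ hσ q h2]; exact hD
        · have hpq : q ≠ p := by rintro rfl; exact dd_ne hD rfl
          refine Or.inr (Or.inl ⟨p, q, hpq, ?_, ?_, ?_, fun σ hσ hs => ?_⟩)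
          · intro h; exact hd q (h ▸ hYt r p hp) hq
          · intro h; exact hd p (by rw [← h]; exact hYt r p hp) hp
          · intro h; exact hd q (by rw [← h]; exact hYt r q hq) hq
          · by_cases h1 : σ p = p
            · refine ih _ (Or.inr (Or.inl ⟨p, hp, q, hq, ?_⟩))
              simp only [Function.comp, h1, hs.1 h1]; exact hD
            · have h2 : σ q ≠ q := fun h => h1 (hs.2 h)
              refine ih _ (Or.inl ⟨τ r p, hYt r p hp, τ r q, hYt r q hq, ?_⟩)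
              simp only [Function.comp, hmv r σ hσ p h1, hmv r σ hσ q h2]; exact hD
        · by_cases hr : h - g = r
          · refine dd_dead (hτi r) _ d (a g) ?_
            rw [hτa, ← hr, add_sub_cancel]; exact hD
          · have hm' : h - g ∈ L := by
              rcases List.mem_cons.1 hm with h' | h'
              · exact absurd h' hr
              · exact h'
            refine Or.inr (Or.inr (Or.inl ⟨a g, b h, ?_, ?_, fun σ hσ hs => ?_⟩))
            · intro e; exact hbX h (e ▸ haX g)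
            · rw [hτa]
              intro e
              exact hr (by rw [hib _ _ e]; ring)
            · by_cases h1 : σ (a g : α) = a g
              · by_cases h2 : σ (b h : α) = b h
                · refine ih _ (Or.inr (Or.inr ⟨g, h, hm', ?_⟩))
                  simp only [Function.comp, h1, h2]; exact hD
                · refine ih _ (Or.inl ⟨a g, haX g, τ r (b h), hYt r _ (hbY h), ?_⟩)
                  simp only [Function.comp, h1, hmv r σ hσ _ h2]; exact hD
              · have h2 : σ (b h : α) = b h := by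
                  rcases hs with hs | hs
                  · exact absurd hs h1
                  · exact hs
                refine ih _ (Or.inr (Or.inl ⟨τ r (a g), hXt r _ (haX g), b h, hbY h, ?_⟩))
                simp only [Function.comp, h2, hmv r σ hσ _ h1]; exact hD
    intro d h
    obtain ⟨p, hp, q, hq, hD⟩ := h
    obtain ⟨g, rfl⟩ := hsa p hp
    obtain ⟨h, rfl⟩ := hsb q hq
    exact key _ d (Or.inr (Or.inr ⟨g, h, by simp, hD⟩))
  · intro A
    have key : ∀ (L : List (ZMod x)) (d : α → ℕ), Iv A d → (∃ a, a ∉ Y ∧ A (d a)) →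
        DG (fun d' => ∃ a, a ∉ Y ∧ A (d' a)) (L.map τ) d := by
      intro L
      induction L with
      | nil => intro d _ h; exact h
      | cons r L ih =>
        intro d hI h
        obtain ⟨p, hp, hpA⟩ := h
        have hIσ : ∀ σ, Mw (τ r) σ → Iv A (d ∘ σ) := fun σ hσ =>
          iv_perm A d σ (show Function.Involutive σ from hσ.1).bijective hI
        -- a member outside
        have hout : ∀ q, q ∉ X → q ∉ Y → A (d q) →
            DG (fun d' => ∃ a, a ∉ Y ∧ A (d' a)) (τ r :: L.map τ) d := by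
          intro q h1 h2 h3
          refine Or.inr (Or.inr (Or.inr (Or.inr fun σ hσ => ih _ (hIσ σ hσ) ⟨q, h2, ?_⟩)))
          have : σ q = q := by
            rcases hσ.2 q with h | h
            · exact h
            · rw [h, hτo r q h1 h2]
          simp only [Function.comp, this]; exact h3
        by_cases hpX : p ∈ X
        swap
        · exact hout p hpX hp hpA
        rcases hI with ⟨k, l, hkl, hk, hl⟩ | hF
        · obtain ⟨q, hqp, hqA⟩ : ∃ q, q ≠ p ∧ A (d q) := by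
            by_cases hkp : k = p
            · exact ⟨l, fun h => hkl (by rw [hkp, h]), hl⟩
            · exact ⟨k, hkp, hk⟩
          by_cases hqX : q ∈ X
          · refine Or.inr (Or.inr (Or.inl ⟨p, q, hqp, ?_, fun σ hσ hs => ?_⟩))
            · intro h; exact hd q hqX (h ▸ hXt r p hpX)
            · rcases hs with hs | hs
              · refine ih _ (hIσ σ hσ) ⟨p, hp, ?_⟩
                simp only [Function.comp, hs]; exact hpA
              · refine ih _ (hIσ σ hσ) ⟨q, hd q hqX, ?_⟩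
                simp only [Function.comp, hs]; exact hqA
          · by_cases hqY : q ∈ Y
            · by_cases hqt : q = τ r p
              · refine Or.inr (Or.inr (Or.inr (Or.inr fun σ hσ =>
                  ih _ (hIσ σ hσ) ⟨p, hp, ?_⟩)))
                rcases hσ.2 p with h | h
                · simp only [Function.comp, h]; exact hpA
                · simp only [Function.comp, h, ← hqt]; exact hqA
              · refine Or.inr (Or.inl ⟨p, q, hqp, hqt, ?_, ?_, fun σ hσ hs => ?_⟩)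
                · intro h; exact hp (by rw [← h]; exact hXt r p hpX)
                · intro h; exact hqX (by rw [← h]; exact hYt r q hqY)
                · by_cases h1 : σ p = p
                  · refine ih _ (hIσ σ hσ) ⟨p, hp, ?_⟩
                    simp only [Function.comp, h1]; exact hpA
                  · have h2 : σ q ≠ q := fun h => h1 (hs.2 h)
                    refine ih _ (hIσ σ hσ) ⟨τ r q, hd _ (hYt r q hqY), ?_⟩
                    simp only [Function.comp, hmv r σ hσ q h2]; exact hqA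
            · exact hout q hqX hqY hqA
        · refine Or.inr (Or.inr (Or.inr (Or.inl ⟨p, hF p _ hpA, fun σ hσ hs => ?_⟩)))
          refine ih _ (hIσ σ hσ) ⟨p, hp, ?_⟩
          simp only [Function.comp, hs]; exact hpA
    intro d hI h
    exact key _ d hI h

end Cross

section Main

theorem dd_symm {a b : ℕ} (h : Dd a b) : Dd b a := h.symm

/-- the word `pass(P) K K` -/
theorem word_ex (α : Type) [DecidableEq α] [Fintype α] :
    ∃ w : List (α → α), (∀ τ ∈ w, ∀ k, τ (τ k) = k) ∧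
      ∀ A B : ℕ → Prop, (∀ a b, A a → B b → Dd a b) → ∀ d : α → ℕ,
        (∃ k, A (d k)) → (∃ k, B (d k)) → Iv A d → DG (fun _ => False) w d := by
  classical
  by_cases h0 : Fintype.card α = 0
  · refine ⟨[], by simp, fun A B _ d hA _ _ => ?_⟩
    obtain ⟨k, _⟩ := hA
    exact absurd (Fintype.card_pos_iff.2 ⟨k⟩) (by omega)
  obtain ⟨k, hk1, hk2⟩ : ∃ k, 2 ^ k ≤ Fintype.card α ∧ Fintype.card α < 2 ^ (k + 1) :=
    ⟨Nat.log 2 (Fintype.card α), Nat.pow_log_le_self 2 h0,
      Nat.lt_pow_succ_log_self (by norm_num) _⟩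
  by_cases hx : Fintype.card α = 2 ^ k
  · obtain ⟨w, h1, _, h3⟩ := pass_ex (Finset.univ : Finset α) k (by rw [Finset.card_univ, hx])
    refine ⟨w, h1, fun A B hAB d hA hB _ => ?_⟩
    obtain ⟨p, hp⟩ := hA
    obtain ⟨q, hq⟩ := hB
    exact h3 _ d ⟨p, Finset.mem_univ _, q, Finset.mem_univ _, hAB _ _ hp hq⟩
  obtain ⟨x, hx'⟩ : ∃ x, Fintype.card α = 2 ^ k + x := ⟨Fintype.card α - 2 ^ k, by omega⟩
  have hx0 : 0 < x := by omega
  have hx2 : x < 2 ^ k := by rw [pow_succ] at hk2; omega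
  obtain ⟨X, -, hX⟩ := Finset.exists_subset_card_eq
    (s := (Finset.univ : Finset α)) (n := x) (by rw [Finset.card_univ]; omega)
  have hXc : Xᶜ.card = 2 ^ k := by rw [Finset.card_compl, hX]; omega
  obtain ⟨Y, hYX, hY⟩ := Finset.exists_subset_card_eq (s := Xᶜ) (n := x) (by omega)
  have hYc : Yᶜ.card = 2 ^ k := by rw [Finset.card_compl, hY]; omega
  have hXY : Disjoint X Y := by
    rw [Finset.disjoint_left]
    intro a ha hb
    exact (Finset.mem_compl.1 (hYX hb)) ha
  have hd : ∀ k, k ∈ X → k ∉ Y := fun k h1 h2 => (Finset.disjoint_left.1 hXY) h1 h2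
  obtain ⟨w1, i1, f1, g1⟩ := pass_ex Xᶜ k hXc
  obtain ⟨w2, i2, f2, g2⟩ := pass_ex Yᶜ k hYc
  obtain ⟨w3, i3, f3, g3, e3⟩ := cross_ex X Y x hx0 hX hY hXY
  refine ⟨w1 ++ ((w3 ++ (w2 ++ w1)) ++ (w3 ++ (w2 ++ w1))), ?_, ?_⟩
  · intro τ hτ
    simp only [List.mem_append] at hτ
    rcases hτ with h | (h | h | h) | (h | h | h)
    · exact i1 τ h
    · exact i3 τ h
    · exact i2 τ h
    · exact i1 τ h
    · exact i3 τ h
    · exact i2 τ h
    · exact i1 τ h
  intro A B hAB d0 hA0 hB0 hI0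
  -- same side
  have hTS : ∀ (T : (α → ℕ) → Prop) (d : α → ℕ), ((∃ p ∈ X, ∃ q ∈ X, Dd (d p) (d q)) ∨
      ∃ p ∈ Y, ∃ q ∈ Y, Dd (d p) (d q)) → DG T (w2 ++ w1) d := by
    intro T d h
    rcases h with ⟨p, hp, q, hq, hD⟩ | ⟨p, hp, q, hq, hD⟩
    · exact dg_app w1 w2 d (g2 _ d ⟨p, Finset.mem_compl.2 (hd p hp), q,
        Finset.mem_compl.2 (hd q hq), hD⟩)
    · refine dg_app w1 w2 d (dg_mono ?_ w2 d (dg_full w2 d (dg_bal w2 d)))
      rintro d' ⟨-, π, -, rfl, hπ⟩
      have hpf : ∀ y ∈ Y, π y = y := fun y hy => hπ y fun τ hτ =>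
        f2 τ hτ y (by rw [Finset.mem_compl, not_not]; exact hy)
      refine g1 _ _ ⟨p, hYX hp, q, hYX hq, ?_⟩
      simp only [Function.comp, hpf p hp, hpf q hq]; exact hD
  have hcr : ∀ (T : (α → ℕ) → Prop) (d : α → ℕ), (∃ p ∈ X, ∃ q ∈ Y, Dd (d p) (d q)) →
      DG T (w3 ++ (w2 ++ w1)) d := fun T d h =>
    dg_app (w2 ++ w1) w3 d (dg_mono (fun d' h' => hTS T d' h') w3 d (g3 d h))
  have f1' : ∀ π : α → α, (∀ k, (∀ τ ∈ w1, τ k = k) → π k = k) → ∀ y ∈ X, π y = y :=
    fun π hπ y hy => hπ y fun τ hτ => f1 τ hτ y (by rw [Finset.mem_compl, not_not]; exact hy)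
  have f2' : ∀ π : α → α, (∀ k, (∀ τ ∈ w2, τ k = k) → π k = k) → ∀ y ∈ Y, π y = y :=
    fun π hπ y hy => hπ y fun τ hτ => f2 τ hτ y (by rw [Finset.mem_compl, not_not]; exact hy)
  let S0 : (α → ℕ) → Prop := fun d => (∃ k, A (d k)) ∧ (∃ k, B (d k)) ∧ Iv A d
  have hS0 : ∀ (d : α → ℕ) (π : α → α), Function.Bijective π → S0 d → S0 (d ∘ π) := by
    rintro d π hπ ⟨⟨a, ha⟩, ⟨b, hb⟩, hI⟩
    obtain ⟨a', rfl⟩ := hπ.2 a
    obtain ⟨b', rfl⟩ := hπ.2 b
    exact ⟨⟨a', ha⟩, ⟨b', hb⟩, iv_perm A d π hπ hI⟩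
  let C1 : (α → ℕ) → Prop := fun d => S0 d ∧ (∀ k, A (d k) → k ∈ X) ∧ ∃ b, b ∉ X ∧ B (d b)
  let C2 : (α → ℕ) → Prop := fun d => S0 d ∧ ∀ k, B (d k) → k ∈ X
  -- a set of positions inside a fixed set stays there
  have hstay : ∀ (C : ℕ → Prop) (Z : Finset α) (d : α → ℕ) (π : α → α),
      Function.Bijective π → (∀ y ∈ Z, π y = y) → (∀ k, C (d k) → k ∈ Z) →
      ∀ k, C ((d ∘ π) k) → k ∈ Z := by
    intro C Z d π hπ hf h k hk
    have h1 : π k ∈ Z := h _ hk
    have h2 : π k = k := hπ.1 (hf _ h1)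
    rw [← h2]; exact h1
  have hex : ∀ (C : ℕ → Prop) (Z : Finset α) (d : α → ℕ) (π : α → α),
      Function.Bijective π → (∀ y ∈ Z, π y = y) → (∃ k, k ∉ Z ∧ C (d k)) →
      ∃ k, k ∉ Z ∧ C ((d ∘ π) k) := by
    rintro C Z d π hπ hf ⟨k, hk, hC⟩
    obtain ⟨l, rfl⟩ := hπ.2 k
    exact ⟨l, fun h => hk (by rw [hf l h]; exact h), hC⟩
  have hC1 : ∀ (T : (α → ℕ) → Prop) (d : α → ℕ), C1 d → DG T (w3 ++ (w2 ++ w1)) d := by
    rintro T d ⟨⟨⟨a, ha⟩, -, hI⟩, hAX, b, hbX, hb⟩
    by_cases hbY : b ∈ Y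
    · exact hcr T d ⟨a, hAX a ha, b, hbY, hAB _ _ ha hb⟩
    · refine dg_app (w2 ++ w1) w3 d (dg_mono ?_ w3 d
        (dg_full w3 d (e3 A d hI ⟨a, hd a (hAX a ha), ha⟩)))
      rintro d' ⟨⟨a', ha', hA'⟩, π, -, rfl, hπ⟩
      have hb' : π b = b := hπ b fun τ hτ => f3 τ hτ b hbX hbY
      refine dg_app w1 w2 _ (g2 _ _ ⟨a', Finset.mem_compl.2 ha', b, Finset.mem_compl.2 hbY, ?_⟩)
      have : B ((d ∘ π) b) := by simp only [Function.comp, hb']; exact hb
      exact hAB _ _ hA' this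
  have hC2 : ∀ d : α → ℕ, C2 d → DG C1 (w3 ++ (w2 ++ w1)) d := by
    rintro d ⟨hS, hBX⟩
    obtain ⟨⟨a, ha⟩, ⟨b, hb⟩, hI⟩ := hS
    by_cases hAY : ∀ k, A (d k) → k ∈ Y
    · exact hcr _ d ⟨b, hBX b hb, a, hAY a ha, dd_symm (hAB _ _ ha hb)⟩
    · push Not at hAY
      obtain ⟨a1, ha1, ha1Y⟩ := hAY
      refine dg_app (w2 ++ w1) w3 d (dg_mono ?_ w3 d
        (dg_full w3 d (e3 A d hI ⟨a1, ha1Y, ha1⟩)))
      rintro d1 ⟨⟨a', ha', hA'⟩, π, hπ, rfl, -⟩
      have hS1 : S0 (d ∘ π) := hS0 d π hπ ⟨⟨a, ha⟩, ⟨b, hb⟩, hI⟩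
      generalize hd1 : d ∘ π = d1 at hA' hS1 ⊢
      by_cases hBY : ∃ b, b ∉ Y ∧ B (d1 b)
      · obtain ⟨b', hb', hB'⟩ := hBY
        exact dg_app w1 w2 _ (g2 _ _ ⟨a', Finset.mem_compl.2 ha', b',
          Finset.mem_compl.2 hb', hAB _ _ hA' hB'⟩)
      · have hBY' : ∀ k, B (d1 k) → k ∈ Y := fun k hk => by
          by_contra h; exact hBY ⟨k, h, hk⟩
        refine dg_app w1 w2 _ (dg_mono ?_ w2 _ (dg_full w2 _ (dg_bal w2 _)))
        rintro d2 ⟨-, π2, hπ2, rfl, hf2⟩
        have hS2 := hS0 d1 π2 hπ2 hS1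
        have hB2 := hstay B Y d1 π2 hπ2 (f2' π2 hf2) hBY'
        generalize hd2 : d1 ∘ π2 = d2 at hS2 hB2 ⊢
        obtain ⟨-, ⟨b2, hb2⟩, -⟩ := id hS2
        have hb2X : b2 ∉ X := Finset.mem_compl.1 (hYX (hB2 b2 hb2))
        by_cases hAX : ∃ a, a ∉ X ∧ A (d2 a)
        · obtain ⟨a2, ha2, hA2⟩ := hAX
          exact g1 _ _ ⟨a2, Finset.mem_compl.2 ha2, b2, Finset.mem_compl.2 hb2X,
            hAB _ _ hA2 hb2⟩
        · have hAX' : ∀ k, A (d2 k) → k ∈ X := fun k hk => by
            by_contra h; exact hAX ⟨k, h, hk⟩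
          refine dg_mono ?_ w1 _ (dg_full w1 _ (dg_bal w1 _))
          rintro d3 ⟨-, π3, hπ3, rfl, hf3⟩
          exact ⟨hS0 d2 π3 hπ3 hS2, hstay A X d2 π3 hπ3 (f1' π3 hf3) hAX',
            hex B X d2 π3 hπ3 (f1' π3 hf3) ⟨b2, hb2X, hb2⟩⟩
  have hst : DG (fun d' => C1 d' ∨ C2 d') w1 d0 := by
    by_cases hAX : ∃ a, a ∉ X ∧ A (d0 a)
    · by_cases hBX : ∃ b, b ∉ X ∧ B (d0 b)
      · obtain ⟨a, ha, hA⟩ := hAX
        obtain ⟨b, hb, hB⟩ := hBX
        exact g1 _ _ ⟨a, Finset.mem_compl.2 ha, b, Finset.mem_compl.2 hb, hAB _ _ hA hB⟩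
      · refine dg_mono ?_ w1 _ (dg_full w1 _ (dg_bal w1 _))
        rintro d3 ⟨-, π3, hπ3, rfl, hf3⟩
        exact Or.inr ⟨hS0 d0 π3 hπ3 ⟨hA0, hB0, hI0⟩, hstay B X d0 π3 hπ3 (f1' π3 hf3)
          fun k hk => by by_contra h; exact hBX ⟨k, h, hk⟩⟩
    · refine dg_mono ?_ w1 _ (dg_full w1 _ (dg_bal w1 _))
      rintro d3 ⟨-, π3, hπ3, rfl, hf3⟩
      have hA3 := hstay A X d0 π3 hπ3 (f1' π3 hf3)
        fun k hk => by by_contra h; exact hAX ⟨k, h, hk⟩
      by_cases hBX : ∃ b, b ∉ X ∧ B (d0 b)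
      · exact Or.inl ⟨hS0 d0 π3 hπ3 ⟨hA0, hB0, hI0⟩, hA3, hex B X d0 π3 hπ3 (f1' π3 hf3) hBX⟩
      · exact Or.inr ⟨hS0 d0 π3 hπ3 ⟨hA0, hB0, hI0⟩, hstay B X d0 π3 hπ3 (f1' π3 hf3)
          fun k hk => by by_contra h; exact hBX ⟨k, h, hk⟩⟩
  refine dg_app _ w1 d0 (dg_mono ?_ w1 d0 hst)
  intro d' h
  refine dg_app _ _ d' ?_
  rcases h with h | h
  · exact hC1 _ d' h
  · exact dg_mono (fun d'' h' => hC1 _ d'' h') _ d' (hC2 d' h)

/-- the zero lemma for degree functions -/
theorem zero_dg (α : Type) [DecidableEq α] [Fintype α] :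
    ∃ w : List (α → α), (∀ τ ∈ w, ∀ k, τ (τ k) = k) ∧ ∀ d : α → ℕ,
      (∑ k, d k = 2 * Fintype.card α ∨ ∑ k, d k + 1 = 2 * Fintype.card α) →
      (∃ k, d k = 0) → DG (fun _ => False) w d := by
  classical
  obtain ⟨w, hw, h⟩ := word_ex α
  refine ⟨w, hw, fun d hs hz => ?_⟩
  obtain ⟨z, hz⟩ := hz
  have hn : 0 < Fintype.card α := Fintype.card_pos_iff.2 ⟨z⟩
  have hs1 : ∑ k, d k = ∑ k ∈ Finset.univ.erase z, d k + d z :=
    (Finset.sum_erase_add _ _ (Finset.mem_univ z)).symm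
  have hc1 : (Finset.univ.erase z : Finset α).card = Fintype.card α - 1 := by
    rw [Finset.card_erase_of_mem (Finset.mem_univ z), Finset.card_univ]
  -- a large degree
  obtain ⟨y, hy⟩ : ∃ y, 3 ≤ d y := by
    by_contra hcon
    push Not at hcon
    have : ∑ k ∈ Finset.univ.erase z, d k ≤ (Finset.univ.erase z : Finset α).card • 2 :=
      Finset.sum_le_card_nsmul _ d 2 fun k _ => by have := hcon k; omega
    rw [hc1, smul_eq_mul] at this
    rcases hs with hs | hs
    · omega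
    · omega
  have hHZ : ∀ a b, 3 ≤ a → b = 0 → Dd a b := fun a b h1 h2 => Or.inr (by omega)
  have hZH : ∀ a b, a = 0 → 3 ≤ b → Dd a b := fun a b h1 h2 => Or.inl (by omega)
  by_cases h2z : ∃ k l, k ≠ l ∧ d k = 0 ∧ d l = 0
  · exact h (fun a => a = 0) (fun b => 3 ≤ b) hZH d ⟨z, hz⟩ ⟨y, hy⟩ (Or.inl h2z)
  by_cases h2h : ∃ k l, k ≠ l ∧ 3 ≤ d k ∧ 3 ≤ d l
  · exact h (fun a => 3 ≤ a) (fun b => b = 0) hHZ d ⟨y, hy⟩ ⟨z, hz⟩ (Or.inl h2h)
  by_cases h1 : ∃ u, d u = 1
  · obtain ⟨u, hu⟩ := h1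
    refine h (fun a => 3 ≤ a) (fun b => b = 0) hHZ d ⟨y, hy⟩ ⟨z, hz⟩ (Or.inr ?_)
    have hyz : y ≠ z := by rintro rfl; omega
    have huz : u ≠ z := by rintro rfl; omega
    have huy : u ≠ y := by rintro rfl; omega
    have hsm : ∀ k, k ≠ y → d k ≤ 2 := by
      intro k hk
      by_contra hc
      exact h2h ⟨k, y, hk, by omega, hy⟩
    have hy' : y ∈ (Finset.univ.erase z : Finset α) := by simp [hyz]
    have hu' : u ∈ ((Finset.univ.erase z).erase y : Finset α) := by simp [huz, huy]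
    have hs2 : ∑ k ∈ Finset.univ.erase z, d k =
        ∑ k ∈ (Finset.univ.erase z).erase y, d k + d y := (Finset.sum_erase_add _ _ hy').symm
    have hs3 : ∑ k ∈ (Finset.univ.erase z).erase y, d k =
        ∑ k ∈ ((Finset.univ.erase z).erase y).erase u, d k + d u :=
      (Finset.sum_erase_add _ _ hu').symm
    have hc2 : ((Finset.univ.erase z).erase y : Finset α).card = Fintype.card α - 1 - 1 := by
      rw [Finset.card_erase_of_mem hy', hc1]
    have hc3 : (((Finset.univ.erase z).erase y).erase u : Finset α).card =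
        Fintype.card α - 1 - 1 - 1 := by
      rw [Finset.card_erase_of_mem hu', hc2]
    have hp : 0 < ((Finset.univ.erase z).erase y : Finset α).card :=
      Finset.card_pos.2 ⟨u, hu'⟩
    have hle : ∑ k ∈ ((Finset.univ.erase z).erase y).erase u, d k ≤
        (((Finset.univ.erase z).erase y).erase u : Finset α).card • 2 :=
      Finset.sum_le_card_nsmul _ d 2 fun k hk => hsm k (by
        simp only [Finset.mem_erase] at hk
        exact hk.2.1)
    rw [hc3, smul_eq_mul] at hle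
    have hy4 : 4 ≤ d y := by
      rcases hs with hs | hs
      · omega
      · omega
    intro k l hk
    by_cases hky : k = y
    · subst hky
      by_cases hlk : l = k
      · subst hlk; exact Or.inr (Or.inr rfl)
      · have := hsm l hlk
        exact Or.inr (Or.inl (by omega))
    · exact absurd ⟨k, y, hky, hk, hy⟩ h2h
  · refine h (fun a => a = 0) (fun b => 3 ≤ b) hZH d ⟨z, hz⟩ ⟨y, hy⟩ (Or.inr ?_)
    intro k l hk
    by_cases hl : d l = 0
    · exact Or.inr (Or.inr (by omega))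
    · have : d l ≠ 1 := fun h' => h1 ⟨l, h'⟩
      exact Or.inl (by omega)

end Main

section Bridge

variable {Δ : ℕ}

/-- extension of a letter by the identity -/
noncomputable def ext (Q : Finset (Fin Δ)) (τ : Q → Q) : Fin Δ → Fin Δ := fun k =>
  if h : k ∈ Q then (τ ⟨k, h⟩ : Fin Δ) else k

theorem ext_in (Q : Finset (Fin Δ)) (τ : Q → Q) (k : Q) : ext Q τ (k : Fin Δ) = τ k := by
  simp [ext]

theorem ext_out (Q : Finset (Fin Δ)) (τ : Q → Q) (k : Fin Δ) (h : k ∉ Q) : ext Q τ k = k := by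
  simp [ext, h]

theorem ext_inv (Q : Finset (Fin Δ)) (τ : Q → Q) (hτ : ∀ k, τ (τ k) = k) (k : Fin Δ) :
    ext Q τ (ext Q τ k) = k := by
  by_cases h : k ∈ Q
  · have h1 : ext Q τ k = τ ⟨k, h⟩ := ext_in Q τ ⟨k, h⟩
    rw [h1, ext_in, hτ]
  · rw [ext_out Q τ k h, ext_out Q τ k h]

variable {ι : Type}

theorem phi_perm (K : Finset ι) (M M' : ι → Finset (Fin Δ)) (σ : Fin Δ → Fin Δ)
    (hσ : ∀ k, σ (σ k) = k) (h : ∀ k, dgr K M' k = dgr K M (σ k)) : phi K M' = phi K M := by
  unfold phi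
  simp only [h]
  exact Equiv.sum_comp (⟨σ, σ, hσ, hσ⟩ : Fin Δ ≃ Fin Δ) (fun k => dgr K M k ^ 2)

/-- the potential stays below `c` under balanced play -/
theorem keep (hSUM : tSUM) (hBAL : tBAL) (K : Finset ι) (c : ℕ) :
    ∀ (w : List (Fin Δ → Fin Δ)) (M : ι → Finset (Fin Δ)), WInv w → Two K M →
      phi K M < c → Force K (fun M' => phi K M' < c) w M := by
  intro w
  induction w with
  | nil => intro M _ _ h; exact h
  | cons τ w ih =>
    intro M hw h2 hc
    have hτ : ∀ k, τ (τ k) = k := hw τ List.mem_cons_self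
    have hw' : WInv w := fun t ht => hw t (List.mem_cons_of_mem _ ht)
    obtain ⟨B, hB, h⟩ := hBAL ι Δ K τ M hτ h2
    refine ⟨B, hB, fun X hX => ih _ hw' (hSUM ι Δ K τ M X hτ h2).1 ?_⟩
    rcases h X hX with h3 | ⟨σ, hσ, h3⟩
    · exact lt_trans h3 hc
    · rw [phi_perm K M _ σ hσ.1 h3]; exact hc

/-- the bridge from the degree game -/
theorem bridge (hSUM : tSUM) (hSTE : tSTE) (hSTN : tSTN) (hFRZ : tFRZ) (hBAL : tBAL)
    (hLET : tLET) (Q : Finset (Fin Δ)) (K : Finset ι) (c : ℕ) :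
    ∀ (w : List (Q → Q)) (M : ι → Finset (Fin Δ)), (∀ τ ∈ w, ∀ k, τ (τ k) = k) → Two K M →
      phi K M ≤ c → DG (fun _ => False) w (fun k : Q => dgr K M k) →
      Force K (fun M' => phi K M' < c) (w.map (ext Q)) M := by
  intro w
  induction w with
  | nil => intro M _ _ _ h; exact h.elim
  | cons τ w ih =>
    intro M hw h2 hc hd
    have hτ : ∀ k, τ (τ k) = k := hw τ List.mem_cons_self
    have hw' : ∀ τ ∈ w, ∀ k, τ (τ k) = k := fun t ht => hw t (List.mem_cons_of_mem _ ht)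
    have hτe := ext_inv Q τ hτ
    have hwe : WInv (w.map (ext Q)) := by
      intro t ht k
      obtain ⟨t', ht', rfl⟩ := List.mem_map.1 ht
      exact ext_inv Q t' (hw' t' ht') k
    -- the general step
    have step : ∀ (R : (Fin Δ → Fin Δ) → Prop),
        Force K (fun M' => phi K M' < phi K M ∨ ∃ σ, Mv (ext Q τ) σ ∧
          (∀ k, dgr K M' k = dgr K M (σ k)) ∧ R σ) [ext Q τ] M →
        (∀ σ' : Q → Q, Mw τ σ' → (∀ σ, Mv (ext Q τ) σ → (∀ k : Q, σ k = (σ' k : Fin Δ)) →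
          R σ → DG (fun _ => False) w ((fun k : Q => dgr K M k) ∘ σ'))) →
        Force K (fun M' => phi K M' < c) (ext Q τ :: w.map (ext Q)) M := by
      intro R hF hR
      obtain ⟨B, hB, h⟩ := hF
      refine ⟨B, hB, fun X hX => ?_⟩
      have h2' := (hSUM ι Δ K (ext Q τ) M X hτe h2).1
      rcases h X hX with h3 | ⟨σ, hσ, h3, h4⟩
      · exact keep hSUM hBAL K c _ _ hwe h2' (lt_of_lt_of_le h3 hc)
      · have hQ : ∀ k : Q, σ k ∈ Q := by
          intro k
          rcases hσ.2 k with h5 | h5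
          · rw [h5]; exact k.2
          · rw [h5, ext_in]; exact (τ k).2
        have hmw : Mw τ (fun k : Q => (⟨σ k, hQ k⟩ : Q)) := by
          refine ⟨fun k => Subtype.ext (hσ.1 k), fun k => ?_⟩
          rcases hσ.2 k with h5 | h5
          · exact Or.inl (Subtype.ext h5)
          · exact Or.inr (Subtype.ext (h5.trans (ext_in Q τ k)))
        refine ih _ hw' h2' (by rw [phi_perm K M _ σ hσ.1 h3]; exact hc) ?_
        have := hR _ hmw σ hσ (fun k => rfl) h4
        refine (congrArg (DG (fun _ => False) w) ?_).mp this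
        funext k
        exact (h3 k).symm
    rw [List.map_cons]
    rcases hd with ⟨p, hp⟩ | ⟨p, q, h1, h3, h4, h5, h6⟩ | ⟨p, q, h1, h3, h6⟩ | ⟨p, h1, h6⟩ | h6
    · have hp' : dgr K M (p : Fin Δ) + 3 ≤ dgr K M (ext Q τ p) := by
        rw [ext_in]; exact hp
      obtain ⟨B, hB, h⟩ := hLET ι Δ K (ext Q τ) M p hτe h2 hp'
      exact ⟨B, hB, fun X hX => keep hSUM hBAL K c _ _ hwe
        (hSUM ι Δ K (ext Q τ) M X hτe h2).1 (lt_of_lt_of_le (h X hX) hc)⟩
    · refine step (fun σ => (σ p = p ↔ σ q = q)) (hSTE ι Δ K (ext Q τ) M p q hτe h2 ?_ ?_ ?_ ?_)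
        fun σ' hσ' σ _ he hR => h6 σ' hσ' ?_
      · exact fun h => h1 (Subtype.ext h)
      · rw [ext_in]; exact fun h => h3 (Subtype.ext h)
      · rw [ext_in]; exact fun h => h4 (Subtype.ext h)
      · rw [ext_in]; exact fun h => h5 (Subtype.ext h)
      · rw [he, he] at hR
        rw [Subtype.ext_iff, Subtype.ext_iff]; exact hR
    · refine step (fun σ => (σ p = p ∨ σ q = q)) (hSTN ι Δ K (ext Q τ) M p q hτe h2 ?_ ?_)
        fun σ' hσ' σ _ he hR => h6 σ' hσ' ?_
      · exact fun h => h1 (Subtype.ext h)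
      · rw [ext_in]; exact fun h => h3 (Subtype.ext h)
      · rw [he, he] at hR
        rw [Subtype.ext_iff, Subtype.ext_iff]; exact hR
    · refine step (fun σ => σ p = p) (hFRZ ι Δ K (ext Q τ) M p hτe h2 ?_)
        fun σ' hσ' σ _ he hR => h6 σ' hσ' ?_
      · rw [ext_in]
        exact h1
      · rw [he] at hR
        exact Subtype.ext hR
    · refine step (fun _ => True) ?_ fun σ' hσ' σ _ he hR => h6 σ' hσ'
      obtain ⟨B, hB, h⟩ := hBAL ι Δ K (ext Q τ) M hτe h2
      refine ⟨B, hB, fun X hX => ?_⟩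
      rcases h X hX with h3 | ⟨σ, hσ, h3⟩
      · exact Or.inl h3
      · exact Or.inr ⟨σ, hσ, h3, trivial⟩

end Bridge

/-- the zero lemma -/
theorem pf_tZER (hSUM : tSUM) (hSTE : tSTE) (hSTN : tSTN) (hFRZ : tFRZ) (hBAL : tBAL)
    (hLET : tLET) : tZER := by
  classical
  intro Δ Q
  obtain ⟨w, hw, h⟩ := zero_dg Q
  refine ⟨w.map (ext Q), ?_, ?_, ?_⟩
  · intro t ht k
    obtain ⟨t', ht', rfl⟩ := List.mem_map.1 ht
    exact ext_inv Q t' (hw t' ht') k
  · intro t ht k hk
    obtain ⟨t', ht', rfl⟩ := List.mem_map.1 ht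
    exact ext_out Q t' k hk
  · intro ι K M h2 hs hz
    refine bridge hSUM hSTE hSTN hFRZ hBAL hLET Q K (phi K M) w M hw h2 le_rfl (h _ ?_ ?_)
    · have h1 : ∑ k : Q, dgr K M k = ∑ k ∈ Q, dgr K M k := Finset.sum_coe_sort Q _
      rw [Fintype.card_coe]
      rcases hs with hs | hs
      · exact Or.inl (h1.trans hs)
      · exact Or.inr (by rw [h1]; exact hs)
    · obtain ⟨k, hk, h0⟩ := hz
      exact ⟨⟨k, hk⟩, h0⟩

end Pool.Agent.SGV.ZB
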